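import Mathlib

set_option autoImplicit false
open Set Filter Topology MeasureTheory
open scoped Real ENNReal

/-! Length-area estimate (Wolff lemma) for injective holomorphic maps. -/

namespace Pool.Agent.H96.M7

/-- The real determinant of multiplication by a complex number. -/
lemma det_smulRight (c : ℂ) :
    (((ContinuousLinearMap.toSpanSingleton ℂ c)).restrictScalars ℝ).det = ‖c‖ ^ 2 := by
  simp [ContinuousLinearMap.det, LinearMap.det_restrictScalars, Complex.sq_norm,
    Algebra.norm_complex_eq]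

/-- Area of the image of an injective holomorphic map. -/
lemma area_eq {f : ℂ → ℂ} {Om : Set ℂ} (ho : IsOpen Om) (hf : DifferentiableOn ℂ f Om)
    (hi : InjOn f Om) : volume (f '' Om) = ∫⁻ z in Om, ‖deriv f z‖ₑ ^ 2 := by
  have h := lintegral_abs_det_fderiv_eq_addHaar_image (volume : Measure ℂ) ho.measurableSet
    (f := f) (f' := fun z => (ContinuousLinearMap.toSpanSingleton ℂ (deriv f z)).restrictScalars ℝ)
    (fun z hz => by
      have h1 : HasDerivAt f (deriv f z) z := (hf.differentiableAt (ho.mem_nhds hz)).hasDerivAt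
      exact (h1.hasFDerivAt.restrictScalars ℝ).hasFDerivWithinAt) hi
  rw [← h]
  apply lintegral_congr
  intro z
  rw [det_smulRight, abs_of_nonneg (by positivity), ENNReal.ofReal_pow (norm_nonneg _),
    ofReal_norm]

/-- Density of the length element of `f (Om ∩ circle)` with respect to the angle. -/
noncomputable def dens (f : ℂ → ℂ) (Om : Set ℂ) (z : ℂ) : ℝ≥0∞ :=
  Om.indicator (fun z => ‖deriv f z‖ₑ) z

lemma measurable_dens (f : ℂ → ℂ) {Om : Set ℂ} (ho : IsOpen Om) : Measurable (dens f Om) :=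
  (measurable_deriv f).enorm.indicator ho.measurableSet

/-- Length of the image of the part in `Om` of the circle of radius `ρ` around `z0`. -/
noncomputable def len (f : ℂ → ℂ) (Om : Set ℂ) (z0 : ℂ) (ρ : ℝ) : ℝ≥0∞ :=
  ∫⁻ θ in Ioo (-π) π, ENNReal.ofReal ρ * dens f Om (circleMap z0 ρ θ)

lemma polar (F : ℂ → ℝ≥0∞) (hF : Measurable F) (z0 : ℂ) :
    ∫⁻ z, F z = ∫⁻ ρ in Ioi (0 : ℝ), ∫⁻ θ in Ioo (-π) π,
      ENNReal.ofReal ρ * F (circleMap z0 ρ θ) := by
  have h1 : ∫⁻ z, F z = ∫⁻ z, F (z0 + z) := (lintegral_add_left_eq_self F z0).symm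
  rw [h1, ← Complex.lintegral_comp_polarCoord_symm, polarCoord_target,
    Measure.volume_eq_prod, ← Measure.prod_restrict, lintegral_prod]
  · apply lintegral_congr
    intro ρ
    apply lintegral_congr
    intro θ
    rw [smul_eq_mul, Complex.polarCoord_symm_apply]
    congr 2
    rw [circleMap, Complex.exp_mul_I]
    push_cast
    ring
  · apply Measurable.aemeasurable
    apply (ENNReal.measurable_ofReal.comp measurable_fst).smul
    apply hF.comp
    apply Measurable.const_add
    have e : (fun p : ℝ × ℝ => (Complex.polarCoord.symm p : ℂ)) =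
        fun p : ℝ × ℝ => (p.1 : ℂ) * (Real.cos p.2 + Real.sin p.2 * Complex.I) := by
      funext p
      exact Complex.polarCoord_symm_apply p
    change Measurable (fun p : ℝ × ℝ => (Complex.polarCoord.symm p : ℂ))
    rw [e]
    fun_prop

lemma measurable_circleMap2 (z0 : ℂ) : Measurable (fun p : ℝ × ℝ => circleMap z0 p.1 p.2) := by
  unfold circleMap
  fun_prop

lemma measurable_len (f : ℂ → ℂ) {Om : Set ℂ} (ho : IsOpen Om) (z0 : ℂ) :
    Measurable (len f Om z0) := by
  unfold len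
  have h : Measurable (fun p : ℝ × ℝ => ENNReal.ofReal p.1 * dens f Om (circleMap z0 p.1 p.2)) :=
    (ENNReal.measurable_ofReal.comp measurable_fst).mul
      ((measurable_dens f ho).comp (measurable_circleMap2 z0))
  exact h.lintegral_prod_right'

/-- Cauchy-Schwarz on one circle. -/
lemma len_sq_le (f : ℂ → ℂ) {Om : Set ℂ} (ho : IsOpen Om) (z0 : ℂ) (ρ : ℝ) :
    len f Om z0 ρ ^ 2 ≤ ENNReal.ofReal (2 * π * ρ) *
      ∫⁻ θ in Ioo (-π) π, ENNReal.ofReal ρ * dens f Om (circleMap z0 ρ θ) ^ 2 := by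
  have hm : Measurable (fun θ : ℝ => dens f Om (circleMap z0 ρ θ)) :=
    (measurable_dens f ho).comp (measurable_circleMap2 z0 |>.comp (measurable_const.prodMk measurable_id))
  have h1 : len f Om z0 ρ = ENNReal.ofReal ρ * ∫⁻ θ in Ioo (-π) π, dens f Om (circleMap z0 ρ θ) := by
    unfold len
    rw [lintegral_const_mul _ hm]
  have h2 : ∫⁻ θ in Ioo (-π) π, ENNReal.ofReal ρ * dens f Om (circleMap z0 ρ θ) ^ 2 =
      ENNReal.ofReal ρ * ∫⁻ θ in Ioo (-π) π, dens f Om (circleMap z0 ρ θ) ^ 2 := by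
    rw [lintegral_const_mul _ (hm.pow_const 2)]
  have h3 := ENNReal.lintegral_mul_le_Lp_mul_Lq (volume.restrict (Ioo (-π) π))
    (Real.HolderConjugate.two_two) (f := fun θ => dens f Om (circleMap z0 ρ θ))
    (g := fun _ => (1 : ℝ≥0∞)) hm.aemeasurable aemeasurable_const
  simp only [Pi.mul_apply, mul_one, ENNReal.one_rpow, lintegral_const, one_mul,
    Measure.restrict_apply MeasurableSet.univ, univ_inter, Real.volume_Ioo] at h3
  have h4 : (∫⁻ θ in Ioo (-π) π, dens f Om (circleMap z0 ρ θ)) ^ 2 ≤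
      (∫⁻ θ in Ioo (-π) π, dens f Om (circleMap z0 ρ θ) ^ 2) * ENNReal.ofReal (2 * π) := by
    have h5 := pow_le_pow_left' h3 2
    refine h5.trans (le_of_eq ?_)
    rw [mul_pow]
    congr 1
    · rw [← ENNReal.rpow_natCast, ← ENNReal.rpow_mul]
      norm_num
    · rw [← ENNReal.rpow_natCast, ← ENNReal.rpow_mul]
      have e : π - -π = 2 * π := by ring
      rw [e]
      norm_num
  rw [h1, h2, mul_pow]
  calc ENNReal.ofReal ρ ^ 2 * (∫⁻ θ in Ioo (-π) π, dens f Om (circleMap z0 ρ θ)) ^ 2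
      ≤ ENNReal.ofReal ρ ^ 2 * ((∫⁻ θ in Ioo (-π) π, dens f Om (circleMap z0 ρ θ) ^ 2) *
        ENNReal.ofReal (2 * π)) := by gcongr
    _ = _ := by
      rw [ENNReal.ofReal_mul (by positivity : (0:ℝ) ≤ 2 * π)]
      ring

/-- **Length-area inequality.** -/
theorem length_area {f : ℂ → ℂ} {Om : Set ℂ} (ho : IsOpen Om) (hf : DifferentiableOn ℂ f Om)
    (hi : InjOn f Om) (z0 : ℂ) :
    ∫⁻ ρ in Ioi (0 : ℝ), len f Om z0 ρ ^ 2 / ENNReal.ofReal (2 * π * ρ) ≤ volume (f '' Om) := by
  rw [area_eq ho hf hi, ← lintegral_indicator ho.measurableSet, polar _ _ z0]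
  · apply setLIntegral_mono_ae'  measurableSet_Ioi
    filter_upwards with ρ hρ
    replace hρ : (0 : ℝ) < ρ := hρ
    have h := len_sq_le f ho z0 ρ
    rw [ENNReal.div_le_iff_le_mul]
    · rw [mul_comm]
      refine h.trans (le_of_eq ?_)
      congr 1
      apply lintegral_congr
      intro θ
      congr 1
      unfold dens indicator
      split_ifs <;> simp
    · left
      rw [Ne, ENNReal.ofReal_eq_zero, not_le]
      positivity
    · left
      exact ENNReal.ofReal_ne_top
  · exact ((measurable_deriv f).enorm.pow_const 2).indicator ho.measurableSet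

lemma lintegral_inv_Ioo {r R : ℝ} (hr : 0 < r) (hrR : r < R) :
    ∫⁻ ρ in Ioo r R, ENNReal.ofReal (1 / ρ) = ENNReal.ofReal (Real.log (R / r)) := by
  rw [← ofReal_integral_eq_lintegral_ofReal]
  · rw [← integral_one_div_of_pos hr (hr.trans hrR), intervalIntegral.integral_of_le hrR.le,
      integral_Ioc_eq_integral_Ioo]
  · apply IntegrableOn.mono_set (t := Icc r R) _ Ioo_subset_Icc_self
    apply ContinuousOn.integrableOn_Icc
    apply continuousOn_const.div continuousOn_id
    intro x hx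
    exact (hr.trans_le hx.1).ne'
  · filter_upwards [ae_restrict_mem measurableSet_Ioo] with x hx
    have : 0 < x := hr.trans hx.1
    positivity

/-- **Wolff lemma**: there is a circle whose part in `Om` has a short image. -/
theorem exists_short {f : ℂ → ℂ} {Om : Set ℂ} (ho : IsOpen Om) (hf : DifferentiableOn ℂ f Om)
    (hi : InjOn f Om) {A : ℝ} (hA0 : 0 < A) (hA : volume (f '' Om) ≤ ENNReal.ofReal A) (z0 : ℂ)
    {r R : ℝ} (hr : 0 < r) (hrR : r < R) :
    ∃ ρ ∈ Ioo r R, len f Om z0 ρ ^ 2 ≤ ENNReal.ofReal (4 * π * A / Real.log (R / r)) := by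
  by_contra! hcon
  have hlog : 0 < Real.log (R / r) := Real.log_pos ((one_lt_div hr).2 hrR)
  have h1 := length_area ho hf hi z0
  have h2 : ∫⁻ ρ in Ioo r R, ENNReal.ofReal (2 * A / Real.log (R / r)) * ENNReal.ofReal (1 / ρ) ≤
      ∫⁻ ρ in Ioi (0 : ℝ), len f Om z0 ρ ^ 2 / ENNReal.ofReal (2 * π * ρ) := by
    refine le_trans ?_ (lintegral_mono_set (s := Ioo r R) ?_)
    · apply setLIntegral_mono_ae' measurableSet_Ioo
      filter_upwards with ρ hρ
      have hρ0 : 0 < ρ := hr.trans hρ.1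
      rw [ENNReal.le_div_iff_mul_le, ← ENNReal.ofReal_mul (by positivity),
        ← ENNReal.ofReal_mul (by positivity)]
      · refine le_trans (le_of_eq ?_) (hcon ρ hρ).le
        congr 1
        field_simp
        ring
      · left
        rw [Ne, ENNReal.ofReal_eq_zero, not_le]
        positivity
      · left
        exact ENNReal.ofReal_ne_top
    · intro x hx
      exact hr.trans hx.1
  rw [lintegral_const_mul _ (by fun_prop), lintegral_inv_Ioo hr hrR,
    ← ENNReal.ofReal_mul (by positivity), div_mul_cancel₀ _ hlog.ne'] at h2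
  have h3 := (h2.trans h1).trans hA
  rw [ENNReal.ofReal_le_ofReal_iff hA0.le] at h3
  linarith

/-- The length integral over an interval of length at most `2π` is at most the total length. -/
lemma lintegral_le_len (f : ℂ → ℂ) {Om : Set ℂ} (z0 : ℂ) (ρ : ℝ) {a b : ℝ}
    (hab : b ≤ a + 2 * π) :
    ∫⁻ θ in Ioc a b, ENNReal.ofReal ρ * dens f Om (circleMap z0 ρ θ) ≤ len f Om z0 ρ := by
  have h1 : ∫⁻ θ in Ioc a b, ENNReal.ofReal ρ * dens f Om (circleMap z0 ρ θ) ≤
      ∫⁻ θ in Ioc a (a + 2 * π), ENNReal.ofReal ρ * dens f Om (circleMap z0 ρ θ) :=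
    lintegral_mono_set (Ioc_subset_Ioc_right hab)
  have h2 := (isAddFundamentalDomain_Ioc Real.two_pi_pos a).setLIntegral_eq
    (isAddFundamentalDomain_Ioc Real.two_pi_pos (-π))
    (fun θ => ENNReal.ofReal ρ * dens f Om (circleMap z0 ρ θ)) (by
      rintro ⟨g, hg⟩ x
      obtain ⟨n, rfl⟩ := AddSubgroup.mem_zmultiples_iff.1 hg
      have : circleMap z0 ρ ((⟨n • (2 * π), hg⟩ : AddSubgroup.zmultiples (2 * π)) +ᵥ x) =
          circleMap z0 ρ x := by
        change circleMap z0 ρ (n • (2 * π) + x) = circleMap z0 ρ x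
        rw [add_comm]
        exact (periodic_circleMap z0 ρ).zsmul n x
      rw [this])
  rw [h2] at h1
  refine h1.trans (le_of_eq ?_)
  have e : -π + 2 * π = π := by ring
  unfold len
  rw [e]
  exact setLIntegral_congr Ioo_ae_eq_Ioc.symm

/-- The image of an arc of the circle contained in `Om` is at most as long as `len`. -/
theorem edist_arc {f : ℂ → ℂ} {Om : Set ℂ} (ho : IsOpen Om) (hf : DifferentiableOn ℂ f Om)
    (z0 : ℂ) {ρ : ℝ} (hρ : 0 ≤ ρ) {a b : ℝ} (hab : a ≤ b) (hab2 : b ≤ a + 2 * π)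
    (hin : ∀ θ ∈ Icc a b, circleMap z0 ρ θ ∈ Om) :
    ‖f (circleMap z0 ρ b) - f (circleMap z0 ρ a)‖ₑ ≤ len f Om z0 ρ := by
  have hc : ContDiffOn ℝ 1 (fun θ => f (circleMap z0 ρ θ)) (Icc a b) := by
    have h1 : ContDiffOn ℂ 1 f Om := hf.contDiffOn ho
    have h2 : ContDiffOn ℝ 1 f Om := h1.restrict_scalars ℝ
    exact h2.comp (contDiff_circleMap z0 ρ).contDiffOn hin
  refine (enorm_sub_le_lintegral_deriv_of_contDiffOn_Icc hc hab).trans ?_
  refine le_trans (le_of_eq ?_) (lintegral_le_len f (Om := Om) z0 ρ hab2)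
  rw [setLIntegral_congr Ioc_ae_eq_Icc.symm]
  apply setLIntegral_congr_fun measurableSet_Ioc
  intro θ hθ
  have hθ' := hin θ (Ioc_subset_Icc_self hθ)
  have h1 : HasDerivAt f (deriv f (circleMap z0 ρ θ)) (circleMap z0 ρ θ) :=
    (hf.differentiableAt (ho.mem_nhds hθ')).hasDerivAt
  have h2 := h1.comp_of_eq θ (hasDerivAt_circleMap z0 ρ θ) rfl
  have h3 : deriv (fun θ => f (circleMap z0 ρ θ)) θ =
      deriv f (circleMap z0 ρ θ) * (circleMap 0 ρ θ * Complex.I) := h2.deriv
  simp only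
  rw [h3, dens, indicator_of_mem hθ', enorm_mul, enorm_mul]
  have h4 : ‖circleMap 0 ρ θ‖ₑ = ENNReal.ofReal ρ := by
    rw [← ofReal_norm, norm_circleMap_zero, abs_of_nonneg hρ]
  rw [h4]
  simp [← ofReal_norm, mul_comm]

end Pool.Agent.H96.M7
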