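import Mathlib
import Pool.Agent.H96.M7.LengthArea

set_option autoImplicit false
open Set Filter Topology MeasureTheory
open scoped Real ENNReal

/-! Consequences of the length-area estimate for conformal maps onto the upper half plane:
small connected sets have small images (no plane topology needed). -/

namespace Pool.Agent.H96.M7

/-- An injective holomorphic map on an open connected set is open. -/
lemma open_of_injOn {g : ℂ → ℂ} {U : Set ℂ} (hUo : IsOpen U) (hUc : IsPreconnected U)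
    (hg : DifferentiableOn ℂ g U) (hi : InjOn g U) :
    ∀ s ⊆ U, IsOpen s → IsOpen (g '' s) := by
  rcases (hg.analyticOnNhd hUo).is_constant_or_isOpen hUc with ⟨w, hw⟩ | h
  · intro s hs hso
    rcases s.eq_empty_or_nonempty with rfl | ⟨z, hz⟩
    · simp
    · exfalso
      obtain ⟨ε, hε, hball⟩ := Metric.isOpen_iff.1 hso z hz
      have h1 : z + (ε / 2 : ℝ) ∈ s := by
        apply hball
        rw [Metric.mem_ball, dist_eq_norm, add_sub_cancel_left, Complex.norm_real,
          Real.norm_eq_abs, abs_of_pos (by positivity)]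
        linarith
      have h2 := hi (hs hz) (hs h1) ((hw _ (hs hz)).trans (hw _ (hs h1)).symm)
      have h3 : ((ε / 2 : ℝ) : ℂ) = 0 := by
        have := h2.symm
        simpa using this
      rw [Complex.ofReal_eq_zero] at h3
      linarith
  · exact h

/-- The inverse of an injective holomorphic map is continuous. -/
lemma continuousOn_inv {g : ℂ → ℂ} {U : Set ℂ} (hUo : IsOpen U) (hUc : IsPreconnected U)
    (hg : DifferentiableOn ℂ g U) (hi : InjOn g U) :
    ContinuousOn (Function.invFunOn g U) (g '' U) := by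
  have hopen := open_of_injOn hUo hUc hg hi
  rintro w ⟨z, hz, rfl⟩
  have hinv : Function.invFunOn g U (g z) = z :=
    hi.leftInvOn_invFunOn hz
  rw [ContinuousWithinAt, hinv]
  intro s hs
  obtain ⟨t, ht, hto, hzt⟩ := mem_nhds_iff.1 (Filter.inter_mem hs (hUo.mem_nhds hz))
  rw [Filter.mem_map]
  apply mem_nhdsWithin_of_mem_nhds
  refine Filter.mem_of_superset ((hopen t (fun x hx => (ht hx).2) hto).mem_nhds ⟨z, hzt, rfl⟩) ?_
  rintro _ ⟨x, hx, rfl⟩
  rw [mem_preimage, hi.leftInvOn_invFunOn (ht hx).2]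
  exact (ht hx).1

/-- The real projections (in a direction) of the image of the circle have small measure. -/
lemma volume_proj_le {g : ℂ → ℂ} {U : Set ℂ} (hUo : IsOpen U) (hg : DifferentiableOn ℂ g U)
    (z0 : ℂ) {ρ : ℝ} (hρ : 0 < ρ) (L : ℂ →L[ℝ] ℝ) (hL : ∀ w, |L w| ≤ ‖w‖) :
    volume ((fun z => L (g z)) '' (U ∩ Metric.sphere z0 ρ)) ≤ len g U z0 ρ := by
  set Θ : Set ℝ := Ioo (-π) π ∩ (circleMap z0 ρ) ⁻¹' U with hΘ
  set h : ℝ → ℝ := fun θ => L (g (circleMap z0 ρ θ)) with hh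
  have hΘm : MeasurableSet Θ :=
    measurableSet_Ioo.inter (hUo.preimage (continuous_circleMap z0 ρ)).measurableSet
  have hsub : (fun z => L (g z)) '' (U ∩ Metric.sphere z0 ρ) ⊆
      h '' Θ ∪ {L (g (circleMap z0 ρ π))} := by
    rintro _ ⟨z, ⟨hzU, hzs⟩, rfl⟩
    have h1 : z ∈ circleMap z0 ρ '' Ioc (-π) π := by
      have h2 : z ∈ circleMap z0 ρ '' Ioc (-π) (-π + 2 * π) := by
        have h3 := (periodic_circleMap z0 ρ).image_Ioc Real.two_pi_pos (-π)
        rw [h3, range_circleMap, abs_of_pos hρ]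
        exact hzs
      have e : -π + 2 * π = π := by ring
      rwa [e] at h2
    obtain ⟨θ, hθ, rfl⟩ := h1
    rcases hθ.2.eq_or_lt with h4 | h4
    · right
      rw [h4]
      rfl
    · left
      exact ⟨θ, ⟨⟨hθ.1, h4⟩, hzU⟩, rfl⟩
  have hder : ∀ θ ∈ Θ, HasDerivAt h
      (L (deriv g (circleMap z0 ρ θ) * (circleMap 0 ρ θ * Complex.I))) θ := by
    intro θ hθ
    have h1 : HasDerivAt g (deriv g (circleMap z0 ρ θ)) (circleMap z0 ρ θ) :=
      (hg.differentiableAt (hUo.mem_nhds hθ.2)).hasDerivAt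
    have h2 := h1.comp_of_eq θ (hasDerivAt_circleMap z0 ρ θ) rfl
    exact L.hasFDerivAt.comp_hasDerivAt θ h2
  have hvol : volume (h '' Θ) ≤ ∫⁻ θ in Θ, ENNReal.ofReal
      |L (deriv g (circleMap z0 ρ θ) * (circleMap 0 ρ θ * Complex.I))| := by
    have h1 := addHaar_image_le_lintegral_abs_det_fderiv (volume : Measure ℝ) hΘm (f := h)
      (f' := fun θ => ContinuousLinearMap.toSpanSingleton ℝ
        (L (deriv g (circleMap z0 ρ θ) * (circleMap 0 ρ θ * Complex.I))))
      (fun θ hθ => (hder θ hθ).hasFDerivAt.hasFDerivWithinAt)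
    refine h1.trans (le_of_eq ?_)
    apply lintegral_congr
    intro θ
    congr 2
    simp
  have hle : ∫⁻ θ in Θ, ENNReal.ofReal
      |L (deriv g (circleMap z0 ρ θ) * (circleMap 0 ρ θ * Complex.I))| ≤ len g U z0 ρ := by
    unfold len
    refine le_trans ?_ (lintegral_mono_set (inter_subset_left : Θ ⊆ Ioo (-π) π))
    apply setLIntegral_mono_ae' hΘm
    filter_upwards with θ hθ
    have hθU : circleMap z0 ρ θ ∈ U := hθ.2
    rw [dens, indicator_of_mem hθU, ← ofReal_norm, ← ENNReal.ofReal_mul hρ.le]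
    apply ENNReal.ofReal_le_ofReal
    refine (hL _).trans (le_of_eq ?_)
    rw [norm_mul, norm_mul, norm_circleMap_zero, Complex.norm_I, abs_of_pos hρ]
    ring
  calc volume ((fun z => L (g z)) '' (U ∩ Metric.sphere z0 ρ))
      ≤ volume (h '' Θ ∪ {L (g (circleMap z0 ρ π))}) := measure_mono hsub
    _ ≤ volume (h '' Θ) + volume {L (g (circleMap z0 ρ π))} := measure_union_le _ _
    _ = volume (h '' Θ) := by rw [Real.volume_singleton, add_zero]
    _ ≤ len g U z0 ρ := hvol.trans hle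

/-- A ray in the image which starts inside the disc meets the image of the circle. -/
lemma ray_meets {g : ℂ → ℂ} {U : Set ℂ} (hUo : IsOpen U) (hUc : IsPreconnected U)
    (hg : DifferentiableOn ℂ g U) (hi : InjOn g U) (him : g '' U = {w | 0 < w.im})
    {p : ℂ} {ρ M : ℝ} (hM : ∀ z ∈ U, z ∈ Metric.closedBall p ρ → ‖g z‖ ≤ M)
    {z v : ℂ} (hz : z ∈ U) (hzb : z ∈ Metric.ball p ρ) (hv : 0 ≤ v.im) (hv1 : ‖v‖ = 1) :
    ∃ t : ℝ, ∃ x ∈ U ∩ Metric.sphere p ρ, g x = g z + t * v := by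
  have hfc := continuousOn_inv hUo hUc hg hi
  set f := Function.invFunOn g U with hf
  have hin : ∀ t : ℝ, 0 ≤ t → g z + t * v ∈ g '' U := by
    intro t ht
    rw [him]
    have h1 : 0 < (g z).im := by
      have : g z ∈ g '' U := ⟨z, hz, rfl⟩
      rw [him] at this
      exact this
    simp only [mem_ofPred_eq, Complex.add_im, Complex.mul_im, Complex.ofReal_re, Complex.ofReal_im,
      zero_mul, add_zero]
    positivity
  have hfU : ∀ t : ℝ, 0 ≤ t → f (g z + t * v) ∈ U ∧ g (f (g z + t * v)) = g z + t * v :=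
    fun t ht => ⟨Function.invFunOn_mem (hin t ht), Function.invFunOn_eq (hin t ht)⟩
  set T : ℝ := M + ‖g z‖ + 1 with hT
  have hM0 : ‖g z‖ ≤ M := hM z hz (Metric.ball_subset_closedBall hzb)
  have hT0 : 0 ≤ T := by
    have := norm_nonneg (g z)
    linarith
  have hcont : ContinuousOn (fun t : ℝ => dist (f (g z + t * v)) p) (Icc 0 T) := by
    have hd : Continuous (fun x : ℂ => dist x p) := by fun_prop
    apply hd.comp_continuousOn
    apply hfc.comp (by fun_prop)
    intro t ht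
    exact hin t ht.1
  have h0 : dist (f (g z + (0 : ℝ) * v)) p < ρ := by
    have : f (g z) = z := hi.leftInvOn_invFunOn hz
    rw [Complex.ofReal_zero, zero_mul, add_zero, this]
    exact hzb
  have h1 : ρ < dist (f (g z + (T : ℝ) * v)) p := by
    by_contra hcon
    rw [not_lt] at hcon
    have h2 := hM _ (hfU T hT0).1 (Metric.mem_closedBall.2 hcon)
    rw [(hfU T hT0).2] at h2
    have h3 : T ≤ ‖g z + T * v‖ + ‖g z‖ := by
      have h4 : ‖((T : ℂ)) * v‖ ≤ ‖g z + T * v‖ + ‖g z‖ := by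
        have : (T : ℂ) * v = (g z + T * v) - g z := by ring
        calc ‖((T : ℂ)) * v‖ = ‖(g z + T * v) - g z‖ := by rw [← this]
          _ ≤ _ := norm_sub_le _ _
      rwa [norm_mul, hv1, mul_one, Complex.norm_real, Real.norm_eq_abs, abs_of_nonneg hT0] at h4
    linarith
  obtain ⟨t, ht, hte⟩ := intermediate_value_Icc hT0 hcont ⟨h0.le, h1.le⟩
  exact ⟨t, f (g z + t * v), ⟨(hfU t ht.1).1, hte⟩, (hfU t ht.1).2⟩

/-- **Small sets have small images**, one coordinate. -/
lemma extent_aux {g : ℂ → ℂ} {U : Set ℂ} (hUo : IsOpen U) (hUc : IsPreconnected U)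
    (hg : DifferentiableOn ℂ g U) (hi : InjOn g U) (him : g '' U = {w | 0 < w.im})
    {p : ℂ} {ρ M ℓ : ℝ} (hρ : 0 < ρ) (hM : ∀ z ∈ U, z ∈ Metric.closedBall p ρ → ‖g z‖ ≤ M)
    {P : Set ℂ} (hPc : IsPreconnected P) (hPU : P ⊆ U) (hPb : P ⊆ Metric.ball p ρ)
    (hℓ0 : 0 ≤ ℓ) (hℓ : len g U p ρ ≤ ENNReal.ofReal ℓ) (L : ℂ →L[ℝ] ℝ) (hL : ∀ w, |L w| ≤ ‖w‖)
    {v : ℂ} (hv : 0 ≤ v.im) (hv1 : ‖v‖ = 1) (hLv : L v = 0) {z1 z2 : ℂ} (h1 : z1 ∈ P)
    (h2 : z2 ∈ P) : L (g z2) - L (g z1) ≤ ℓ := by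
  have hsub : Icc (L (g z1)) (L (g z2)) ⊆ (fun z => L (g z)) '' (U ∩ Metric.sphere p ρ) := by
    intro x hx
    obtain ⟨z, hz, hzx⟩ := hPc.intermediate_value h1 h2
      (f := fun z => L (g z)) (L.continuous.comp_continuousOn (hg.continuousOn.mono hPU)) hx
    obtain ⟨t, y, hy, hgy⟩ := ray_meets hUo hUc hg hi him hM (hPU hz) (hPb hz) hv hv1
    refine ⟨y, hy, ?_⟩
    simp only at hzx ⊢
    rw [hgy, map_add]
    have : L ((t : ℂ) * v) = t * L v := by
      have := L.map_smul t v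
      simpa using this
    rw [this, hLv, mul_zero, add_zero, hzx]
  have h3 : volume (Icc (L (g z1)) (L (g z2))) ≤ ENNReal.ofReal ℓ :=
    (measure_mono hsub).trans ((volume_proj_le hUo hg p hρ L hL).trans hℓ)
  rw [Real.volume_Icc, ENNReal.ofReal_le_ofReal_iff hℓ0] at h3
  exact h3

/-- **Small sets have small images**: real and imaginary parts. -/
theorem extent {g : ℂ → ℂ} {U : Set ℂ} (hUo : IsOpen U) (hUc : IsPreconnected U)
    (hg : DifferentiableOn ℂ g U) (hi : InjOn g U) (him : g '' U = {w | 0 < w.im})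
    {p : ℂ} {ρ M ℓ : ℝ} (hρ : 0 < ρ) (hM : ∀ z ∈ U, z ∈ Metric.closedBall p ρ → ‖g z‖ ≤ M)
    {P : Set ℂ} (hPc : IsPreconnected P) (hPU : P ⊆ U) (hPb : P ⊆ Metric.ball p ρ)
    (hℓ0 : 0 ≤ ℓ) (hℓ : len g U p ρ ≤ ENNReal.ofReal ℓ) {z1 z2 : ℂ} (h1 : z1 ∈ P) (h2 : z2 ∈ P) :
    |(g z2).re - (g z1).re| ≤ ℓ ∧ |(g z2).im - (g z1).im| ≤ ℓ := by
  have hre : ∀ z1 ∈ P, ∀ z2 ∈ P, (g z2).re - (g z1).re ≤ ℓ := fun z1 h1 z2 h2 =>
    extent_aux hUo hUc hg hi him hρ hM hPc hPU hPb hℓ0 hℓ Complex.reCLM Complex.abs_re_le_norm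
      (v := Complex.I) (by simp) (by simp) (by simp) h1 h2
  have himm : ∀ z1 ∈ P, ∀ z2 ∈ P, (g z2).im - (g z1).im ≤ ℓ := fun z1 h1 z2 h2 =>
    extent_aux hUo hUc hg hi him hρ hM hPc hPU hPb hℓ0 hℓ Complex.imCLM Complex.abs_im_le_norm
      (v := 1) (by simp) (by simp) (by simp) h1 h2
  constructor
  · rw [abs_le]
    exact ⟨by linarith [hre z2 h2 z1 h1], hre z1 h1 z2 h2⟩
  · rw [abs_le]
    exact ⟨by linarith [himm z2 h2 z1 h1], himm z1 h1 z2 h2⟩

/-- **Small sets have small images**, with the modulus of the length-area estimate: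
if `|g| ≤ M` on `U ∩ closedBall p R`, then every connected subset of `U ∩ ball p r` has an image
whose real and imaginary extents are at most `2 π M / √(log (R/r))`. -/
theorem extent_log {g : ℂ → ℂ} {U : Set ℂ} (hUo : IsOpen U) (hUc : IsPreconnected U)
    (hg : DifferentiableOn ℂ g U) (hi : InjOn g U) (him : g '' U = {w | 0 < w.im})
    {p : ℂ} {r R M : ℝ} (hr : 0 < r) (hrR : r < R) (hM0 : 0 < M)
    (hM : ∀ z ∈ U, z ∈ Metric.closedBall p R → ‖g z‖ ≤ M)
    {P : Set ℂ} (hPc : IsPreconnected P) (hPU : P ⊆ U) (hPb : P ⊆ Metric.closedBall p r)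
    {z1 z2 : ℂ} (h1 : z1 ∈ P) (h2 : z2 ∈ P) :
    |(g z2).re - (g z1).re| ≤ 2 * π * M / √(Real.log (R / r)) ∧
      |(g z2).im - (g z1).im| ≤ 2 * π * M / √(Real.log (R / r)) := by
  have hlog : 0 < Real.log (R / r) := Real.log_pos ((one_lt_div hr).2 hrR)
  set Om : Set ℂ := U ∩ Metric.ball p R with hOm
  have hOmo : IsOpen Om := hUo.inter Metric.isOpen_ball
  have harea : volume (g '' Om) ≤ ENNReal.ofReal (π * M ^ 2) := by
    calc volume (g '' Om) ≤ volume (Metric.closedBall (0 : ℂ) M) := by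
          apply measure_mono
          rintro _ ⟨z, hz, rfl⟩
          rw [mem_closedBall_zero_iff]
          exact hM z hz.1 (Metric.ball_subset_closedBall hz.2)
      _ = ENNReal.ofReal (π * M ^ 2) := by
          rw [Complex.volume_closedBall, ENNReal.ofReal_mul Real.pi_nonneg,
            ENNReal.ofReal_pow hM0.le, mul_comm]
          congr 1
          rw [← NNReal.coe_real_pi, ENNReal.ofReal_coe_nnreal]
  obtain ⟨ρ, hρ, hlen⟩ := exists_short hOmo (hg.mono inter_subset_left)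
    (hi.mono inter_subset_left) (by positivity : 0 < π * M ^ 2) harea p hr hrR
  have hρ0 : 0 < ρ := hr.trans hρ.1
  have hlen2 : len g U p ρ = len g Om p ρ := by
    unfold len
    apply lintegral_congr
    intro θ
    congr 1
    unfold dens
    have hmem : circleMap p ρ θ ∈ Metric.ball p R := by
      rw [Metric.mem_ball, dist_eq_norm, circleMap_sub_center, norm_circleMap_zero,
        abs_of_pos hρ0]
      exact hρ.2
    by_cases hU : circleMap p ρ θ ∈ U
    · rw [indicator_of_mem hU, indicator_of_mem (show circleMap p ρ θ ∈ Om from ⟨hU, hmem⟩)]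
    · rw [indicator_of_notMem hU, indicator_of_notMem (fun h => hU h.1)]
  have hℓ : len g U p ρ ≤ ENNReal.ofReal (2 * π * M / √(Real.log (R / r))) := by
    rw [hlen2]
    have h3 : ENNReal.ofReal (4 * π * (π * M ^ 2) / Real.log (R / r)) =
        ENNReal.ofReal (2 * π * M / √(Real.log (R / r))) ^ 2 := by
      rw [← ENNReal.ofReal_pow (by positivity)]
      congr 1
      rw [div_pow, Real.sq_sqrt hlog.le]
      ring
    rw [h3] at hlen
    exact (ENNReal.pow_le_pow_left_iff (by norm_num)).1 hlen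
  exact extent hUo hUc hg hi him hρ0
    (fun z hz hzb => hM z hz (Metric.closedBall_subset_closedBall hρ.2.le hzb)) hPc hPU
    (hPb.trans (Metric.closedBall_subset_ball hρ.1)) (by positivity) hℓ h1 h2

end Pool.Agent.H96.M7
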