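import Mathlib
import Pool.Agent.H83.Lo.Hyd

set_option autoImplicit false
open Set Filter Topology Bornology
open Pool.Agent.H83.Lo (Hyd UH)

/-! Points high above a hull of small capacity do not belong to the hull. -/

namespace Pool.Agent.H96.M7

/-- Height bound: a point whose squared height exceeds `12` times the capacity lies in the domain,
and its image keeps half of the height. -/
theorem Hyd_height {V : Set ℂ} {G : ℂ → ℂ} {a : ℝ} (h : Hyd V G a) {w : ℂ} (hw0 : 0 < w.im)
    (hw : 12 * a < w.im ^ 2) : w ∈ V ∧ w.im / 2 ≤ (G w).im := by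
  obtain ⟨T, hT⟩ := h.exists_inv
  have ha := h.nonneg
  set y : ℝ := w.im with hy
  have hball : ∀ ξ ∈ Metric.closedBall w (y / 2), y / 2 ≤ ξ.im := by
    intro ξ hξ
    rw [Metric.mem_closedBall, dist_eq_norm] at hξ
    have e1 := Complex.abs_im_le_norm (ξ - w)
    rw [Complex.sub_im] at e1
    have e2 := (abs_le.1 (e1.trans hξ)).1
    linarith
  have hdisp : ∀ ξ ∈ Metric.closedBall w (y / 2), ‖T ξ - ξ‖ ≤ 2 * a / y := by
    intro ξ hξ
    have h1 := hball ξ hξ
    have h2 : 0 < ξ.im := by linarith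
    refine (Hyd.Inv.norm_sub_le h hT h2).trans ?_
    calc a / ξ.im ≤ a / (y / 2) := by gcongr
      _ = 2 * a / y := by field_simp
  have hsub : Metric.closedBall w (y / 2) ⊆ UH := fun ξ hξ =>
    lt_of_lt_of_le (by positivity) (hball ξ hξ)
  have hdc : DiffContOnCl ℂ T (Metric.ball w (y / 2)) := by
    apply DifferentiableOn.diffContOnCl
    rw [closure_ball w (by positivity : y / 2 ≠ 0)]
    exact hT.diff.mono hsub
  have hwc : w ∈ Metric.closedBall w (y / 2) := Metric.mem_closedBall_self (by positivity)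
  have e6 : 2 * a / y < y / 6 := by
    rw [div_lt_div_iff₀ hw0 (by norm_num)]
    nlinarith
  have h3 : Metric.ball (T w) (y / 6 / 2) ⊆ T '' Metric.closedBall w (y / 2) := by
    apply hdc.ball_subset_image_closedBall (by positivity)
    · intro ξ hξ
      have h1 := hdisp ξ (Metric.sphere_subset_closedBall hξ)
      have h2 := hdisp w hwc
      rw [mem_sphere_iff_norm] at hξ
      have h4 : ‖ξ - w‖ ≤ ‖T ξ - T w‖ + ‖T ξ - ξ‖ + ‖T w - w‖ := by
        calc ‖ξ - w‖ = ‖(T ξ - T w) - (T ξ - ξ) + (T w - w)‖ := by ring_nf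
          _ ≤ _ := (norm_add_le _ _).trans (add_le_add (norm_sub_le _ _) le_rfl)
      linarith
    · have h4 : ∃ᶠ ξ in 𝓝[≠] w, ξ ∈ UH ∧ ξ ≠ w := by
        apply Eventually.frequently
        filter_upwards [self_mem_nhdsWithin, mem_nhdsWithin_of_mem_nhds
          ((isOpen_lt continuous_const Complex.continuous_im).mem_nhds hw0)] with ξ h1 h2
        exact ⟨h2, h1⟩
      refine (h4.filter_mono nhdsWithin_le_nhds).mono ?_
      rintro ξ ⟨h1, h2⟩ he
      apply h2
      rw [← hT.right ξ h1, he, hT.right w hw0]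
  have h5 : w ∈ Metric.ball (T w) (y / 6 / 2) := by
    rw [Metric.mem_ball, dist_comm, dist_eq_norm]
    have h6 := Hyd.Inv.norm_sub_le h hT hw0
    have h7 : a / w.im < y / 12 := by
      rw [← hy, div_lt_div_iff₀ hw0 (by norm_num)]
      nlinarith
    linarith
  obtain ⟨ξ, hξ, he⟩ := h3 h5
  have hξU : ξ ∈ UH := hsub hξ
  refine ⟨?_, ?_⟩
  · rw [← he]
    exact hT.maps hξU
  · have h8 : G w = ξ := by
      rw [← he, hT.right ξ hξU]
    rw [h8]
    exact hball ξ hξ

end Pool.Agent.H96.M7
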