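import Mathlib

set_option autoImplicit false
open Set Filter Topology MeasureTheory

/-! The chordal Loewner equation `h' = 2 / (h - W)` in the upper half plane: monotonicity,
uniqueness (forward and backward), stability under perturbed Euler schemes, and the passage from
Riemann sums to the equation. -/

namespace Pool.Agent.H96.M7

/-- `h` solves the Loewner equation with driving function `W` on `[0,t]`, started at `z`, and
stays in the upper half plane. -/
structure Sol (W : ℝ → ℝ) (t : ℝ) (z : ℂ) (h : ℝ → ℂ) : Prop where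
  init : h 0 = z
  pos : ∀ s ∈ Icc 0 t, 0 < (h s).im
  ode : ∀ s ∈ Icc 0 t, HasDerivWithinAt h (2 / (h s - W s)) (Icc 0 t) s

variable {W : ℝ → ℝ} {t : ℝ} {z : ℂ} {h : ℝ → ℂ}

lemma Sol.cont (H : Sol W t z h) : ContinuousOn h (Icc 0 t) :=
  fun s hs => (H.ode s hs).continuousWithinAt

lemma Sol.ne (H : Sol W t z h) {s : ℝ} (hs : s ∈ Icc 0 t) : h s - W s ≠ 0 := by
  intro h0
  have h1 := H.pos s hs
  have h2 : (h s - W s).im = 0 := by rw [h0]; rfl
  rw [Complex.sub_im, Complex.ofReal_im, sub_zero] at h2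
  linarith

lemma im_two_div (w : ℂ) (x : ℝ) : (2 / (w - x)).im = - (2 * w.im / Complex.normSq (w - x)) := by
  rw [Complex.div_im]
  simp

/-- The imaginary part is nonincreasing. -/
lemma Sol.im_anti (H : Sol W t z h) : AntitoneOn (fun s => (h s).im) (Icc 0 t) := by
  apply antitoneOn_of_hasDerivWithinAt_nonpos (convex_Icc 0 t)
    (f' := fun s => (2 / (h s - W s)).im)
  · exact Complex.continuous_im.comp_continuousOn H.cont
  · intro s hs
    have hs' := interior_subset hs
    have h1 := (H.ode s hs').mono interior_subset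
    exact Complex.imCLM.hasFDerivAt.comp_hasDerivWithinAt s h1
  · intro s hs
    have hs' := interior_subset hs
    rw [im_two_div]
    have := H.pos s hs'
    have h2 : 0 ≤ Complex.normSq (h s - W s) := Complex.normSq_nonneg _
    have h3 : 0 ≤ 2 * (h s).im / Complex.normSq (h s - W s) := by positivity
    linarith

lemma Sol.mono (H : Sol W t z h) {s : ℝ} (hs : s ≤ t) : Sol W s z h where
  init := H.init
  pos := fun u hu => H.pos u ⟨hu.1, hu.2.trans hs⟩
  ode := fun u hu => (H.ode u ⟨hu.1, hu.2.trans hs⟩).mono (Icc_subset_Icc_right hs)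

/-- Difference of two solutions: `h₁ - h₂` times a nonvanishing function is constant. -/
lemma Sol.sub_const' (hW : ContinuousOn W (Icc 0 t)) {z' : ℂ} {h' : ℝ → ℂ} (H : Sol W t z h)
    (H' : Sol W t z' h') : ∃ E : ℝ → ℂ, (∀ s, E s ≠ 0) ∧
      (∀ s ∈ Icc 0 t, ∀ s' ∈ Icc 0 t, (h s - h' s) * E s = (h s' - h' s') * E s') ∧ E 0 = 1 ∧
      ∀ δ : ℝ, 0 < δ → (∀ s ∈ Icc 0 t, δ ^ 2 ≤ ‖(h s - W s) * (h' s - W s)‖) →
        ∀ s ∈ Icc 0 t, ‖E s‖ ≤ Real.exp (2 / δ ^ 2 * s) := by
  set k : ℝ → ℂ := fun s => - (2 / ((h s - W s) * (h' s - W s))) with hk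
  have hkc : ContinuousOn k (Icc 0 t) := by
    apply ContinuousOn.neg
    have hWc : ContinuousOn (fun s => (W s : ℂ)) (Icc 0 t) :=
      Complex.continuous_ofReal.comp_continuousOn hW
    refine continuousOn_const.div ((H.cont.sub hWc).mul (H'.cont.sub hWc)) ?_
    intro s hs
    exact mul_ne_zero (H.ne hs) (H'.ne hs)
  set K : ℝ → ℂ := fun s => ∫ u in (0:ℝ)..s, k u with hK
  have hKd : ∀ s ∈ Icc 0 t, HasDerivWithinAt K (k s) (Icc 0 t) s := by
    intro s hs
    have : Fact (s ∈ Icc 0 t) := ⟨hs⟩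
    apply intervalIntegral.integral_hasDerivWithinAt_right
    · apply (hkc.mono ?_).intervalIntegrable
      rw [uIcc_of_le hs.1]
      exact Icc_subset_Icc_right hs.2
    · exact hkc.stronglyMeasurableAtFilter_nhdsWithin measurableSet_Icc s
    · exact hkc s hs
  refine ⟨fun s => Complex.exp (- K s), fun s => Complex.exp_ne_zero _, ?_, by simp [hK], ?_⟩
  swap
  · intro δ hδ hb s hs
    rw [Complex.norm_exp]
    apply Real.exp_le_exp.2
    refine (Complex.re_le_norm _).trans ?_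
    rw [norm_neg]
    have h1 := intervalIntegral.norm_integral_le_of_norm_le_const (a := (0:ℝ)) (b := s) (f := k)
      (C := 2 / δ ^ 2) (by
        intro u hu
        rw [uIoc_of_le hs.1] at hu
        have hu' : u ∈ Icc 0 t := ⟨hu.1.le, hu.2.trans hs.2⟩
        simp only [hk, norm_neg]
        rw [norm_div]
        have e3 : ‖(2 : ℂ)‖ = 2 := by simp
        rw [e3]
        have := hb u hu'
        gcongr)
    rwa [sub_zero, abs_of_nonneg hs.1] at h1
  set f : ℝ → ℂ := fun s => (h s - h' s) * Complex.exp (- K s) with hf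
  have hfd : ∀ s ∈ Icc 0 t, HasDerivWithinAt f 0 (Icc 0 t) s := by
    intro s hs
    have h1 := (H.ode s hs).sub (H'.ode s hs)
    have h2 := ((hKd s hs).neg).cexp
    have h3 := h1.mul h2
    refine h3.congr_deriv ?_
    have e1 := H.ne hs
    have e2 := H'.ne hs
    simp only [hk, Pi.sub_apply, Pi.neg_apply]
    field_simp
    ring
  intro s hs s' hs'
  by_cases ht : 0 < t
  · have h1 : DifferentiableOn ℝ f (Icc 0 t) := fun x hx => (hfd x hx).differentiableWithinAt
    apply (convex_Icc (0:ℝ) t).is_const_of_fderivWithin_eq_zero h1 _ hs hs'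
    intro x hx
    have h2 := (hfd x hx).hasFDerivWithinAt.fderivWithin (uniqueDiffOn_Icc ht x hx)
    rw [h2]
    ext
    simp
  · have e1 : s = 0 := le_antisymm (hs.2.trans (not_lt.1 ht)) hs.1
    have e2 : s' = 0 := le_antisymm (hs'.2.trans (not_lt.1 ht)) hs'.1
    rw [e1, e2]

/-- Difference of two solutions: `h₁ - h₂` times a nonvanishing function is constant. -/
lemma Sol.sub_const (hW : ContinuousOn W (Icc 0 t)) {z' : ℂ} {h' : ℝ → ℂ} (H : Sol W t z h)
    (H' : Sol W t z' h') : ∃ E : ℝ → ℂ, (∀ s, E s ≠ 0) ∧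
      ∀ s ∈ Icc 0 t, ∀ s' ∈ Icc 0 t, (h s - h' s) * E s = (h s' - h' s') * E s' := by
  obtain ⟨E, h1, h2, -, -⟩ := H.sub_const' hW H'
  exact ⟨E, h1, h2⟩

/-- Quantitative backward uniqueness. -/
lemma Sol.dist_le (hW : ContinuousOn W (Icc 0 t)) (ht : 0 ≤ t) {z' : ℂ} {h' : ℝ → ℂ}
    (H : Sol W t z h) (H' : Sol W t z' h') {δ : ℝ} (hδ : 0 < δ) (h1 : δ ≤ (h t).im)
    (h2 : δ ≤ (h' t).im) : ‖z - z'‖ ≤ Real.exp (2 / δ ^ 2 * t) * ‖h t - h' t‖ := by
  obtain ⟨E, -, hc, hE0, hE⟩ := H.sub_const' hW H'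
  have ht' : t ∈ Icc 0 t := ⟨ht, le_rfl⟩
  have h3 := hc 0 ⟨le_rfl, ht⟩ t ht'
  rw [hE0, mul_one, H.init, H'.init] at h3
  have h4 := hE δ hδ (by
    intro s hs
    rw [norm_mul, pow_two]
    have e1 := Complex.abs_im_le_norm (h s - W s)
    rw [Complex.sub_im, Complex.ofReal_im, sub_zero] at e1
    have e2 := Complex.abs_im_le_norm (h' s - W s)
    rw [Complex.sub_im, Complex.ofReal_im, sub_zero] at e2
    have e3 : δ ≤ ‖h s - W s‖ :=
      (h1.trans (H.im_anti hs ht' hs.2)).trans ((le_abs_self _).trans e1)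
    have e4 : δ ≤ ‖h' s - W s‖ :=
      (h2.trans (H'.im_anti hs ht' hs.2)).trans ((le_abs_self _).trans e2)
    exact mul_le_mul e3 e4 hδ.le (norm_nonneg _)) t ht'
  rw [h3, norm_mul, mul_comm]
  gcongr

/-- Forward uniqueness. -/
lemma Sol.unique (hW : ContinuousOn W (Icc 0 t)) {h' : ℝ → ℂ} (H : Sol W t z h)
    (H' : Sol W t z h') : ∀ s ∈ Icc 0 t, h s = h' s := by
  intro s hs
  obtain ⟨E, hE, hc⟩ := H.sub_const hW H'
  have h0 : (0:ℝ) ∈ Icc 0 t := ⟨le_rfl, hs.1.trans hs.2⟩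
  have h1 := hc s hs 0 h0
  rw [H.init, H'.init, sub_self, zero_mul] at h1
  exact sub_eq_zero.1 ((mul_eq_zero.1 h1).resolve_right (hE s))

/-- Backward uniqueness: the flow is injective. -/
lemma Sol.inj (hW : ContinuousOn W (Icc 0 t)) (ht : 0 ≤ t) {z' : ℂ} {h' : ℝ → ℂ}
    (H : Sol W t z h) (H' : Sol W t z' h') (he : h t = h' t) : z = z' := by
  obtain ⟨E, hE, hc⟩ := H.sub_const hW H'
  have h1 := hc 0 ⟨le_rfl, ht⟩ t ⟨ht, le_rfl⟩
  rw [he, sub_self, zero_mul, H.init, H'.init] at h1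
  exact sub_eq_zero.1 ((mul_eq_zero.1 h1).resolve_right (hE 0))

/-- One step of the equation is an Euler step up to `η' (s' - s)`. -/
lemma Sol.step (hW : ContinuousOn W (Icc 0 t)) (H : Sol W t z h) {η' : ℝ} (hη' : 0 < η') :
    ∃ η > 0, ∀ s ∈ Icc 0 t, ∀ s' ∈ Icc 0 t, s ≤ s' → s' - s ≤ η →
      ‖h s' - h s - 2 * ((s' - s : ℝ) : ℂ) / (h s - W s)‖ ≤ η' * (s' - s) := by
  have hWc : ContinuousOn (fun s => (W s : ℂ)) (Icc 0 t) :=
    Complex.continuous_ofReal.comp_continuousOn hW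
  have hc : ContinuousOn (fun s => 2 / (h s - W s)) (Icc 0 t) :=
    continuousOn_const.div (H.cont.sub hWc) (fun s hs => H.ne hs)
  have huc := isCompact_Icc.uniformContinuousOn_of_continuous hc
  rw [Metric.uniformContinuousOn_iff_le] at huc
  obtain ⟨η, hη, hu⟩ := huc η' hη'
  refine ⟨η, hη, ?_⟩
  intro s hs s' hs' hss hle
  set c : ℂ := 2 / (h s - W s) with hcdef
  have hsub : Icc s s' ⊆ Icc 0 t := Icc_subset_Icc hs.1 hs'.2
  have key := (convex_Icc s s').norm_image_sub_le_of_norm_hasDerivWithin_le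
    (f := fun u : ℝ => h u - (u : ℂ) * c) (f' := fun u => 2 / (h u - W u) - c) (C := η')
    (by
      intro u hu
      have h1 := (H.ode u (hsub hu)).mono hsub
      have h2 : HasDerivWithinAt (fun u : ℝ => (u : ℂ) * c) (1 * c) (Icc s s') u :=
        (Complex.ofRealCLM.hasDerivAt.hasDerivWithinAt).mul_const c
      rw [one_mul] at h2
      exact h1.sub h2)
    (by
      intro u hu'
      have h3 := hu u (hsub hu') s hs (by
        rw [Real.dist_eq, abs_of_nonneg (by linarith [hu'.1])]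
        linarith [hu'.2])
      rwa [dist_eq_norm] at h3)
    (left_mem_Icc.2 hss) (right_mem_Icc.2 hss)
  rw [Real.norm_eq_abs, abs_of_nonneg (by linarith)] at key
  refine le_trans (le_of_eq ?_) key
  congr 1
  rw [hcdef]
  push_cast
  ring

/-- A discrete Gronwall inequality. -/
lemma gronwall_disc {m : ℕ} {d μ lam : ℕ → ℝ} {D : ℝ} (h0 : d 0 ≤ D) (hμ : ∀ j < m, 0 ≤ μ j)
    (hlam : ∀ j < m, 0 ≤ lam j) (hD : 0 ≤ D)
    (hs : ∀ j < m, d (j + 1) ≤ (1 + lam j) * d j + μ j) :
    ∀ j ≤ m, d j ≤ Real.exp (∑ i ∈ Finset.range j, lam i) * (D + ∑ i ∈ Finset.range j, μ i) := by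
  intro j
  induction j with
  | zero => intro _; simpa using h0
  | succ j ih =>
    intro hj
    have hj' : j < m := hj
    have h1 := ih hj'.le
    have h2 := hs j hj'
    rw [Finset.sum_range_succ, Finset.sum_range_succ, Real.exp_add]
    have e1 : 1 + lam j ≤ Real.exp (lam j) := by
      have := Real.add_one_le_exp (lam j)
      linarith
    have e2 : 0 ≤ ∑ i ∈ Finset.range j, μ i :=
      Finset.sum_nonneg (fun i hi => hμ i ((Finset.mem_range.1 hi).trans hj'))
    have e3 : 0 ≤ ∑ i ∈ Finset.range j, lam i :=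
      Finset.sum_nonneg (fun i hi => hlam i ((Finset.mem_range.1 hi).trans hj'))
    have e4 : 1 ≤ Real.exp (∑ i ∈ Finset.range j, lam i) := Real.one_le_exp e3
    have e5 : 1 ≤ Real.exp (lam j) := Real.one_le_exp (hlam j hj')
    have e6 := hμ j hj'
    have e7 := hlam j hj'
    set A := Real.exp (∑ i ∈ Finset.range j, lam i)
    set B := Real.exp (lam j)
    set S := ∑ i ∈ Finset.range j, μ i
    calc d (j + 1) ≤ (1 + lam j) * d j + μ j := h2
      _ ≤ (1 + lam j) * (A * (D + S)) + μ j := by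
          gcongr
      _ ≤ B * (A * (D + S)) + B * A * μ j := by
          have f1 : 0 ≤ A * (D + S) := by positivity
          have f2 : (1 + lam j) * (A * (D + S)) ≤ B * (A * (D + S)) := by gcongr
          have f3 : 1 * μ j ≤ B * A * μ j := by
            apply mul_le_mul_of_nonneg_right _ e6
            nlinarith
          linarith
      _ = A * B * (D + (S + μ j)) := by ring

/-- Passage from Euler steps to the differential equation. -/
lemma sol_of_step (hW : ContinuousOn W (Icc 0 t)) (hh : ContinuousOn h (Icc 0 t)) (h0 : h 0 = z)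
    (hpos : ∀ s ∈ Icc 0 t, 0 < (h s).im)
    (hstep : ∀ ε > 0, ∃ η > 0, ∀ s ∈ Icc 0 t, ∀ s' ∈ Icc 0 t, s ≤ s' → s' - s ≤ η →
      ‖h s' - h s - 2 * ((s' - s : ℝ) : ℂ) / (h s - W s)‖ ≤ ε * (s' - s)) : Sol W t z h where
  init := h0
  pos := hpos
  ode := by
    intro s hs
    have hne : ∀ s ∈ Icc 0 t, h s - W s ≠ 0 := by
      intro s hs h0
      have h1 := hpos s hs
      have h2 : (h s - W s).im = 0 := by rw [h0]; rfl
      rw [Complex.sub_im, Complex.ofReal_im, sub_zero] at h2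
      linarith
    have hWc : ContinuousOn (fun s => (W s : ℂ)) (Icc 0 t) :=
      Complex.continuous_ofReal.comp_continuousOn hW
    have hc : ContinuousOn (fun s => 2 / (h s - W s)) (Icc 0 t) :=
      continuousOn_const.div (hh.sub hWc) hne
    rw [hasDerivWithinAt_iff_isLittleO, Asymptotics.isLittleO_iff]
    intro ε hε
    obtain ⟨η, hη, h1⟩ := hstep (ε / 2) (by positivity)
    have h2 := hc s hs
    rw [Metric.continuousWithinAt_iff'] at h2
    filter_upwards [h2 (ε / 2) (by positivity), self_mem_nhdsWithin,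
      mem_nhdsWithin_of_mem_nhds (Metric.ball_mem_nhds s hη)] with s' h3 h4 h5
    rw [Metric.mem_ball, Real.dist_eq] at h5
    rcases le_total s s' with hle | hle
    · have h6 := h1 s hs s' h4 hle (by rw [abs_of_nonneg (by linarith)] at h5; exact h5.le)
      rw [Real.norm_eq_abs, abs_of_nonneg (by linarith : 0 ≤ s' - s)]
      calc ‖h s' - h s - (s' - s) • (2 / (h s - W s))‖
          = ‖h s' - h s - 2 * ((s' - s : ℝ) : ℂ) / (h s - W s)‖ := by
            congr 1
            rw [Complex.real_smul]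
            ring
        _ ≤ ε / 2 * (s' - s) := h6
        _ ≤ ε * (s' - s) := by
            apply mul_le_mul_of_nonneg_right (by linarith) (by linarith)
    · have h6 := h1 s' h4 s hs hle (by
        rw [abs_sub_comm, abs_of_nonneg (by linarith)] at h5; exact h5.le)
      rw [Real.norm_eq_abs, abs_sub_comm, abs_of_nonneg (by linarith : 0 ≤ s - s')]
      have h7 : ‖2 / (h s' - W s') - 2 / (h s - W s)‖ ≤ ε / 2 := by
        rw [dist_eq_norm] at h3
        exact h3.le
      calc ‖h s' - h s - (s' - s) • (2 / (h s - W s))‖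
          = ‖(h s - h s' - 2 * ((s - s' : ℝ) : ℂ) / (h s' - W s')) +
              ((s - s' : ℝ) : ℂ) * (2 / (h s' - W s') - 2 / (h s - W s))‖ := by
            rw [← norm_neg]
            congr 1
            rw [Complex.real_smul]
            push_cast
            ring
        _ ≤ ε / 2 * (s - s') + (s - s') * (ε / 2) := by
            refine (norm_add_le _ _).trans (add_le_add h6 ?_)
            rw [norm_mul, Complex.norm_real, Real.norm_eq_abs, abs_of_nonneg (by linarith)]
            exact mul_le_mul_of_nonneg_left h7 (by linarith)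
        _ = ε * (s - s') := by ring

/-- **Stability of the Loewner equation under perturbed Euler schemes.** -/
theorem Sol.euler_close (hW : ContinuousOn W (Icc 0 t)) (H : Sol W t z h) {δ : ℝ} (hδ : 0 < δ)
    (h2 : ∀ s ∈ Icc 0 t, 2 * δ ≤ (h s).im) {ε : ℝ} (hε : 0 < ε) :
    ∃ η > 0, ∀ (m : ℕ) (τ : ℕ → ℝ), (∀ j ≤ m, τ j ∈ Icc 0 t) → τ 0 = 0 →
      (∀ j < m, τ j ≤ τ (j + 1)) → (∀ j < m, τ (j + 1) - τ j ≤ η) →
      ∀ (w : ℕ → ℂ) (a V : ℕ → ℝ), ‖w 0 - z‖ ≤ η → (∀ j < m, |V j - W (τ j)| ≤ η) →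
      (∀ j < m, |a j - 2 * (τ (j + 1) - τ j)| ≤ η * (τ (j + 1) - τ j)) →
      (∀ j < m, δ ≤ (w j).im →
        ‖w (j + 1) - w j - a j / (w j - V j)‖ ≤ η * (τ (j + 1) - τ j)) →
      ∀ j ≤ m, ‖w j - h (τ j)‖ ≤ min ε δ := by
  by_cases ht : 0 ≤ t
  swap
  · refine ⟨1, one_pos, ?_⟩
    intro m τ hτ
    have := hτ 0 (Nat.zero_le _)
    exact absurd (this.1.trans this.2) ht
  set ε' : ℝ := min ε δ with hε'
  have hε'0 : 0 < ε' := lt_min hε hδ
  set B : ℝ := Real.exp (t / δ ^ 2) with hB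
  have hB0 : 0 < B := Real.exp_pos _
  set c : ℝ := 1 / δ + 1 / δ ^ 2 + 2 with hc
  have hc0 : 0 < c := by positivity
  set η₁ : ℝ := ε' / (2 * B * (1 + t * c)) with hη₁
  have hη₁0 : 0 < η₁ := by positivity
  obtain ⟨η₂, hη₂, hstep⟩ := H.step hW hη₁0
  refine ⟨min η₁ η₂, lt_min hη₁0 hη₂, ?_⟩
  intro m τ hτ hτ0 hmono hmesh w a V hw0 hV ha hw
  set η : ℝ := min η₁ η₂ with hη
  have hη0 : 0 < η := lt_min hη₁0 hη₂
  have hηle : η ≤ η₁ := min_le_left _ _
  set Δ : ℕ → ℝ := fun j => τ (j + 1) - τ j with hΔ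
  have hΔ0 : ∀ j < m, 0 ≤ Δ j := fun j hj => by linarith [hmono j hj]
  have hsum : ∀ j ≤ m, ∑ i ∈ Finset.range j, Δ i = τ j := by
    intro j hj
    rw [hΔ, Finset.sum_range_sub, hτ0, sub_zero]
  -- one step
  have hone : ∀ j < m, ‖w j - h (τ j)‖ ≤ δ →
      ‖w (j + 1) - h (τ (j + 1))‖ ≤ (1 + Δ j / δ ^ 2) * ‖w j - h (τ j)‖ + Δ j * (η₁ * c) := by
    intro j hj hclose
    have hj1 := hτ j hj.le
    have hj2 := hτ (j + 1) hj
    have hy := h2 _ hj1
    have hyne := H.ne hj1
    have him : δ ≤ (w j).im := by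
      have e1 := Complex.abs_im_le_norm (w j - h (τ j))
      rw [Complex.sub_im] at e1
      have e2 := (abs_le.1 (e1.trans hclose)).1
      linarith
    have hx : δ ≤ ‖w j - V j‖ := by
      have e1 := Complex.abs_im_le_norm (w j - V j)
      rw [Complex.sub_im, Complex.ofReal_im, sub_zero] at e1
      exact him.trans ((le_abs_self _).trans e1)
    have hyn : 2 * δ ≤ ‖h (τ j) - W (τ j)‖ := by
      have e1 := Complex.abs_im_le_norm (h (τ j) - W (τ j))
      rw [Complex.sub_im, Complex.ofReal_im, sub_zero] at e1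
      exact hy.trans ((le_abs_self _).trans e1)
    have hxne : w j - V j ≠ 0 := norm_pos_iff.1 (hδ.trans_le hx)
    have s1 := hw j hj him
    have s2 := hstep _ hj1 _ hj2 (hmono j hj) ((hmesh j hj).trans (min_le_right _ _))
    have s3 : ‖(a j : ℂ) / (w j - V j) - 2 * ((Δ j : ℝ) : ℂ) / (w j - V j)‖ ≤ η * Δ j / δ := by
      rw [← sub_div, norm_div]
      have e1 : ‖(a j : ℂ) - 2 * ((Δ j : ℝ) : ℂ)‖ = |a j - 2 * Δ j| := by
        rw [← Real.norm_eq_abs, ← Complex.norm_real]
        push_cast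
        rfl
      rw [e1]
      exact div_le_div₀ (by have := hΔ0 j hj; positivity) (ha j hj) hδ hx
    have s4 : ‖2 * ((Δ j : ℝ) : ℂ) / (w j - V j) - 2 * ((Δ j : ℝ) : ℂ) / (h (τ j) - W (τ j))‖ ≤
        Δ j * (‖w j - h (τ j)‖ + η) / δ ^ 2 := by
      have e0 : 2 * ((Δ j : ℝ) : ℂ) / (w j - V j) - 2 * ((Δ j : ℝ) : ℂ) / (h (τ j) - W (τ j)) =
          (2 * ((Δ j : ℝ) : ℂ) * ((h (τ j) - w j) + ((V j - W (τ j) : ℝ) : ℂ))) /
          ((w j - V j) * (h (τ j) - W (τ j))) := by
        field_simp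
        push_cast
        ring
      rw [e0, norm_div, norm_mul, norm_mul, norm_mul, Complex.norm_real, Real.norm_eq_abs,
        abs_of_nonneg (hΔ0 j hj)]
      have e1 : ‖(h (τ j) - w j) + ((V j - W (τ j) : ℝ) : ℂ)‖ ≤ ‖w j - h (τ j)‖ + η := by
        refine (norm_add_le _ _).trans ?_
        rw [norm_sub_rev, Complex.norm_real, Real.norm_eq_abs]
        exact add_le_add le_rfl (hV j hj)
      have e2 : δ * (2 * δ) ≤ ‖w j - V j‖ * ‖h (τ j) - W (τ j)‖ :=
        mul_le_mul hx hyn (by positivity) (by positivity)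
      have e3 : ‖(2 : ℂ)‖ = 2 := by simp
      rw [e3]
      calc 2 * Δ j * ‖(h (τ j) - w j) + ((V j - W (τ j) : ℝ) : ℂ)‖ /
            (‖w j - V j‖ * ‖h (τ j) - W (τ j)‖)
          ≤ 2 * Δ j * (‖w j - h (τ j)‖ + η) / (δ * (2 * δ)) := by
            have f1 := hΔ0 j hj
            apply div_le_div₀ (by positivity) _ (by positivity) e2
            gcongr
        _ = Δ j * (‖w j - h (τ j)‖ + η) / δ ^ 2 := by
            field_simp
    have hdec : w (j + 1) - h (τ (j + 1)) = (w j - h (τ j)) +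
        (w (j + 1) - w j - a j / (w j - V j)) -
        (h (τ (j + 1)) - h (τ j) - 2 * ((τ (j + 1) - τ j : ℝ) : ℂ) / (h (τ j) - W (τ j))) +
        ((a j : ℂ) / (w j - V j) - 2 * ((Δ j : ℝ) : ℂ) / (w j - V j)) +
        (2 * ((Δ j : ℝ) : ℂ) / (w j - V j) - 2 * ((Δ j : ℝ) : ℂ) / (h (τ j) - W (τ j))) := by
      simp only [hΔ]
      ring
    have hΔj := hΔ0 j hj
    calc ‖w (j + 1) - h (τ (j + 1))‖
        ≤ ‖w j - h (τ j)‖ + η * Δ j + η₁ * Δ j + η * Δ j / δ +
          Δ j * (‖w j - h (τ j)‖ + η) / δ ^ 2 := by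
          rw [hdec]
          refine (norm_add_le _ _).trans (add_le_add ?_ s4)
          refine (norm_add_le _ _).trans (add_le_add ?_ s3)
          refine (norm_sub_le _ _).trans (add_le_add ?_ s2)
          exact (norm_add_le _ _).trans (add_le_add le_rfl s1)
      _ ≤ ‖w j - h (τ j)‖ + η₁ * Δ j + η₁ * Δ j + η₁ * Δ j / δ +
          Δ j * (‖w j - h (τ j)‖ + η₁) / δ ^ 2 := by gcongr
      _ = (1 + Δ j / δ ^ 2) * ‖w j - h (τ j)‖ + Δ j * (η₁ * c) := by
          rw [hc]
          field_simp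
          ring
  -- strong induction
  have hmain : ∀ j ≤ m, ‖w j - h (τ j)‖ ≤ ε' := by
    intro j
    induction j using Nat.strong_induction_on with
    | _ j ih =>
      intro hj
      have hg := gronwall_disc (m := j) (d := fun i => ‖w i - h (τ i)‖)
        (μ := fun i => Δ i * (η₁ * c)) (lam := fun i => Δ i / δ ^ 2) (D := η₁)
        (by
          simp only [hτ0, H.init]
          exact hw0.trans hηle)
        (fun i hi => by have := hΔ0 i (hi.trans_le hj); positivity)
        (fun i hi => by have := hΔ0 i (hi.trans_le hj); positivity) hη₁0.le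
        (fun i hi => hone i (hi.trans_le hj)
          ((ih i hi (hi.le.trans hj)).trans (min_le_right _ _))) j le_rfl
      refine hg.trans ?_
      rw [← Finset.sum_div, ← Finset.sum_mul, hsum j hj]
      have e1 : τ j ≤ t := (hτ j hj).2
      have e0 : 0 ≤ τ j := (hτ j hj).1
      have e2 : Real.exp (τ j / δ ^ 2) ≤ B := by
        apply Real.exp_le_exp.2
        gcongr
      calc Real.exp (τ j / δ ^ 2) * (η₁ + τ j * (η₁ * c))
          ≤ B * (η₁ + t * (η₁ * c)) := by gcongr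
        _ = ε' / 2 := by
            rw [hη₁]
            field_simp
        _ ≤ ε' := by linarith
  exact hmain

end Pool.Agent.H96.M7
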