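import Mathlib
import Pool.Agent.H96.M7.Flow
import Pool.Agent.H83.Lo.Hyd

set_option autoImplicit false
open Set Filter Topology MeasureTheory Bornology
open scoped NNReal
open Pool.Agent.H83.Lo (UH)

/-! The chordal Loewner equation: existence of solutions (forward from far points, backward from
every point of the upper half plane), positivity of imaginary parts. -/

namespace Pool.Agent.H96.M7

variable {W : ℝ → ℝ} {t : ℝ}

/-- A solution which avoids the driving function keeps its imaginary part positive. -/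
lemma sol_of_ne (hW : ContinuousOn W (Icc 0 t)) {z : ℂ} (hz : 0 < z.im) {h : ℝ → ℂ} (h0 : h 0 = z)
    (hode : ∀ s ∈ Icc 0 t, HasDerivWithinAt h (2 / (h s - W s)) (Icc 0 t) s)
    (hne : ∀ s ∈ Icc 0 t, h s ≠ W s) : Sol W t z h := by
  refine ⟨h0, ?_, hode⟩
  have hne' : ∀ s ∈ Icc 0 t, h s - W s ≠ 0 := fun s hs => sub_ne_zero.2 (hne s hs)
  have hhc : ContinuousOn h (Icc 0 t) := fun s hs => (hode s hs).continuousWithinAt
  have hWc : ContinuousOn (fun s => (W s : ℂ)) (Icc 0 t) :=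
    Complex.continuous_ofReal.comp_continuousOn hW
  set k : ℝ → ℝ := fun s => 2 / Complex.normSq (h s - W s) with hk
  have hkc : ContinuousOn k (Icc 0 t) := by
    refine continuousOn_const.div (Complex.continuous_normSq.comp_continuousOn (hhc.sub hWc)) ?_
    intro s hs
    exact (Complex.normSq_pos.2 (hne' s hs)).ne'
  set K : ℝ → ℝ := fun s => ∫ u in (0:ℝ)..s, k u with hK
  have hKd : ∀ s ∈ Icc 0 t, HasDerivWithinAt K (k s) (Icc 0 t) s := by
    intro s hs
    have : Fact (s ∈ Icc 0 t) := ⟨hs⟩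
    apply intervalIntegral.integral_hasDerivWithinAt_right
    · apply (hkc.mono ?_).intervalIntegrable
      rw [uIcc_of_le hs.1]
      exact Icc_subset_Icc_right hs.2
    · exact hkc.stronglyMeasurableAtFilter_nhdsWithin measurableSet_Icc s
    · exact hkc s hs
  set f : ℝ → ℝ := fun s => (h s).im * Real.exp (K s) with hf
  have hfd : ∀ s ∈ Icc 0 t, HasDerivWithinAt f 0 (Icc 0 t) s := by
    intro s hs
    have h1 : HasDerivWithinAt (fun s => (h s).im) ((2 / (h s - W s)).im) (Icc 0 t) s :=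
      Complex.imCLM.hasFDerivAt.comp_hasDerivWithinAt s (hode s hs)
    have h2 := (hKd s hs).exp
    have h3 := h1.mul h2
    refine h3.congr_deriv ?_
    rw [im_two_div]
    simp only [hk]
    have := (Complex.normSq_pos.2 (hne' s hs)).ne'
    field_simp
    ring
  intro s hs
  have ht : 0 ≤ t := hs.1.trans hs.2
  have hK0 : K 0 = 0 := by simp [hK]
  have hconst : f s = f 0 := by
    rcases ht.eq_or_lt with h00 | h00
    · have : s = 0 := le_antisymm (by rw [h00]; exact hs.2) hs.1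
      rw [this]
    · have h1 : DifferentiableOn ℝ f (Icc 0 t) := fun x hx => (hfd x hx).differentiableWithinAt
      apply (convex_Icc (0:ℝ) t).is_const_of_fderivWithin_eq_zero h1 _ hs ⟨le_rfl, ht⟩
      intro x hx
      have h2 := (hfd x hx).hasFDerivWithinAt.fderivWithin (uniqueDiffOn_Icc h00 x hx)
      rw [h2]
      ext
      simp
  simp only [hf, hK0, Real.exp_zero, mul_one, h0] at hconst
  have h4 : 0 < (h s).im * Real.exp (K s) := by rw [hconst]; exact hz
  exact (pos_iff_pos_of_mul_pos h4).2 (Real.exp_pos _)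

/-- The projection to `{Im ≥ y}`. -/
noncomputable def proj (y : ℝ) (k : ℂ) : ℂ := ⟨k.re, max k.im y⟩

lemma proj_lip (y : ℝ) (k k' : ℂ) : ‖proj y k - proj y k'‖ ≤ ‖k - k'‖ := by
  have h1 : Complex.normSq (proj y k - proj y k') ≤ Complex.normSq (k - k') := by
    rw [Complex.normSq_apply, Complex.normSq_apply, Complex.sub_re, Complex.sub_im,
      Complex.sub_re, Complex.sub_im]
    simp only [proj]
    have h2 : |max k.im y - max k'.im y| ≤ |k.im - k'.im| := abs_max_sub_max_le_abs _ _ _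
    have h3 := mul_self_le_mul_self (abs_nonneg _) h2
    rw [abs_mul_abs_self, abs_mul_abs_self] at h3
    linarith
  rw [Complex.normSq_eq_norm_sq, Complex.normSq_eq_norm_sq] at h1
  exact (sq_le_sq₀ (norm_nonneg _) (norm_nonneg _)).1 h1

lemma le_norm_sub_real {w : ℂ} {x y : ℝ} (h : y ≤ w.im) : y ≤ ‖w - x‖ := by
  have e3 := Complex.abs_im_le_norm (w - x)
  rw [Complex.sub_im, Complex.ofReal_im, sub_zero] at e3
  exact h.trans ((le_abs_self _).trans e3)

lemma two_div_lip {A B : ℂ} {x y : ℝ} (hy : 0 < y) (hA : y ≤ ‖A - x‖) (hB : y ≤ ‖B - x‖) :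
    ‖2 / (A - x) - 2 / (B - x)‖ ≤ 2 / y ^ 2 * ‖A - B‖ := by
  have n1 : A - x ≠ 0 := norm_pos_iff.1 (hy.trans_le hA)
  have n2 : B - x ≠ 0 := norm_pos_iff.1 (hy.trans_le hB)
  have e : 2 / (A - x) - 2 / (B - x) = -(2 * (A - B)) / ((A - x) * (B - x)) := by
    rw [div_sub_div _ _ n1 n2]
    congr 1
    ring
  rw [e, norm_div, norm_neg, norm_mul, norm_mul]
  have e3 : ‖(2 : ℂ)‖ = 2 := by simp
  rw [e3, div_mul_eq_mul_div, pow_two]
  gcongr

/-- Backward existence. -/
theorem exists_back (hW : ContinuousOn W (Icc 0 t)) (ht : 0 ≤ t) {w : ℂ} (hw : 0 < w.im) :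
    ∃ h, h t = w ∧ Sol W t (h 0) h := by
  set y : ℝ := w.im with hy
  have hPy : ∀ k, y ≤ (proj y k).im := fun k => le_max_right _ _
  set f : ℝ → ℂ → ℂ := fun s k => 2 / (proj y k - W s) with hf
  have hbd : ∀ s k, ‖f s k‖ ≤ 2 / y := by
    intro s k
    simp only [hf]
    rw [norm_div]
    have e3 : ‖(2 : ℂ)‖ = 2 := by simp
    rw [e3]
    have := le_norm_sub_real (x := W s) (hPy k)
    gcongr
  set L : ℝ≥0 := ⟨2 / y, by positivity⟩ with hL
  set K : ℝ≥0 := ⟨2 / y ^ 2, by positivity⟩ with hK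
  set a : ℝ≥0 := ⟨2 / y * t, by positivity⟩ with ha
  set t₀ : Icc (0:ℝ) t := ⟨t, ht, le_rfl⟩ with ht₀
  have hpl : IsPicardLindelof f t₀ w a 0 L K := by
    refine ⟨?_, ?_, ?_, ?_⟩
    · intro s _
      apply LipschitzOnWith.of_dist_le_mul
      intro k _ k' _
      rw [dist_eq_norm, dist_eq_norm]
      calc ‖f s k - f s k'‖ ≤ 2 / y ^ 2 * ‖proj y k - proj y k'‖ :=
            two_div_lip hw (le_norm_sub_real (hPy k)) (le_norm_sub_real (hPy k'))
        _ ≤ K * ‖k - k'‖ := by
            change 2 / y ^ 2 * ‖proj y k - proj y k'‖ ≤ 2 / y ^ 2 * ‖k - k'‖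
            have := proj_lip y k k'
            gcongr
    · intro k _
      simp only [hf]
      refine continuousOn_const.div (continuousOn_const.sub
        (Complex.continuous_ofReal.comp_continuousOn hW)) ?_
      intro s _
      exact norm_pos_iff.1 (hw.trans_le (le_norm_sub_real (hPy k)))
    · intro s _ k _
      exact hbd s k
    · simp only [ht₀, NNReal.coe_zero, sub_zero, hL, ha]
      change 2 / y * max (t - t) t ≤ 2 / y * t
      rw [sub_self, max_eq_right ht]
  obtain ⟨h, hht, hode⟩ := hpl.exists_eq_forall_mem_Icc_hasDerivWithinAt₀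
  have htt : t ∈ Icc 0 t := ⟨ht, le_rfl⟩
  have hanti : AntitoneOn (fun s => (h s).im) (Icc 0 t) := by
    apply antitoneOn_of_hasDerivWithinAt_nonpos (convex_Icc 0 t)
      (f' := fun s => (2 / (proj y (h s) - W s)).im)
    · exact Complex.continuous_im.comp_continuousOn (fun s hs => (hode s hs).continuousWithinAt)
    · intro s hs
      have hs' := interior_subset hs
      have h1 := (hode s hs').mono interior_subset
      exact Complex.imCLM.hasFDerivAt.comp_hasDerivWithinAt s h1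
    · intro s hs
      rw [im_two_div]
      have := hw.trans_le (hPy (h s))
      have h2 : 0 ≤ Complex.normSq (proj y (h s) - W s) := Complex.normSq_nonneg _
      have h3 : 0 ≤ 2 * (proj y (h s)).im / Complex.normSq (proj y (h s) - W s) := by positivity
      linarith
  have hht' : h t = w := hht
  have him : ∀ s ∈ Icc 0 t, y ≤ (h s).im := by
    intro s hs
    have := hanti hs htt hs.2
    simp only [hht'] at this
    exact this
  have hproj : ∀ s ∈ Icc 0 t, proj y (h s) = h s := by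
    intro s hs
    apply Complex.ext
    · rfl
    · simp only [proj]
      exact max_eq_left (him s hs)
  refine ⟨h, hht', rfl, fun s hs => hw.trans_le (him s hs), ?_⟩
  intro s hs
  have := hode s hs
  simp only [hf, hproj s hs] at this
  exact this

/-- Forward existence from far points. -/
theorem exists_far (hW : ContinuousOn W (Icc 0 t)) (ht : 0 ≤ t) {B : ℝ}
    (hB : ∀ s ∈ Icc 0 t, |W s| ≤ B) {z : ℂ} (hz : 0 < z.im) (hzB : 4 * B ≤ ‖z‖)
    (hzt : 16 * t ≤ ‖z‖ ^ 2) : ∃ h, Sol W t z h := by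
  have hz0 : 0 < ‖z‖ := norm_pos_iff.2 (by
    intro h0
    rw [h0] at hz
    simp at hz)
  set f : ℝ → ℂ → ℂ := fun s k => 2 / (k - W s) with hf
  have hden : ∀ s ∈ Icc 0 t, ∀ k ∈ Metric.closedBall z (‖z‖ / 2), ‖z‖ / 4 ≤ ‖k - W s‖ := by
    intro s hs k hk
    rw [Metric.mem_closedBall, dist_eq_norm] at hk
    have h1 : ‖z‖ ≤ ‖k - W s‖ + ‖k - z‖ + ‖(W s : ℂ)‖ := by
      calc ‖z‖ = ‖((k - W s) - (k - z)) + (W s : ℂ)‖ := by ring_nf
        _ ≤ _ := (norm_add_le _ _).trans (add_le_add (norm_sub_le _ _) le_rfl)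
    rw [Complex.norm_real, Real.norm_eq_abs] at h1
    have := hB s hs
    linarith
  set L : ℝ≥0 := ⟨8 / ‖z‖, by positivity⟩ with hL
  set K : ℝ≥0 := ⟨2 / (‖z‖ / 4) ^ 2, by positivity⟩ with hK
  set a : ℝ≥0 := ⟨‖z‖ / 2, by positivity⟩ with ha
  set t₀ : Icc (0:ℝ) t := ⟨0, le_rfl, ht⟩ with ht₀
  have hpl : IsPicardLindelof f t₀ z a 0 L K := by
    refine ⟨?_, ?_, ?_, ?_⟩
    · intro s hs
      apply LipschitzOnWith.of_dist_le_mul
      intro k hk k' hk'
      rw [dist_eq_norm, dist_eq_norm]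
      exact two_div_lip (by positivity) (hden s hs k hk) (hden s hs k' hk')
    · intro k hk
      simp only [hf]
      refine continuousOn_const.div (continuousOn_const.sub
        (Complex.continuous_ofReal.comp_continuousOn hW)) ?_
      intro s hs
      exact norm_pos_iff.1 (lt_of_lt_of_le (by positivity) (hden s hs k hk))
    · intro s hs k hk
      simp only [hf]
      rw [norm_div]
      have e3 : ‖(2 : ℂ)‖ = 2 := by simp
      rw [e3]
      change 2 / ‖k - W s‖ ≤ 8 / ‖z‖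
      calc 2 / ‖k - W s‖ ≤ 2 / (‖z‖ / 4) := by
            have := hden s hs k hk
            gcongr
        _ = 8 / ‖z‖ := by
          field_simp
          norm_num
    · simp only [ht₀, NNReal.coe_zero, sub_zero, hL, ha]
      change 8 / ‖z‖ * max t 0 ≤ ‖z‖ / 2
      rw [max_eq_left ht, div_mul_eq_mul_div, div_le_div_iff₀ hz0 (by norm_num)]
      nlinarith
  obtain ⟨α, hα⟩ := ODE.FunSpace.exists_isFixedPt_next hpl (Metric.mem_closedBall_self le_rfl)
  have hmem : ∀ s, α.compProj s ∈ Metric.closedBall z (‖z‖ / 2) := fun s =>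
    α.compProj_mem_closedBall hpl.mul_max_le
  have h00 : α.compProj 0 = z := by
    have : α.compProj t₀ = z := by
      rw [ODE.FunSpace.compProj_val, ← hα, ODE.FunSpace.next_apply₀]
    exact this
  have hode : ∀ s ∈ Icc 0 t, HasDerivWithinAt α.compProj (f s (α.compProj s)) (Icc 0 t) s := by
    intro s hs
    apply ODE.hasDerivWithinAt_picard_Icc t₀.2 hpl.continuousOn_uncurry
      α.continuous_compProj.continuousOn (fun _ ht' ↦ α.compProj_mem_closedBall hpl.mul_max_le)
      z hs |>.congr_of_mem _ hs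
    intro t' ht'
    nth_rw 1 [← hα]
    rw [ODE.FunSpace.compProj_of_mem ht', ODE.FunSpace.next_apply]
  refine ⟨α.compProj, sol_of_ne hW hz h00 hode ?_⟩
  intro s hs he
  have h1 := hden s hs _ (hmem s)
  rw [he, sub_self, norm_zero] at h1
  linarith

/-- Trajectories of far points stay near the starting point. -/
theorem Sol.near {z : ℂ} {h : ℝ → ℂ} (H : Sol W t z h) {B : ℝ}
    (hB : ∀ s ∈ Icc 0 t, |W s| ≤ B) (hz0 : z ≠ 0) (hzB : 4 * B ≤ ‖z‖) (hzt : 18 * t ≤ ‖z‖ ^ 2) :
    ∀ s ∈ Icc 0 t, ‖h s - z‖ ≤ 9 / ‖z‖ * s := by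
  have hz : 0 < ‖z‖ := norm_pos_iff.2 hz0
  have hcont : ContinuousOn (fun s => h s - z) (Icc 0 t) := H.cont.sub continuousOn_const
  apply image_norm_le_of_norm_deriv_right_lt_deriv_boundary' (f' := fun s => 2 / (h s - W s))
    (B := fun s => 9 / ‖z‖ * s) (B' := fun _ => 9 / ‖z‖) hcont
  · intro s hs
    have h1 := (H.ode s ⟨hs.1, hs.2.le⟩).sub_const z
    have h2 : Icc s t ⊆ Icc 0 t := Icc_subset_Icc_left hs.1
    have h3 := (h1.mono h2)
    exact h3.mono_of_mem_nhdsWithin (Icc_mem_nhdsGE hs.2)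
  · rw [H.init]
    simp
  · fun_prop
  · intro s _
    have := ((hasDerivAt_id s).const_mul (9 / ‖z‖)).hasDerivWithinAt (s := Ici s)
    simpa using this
  · intro s hs he
    have hs' : s ∈ Icc 0 t := ⟨hs.1, hs.2.le⟩
    have h1 : 9 / ‖z‖ * s ≤ ‖z‖ / 2 := by
      rw [div_mul_eq_mul_div, div_le_div_iff₀ hz (by norm_num)]
      nlinarith [hs'.2]
    rw [← he] at h1
    have h2 : ‖z‖ ≤ ‖h s - W s‖ + ‖h s - z‖ + ‖(W s : ℂ)‖ := by
      calc ‖z‖ = ‖((h s - W s) - (h s - z)) + (W s : ℂ)‖ := by ring_nf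
        _ ≤ _ := (norm_add_le _ _).trans (add_le_add (norm_sub_le _ _) le_rfl)
    rw [Complex.norm_real, Real.norm_eq_abs] at h2
    have h3 := hB s hs'
    have h4 : ‖z‖ / 4 ≤ ‖h s - W s‖ := by linarith
    rw [norm_div]
    have e3 : ‖(2 : ℂ)‖ = 2 := by simp
    rw [e3]
    calc 2 / ‖h s - W s‖ ≤ 2 / (‖z‖ / 4) := by gcongr
      _ = 8 / ‖z‖ := by
        field_simp
        norm_num
      _ < 9 / ‖z‖ := by gcongr; norm_num

/-- The definition by avoidance of the driving function. -/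
theorem notSwallowed_iff (hW : ContinuousOn W (Icc 0 t)) {z : ℂ} (hz : 0 < z.im) :
    (∃ h : ℝ → ℂ, h 0 = z ∧ ∀ s ∈ Icc 0 t, HasDerivWithinAt h (2 / (h s - W s)) (Icc 0 t) s ∧
      h s ≠ W s) ↔ ∃ h, Sol W t z h := by
  constructor
  · rintro ⟨h, h0, hh⟩
    exact ⟨h, sol_of_ne hW hz h0 (fun s hs => (hh s hs).1) (fun s hs => (hh s hs).2)⟩
  · rintro ⟨h, H⟩
    exact ⟨h, H.init, fun s hs => ⟨H.ode s hs, sub_ne_zero.1 (H.ne hs)⟩⟩

end Pool.Agent.H96.M7
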