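import Mathlib
import Pool.Agent.H96.M7.Ode

set_option autoImplicit false
open Set Filter Topology MeasureTheory Bornology
open scoped NNReal
open Pool.Agent.H83.Lo (Hyd UH)

/-! The chordal Loewner flow for a continuous driving function: the set of non-swallowed points is
open, connected, unbounded, and the flow map is its hydrodynamically normalised map. -/

namespace Pool.Agent.H96.M7

variable {W : ℝ → ℝ} {t : ℝ}

/-- The set of points of the upper half plane which are not swallowed at time `t` by the Loewner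
flow driven by `W`. -/
def Dom (W : ℝ → ℝ) (t : ℝ) : Set ℂ := {z | 0 < z.im ∧ ∃ h, Sol W t z h}

lemma mem_Dom (ht : 0 ≤ t) {z : ℂ} {h : ℝ → ℂ} (H : Sol W t z h) : z ∈ Dom W t := by
  refine ⟨?_, h, H⟩
  rw [← H.init]
  exact H.pos 0 ⟨le_rfl, ht⟩

lemma Dom_anti {s : ℝ} (hst : s ≤ t) : Dom W t ⊆ Dom W s := by
  rintro z ⟨hz, h, H⟩
  exact ⟨hz, h, H.mono hst⟩

lemma Dom_zero : Dom W 0 = UH := by
  ext z
  constructor
  · rintro ⟨hz, -⟩
    exact hz
  · intro hz
    refine ⟨hz, fun _ => z, rfl, fun s _ => hz, ?_⟩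
    intro s hs
    have hs0 : s = 0 := le_antisymm hs.2 hs.1
    subst hs0
    rw [Icc_self]
    exact HasFDerivWithinAt.of_subsingleton subsingleton_singleton

open Classical in
/-- The Loewner flow driven by `W`. -/
noncomputable def flow (W : ℝ → ℝ) (t : ℝ) (z : ℂ) : ℂ :=
  if H : ∃ h, Sol W t z h then H.choose t else z

lemma flow_eq (hW : ContinuousOn W (Icc 0 t)) (ht : 0 ≤ t) {z : ℂ} {h : ℝ → ℂ}
    (H : Sol W t z h) : flow W t z = h t := by
  unfold flow
  have H' : ∃ h, Sol W t z h := ⟨h, H⟩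
  rw [dif_pos H']
  exact Sol.unique hW H'.choose_spec H t ⟨ht, le_rfl⟩

lemma flow_zero {z : ℂ} (hz : 0 < z.im) : flow W 0 z = z := by
  have h1 : z ∈ Dom W 0 := by
    rw [Dom_zero]
    exact hz
  obtain ⟨-, h, H⟩ := h1
  rw [flow_eq (by rw [Icc_self]; exact continuousOn_singleton _ _) le_rfl H, H.init]

lemma Sol.kernel_cont (hW : ContinuousOn W (Icc 0 t)) {z z' : ℂ} {h h' : ℝ → ℂ} (H : Sol W t z h)
    (H' : Sol W t z' h') :
    ContinuousOn (fun u => 2 / ((h u - W u) * (h' u - W u))) (Icc 0 t) := by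
  have hWc : ContinuousOn (fun s => (W s : ℂ)) (Icc 0 t) :=
    Complex.continuous_ofReal.comp_continuousOn hW
  refine continuousOn_const.div ((H.cont.sub hWc).mul (H'.cont.sub hWc)) ?_
  intro s hs
  exact mul_ne_zero (H.ne hs) (H'.ne hs)

/-- Difference of two solutions, explicit form. -/
lemma Sol.diff_formula (hW : ContinuousOn W (Icc 0 t)) {z z' : ℂ} {h h' : ℝ → ℂ} (H : Sol W t z h)
    (H' : Sol W t z' h') {s : ℝ} (hs : s ∈ Icc 0 t) :
    (h s - h' s) * Complex.exp (∫ u in (0:ℝ)..s, 2 / ((h u - W u) * (h' u - W u))) = z - z' := by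
  set k : ℝ → ℂ := fun s => 2 / ((h s - W s) * (h' s - W s)) with hk
  have hkc : ContinuousOn k (Icc 0 t) := H.kernel_cont hW H'
  set K : ℝ → ℂ := fun s => ∫ u in (0:ℝ)..s, k u with hK
  have hKd : ∀ s ∈ Icc 0 t, HasDerivWithinAt K (k s) (Icc 0 t) s := by
    intro s hs
    have : Fact (s ∈ Icc 0 t) := ⟨hs⟩
    apply intervalIntegral.integral_hasDerivWithinAt_right
    · apply (hkc.mono ?_).intervalIntegrable
      rw [uIcc_of_le hs.1]
      exact Icc_subset_Icc_right hs.2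
    · exact hkc.stronglyMeasurableAtFilter_nhdsWithin measurableSet_Icc s
    · exact hkc s hs
  set f : ℝ → ℂ := fun s => (h s - h' s) * Complex.exp (K s) with hf
  have hfd : ∀ s ∈ Icc 0 t, HasDerivWithinAt f 0 (Icc 0 t) s := by
    intro s hs
    have h1 := (H.ode s hs).sub (H'.ode s hs)
    have h2 := (hKd s hs).cexp
    have h3 := h1.mul h2
    refine h3.congr_deriv ?_
    have e1 := H.ne hs
    have e2 := H'.ne hs
    simp only [hk, Pi.sub_apply]
    field_simp
    ring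
  have hK0 : K 0 = 0 := by simp [hK]
  have hconst : f s = f 0 := by
    by_cases ht : 0 < t
    · have h1 : DifferentiableOn ℝ f (Icc 0 t) := fun x hx => (hfd x hx).differentiableWithinAt
      apply (convex_Icc (0:ℝ) t).is_const_of_fderivWithin_eq_zero h1 _ hs ⟨le_rfl, ht.le⟩
      intro x hx
      have h2 := (hfd x hx).hasFDerivWithinAt.fderivWithin (uniqueDiffOn_Icc ht x hx)
      rw [h2]
      ext
      simp
    · have e1 : s = 0 := le_antisymm (hs.2.trans (not_lt.1 ht)) hs.1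
      rw [e1]
  simp only [hf, hK0, Complex.exp_zero, mul_one, H.init, H'.init] at hconst
  exact hconst

/-- Two solutions stay close on the whole interval if they are close at the end. -/
lemma Sol.close (hW : ContinuousOn W (Icc 0 t)) (ht : 0 ≤ t) {z z' : ℂ} {h h' : ℝ → ℂ}
    (H : Sol W t z h) (H' : Sol W t z' h') {δ : ℝ} (hδ : 0 < δ) (h1 : δ ≤ (h t).im)
    (h2 : δ ≤ (h' t).im) {s : ℝ} (hs : s ∈ Icc 0 t) :
    ‖h s - h' s‖ ≤ Real.exp (4 / δ ^ 2 * t) * ‖h t - h' t‖ := by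
  have ht' : t ∈ Icc 0 t := ⟨ht, le_rfl⟩
  have hb : ∀ u ∈ Icc 0 t, ‖2 / ((h u - W u) * (h' u - W u))‖ ≤ 2 / δ ^ 2 := by
    intro u hu
    have e3 : δ ≤ ‖h u - W u‖ := le_norm_sub_real (h1.trans (H.im_anti hu ht' hu.2))
    have e4 : δ ≤ ‖h' u - W u‖ := le_norm_sub_real (h2.trans (H'.im_anti hu ht' hu.2))
    rw [norm_div, norm_mul]
    have e5 : ‖(2 : ℂ)‖ = 2 := by simp
    rw [e5, pow_two]
    gcongr
  have hI : ∀ u ∈ Icc 0 t, ‖∫ v in (0:ℝ)..u, 2 / ((h v - W v) * (h' v - W v))‖ ≤ 2 / δ ^ 2 * t := by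
    intro u hu
    have h3 := intervalIntegral.norm_integral_le_of_norm_le_const (a := (0:ℝ)) (b := u)
      (f := fun v => 2 / ((h v - W v) * (h' v - W v))) (C := 2 / δ ^ 2) (by
        intro v hv
        rw [uIoc_of_le hu.1] at hv
        exact hb v ⟨hv.1.le, hv.2.trans hu.2⟩)
    rw [sub_zero, abs_of_nonneg hu.1] at h3
    refine h3.trans ?_
    have := hu.2
    gcongr
  have f1 := H.diff_formula hW H' hs
  have f2 := H.diff_formula hW H' ht'
  have e1 : h s - h' s = (h t - h' t) *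
      Complex.exp ((∫ v in (0:ℝ)..t, 2 / ((h v - W v) * (h' v - W v))) -
        ∫ v in (0:ℝ)..s, 2 / ((h v - W v) * (h' v - W v))) := by
    rw [Complex.exp_sub, ← mul_div_assoc, f2, ← f1, mul_div_assoc, div_self (Complex.exp_ne_zero _),
      mul_one]
  rw [e1, norm_mul, mul_comm, Complex.norm_exp]
  apply mul_le_mul_of_nonneg_right _ (norm_nonneg _)
  apply Real.exp_le_exp.2
  refine (Complex.re_le_norm _).trans ((norm_sub_le _ _).trans ?_)
  have g1 := hI t ht'
  have g2 := hI s hs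
  calc _ ≤ 2 / δ ^ 2 * t + 2 / δ ^ 2 * t := add_le_add g1 g2
    _ = 4 / δ ^ 2 * t := by ring

/-- The inverse flow. -/
theorem exists_inv_flow (hW : ContinuousOn W (Icc 0 t)) (ht : 0 ≤ t) :
    ∃ Φ : ℂ → ℂ, DifferentiableOn ℂ Φ UH ∧ InjOn Φ UH ∧ Dom W t = Φ '' UH ∧
      ∀ w, 0 < w.im → ∃ h, Sol W t (Φ w) h ∧ h t = w := by
  have ht' : t ∈ Icc 0 t := ⟨ht, le_rfl⟩
  have hex : ∀ w : ℂ, ∃ z : ℂ, 0 < w.im → ∃ h, Sol W t z h ∧ h t = w := by
    intro w
    by_cases hw : 0 < w.im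
    · obtain ⟨h, he, H⟩ := exists_back hW ht hw
      exact ⟨h 0, fun _ => ⟨h, H, he⟩⟩
    · exact ⟨0, fun h => absurd h hw⟩
  choose Φ hΦ using hex
  refine ⟨Φ, ?_, ?_, ?_, hΦ⟩
  · intro w hw
    have hw0 : 0 < w.im := hw
    obtain ⟨h, H, he⟩ := hΦ w hw
    set δ : ℝ := w.im / 2 with hδ
    have hδ0 : 0 < δ := by positivity
    set I0 : ℂ := ∫ u in (0:ℝ)..t, 2 / ((h u - W u) * (h u - W u)) with hI0
    have hder : HasDerivAt Φ (Complex.exp I0) w := by
      rw [hasDerivAt_iff_tendsto_slope]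
      -- the integral as a function of `w'`
      have key : ∀ w' ∈ Metric.ball w δ, ∃ I : ℂ, Φ w' - Φ w = (w' - w) * Complex.exp I ∧
          ‖I - I0‖ ≤ t * (2 / δ ^ 3 * Real.exp (4 / δ ^ 2 * t)) * ‖w' - w‖ := by
        intro w' hw'
        rw [Metric.mem_ball, dist_eq_norm] at hw'
        have h1 : δ ≤ w'.im := by
          have e1 := Complex.abs_im_le_norm (w' - w)
          rw [Complex.sub_im] at e1
          have e2 := (abs_le.1 (e1.trans hw'.le)).1
          linarith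
        obtain ⟨h', H', he'⟩ := hΦ w' (hδ0.trans_le h1)
        refine ⟨∫ u in (0:ℝ)..t, 2 / ((h' u - W u) * (h u - W u)), ?_, ?_⟩
        · have h2 := H'.diff_formula hW H ht'
          rw [he, he'] at h2
          exact h2.symm
        · have c1 := H'.kernel_cont hW H
          have c2 := H.kernel_cont hW H
          have i1 : IntervalIntegrable (fun u => 2 / ((h' u - W u) * (h u - W u))) volume 0 t := by
            apply ContinuousOn.intervalIntegrable
            rwa [uIcc_of_le ht]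
          have i2 : IntervalIntegrable (fun u => 2 / ((h u - W u) * (h u - W u))) volume 0 t := by
            apply ContinuousOn.intervalIntegrable
            rwa [uIcc_of_le ht]
          rw [hI0, ← intervalIntegral.integral_sub i1 i2]
          have h3 := intervalIntegral.norm_integral_le_of_norm_le_const (a := (0:ℝ)) (b := t)
            (f := fun u => 2 / ((h' u - W u) * (h u - W u)) - 2 / ((h u - W u) * (h u - W u)))
            (C := 2 / δ ^ 3 * Real.exp (4 / δ ^ 2 * t) * ‖w' - w‖) (by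
              intro u hu
              rw [uIoc_of_le ht] at hu
              have hu' : u ∈ Icc 0 t := ⟨hu.1.le, hu.2⟩
              have n1 := H.ne hu'
              have n2 := H'.ne hu'
              have d1 : δ ≤ ‖h u - W u‖ := by
                apply le_norm_sub_real
                have := H.im_anti hu' ht' hu'.2
                simp only [he] at this
                linarith
              have d2 : δ ≤ ‖h' u - W u‖ := by
                apply le_norm_sub_real
                have := H'.im_anti hu' ht' hu'.2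
                simp only [he'] at this
                linarith
              have e1 : 2 / ((h' u - W u) * (h u - W u)) - 2 / ((h u - W u) * (h u - W u)) =
                  -(2 * (h' u - h u)) / ((h' u - W u) * (h u - W u) * (h u - W u)) := by
                field_simp
                ring
              rw [e1, norm_div, norm_neg, norm_mul, norm_mul, norm_mul]
              have e5 : ‖(2 : ℂ)‖ = 2 := by simp
              rw [e5]
              have h4 := H'.close hW ht H hδ0 (by rw [he']; exact h1) (by rw [he]; linarith) hu'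
              rw [he, he'] at h4
              calc 2 * ‖h' u - h u‖ / (‖h' u - W u‖ * ‖h u - W u‖ * ‖h u - W u‖)
                  ≤ 2 * (Real.exp (4 / δ ^ 2 * t) * ‖w' - w‖) / (δ * δ * δ) := by gcongr
                _ = 2 / δ ^ 3 * Real.exp (4 / δ ^ 2 * t) * ‖w' - w‖ := by
                  field_simp)
          rw [sub_zero, abs_of_nonneg ht] at h3
          refine h3.trans (le_of_eq ?_)
          ring
      rw [Metric.tendsto_nhds]
      intro ε hε
      have hcexp : Tendsto Complex.exp (𝓝 I0) (𝓝 (Complex.exp I0)) := Complex.continuous_exp.tendsto _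
      rw [Metric.tendsto_nhds] at hcexp
      obtain ⟨ε', hε', hball⟩ := Metric.eventually_nhds_iff.1 (hcexp ε hε)
      set C : ℝ := t * (2 / δ ^ 3 * Real.exp (4 / δ ^ 2 * t)) + 1 with hC
      have hC0 : 0 < C := by positivity
      have hnb : Metric.ball w (min δ (ε' / C)) ∈ 𝓝[≠] w :=
        mem_nhdsWithin_of_mem_nhds (Metric.ball_mem_nhds w (lt_min hδ0 (by positivity)))
      filter_upwards [hnb, self_mem_nhdsWithin] with w' h1 h2
      have h1' : w' ∈ Metric.ball w δ := Metric.ball_subset_ball (min_le_left _ _) h1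
      obtain ⟨I, hI1, hI2⟩ := key w' h1'
      have hne : w' - w ≠ 0 := sub_ne_zero.2 h2
      have h3 : slope Φ w w' = Complex.exp I := by
        rw [slope_def_field, hI1, mul_div_assoc, mul_div_cancel₀ _ hne]
      rw [h3]
      apply hball
      rw [dist_eq_norm]
      rw [Metric.mem_ball, dist_eq_norm] at h1
      have h4 : ‖w' - w‖ < ε' / C := h1.trans_le (min_le_right _ _)
      rw [lt_div_iff₀ hC0] at h4
      calc ‖I - I0‖ ≤ t * (2 / δ ^ 3 * Real.exp (4 / δ ^ 2 * t)) * ‖w' - w‖ := hI2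
        _ ≤ C * ‖w' - w‖ := by
          apply mul_le_mul_of_nonneg_right _ (norm_nonneg _)
          rw [hC]
          linarith
        _ < ε' := by linarith
    exact hder.differentiableAt.differentiableWithinAt
  · intro w hw w' hw' he
    obtain ⟨h, H, hh⟩ := hΦ w hw
    obtain ⟨h', H', hh'⟩ := hΦ w' hw'
    rw [← he] at H'
    rw [← hh, ← hh']
    exact Sol.unique hW H H' t ht'
  · ext z
    constructor
    · rintro ⟨hz, h, H⟩
      have h1 : 0 < (h t).im := H.pos t ht'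
      obtain ⟨h', H', he⟩ := hΦ (h t) h1
      exact ⟨h t, h1, Sol.inj hW ht H' H he⟩
    · rintro ⟨w, hw, rfl⟩
      obtain ⟨h', H', -⟩ := hΦ w hw
      exact mem_Dom ht H'

lemma Dom_isOpen (hW : ContinuousOn W (Icc 0 t)) (ht : 0 ≤ t) : IsOpen (Dom W t) := by
  obtain ⟨Φ, hd, hi, he, -⟩ := exists_inv_flow hW ht
  rw [he]
  exact Pool.Agent.H83.Lo.isOpen_image Pool.Agent.H83.Lo.isOpen_UH hd hi

lemma Dom_preconn (hW : ContinuousOn W (Icc 0 t)) (ht : 0 ≤ t) : IsPreconnected (Dom W t) := by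
  obtain ⟨Φ, hd, hi, he, -⟩ := exists_inv_flow hW ht
  rw [he]
  exact (convex_halfSpace_im_gt 0).isPreconnected.image _ hd.continuousOn

lemma Dom_unbdd (hW : ContinuousOn W (Icc 0 t)) (ht : 0 ≤ t) : ¬ IsBounded (Dom W t) := by
  obtain ⟨Φ, -, -, -, hΦ⟩ := exists_inv_flow hW ht
  have ht' : t ∈ Icc 0 t := ⟨ht, le_rfl⟩
  intro hbd
  obtain ⟨R, hR⟩ := hbd.exists_norm_le
  set w : ℂ := ⟨0, |R| + 1⟩ with hw
  have hw0 : 0 < w.im := by
    change 0 < |R| + 1
    positivity
  obtain ⟨h, H, he⟩ := hΦ w hw0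
  have h1 := hR _ (mem_Dom ht H)
  have h2 := H.im_anti ⟨le_rfl, ht⟩ ht' ht
  simp only at h2
  rw [he, H.init] at h2
  have h3 := (le_abs_self _).trans (Complex.abs_im_le_norm (Φ w))
  have h4 : |R| + 1 ≤ R := h2.trans (h3.trans h1)
  have := le_abs_self R
  linarith

lemma flow_bij (hW : ContinuousOn W (Icc 0 t)) (ht : 0 ≤ t) : BijOn (flow W t) (Dom W t) UH := by
  refine ⟨?_, ?_, ?_⟩
  · rintro z ⟨-, h, H⟩
    rw [flow_eq hW ht H]
    exact H.pos t ⟨ht, le_rfl⟩
  · rintro z ⟨-, h, H⟩ z' ⟨-, h', H'⟩ he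
    rw [flow_eq hW ht H, flow_eq hW ht H'] at he
    exact Sol.inj hW ht H H' he
  · intro w hw
    obtain ⟨h, he, H⟩ := exists_back hW ht hw
    refine ⟨h 0, mem_Dom ht H, ?_⟩
    rw [flow_eq hW ht H, he]

lemma flow_diff (hW : ContinuousOn W (Icc 0 t)) (ht : 0 ≤ t) :
    DifferentiableOn ℂ (flow W t) (Dom W t) := by
  obtain ⟨Φ, hd, hi, he, hΦ⟩ := exists_inv_flow hW ht
  rw [he]
  apply Pool.Agent.H83.Lo.differentiableOn_inv Pool.Agent.H83.Lo.isOpen_UH hd hi
  intro w hw
  obtain ⟨h, H, hh⟩ := hΦ w hw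
  rw [flow_eq hW ht H, hh]

/-- Far points are not swallowed. -/
lemma far_Dom (hW : ContinuousOn W (Icc 0 t)) (ht : 0 ≤ t) {B : ℝ}
    (hB : ∀ s ∈ Icc 0 t, |W s| ≤ B) {z : ℂ} (hz : 0 < z.im) (hzB : 4 * B ≤ ‖z‖)
    (hzt : 16 * t ≤ ‖z‖ ^ 2) : z ∈ Dom W t :=
  ⟨hz, exists_far hW ht hB hz hzB hzt⟩

/-- **The Loewner flow gives the hydrodynamically normalised maps.** -/
theorem Hyd_dom (hW : ContinuousOn W (Icc 0 t)) (ht : 0 ≤ t) :
    Hyd (Dom W t) (flow W t) (2 * t) := by
  obtain ⟨B, hB⟩ : ∃ B, ∀ s ∈ Icc 0 t, |W s| ≤ B := by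
    obtain ⟨B, hB⟩ := (isCompact_Icc.image_of_continuousOn hW).isBounded.exists_norm_le
    exact ⟨B, fun s hs => hB _ ⟨s, hs, rfl⟩⟩
  have hB0 : 0 ≤ B := (abs_nonneg _).trans (hB 0 ⟨le_rfl, ht⟩)
  set R : ℝ := 4 * B + 18 * t + 1 with hR
  have hR1 : 1 ≤ R := by
    rw [hR]
    nlinarith
  have hfar : ∀ z : ℂ, R < ‖z‖ → 4 * B ≤ ‖z‖ ∧ 18 * t ≤ ‖z‖ ^ 2 ∧ 18 * t ≤ ‖z‖ ∧ 1 ≤ ‖z‖ := by
    intro z hz
    have h1 : 1 ≤ ‖z‖ := hR1.trans hz.le
    have h2 : 18 * t ≤ ‖z‖ := by
      have : 18 * t ≤ R := by rw [hR]; linarith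
      linarith
    refine ⟨?_, ?_, h2, h1⟩
    · have : 4 * B ≤ R := by
        rw [hR]
        have : 0 ≤ 18 * t := by positivity
        linarith
      linarith
    · nlinarith
  refine ⟨Dom_isOpen hW ht, fun z hz => hz.1, ⟨R, ?_⟩, flow_diff hW ht, flow_bij hW ht, ?_⟩
  · intro z hz hzU
    obtain ⟨h1, h2, -, -⟩ := hfar z hz
    exact far_Dom hW ht hB hzU h1 (by linarith)
  -- the expansion at infinity
  set K : ℝ := 1 + B with hK
  have hK0 : 0 ≤ K := by positivity
  have key : ∀ z : ℂ, R < ‖z‖ → z ∈ UH → ‖z * (flow W t z - z) - 2 * t‖ ≤ 4 * K * t / ‖z‖ := by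
    intro z hzR hzU
    obtain ⟨h1, h2, h3, h4⟩ := hfar z hzR
    have hz0 : z ≠ 0 := norm_pos_iff.1 (by linarith)
    obtain ⟨h, H⟩ := exists_far hW ht hB hzU h1 (by linarith)
    have hnear := H.near hB hz0 h1 h2
    rw [flow_eq hW ht H]
    have hzn : 0 < ‖z‖ := by linarith
    have hd : ∀ s ∈ Icc 0 t, HasDerivWithinAt (fun s : ℝ => h s - (s : ℂ) * (2 / z))
        (2 / (h s - W s) - 2 / z) (Icc 0 t) s := by
      intro s hs
      have h1 := H.ode s hs
      have h2 : HasDerivWithinAt (fun s : ℝ => (s : ℂ) * (2 / z)) (2 / z) (Icc 0 t) s := by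
        have h3 : HasDerivAt (fun s : ℝ => (s : ℂ)) 1 s := Complex.ofRealCLM.hasDerivAt
        have h4 := (h3.mul_const (2 / z)).hasDerivWithinAt (s := Icc 0 t)
        rwa [one_mul] at h4
      exact h1.sub h2
    have hbd : ∀ s ∈ Icc 0 t, ‖2 / (h s - W s) - 2 / z‖ ≤ 4 * K / ‖z‖ ^ 2 := by
      intro s hs
      have g1 : ‖h s - z‖ ≤ 1 / 2 := by
        refine (hnear s hs).trans ?_
        rw [div_mul_eq_mul_div, div_le_div_iff₀ hzn (by norm_num)]
        have := hs.2
        linarith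
      have g2 : ‖(W s : ℂ)‖ ≤ B := by
        rw [Complex.norm_real]
        exact hB s hs
      have g3 : ‖(h s - W s) - z‖ ≤ K := by
        calc ‖(h s - W s) - z‖ = ‖(h s - z) - (W s : ℂ)‖ := by ring_nf
          _ ≤ 1 / 2 + B := (norm_sub_le _ _).trans (add_le_add g1 g2)
          _ ≤ K := by rw [hK]; linarith
      have g4 : ‖z‖ / 2 ≤ ‖h s - W s‖ := by
        have g5 : ‖z‖ ≤ ‖h s - W s‖ + ‖h s - z‖ + ‖(W s : ℂ)‖ := by
          calc ‖z‖ = ‖((h s - W s) - (h s - z)) + (W s : ℂ)‖ := by ring_nf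
            _ ≤ _ := (norm_add_le _ _).trans (add_le_add (norm_sub_le _ _) le_rfl)
        have g6 : R = 4 * B + 18 * t + 1 := hR
        have : 0 ≤ 18 * t := by positivity
        linarith
      have g5 : h s - W s ≠ 0 := H.ne hs
      have e : 2 / (h s - W s) - 2 / z = - (2 * ((h s - W s) - z)) / ((h s - W s) * z) := by
        field_simp
        ring
      rw [e, norm_div, norm_neg, norm_mul, norm_mul]
      have e3 : ‖(2 : ℂ)‖ = 2 := by simp
      rw [e3]
      calc 2 * ‖(h s - W s) - z‖ / (‖h s - W s‖ * ‖z‖) ≤ 2 * K / (‖z‖ / 2 * ‖z‖) := by gcongr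
        _ = 4 * K / ‖z‖ ^ 2 := by
          field_simp
          ring
    have h1 := (convex_Icc (0:ℝ) t).norm_image_sub_le_of_norm_hasDerivWithin_le hd hbd
      (⟨le_rfl, ht⟩ : (0:ℝ) ∈ Icc 0 t) (⟨ht, le_rfl⟩ : t ∈ Icc 0 t)
    simp only [Complex.ofReal_zero, zero_mul, sub_zero, H.init, Real.norm_eq_abs,
      abs_of_nonneg ht] at h1
    have e : z * (h t - z) - 2 * t = z * (h t - (t : ℂ) * (2 / z) - z) := by
      field_simp
      ring
    rw [e, norm_mul]
    calc ‖z‖ * ‖h t - (t : ℂ) * (2 / z) - z‖ ≤ ‖z‖ * (4 * K / ‖z‖ ^ 2 * t) := by gcongr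
      _ = 4 * K * t / ‖z‖ := by
        field_simp
  rw [tendsto_iff_norm_sub_tendsto_zero]
  have hlim0 : Tendsto (fun z : ℂ => 4 * K * t / ‖z‖) Pool.Agent.H83.Lo.atUH (𝓝 0) :=
    Pool.Agent.H83.Lo.tendsto_norm_atUH.const_div_atTop _
  apply squeeze_zero' (Eventually.of_forall (fun _ => norm_nonneg _)) _ hlim0
  rw [Pool.Agent.H83.Lo.eventually_atUH]
  refine ⟨R, ?_⟩
  intro z hz hzU
  have := key z hz hzU
  push_cast
  exact this

/-- The hulls grow strictly. -/
theorem Dom_ne {s : ℝ} (hW : ContinuousOn W (Icc 0 t)) (hs : 0 ≤ s) (hst : s < t) :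
    Dom W t ≠ Dom W s := by
  intro he
  have h1 := Hyd_dom hW (hs.trans hst.le)
  have h2 := Hyd_dom (hW.mono (Icc_subset_Icc_right hst.le)) hs
  rw [he] at h1
  have := (h1.unique h2).2
  linarith

end Pool.Agent.H96.M7
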