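import Mathlib
import Pool.Agent.H96.M7.Ode2

set_option autoImplicit false
open Set Filter Topology MeasureTheory Bornology
open Pool.Agent.H83.Lo (Hyd UH)

/-! The unbounded part of the complement of a curve in the upper half plane; the curve is
determined by its hulls, and bounded in terms of the driving function. -/

namespace Pool.Agent.H96.M7

/-- The unbounded part of the complement of the curve in the upper half plane. -/
def Ext (β : ℝ → ℂ) (t : ℝ) : Set ℂ :=
  {z | z ∈ UH \ β '' Icc 0 t ∧ ¬ IsBounded (connectedComponentIn (UH \ β '' Icc 0 t) z)}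

lemma isOpen_UH' : IsOpen UH := isOpen_lt continuous_const Complex.continuous_im

section
variable {β : ℝ → ℂ} {t : ℝ}

lemma isOpen_compl_curve (hβ : ContinuousOn β (Icc 0 t)) : IsOpen (UH \ β '' Icc 0 t) :=
  isOpen_UH'.sdiff (isCompact_Icc.image_of_continuousOn hβ).isClosed

/-- `Ext` is one connected component, containing a neighbourhood of infinity. -/
lemma ext_eq (hβ : ContinuousOn β (Icc 0 t)) : ∃ p ∈ UH \ β '' Icc 0 t,
    Ext β t = connectedComponentIn (UH \ β '' Icc 0 t) p ∧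
      ∃ R, ∀ w, R < ‖w‖ → w ∈ UH → w ∈ Ext β t := by
  obtain ⟨ρ, hρ⟩ := (isCompact_Icc.image_of_continuousOn hβ).isBounded.exists_norm_le
  set ρ' : ℝ := max ρ 0 + 1 with hρ'
  have hρ'0 : 0 < ρ' := by positivity
  have hsub : {w : ℂ | ρ' < ‖w‖ ∧ w ∈ UH} ⊆ UH \ β '' Icc 0 t := by
    rintro w ⟨hw, hwU⟩
    refine ⟨hwU, ?_⟩
    intro hu
    have := hρ w hu
    have := le_max_left ρ 0
    linarith
  have hunb : ∀ R : ℝ, ∃ w ∈ {w : ℂ | ρ' < ‖w‖ ∧ w ∈ UH}, R < ‖w‖ := by
    intro R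
    set p : ℂ := ⟨0, |R| + ρ' + 1⟩ with hp
    have hpim : p.im = |R| + ρ' + 1 := rfl
    have hR0 := abs_nonneg R
    have hpn : |R| + ρ' + 1 ≤ ‖p‖ := by
      rw [← hpim]
      exact (le_abs_self _).trans (Complex.abs_im_le_norm p)
    have := le_abs_self R
    refine ⟨p, ⟨by linarith, ?_⟩, by linarith⟩
    change 0 < p.im
    rw [hpim]
    positivity
  obtain ⟨p, hp, -⟩ := hunb 0
  have h1 := (Pool.Agent.H83.Lo.isPreconnected_ext ρ' hρ'0).subset_connectedComponentIn hp hsub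
  have e : Ext β t = connectedComponentIn (UH \ β '' Icc 0 t) p := by
    ext z
    constructor
    · rintro ⟨hz, hb⟩
      obtain ⟨q, hq, hqn⟩ : ∃ q ∈ connectedComponentIn (UH \ β '' Icc 0 t) z, ρ' < ‖q‖ := by
        by_contra! hcon
        exact hb (isBounded_iff_forall_norm_le.2 ⟨ρ', hcon⟩)
      have hqU : q ∈ UH := (connectedComponentIn_subset _ _ hq).1
      have h2 : q ∈ connectedComponentIn (UH \ β '' Icc 0 t) p := h1 ⟨hqn, hqU⟩
      rw [connectedComponentIn_eq h2, ← connectedComponentIn_eq hq]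
      exact mem_connectedComponentIn hz
    · intro hz
      refine ⟨connectedComponentIn_subset _ _ hz, ?_⟩
      rw [← connectedComponentIn_eq hz]
      intro hb
      obtain ⟨R, hR⟩ := isBounded_iff_forall_norm_le.1 (hb.subset h1)
      obtain ⟨w, hw, hwR⟩ := hunb R
      have := hR w hw
      linarith
  refine ⟨p, hsub hp, e, ρ', ?_⟩
  intro w hw hwU
  rw [e]
  exact h1 ⟨hw, hwU⟩

lemma ext_isOpen (hβ : ContinuousOn β (Icc 0 t)) : IsOpen (Ext β t) := by
  obtain ⟨p, -, e, -⟩ := ext_eq hβ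
  rw [e]
  exact (isOpen_compl_curve hβ).connectedComponentIn

lemma ext_preconn (hβ : ContinuousOn β (Icc 0 t)) : IsPreconnected (Ext β t) := by
  obtain ⟨p, -, e, -⟩ := ext_eq hβ
  rw [e]
  exact isPreconnected_connectedComponentIn

lemma ext_nonempty (hβ : ContinuousOn β (Icc 0 t)) : (Ext β t).Nonempty := by
  obtain ⟨p, hp, e, -⟩ := ext_eq hβ
  rw [e]
  exact ⟨p, mem_connectedComponentIn hp⟩

lemma ext_anti {s : ℝ} (hst : s ≤ t) : Ext β t ⊆ Ext β s := by
  rintro z ⟨hz, hb⟩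
  have hsub : UH \ β '' Icc 0 t ⊆ UH \ β '' Icc 0 s :=
    sdiff_subset_sdiff_right (image_mono (Icc_subset_Icc_right hst))
  refine ⟨hsub hz, ?_⟩
  intro hb'
  exact hb (hb'.subset (connectedComponentIn_mono z hsub))

/-- Points of the frontier of the domain in the half plane lie on the curve. -/
lemma frontier_ext (hβ : ContinuousOn β (Icc 0 t)) {q : ℂ} (hq : q ∈ closure (Ext β t))
    (hqn : q ∉ Ext β t) (hqU : q ∈ UH) : q ∈ β '' Icc 0 t := by
  by_contra hcon
  obtain ⟨ε, hε, hball⟩ := Metric.isOpen_iff.1 (isOpen_compl_curve hβ) q ⟨hqU, hcon⟩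
  obtain ⟨y, hy, hyq⟩ := Metric.mem_closure_iff.1 hq ε hε
  apply hqn
  refine ⟨⟨hqU, hcon⟩, ?_⟩
  have h1 : y ∈ connectedComponentIn (UH \ β '' Icc 0 t) q := by
    apply (convex_ball q ε).isPreconnected.subset_connectedComponentIn (Metric.mem_ball_self hε)
      hball
    rw [Metric.mem_ball, dist_comm]
    exact hyq
  rw [connectedComponentIn_eq h1]
  exact hy.2

end

/-- A point of the curve on the frontier of the later domain, inside the earlier domain. -/
lemma exists_frontier {D E : Set ℂ} (hD : IsOpen D) (hEc : IsPreconnected E)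
    (hDE : D ⊆ E) (hne : D ≠ E) (hDn : D.Nonempty) : ∃ q ∈ E, q ∈ closure D ∧ q ∉ D := by
  by_contra! hcon
  apply hne
  apply hDE.antisymm
  have h1 : E ⊆ D ∪ (closure D)ᶜ := by
    intro z hz
    by_cases h : z ∈ closure D
    · exact Or.inl (hcon z hz h)
    · exact Or.inr h
  have h2 := hEc.subset_left_of_subset_union hD isClosed_closure.isOpen_compl
    (by
      rw [Set.disjoint_left]
      intro z hz hz'
      exact hz' (subset_closure hz)) h1 (by
      obtain ⟨z, hz⟩ := hDn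
      exact ⟨z, hDE hz, hz⟩)
  exact h2

/-- **The curve is determined by its hulls.** -/
theorem curve_unique {β β' : ℝ → ℂ} {D : ℝ → Set ℂ} {T : ℝ} (hβ : ContinuousOn β (Icc 0 T))
    (hβ' : ContinuousOn β' (Icc 0 T)) (h : ∀ t ∈ Icc 0 T, Ext β t = D t)
    (h' : ∀ t ∈ Icc 0 T, Ext β' t = D t) (hne : ∀ s t, 0 ≤ s → s < t → t ≤ T → D t ≠ D s) :
    ∀ t ∈ Ico 0 T, β t = β' t := by
  intro t ht
  have htT : t ∈ Icc 0 T := ⟨ht.1, ht.2.le⟩
  have key : ∀ s, t < s → s ≤ T → ∃ u ∈ Ioc t s, ∃ u' ∈ Ioc t s, β u = β' u' := by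
    intro s hts hsT
    have hs : s ∈ Icc 0 T := ⟨ht.1.trans hts.le, hsT⟩
    have c1 : ContinuousOn β (Icc 0 s) := hβ.mono (Icc_subset_Icc_right hsT)
    have c2 : ContinuousOn β (Icc 0 t) := hβ.mono (Icc_subset_Icc_right ht.2.le)
    have c1' : ContinuousOn β' (Icc 0 s) := hβ'.mono (Icc_subset_Icc_right hsT)
    obtain ⟨q, hq, hqc, hqn⟩ := exists_frontier (ext_isOpen c1) (ext_preconn c2)
      (ext_anti hts.le) (by
        rw [h s hs, h t htT]
        exact hne t s ht.1 hts hsT) (ext_nonempty c1)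
    have hqU : q ∈ UH := hq.1.1
    obtain ⟨u, hu, hue⟩ := frontier_ext c1 hqc hqn hqU
    have hq' : q ∈ Ext β' t := by rw [h' t htT, ← h t htT]; exact hq
    obtain ⟨u', hu', hue'⟩ := frontier_ext c1' (by rw [h' s hs, ← h s hs]; exact hqc)
      (by rw [h' s hs, ← h s hs]; exact hqn) hqU
    refine ⟨u, ⟨?_, hu.2⟩, u', ⟨?_, hu'.2⟩, by rw [hue, hue']⟩
    · by_contra hcon
      exact hq.1.2 ⟨u, ⟨hu.1, not_lt.1 hcon⟩, hue⟩
    · by_contra hcon
      exact hq'.1.2 ⟨u', ⟨hu'.1, not_lt.1 hcon⟩, hue'⟩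
  rw [← dist_le_zero]
  apply le_of_forall_pos_le_add
  intro ε hε
  have hc := hβ t htT
  have hc' := hβ' t htT
  rw [Metric.continuousWithinAt_iff] at hc hc'
  obtain ⟨δ, hδ, h1⟩ := hc (ε / 2) (by positivity)
  obtain ⟨δ', hδ', h1'⟩ := hc' (ε / 2) (by positivity)
  set s : ℝ := min T (t + min δ δ' / 2) with hs
  have hm : 0 < min δ δ' := lt_min hδ hδ'
  have hts : t < s := lt_min ht.2 (by linarith)
  obtain ⟨u, hu, u', hu', he⟩ := key s hts (min_le_left _ _)
  have hsb : s ≤ t + min δ δ' / 2 := min_le_right _ _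
  have e1 := h1 (x := u) ⟨ht.1.trans hu.1.le, hu.2.trans (min_le_left _ _)⟩ (by
    rw [Real.dist_eq, abs_of_pos (by linarith [hu.1])]
    have := min_le_left δ δ'
    linarith [hu.2])
  have e2 := h1' (x := u') ⟨ht.1.trans hu'.1.le, hu'.2.trans (min_le_left _ _)⟩ (by
    rw [Real.dist_eq, abs_of_pos (by linarith [hu'.1])]
    have := min_le_right δ δ'
    linarith [hu'.2])
  rw [he] at e1
  calc dist (β t) (β' t) ≤ dist (β t) (β' u') + dist (β' u') (β' t) := dist_triangle _ _ _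
    _ ≤ ε / 2 + ε / 2 := by
      rw [dist_comm (β t)]
      exact add_le_add e1.le e2.le
    _ = 0 + ε := by ring

/-- **The trace is determined by the driving function.** -/
theorem trace_unique {W : ℝ → ℝ} {β β' : ℝ → ℂ} {T : ℝ} (hW : ContinuousOn W (Icc 0 T))
    (hβ : ContinuousOn β (Icc 0 T)) (hβ' : ContinuousOn β' (Icc 0 T))
    (h : ∀ t ∈ Icc 0 T, Dom W t = Ext β t) (h' : ∀ t ∈ Icc 0 T, Dom W t = Ext β' t) :
    ∀ t ∈ Ico 0 T, β t = β' t :=
  curve_unique hβ hβ' (D := Dom W) (fun t ht => (h t ht).symm) (fun t ht => (h' t ht).symm)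
    (fun _ _ hs hst htT => Dom_ne (hW.mono (Icc_subset_Icc_right htT)) hs hst)

/-- **The trace is bounded in terms of the driving function.** -/
theorem trace_bound {W : ℝ → ℝ} {β : ℝ → ℂ} {T : ℝ} (hW : ContinuousOn W (Icc 0 T))
    (hβ : ContinuousOn β (Icc 0 T)) (h : ∀ t ∈ Icc 0 T, Dom W t = Ext β t) {t : ℝ}
    (ht : t ∈ Ico 0 T) {B : ℝ} (hB : ∀ s ∈ Icc 0 t, |W s| ≤ B) : ‖β t‖ ≤ max (4 * B) (4 * √t) := by
  by_contra! hcon
  set R : ℝ := max (4 * B) (4 * √t) with hR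
  have htT : t ∈ Icc 0 T := ⟨ht.1, ht.2.le⟩
  have hR0 : 0 ≤ R := le_max_of_le_right (by positivity)
  obtain ⟨R', hRR, hRβ⟩ := exists_between hcon
  have hR'0 : 0 < R' := hR0.trans_lt hRR
  have hc1 := hW t htT
  have hc2 := hβ t htT
  rw [Metric.continuousWithinAt_iff] at hc1 hc2
  obtain ⟨ε₁, hε₁, h1⟩ := hc1 ((R' - R) / 4) (by linarith)
  obtain ⟨ε₂, hε₂, h2⟩ := hc2 (‖β t‖ - R') (by linarith)
  have hsq : 16 * t < R' ^ 2 := by
    have e1 : 4 * √t ≤ R := le_max_right _ _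
    have e2 : 0 ≤ √t := Real.sqrt_nonneg _
    have e3 : (√t) ^ 2 = t := Real.sq_sqrt ht.1
    nlinarith
  set ε : ℝ := min (min (ε₁ / 2) (ε₂ / 2)) (min (T - t) ((R' ^ 2 - 16 * t) / 16)) with hε
  have hε0 : 0 < ε := by
    apply lt_min (lt_min (by positivity) (by positivity)) (lt_min (by linarith [ht.2]) _)
    linarith
  have k1 : ε ≤ ε₁ / 2 := (min_le_left _ _).trans (min_le_left _ _)
  have k2 : ε ≤ ε₂ / 2 := (min_le_left _ _).trans (min_le_right _ _)
  have k3 : ε ≤ T - t := (min_le_right _ _).trans (min_le_left _ _)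
  have k4 : ε ≤ (R' ^ 2 - 16 * t) / 16 := (min_le_right _ _).trans (min_le_right _ _)
  set t' : ℝ := t + ε with ht'
  set s' : ℝ := max 0 (t - ε) with hs'
  have ht'T : t' ∈ Icc 0 T := ⟨by linarith [ht.1], by linarith⟩
  have hs't : s' ≤ t := max_le ht.1 (by linarith)
  have hs'0 : 0 ≤ s' := le_max_left _ _
  have hs't' : s' < t' := by linarith
  have hs'T : s' ∈ Icc 0 T := ⟨hs'0, by linarith [ht'T.2]⟩
  have hW' : ∀ u ∈ Icc 0 t', |W u| ≤ R' / 4 := by
    intro u hu
    by_cases hut : u ≤ t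
    · have e1 : 4 * B ≤ R := le_max_left _ _
      have := hB u ⟨hu.1, hut⟩
      linarith
    · push Not at hut
      have e1 := h1 (x := u) ⟨hu.1, hu.2.trans ht'T.2⟩ (by
        rw [Real.dist_eq, abs_of_pos (by linarith)]
        have := hu.2
        linarith)
      rw [Real.dist_eq] at e1
      have e2 : |W u| ≤ |W u - W t| + |W t| := by
        calc |W u| = |(W u - W t) + W t| := by ring_nf
          _ ≤ _ := abs_add_le _ _
      have e3 : 4 * B ≤ R := le_max_left _ _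
      have := hB t ⟨ht.1, le_rfl⟩
      linarith
  have hfar : ∀ z ∈ UH, R' ≤ ‖z‖ → z ∈ Ext β t' := by
    intro z hz hzR
    rw [← h t' ht'T]
    apply far_Dom (hW.mono (Icc_subset_Icc_right ht'T.2)) ht'T.1 hW' hz (by linarith)
    have : 16 * t' ≤ R' ^ 2 := by
      rw [ht']
      linarith
    nlinarith
  have hβ' : ∀ u ∈ Icc s' t', β u ∉ UH := by
    intro u hu hcon'
    have hut : |u - t| ≤ ε := by
      rw [abs_le]
      have := le_max_right 0 (t - ε)
      constructor <;> linarith [hu.1, hu.2]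
    have e1 := h2 (x := u) ⟨hs'0.trans hu.1, hu.2.trans ht'T.2⟩ (by
      rw [Real.dist_eq]
      linarith)
    rw [dist_eq_norm] at e1
    have e2 : ‖β t‖ ≤ ‖β u‖ + ‖β u - β t‖ := by
      calc ‖β t‖ = ‖β u - (β u - β t)‖ := by ring_nf
        _ ≤ _ := norm_sub_le _ _
    have e3 := hfar (β u) hcon' (by linarith)
    exact e3.1.2 ⟨u, ⟨hs'0.trans hu.1, hu.2⟩, rfl⟩
  have hset : UH \ β '' Icc 0 t' = UH \ β '' Icc 0 s' := by
    ext z
    constructor
    · rintro ⟨hz, hz'⟩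
      exact ⟨hz, fun hcon' => hz' (image_mono (Icc_subset_Icc_right hs't'.le) hcon')⟩
    · rintro ⟨hz, hz'⟩
      refine ⟨hz, ?_⟩
      rintro ⟨u, hu, rfl⟩
      by_cases hus : u ≤ s'
      · exact hz' ⟨u, ⟨hu.1, hus⟩, rfl⟩
      · exact hβ' u ⟨(not_le.1 hus).le, hu.2⟩ hz
  have hE : Ext β t' = Ext β s' := by
    unfold Ext
    rw [hset]
  apply Dom_ne (hW.mono (Icc_subset_Icc_right ht'T.2)) hs'0 hs't'
  rw [h t' ht'T, h s' hs'T, hE]

/-- Membership in `Ext` by paths. -/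
theorem mem_Ext_iff {β : ℝ → ℂ} {t : ℝ} (hβ : ContinuousOn β (Icc 0 t)) {z : ℂ} :
    z ∈ Ext β t ↔ ∃ Y₀ : ℝ, ∀ y : ℝ, Y₀ < y → JoinedIn (UH \ β '' Icc 0 t) z (y * Complex.I) := by
  constructor
  · intro hz
    obtain ⟨p, hp, he, R, hR⟩ := ext_eq hβ
    have hc : IsConnected (Ext β t) := ⟨⟨z, hz⟩, ext_preconn hβ⟩
    have hpc := ((ext_isOpen hβ).isConnected_iff_isPathConnected).1 hc
    refine ⟨max R 0, ?_⟩
    intro y hy
    have hy0 : 0 < y := (le_max_right _ _).trans_lt hy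
    have h1 : (y * Complex.I : ℂ) ∈ Ext β t := by
      apply hR
      · rw [norm_mul, Complex.norm_I, mul_one, Complex.norm_real, Real.norm_eq_abs,
          abs_of_pos hy0]
        exact (le_max_left _ _).trans_lt hy
      · rw [Pool.Agent.H83.Lo.mem_UH]
        simpa using hy0
    exact (hpc.joinedIn z hz _ h1).mono (fun w hw => hw.1)
  · rintro ⟨Y₀, hY⟩
    have h1 := hY (|Y₀| + 1) (by linarith [le_abs_self Y₀])
    refine ⟨h1.source_mem, ?_⟩
    intro hb
    obtain ⟨R, hR⟩ := isBounded_iff_forall_norm_le.1 hb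
    have hy : Y₀ < |Y₀| + |R| + 1 := by linarith [le_abs_self Y₀, abs_nonneg R]
    have h2 := hY _ hy
    have h3 : (((|Y₀| + |R| + 1 : ℝ) : ℂ) * Complex.I) ∈
        connectedComponentIn (UH \ β '' Icc 0 t) z := by
      obtain ⟨γ, hγ⟩ := h2
      have h4 : IsPreconnected (range γ) := isPreconnected_range γ.continuous
      apply h4.subset_connectedComponentIn ⟨0, γ.source⟩
      · rintro _ ⟨u, rfl⟩
        exact hγ u
      · exact ⟨1, γ.target⟩
    have h4 := hR _ h3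
    rw [norm_mul, Complex.norm_I, mul_one, Complex.norm_real, Real.norm_eq_abs,
      abs_of_pos (by positivity)] at h4
    have := le_abs_self R
    have := abs_nonneg Y₀
    linarith

/-- Membership in `Ext` by a path to one high point. -/
theorem mem_Ext_iff_one {β : ℝ → ℂ} {t Y : ℝ} (hβ : ContinuousOn β (Icc 0 t)) (hY0 : 0 < Y)
    (hY : ∀ u ∈ Icc 0 t, ‖β u‖ < Y) {z : ℂ} :
    z ∈ Ext β t ↔ JoinedIn (UH \ β '' Icc 0 t) z (Y * Complex.I) := by
  have hhigh : ∀ y : ℝ, Y ≤ y → (y * Complex.I : ℂ) ∈ UH \ β '' Icc 0 t := by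
    intro y hy
    refine ⟨?_, ?_⟩
    · rw [Pool.Agent.H83.Lo.mem_UH]
      simpa using hY0.trans_le hy
    · rintro ⟨u, hu, he⟩
      have h1 := hY u hu
      rw [he, norm_mul, Complex.norm_I, mul_one, Complex.norm_real, Real.norm_eq_abs,
        abs_of_pos (hY0.trans_le hy)] at h1
      linarith
  have hjoin : ∀ y : ℝ, Y ≤ y →
      JoinedIn (UH \ β '' Icc 0 t) ((Y : ℂ) * Complex.I) ((y : ℂ) * Complex.I) := by
    intro y hy
    apply JoinedIn.of_segment_subset
    intro w hw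
    rw [segment_eq_image_lineMap] at hw
    obtain ⟨θ, hθ, rfl⟩ := hw
    have e : AffineMap.lineMap ((Y : ℂ) * Complex.I) ((y : ℂ) * Complex.I) θ =
        (((Y + θ * (y - Y) : ℝ)) : ℂ) * Complex.I := by
      rw [AffineMap.lineMap_apply_module']
      simp only [Complex.real_smul]
      push_cast
      ring
    rw [e]
    apply hhigh
    have := hθ.1
    nlinarith
  rw [mem_Ext_iff hβ]
  constructor
  · rintro ⟨Y₀, h⟩
    have h1 := h (|Y₀| + Y + 1) (by linarith [le_abs_self Y₀])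
    exact h1.trans (hjoin _ (by linarith [abs_nonneg Y₀])).symm
  · intro h
    exact ⟨Y, fun y hy => h.trans (hjoin y hy.le)⟩

end Pool.Agent.H96.M7
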