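import Mathlib
import Pool.Agent.H96.M7.Trace
import Pool.Agent.H96.M7.Height

set_option autoImplicit false
open Set Filter Topology MeasureTheory Bornology
open Pool.Agent.H83.Lo (Hyd UH)

/-! Approximate Loewner chains and their limits: convergence of trajectories. -/

namespace Pool.Agent.H96.M7

/-- Quotient facts: `g₂ ∘ g₁⁻¹` is a hydrodynamically normalised map of capacity `a`. -/
structure QF (U₁ : Set ℂ) (g₁ : ℂ → ℂ) (U₂ : Set ℂ) (g₂ : ℂ → ℂ) (a : ℝ) : Prop where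
  sub : U₂ ⊆ U₁
  im : ∀ z ∈ U₂, (g₂ z).im ≤ (g₁ z).im
  disp : ∀ z ∈ U₂, ‖g₂ z - g₁ z‖ ≤ a / (g₂ z).im
  high : ∀ z ∈ U₁, 12 * a < (g₁ z).im ^ 2 → z ∈ U₂ ∧ (g₁ z).im / 2 ≤ (g₂ z).im

/-- The quotient facts from the quotient map. -/
lemma QF.of_quot {U₁ U₂ : Set ℂ} {g₁ g₂ G : ℂ → ℂ} {a : ℝ} (hsub : U₂ ⊆ U₁)
    (hm : MapsTo g₁ U₁ UH) (hi : InjOn g₁ U₁) (hG : Hyd (g₁ '' U₂) G a)
    (he : ∀ z ∈ U₂, G (g₁ z) = g₂ z) : QF U₁ g₁ U₂ g₂ a := by
  refine ⟨hsub, ?_, ?_, ?_⟩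
  · intro z hz
    have h3 := hG.im_le (z := g₁ z) ⟨z, hz, rfl⟩
    rwa [he z hz] at h3
  · intro z hz
    have h3 := hG.norm_sub_le (z := g₁ z) ⟨z, hz, rfl⟩
    rwa [he z hz] at h3
  · intro z hz h3
    obtain ⟨⟨z', hz', he'⟩, h5⟩ := Hyd_height hG (hm hz) h3
    have h6 := hi (hsub hz') hz he'
    subst h6
    rw [he _ hz'] at h5
    exact ⟨hz', h5⟩

lemma QF.of_hyd {U₁ U₂ : Set ℂ} {g₁ g₂ : ℂ → ℂ} {c₁ c₂ : ℝ} (h₁ : Hyd U₁ g₁ c₁)
    (h₂ : Hyd U₂ g₂ c₂) (hsub : U₂ ⊆ U₁) : QF U₁ g₁ U₂ g₂ (c₂ - c₁) := by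
  obtain ⟨S, hS⟩ := h₁.exists_inv
  exact QF.of_quot hsub h₁.bij.mapsTo h₁.bij.injOn (h₁.quot h₂ hsub hS)
    (fun z hz => by rw [hS.left z (hsub hz)])

/-- Approximate Loewner chains along a filter, in capacity time `s ∈ [0,T]`, with limit curve `β`
and limit driving function `W`. All data may be piecewise constant in time. -/
structure App {ι : Type*} (F : Filter ι) (T Y : ℝ) (β : ℝ → ℂ) (W : ℝ → ℝ) (U : ι → ℝ → Set ℂ)
    (g : ι → ℝ → ℂ → ℂ) (V : ι → ℝ → ℝ) (c : ι → ℝ → ℝ) : Prop where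
  βc : ContinuousOn β (Icc 0 T)
  Wc : ContinuousOn W (Icc 0 T)
  diff : ∀ᶠ i in F, ∀ s ∈ Icc 0 T, DifferentiableOn ℂ (g i s) (U i s)
  bij : ∀ᶠ i in F, ∀ s ∈ Icc 0 T, BijOn (g i s) (U i s) UH
  qf : ∀ᶠ i in F, ∀ s ∈ Icc 0 T, ∀ t ∈ Icc 0 T, s ≤ t →
    QF (U i s) (g i s) (U i t) (g i t) (c i t - c i s)
  init : ∀ K : Set ℂ, IsCompact K → K ⊆ UH → ∀ ε > 0, ∀ᶠ i in F, K ⊆ U i 0 ∧
    ∀ z ∈ K, ‖g i 0 z - z‖ ≤ ε
  cap : ∀ s ∈ Icc 0 T, Tendsto (fun i => c i s) F (𝓝 (2 * s))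
  drv : ∀ s ∈ Icc 0 T, Tendsto (fun i => V i s) F (𝓝 (W s))
  step : ∀ δ > 0, ∀ ε > 0, ∃ η > 0, ∀ s ∈ Icc 0 T, ∀ t ∈ Icc 0 T, s ≤ t → t - s ≤ η →
    ∀ᶠ i in F, ∀ z ∈ U i t, δ ≤ (g i t z).im →
      ‖g i t z - g i s z - 2 * ((t - s : ℝ) : ℂ) / (g i s z - V i s)‖ ≤ ε * (t - s)
  past : ∀ s ∈ Icc 0 T, ∀ u ∈ Icc 0 s, ∃ p : ι → ℂ, Tendsto p F (𝓝 (β u)) ∧
    ∀ᶠ i in F, p i ∉ U i s
  Yβ : ∀ u ∈ Icc 0 T, ‖β u‖ < Y
  YT : 48 * T < Y ^ 2
  vis : ∀ s ∈ Icc 0 T, ∀ Γ : Set ℂ, IsCompact Γ → IsPreconnected Γ →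
    Γ ⊆ UH \ β '' Icc 0 s → (Y * Complex.I : ℂ) ∈ Γ → ∀ᶠ i in F, Γ ⊆ U i s

variable {ι : Type*} {F : Filter ι} {T Y : ℝ} {β : ℝ → ℂ} {W : ℝ → ℝ} {U : ι → ℝ → Set ℂ}
  {g : ι → ℝ → ℂ → ℂ} {V : ι → ℝ → ℝ} {c : ι → ℝ → ℝ}

/-- Points with a solution of the limit equation survive, with uniform convergence. -/
theorem App.surv (A : App F T Y β W U g V c) {t : ℝ} (ht : t ∈ Icc 0 T) {z : ℂ} {h : ℝ → ℂ}
    (H : Sol W t z h) {ε : ℝ} (hε : 0 < ε) :
    ∃ η > 0, ∀ᶠ i in F, ∀ z', ‖z' - z‖ ≤ η → z' ∈ U i t ∧ ‖g i t z' - h t‖ ≤ ε := by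
  have hWt : ContinuousOn W (Icc 0 t) := A.Wc.mono (Icc_subset_Icc_right ht.2)
  have htt : t ∈ Icc 0 t := ⟨ht.1, le_rfl⟩
  set δ : ℝ := (h t).im / 2 with hδ
  have hδ0 : 0 < δ := by
    have := H.pos t htt
    positivity
  have h2 : ∀ s ∈ Icc 0 t, 2 * δ ≤ (h s).im := by
    intro s hs
    have := H.im_anti hs htt hs.2
    simp only at this
    linarith
  obtain ⟨η₀, hη₀, hclose⟩ := H.euler_close hWt hδ0 h2 hε
  obtain ⟨η₁, hη₁, hstep⟩ := A.step (δ / 2) (by positivity) η₀ hη₀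
  have hz0 : 2 * δ ≤ z.im := by
    have := h2 0 ⟨le_rfl, ht.1⟩
    rwa [H.init] at this
  -- the partition
  set μ : ℝ := min (min η₀ η₁) (δ ^ 2 / 25) with hμ
  have hμ0 : 0 < μ := lt_min (lt_min hη₀ hη₁) (by positivity)
  obtain ⟨m, hm⟩ := exists_nat_gt (t / μ)
  have ht0 : 0 ≤ t := ht.1
  have hm0 : (0:ℝ) < m := lt_of_le_of_lt (by positivity) hm
  have hm0' : 0 < m := by exact_mod_cast hm0
  have hmesh : t / m ≤ μ := by
    rw [div_lt_iff₀ hμ0] at hm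
    rw [div_le_iff₀ hm0]
    linarith [mul_comm (m:ℝ) μ]
  have hmesh1 : t / m ≤ η₀ := hmesh.trans ((min_le_left _ _).trans (min_le_left _ _))
  have hmesh2 : t / m ≤ η₁ := hmesh.trans ((min_le_left _ _).trans (min_le_right _ _))
  have hmesh3 : t / m ≤ δ ^ 2 / 25 := hmesh.trans (min_le_right _ _)
  set τ : ℕ → ℝ := fun j => j * (t / m) with hτ
  have hτd : ∀ j, τ (j + 1) - τ j = t / m := by
    intro j
    simp only [hτ]
    push_cast
    ring
  have hτ00 : τ 0 = 0 := by simp [hτ]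
  have hτ0 : ∀ j, 0 ≤ τ j := by
    intro j
    simp only [hτ]
    positivity
  have hτs : ∀ j ≤ m, τ j ≤ t := by
    intro j hj
    simp only [hτ]
    have : (j:ℝ) ≤ m := by exact_mod_cast hj
    calc (j:ℝ) * (t / m) ≤ m * (t / m) := by gcongr
      _ = t := by field_simp
  have hτm : τ m = t := by
    simp only [hτ]
    field_simp
  have hτt : ∀ j ≤ m, τ j ∈ Icc 0 t := fun j hj => ⟨hτ0 j, hτs j hj⟩
  have hτT : ∀ j ≤ m, τ j ∈ Icc 0 T := fun j hj => ⟨hτ0 j, (hτs j hj).trans ht.2⟩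
  have hle : ∀ j, τ j ≤ τ (j + 1) := by
    intro j
    have := hτd j
    have h3 : 0 ≤ t / m := by positivity
    linarith
  -- the good event
  have hev : ∀ᶠ i in F, ∀ j ∈ Finset.range m,
      (∀ z ∈ U i (τ (j + 1)), δ / 2 ≤ (g i (τ (j + 1)) z).im →
        ‖g i (τ (j + 1)) z - g i (τ j) z - 2 * ((τ (j + 1) - τ j : ℝ) : ℂ) /
          (g i (τ j) z - V i (τ j))‖ ≤ η₀ * (τ (j + 1) - τ j)) ∧
      |V i (τ j) - W (τ j)| ≤ η₀ ∧ 12 * (c i (τ (j + 1)) - c i (τ j)) < δ ^ 2 := by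
    rw [Filter.eventually_all_finset]
    intro j hj
    rw [Finset.mem_range] at hj
    have e1 := hτT j hj.le
    have e2 := hτT (j + 1) hj
    have s1 := hstep (τ j) e1 (τ (j + 1)) e2 (hle j) (by rw [hτd]; exact hmesh2)
    have s2 : ∀ᶠ i in F, |V i (τ j) - W (τ j)| ≤ η₀ := by
      have := (A.drv (τ j) e1)
      rw [Metric.tendsto_nhds] at this
      filter_upwards [this η₀ hη₀] with i hi
      rw [Real.dist_eq] at hi
      exact hi.le
    have s3 : ∀ᶠ i in F, 12 * (c i (τ (j + 1)) - c i (τ j)) < δ ^ 2 := by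
      have h3 := ((A.cap _ e2).sub (A.cap _ e1)).const_mul 12
      apply h3.eventually_lt_const
      have h4 := hτd j
      have : 12 * (2 * τ (j + 1) - 2 * τ j) = 24 * (t / m) := by
        rw [← h4]
        ring
      rw [this]
      have : 0 < δ ^ 2 := by positivity
      linarith
    filter_upwards [s1, s2, s3] with i h1 h2 h3
    exact ⟨h1, h2, h3⟩
  have hKUH : Metric.closedBall z δ ⊆ UH := by
    intro v hv
    rw [Metric.mem_closedBall, dist_eq_norm] at hv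
    have e1 := Complex.abs_im_le_norm (v - z)
    rw [Complex.sub_im] at e1
    have e2 := (abs_le.1 (e1.trans hv)).1
    rw [Pool.Agent.H83.Lo.mem_UH]
    linarith
  have hev0 := A.init _ (isCompact_closedBall z δ) hKUH (η₀ / 2) (by positivity)
  refine ⟨min (η₀ / 2) δ, lt_min (by positivity) hδ0, ?_⟩
  filter_upwards [hev, hev0, A.qf] with i hi hi0 hqf z' hz'
  have hz'K : z' ∈ Metric.closedBall z δ := by
    rw [Metric.mem_closedBall, dist_eq_norm]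
    exact hz'.trans (min_le_right _ _)
  have hT0 : (0:ℝ) ∈ Icc 0 T := ⟨le_rfl, ht.1.trans ht.2⟩
  classical
  set w : ℕ → ℂ := fun j => if z' ∈ U i (τ j) then g i (τ j) z' else -Complex.I with hw
  have key := hclose m τ hτt hτ00 (fun j _ => hle j) (fun j _ => by rw [hτd]; exact hmesh1) w
      (fun j => 2 * (τ (j + 1) - τ j)) (fun j => V i (τ j))
      (by
        have e1 := hi0.1 hz'K
        have e3 : w 0 = g i 0 z' := by
          simp only [hw]
          rw [hτ00, if_pos e1]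
        rw [e3]
        calc ‖g i 0 z' - z‖ = ‖(g i 0 z' - z') + (z' - z)‖ := by ring_nf
          _ ≤ η₀ / 2 + η₀ / 2 := (norm_add_le _ _).trans (add_le_add (hi0.2 z' hz'K)
              (hz'.trans (min_le_left _ _)))
          _ = η₀ := by ring)
      (fun j hj => (hi j (Finset.mem_range.2 hj)).2.1)
      (fun j _ => by
        rw [sub_self, abs_zero, hτd]
        positivity)
      (by
        intro j hj hjδ
        by_cases hU : z' ∈ U i (τ j)
        swap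
        · exfalso
          simp only [hw] at hjδ
          rw [if_neg hU] at hjδ
          simp at hjδ
          linarith
        have e1 : w j = g i (τ j) z' := by
          simp only [hw]
          rw [if_pos hU]
        obtain ⟨i1, i2, i3⟩ := hi j (Finset.mem_range.2 hj)
        have q := hqf _ (hτT j hj.le) _ (hτT (j + 1) hj) (hle j)
        rw [e1] at hjδ
        obtain ⟨hU', him'⟩ := q.high z' hU (by nlinarith)
        have e2 : w (j + 1) = g i (τ (j + 1)) z' := by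
          simp only [hw]
          rw [if_pos hU']
        rw [e1, e2]
        have e4 : ((2 * (τ (j + 1) - τ j) : ℝ) : ℂ) = 2 * ((τ (j + 1) - τ j : ℝ) : ℂ) := by
          push_cast
          ring
        rw [e4]
        exact i1 z' hU' (by linarith))
      m le_rfl
  rw [hτm] at key
  have h7 : δ ≤ (w m).im := by
    have e1 := Complex.abs_im_le_norm (w m - h t)
    rw [Complex.sub_im] at e1
    have e2 := (abs_le.1 (e1.trans (key.trans (min_le_right _ _)))).1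
    have := h2 t htt
    linarith
  have hU : z' ∈ U i t := by
    by_contra hcon
    simp only [hw] at h7
    rw [hτm, if_neg hcon] at h7
    simp at h7
    linarith
  have e1 : w m = g i t z' := by
    simp only [hw]
    rw [hτm, if_pos hU]
  rw [e1] at key
  exact ⟨hU, key.trans (min_le_left _ _)⟩

/-- Limits of trajectories with imaginary part bounded below are solutions. -/
theorem App.limsol (A : App F T Y β W U g V c) {t : ℝ} (ht : t ∈ Icc 0 T) (φ : Ultrafilter ι)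
    (hφ : (φ : Filter ι) ≤ F) {zi : ι → ℂ} {z : ℂ} (hz : Tendsto zi φ (𝓝 z)) (hz0 : 0 < z.im)
    {δ : ℝ} (hδ0 : 0 < δ)
    (hδ : ∀ᶠ i in (φ : Filter ι), zi i ∈ U i t ∧ δ ≤ (g i t (zi i)).im) :
    ∃ h, Sol W t z h ∧ (∀ s ∈ Icc 0 t, δ ≤ (h s).im) ∧
      ∀ s ∈ Icc 0 t, Tendsto (fun i => g i s (zi i)) φ (𝓝 (h s)) := by
  have ht0 : 0 ≤ t := ht.1
  have hT0 : (0:ℝ) ∈ Icc 0 T := ⟨le_rfl, ht.1.trans ht.2⟩
  have hsT : ∀ s ∈ Icc 0 t, s ∈ Icc 0 T := fun s hs => ⟨hs.1, hs.2.trans ht.2⟩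
  have hWt : ContinuousOn W (Icc 0 t) := A.Wc.mono (Icc_subset_Icc_right ht.2)
  -- a compact neighbourhood of `z`
  have hKUH : Metric.closedBall z (z.im / 2) ⊆ UH := by
    intro v hv
    rw [Metric.mem_closedBall, dist_eq_norm] at hv
    have e1 := Complex.abs_im_le_norm (v - z)
    rw [Complex.sub_im] at e1
    have e2 := (abs_le.1 (e1.trans hv)).1
    rw [Pool.Agent.H83.Lo.mem_UH]
    linarith
  have hziK : ∀ᶠ i in (φ : Filter ι), zi i ∈ Metric.closedBall z (z.im / 2) :=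
    hz (Metric.closedBall_mem_nhds z (by positivity))
  have hg0 : Tendsto (fun i => g i 0 (zi i) - zi i) φ (𝓝 0) := by
    rw [Metric.tendsto_nhds]
    intro ε hε
    filter_upwards [hziK, hφ (A.init _ (isCompact_closedBall _ _) hKUH (ε / 2) (by positivity))] with
      i h1 h2
    rw [dist_zero_right]
    exact (h2.2 _ h1).trans_lt (by linarith)
  have hg0' : Tendsto (fun i => g i 0 (zi i)) φ (𝓝 z) := by
    have := hg0.add hz
    simpa using this
  have hzb : ∀ᶠ i in (φ : Filter ι), ‖g i 0 (zi i)‖ ≤ ‖z‖ + 1 := by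
    have := hg0'.norm.eventually_lt (tendsto_const_nhds (x := ‖z‖ + 1)) (by linarith)
    exact this.mono (fun i hi => hi.le)
  have hU : ∀ᶠ i in (φ : Filter ι), ∀ s ∈ Icc 0 t, zi i ∈ U i s ∧ δ ≤ (g i s (zi i)).im := by
    filter_upwards [hδ, hφ A.qf] with i hi hqf s hs
    have h1 := hqf s (hsT s hs) t ht hs.2
    exact ⟨h1.sub hi.1, hi.2.trans (h1.im _ hi.1)⟩
  have hc1 : ∀ s ∈ Icc 0 T, ∀ᶠ i in F, c i s - c i 0 ≤ 2 * T + 1 := by
    intro s hs
    have h1 := ((A.cap s hs).sub (A.cap 0 hT0)).eventually_le_const (u := 2 * T + 1) (by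
      have := hs.2
      linarith)
    exact h1
  have hbd : ∀ s ∈ Icc 0 t, ∀ᶠ i in (φ : Filter ι),
      ‖g i s (zi i)‖ ≤ ‖z‖ + 1 + (2 * T + 1) / δ := by
    intro s hs
    filter_upwards [hzb, hU, hφ A.qf, hφ (hc1 s (hsT s hs))] with i h1 h2 h3 h4
    have h5 := (h3 0 hT0 s (hsT s hs) hs.1).disp (zi i) (h2 s hs).1
    have h6 : (c i s - c i 0) / (g i s (zi i)).im ≤ (2 * T + 1) / δ := by
      have h7 := (h2 s hs).2
      have h8 : 0 ≤ 2 * T + 1 := by linarith [hT0.2]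
      have h9 : 0 ≤ (g i s (zi i)).im := hδ0.le.trans h7
      calc (c i s - c i 0) / (g i s (zi i)).im ≤ (2 * T + 1) / (g i s (zi i)).im := by gcongr
        _ ≤ (2 * T + 1) / δ := by gcongr
    calc ‖g i s (zi i)‖ = ‖g i 0 (zi i) + (g i s (zi i) - g i 0 (zi i))‖ := by ring_nf
      _ ≤ _ := (norm_add_le _ _).trans (add_le_add h1 (h5.trans h6))
  have hex : ∀ s, ∃ a : ℂ, s ∈ Icc 0 t → Tendsto (fun i => g i s (zi i)) φ (𝓝 a) := by
    intro s
    by_cases hs : s ∈ Icc 0 t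
    · obtain ⟨a, -, ha⟩ := (isCompact_closedBall (0:ℂ)
        (‖z‖ + 1 + (2 * T + 1) / δ)).ultrafilter_le_nhds
        (φ.map (fun i => g i s (zi i))) (by
          rw [le_principal_iff]
          change ∀ᶠ i in (φ : Filter ι), g i s (zi i) ∈ Metric.closedBall (0:ℂ) _
          filter_upwards [hbd s hs] with i hi
          rwa [mem_closedBall_zero_iff])
      exact ⟨a, fun _ => ha⟩
    · exact ⟨0, fun h => absurd h hs⟩
  choose h hh using hex
  have him : ∀ s ∈ Icc 0 t, δ ≤ (h s).im := by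
    intro s hs
    have h1 : Tendsto (fun i => (g i s (zi i)).im) φ (𝓝 (h s).im) :=
      (Complex.continuous_im.tendsto _).comp (hh s hs)
    apply ge_of_tendsto h1
    filter_upwards [hU] with i hi
    exact (hi s hs).2
  have hWlim : ∀ s ∈ Icc 0 t, Tendsto (fun i => V i s) φ (𝓝 (W s)) := by
    intro s hs
    exact (A.drv s (hsT s hs)).mono_left hφ
  have hne : ∀ s ∈ Icc 0 t, δ ≤ ‖h s - W s‖ := by
    intro s hs
    have e1 := Complex.abs_im_le_norm (h s - W s)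
    rw [Complex.sub_im, Complex.ofReal_im, sub_zero] at e1
    exact (him s hs).trans ((le_abs_self _).trans e1)
  have hstep : ∀ ε > 0, ∃ η > 0, ∀ s ∈ Icc 0 t, ∀ s' ∈ Icc 0 t, s ≤ s' → s' - s ≤ η →
      ‖h s' - h s - 2 * ((s' - s : ℝ) : ℂ) / (h s - W s)‖ ≤ ε * (s' - s) := by
    intro ε hε
    obtain ⟨η, hη, hst⟩ := A.step δ hδ0 ε hε
    refine ⟨η, hη, ?_⟩
    intro s hs s' hs' hss hsη
    have hlim : Tendsto (fun i => ‖g i s' (zi i) - g i s (zi i) -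
        2 * ((s' - s : ℝ) : ℂ) / (g i s (zi i) - V i s)‖) φ
        (𝓝 ‖h s' - h s - 2 * ((s' - s : ℝ) : ℂ) / (h s - W s)‖) := by
      apply Tendsto.norm
      apply ((hh s' hs').sub (hh s hs)).sub
      apply tendsto_const_nhds.div
      · apply (hh s hs).sub
        exact (Complex.continuous_ofReal.tendsto _).comp (hWlim s hs)
      · exact norm_pos_iff.1 (hδ0.trans_le (hne s hs))
    apply le_of_tendsto hlim
    filter_upwards [hU, hφ (hst s (hsT s hs) s' (hsT s' hs') hss hsη)] with i h1 h2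
    exact h2 _ (h1 s' hs').1 (h1 s' hs').2
  have hlip : ∃ η > 0, ∀ s ∈ Icc 0 t, ∀ s' ∈ Icc 0 t, s ≤ s' → s' - s ≤ η →
      ‖h s' - h s‖ ≤ (1 + 2 / δ) * (s' - s) := by
    obtain ⟨η, hη, h1⟩ := hstep 1 one_pos
    refine ⟨η, hη, ?_⟩
    intro s hs s' hs' hss hsη
    have h2 := h1 s hs s' hs' hss hsη
    have h5 : 0 ≤ s' - s := by linarith
    have h3 : ‖2 * ((s' - s : ℝ) : ℂ) / (h s - W s)‖ ≤ 2 / δ * (s' - s) := by
      rw [norm_div, norm_mul, Complex.norm_real, Real.norm_eq_abs, abs_of_nonneg h5]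
      have e3 : ‖(2 : ℂ)‖ = 2 := by simp
      rw [e3, div_mul_eq_mul_div]
      have := hne s hs
      gcongr
    calc ‖h s' - h s‖ = ‖(h s' - h s - 2 * ((s' - s : ℝ) : ℂ) / (h s - W s)) +
          2 * ((s' - s : ℝ) : ℂ) / (h s - W s)‖ := by ring_nf
      _ ≤ 1 * (s' - s) + 2 / δ * (s' - s) := (norm_add_le _ _).trans (add_le_add h2 h3)
      _ = _ := by ring
  have hcont : ContinuousOn h (Icc 0 t) := by
    obtain ⟨η, hη, h1⟩ := hlip
    rw [Metric.continuousOn_iff]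
    intro s hs ε hε
    have hK : 0 < 1 + 2 / δ := by positivity
    refine ⟨min η (ε / (1 + 2 / δ)), lt_min hη (by positivity), ?_⟩
    intro s' hs' hd
    rw [dist_eq_norm]
    have h2 : |s' - s| < ε / (1 + 2 / δ) := hd.trans_le (min_le_right _ _)
    have h3 : |s' - s| < η := hd.trans_le (min_le_left _ _)
    have h4 : (1 + 2 / δ) * |s' - s| < ε := by
      rw [lt_div_iff₀ hK] at h2
      linarith
    rcases le_total s s' with hle | hle
    · rw [abs_of_nonneg (by linarith)] at h3 h4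
      exact (h1 s hs s' hs' hle h3.le).trans_lt h4
    · rw [abs_sub_comm, abs_of_nonneg (by linarith)] at h3 h4
      rw [norm_sub_rev]
      exact (h1 s' hs' s hs hle h3.le).trans_lt h4
  have h0 : h 0 = z := by
    exact tendsto_nhds_unique (hh 0 ⟨le_rfl, ht0⟩) hg0'
  exact ⟨h, sol_of_step hWt hcont h0 (fun s hs => hδ0.trans_le (him s hs)) hstep, him, hh⟩

end Pool.Agent.H96.M7
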