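import Mathlib
import Pool.Agent.H83.Lo.Moments
import Pool.Agent.H96.M7.Gen

set_option autoImplicit false
open Set Filter Topology MeasureTheory Bornology
open Pool.Agent.H83.Lo (Hyd UH)

/-! Discrete Loewner chains with small total error. -/

namespace Pool.Agent.H96.M7

/-- A discrete Loewner chain with `m` steps, half capacities `t j`, driving values `V j` and
errors `e j`, `f j`. -/
structure DChain (m : ℕ) (t V e f : ℕ → ℝ) (U : ℕ → Set ℂ) (g : ℕ → ℂ → ℂ) : Prop where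
  diff : ∀ j ≤ m, DifferentiableOn ℂ (g j) (U j)
  bij : ∀ j ≤ m, BijOn (g j) (U j) UH
  anti : ∀ j < m, U (j + 1) ⊆ U j
  quot : ∀ j < m, ∃ G : ℂ → ℂ, Hyd (g j '' U (j + 1)) G (2 * (t (j + 1) - t j)) ∧
    ∀ z ∈ U (j + 1), G (g j z) = g (j + 1) z
  e0 : ∀ j < m, 0 ≤ e j
  f0 : ∀ j < m, 0 ≤ f j
  err : ∀ j < m, ∀ z ∈ U (j + 1),
    ‖g (j + 1) z - g j z - 2 * ((t (j + 1) - t j : ℝ) : ℂ) / (g (j + 1) z - V j)‖ ≤
      (e j + f j / (g (j + 1) z).im) / (g (j + 1) z).im ^ 2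

/-- The same with second moments `μ j` of the growth measures around `V j`. -/
structure MChain (m : ℕ) (t V μ : ℕ → ℝ) (U : ℕ → Set ℂ) (g : ℕ → ℂ → ℂ) : Prop where
  diff : ∀ j ≤ m, DifferentiableOn ℂ (g j) (U j)
  bij : ∀ j ≤ m, BijOn (g j) (U j) UH
  anti : ∀ j < m, U (j + 1) ⊆ U j
  quot : ∀ j < m, ∃ (G T : ℂ → ℂ) (a₂ a₃ : ℝ), Hyd (g j '' U (j + 1)) G (2 * (t (j + 1) - t j)) ∧
    Hyd.Inv (g j '' U (j + 1)) G T (2 * (t (j + 1) - t j)) ∧
    Pool.Agent.H83.Lo.Hyd.Coef T (2 * (t (j + 1) - t j)) a₂ a₃ ∧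
    (∀ z ∈ U (j + 1), G (g j z) = g (j + 1) z) ∧
    a₃ - 2 * V j * a₂ + V j ^ 2 * (2 * (t (j + 1) - t j)) ≤ μ j

variable {m : ℕ} {t V e f μ : ℕ → ℝ} {U : ℕ → Set ℂ} {g : ℕ → ℂ → ℂ}

theorem MChain.dchain (D : MChain m t V μ U g) :
    DChain m t V (fun j => √(2 * (t (j + 1) - t j) * μ j)) μ U g := by
  have hμ : ∀ j < m, 0 ≤ μ j := by
    intro j hj
    obtain ⟨G, T, a₂, a₃, hG, hT, hC, hz, hμ⟩ := D.quot j hj
    exact (Hyd.Inv.moments hG hT hC (V j)).1.trans hμ
  refine ⟨D.diff, D.bij, D.anti, ?_, ?_, hμ, ?_⟩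
  · intro j hj
    obtain ⟨G, T, a₂, a₃, hG, hT, hC, hz, hμ⟩ := D.quot j hj
    exact ⟨G, hG, hz⟩
  · intro j _
    positivity
  · intro j hj z hz
    obtain ⟨G, T, a₂, a₃, hG, hT, hC, hGg, hμj⟩ := D.quot j hj
    obtain ⟨m0, -, hmom⟩ := Hyd.Inv.moments hG hT hC (V j)
    have hw : g (j + 1) z ∈ UH := (D.bij (j + 1) hj).mapsTo hz
    have h1 := hmom _ hw
    have hTz : T (g (j + 1) z) = g j z := by
      rw [← hGg z hz]
      exact hT.left _ ⟨z, hz, rfl⟩
    rw [hTz] at h1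
    have hw' : 0 < (g (j + 1) z).im := hw
    have hc := hG.nonneg
    have e1 : (((2 * (t (j + 1) - t j) : ℝ)) : ℂ) = 2 * ((t (j + 1) - t j : ℝ) : ℂ) := by
      push_cast
      ring
    rw [e1] at h1
    refine h1.trans ?_
    have h2 : √(2 * (t (j + 1) - t j) * (a₃ - 2 * V j * a₂ + V j ^ 2 * (2 * (t (j + 1) - t j)))) ≤
        √(2 * (t (j + 1) - t j) * μ j) := Real.sqrt_le_sqrt (by gcongr)
    gcongr

lemma DChain.anti' (D : DChain m t V e f U g) {j k : ℕ} (hjk : j ≤ k) (hk : k ≤ m) :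
    U k ⊆ U j := by
  induction k, hjk using Nat.le_induction with
  | base => exact subset_rfl
  | succ k hjk ih => exact (D.anti k hk).trans (ih (Nat.le_of_succ_le hk))

/-- The quotient maps along several steps. -/
lemma DChain.quot' (D : DChain m t V e f U g) {j k : ℕ} (hjk : j ≤ k) (hk : k ≤ m) :
    ∃ G : ℂ → ℂ, Hyd (g j '' U k) G (2 * (t k - t j)) ∧ ∀ z ∈ U k, G (g j z) = g k z := by
  induction k, hjk using Nat.le_induction with
  | base =>
    refine ⟨fun w => w, ?_, fun z _ => rfl⟩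
    rw [(D.bij j hk).image_eq, sub_self, mul_zero]
    exact Hyd.refl
  | succ k hjk ih =>
    obtain ⟨G, hG, hGg⟩ := ih (Nat.le_of_succ_le hk)
    obtain ⟨G', hG', hGg'⟩ := D.quot k hk
    have h1 := hG.comp hG'
    have hset : g j '' U k ∩ G ⁻¹' (g k '' U (k + 1)) = g j '' U (k + 1) := by
      ext w
      constructor
      · rintro ⟨⟨z, hz, rfl⟩, ⟨z', hz', he⟩⟩
        rw [hGg z hz] at he
        have := (D.bij k (Nat.le_of_succ_le hk)).injOn (D.anti k hk hz') hz he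
        exact ⟨z, this ▸ hz', rfl⟩
      · rintro ⟨z, hz, rfl⟩
        have hz' := D.anti k hk hz
        refine ⟨⟨z, hz', rfl⟩, ?_⟩
        rw [mem_preimage, hGg z hz']
        exact ⟨z, hz, rfl⟩
    rw [hset] at h1
    refine ⟨fun w => G' (G w), ?_, ?_⟩
    · have e1 : 2 * (t k - t j) + 2 * (t (k + 1) - t k) = 2 * (t (k + 1) - t j) := by ring
      rw [← e1]
      exact h1
    · intro z hz
      change G' (G (g j z)) = g (k + 1) z
      rw [hGg z (D.anti k hk hz), hGg' z hz]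

lemma DChain.qf (D : DChain m t V e f U g) {j k : ℕ} (hjk : j ≤ k) (hk : k ≤ m) :
    QF (U j) (g j) (U k) (g k) (2 * (t k - t j)) := by
  obtain ⟨G, hG, hGg⟩ := D.quot' hjk hk
  exact QF.of_quot (D.anti' hjk hk) (D.bij j (hjk.trans hk)).mapsTo
    (D.bij j (hjk.trans hk)).injOn hG hGg

lemma DChain.t_mono (D : DChain m t V e f U g) {j k : ℕ} (hjk : j ≤ k) (hk : k ≤ m) :
    t j ≤ t k := by
  obtain ⟨G, hG, -⟩ := D.quot' hjk hk
  have := hG.nonneg
  linarith

/-- Accumulated estimate along several steps. -/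
theorem DChain.steps (D : DChain m t V e f U g) {j k : ℕ} (hjk : j ≤ k) (hk : k ≤ m) {δ ω : ℝ}
    (hδ : 0 < δ) (hV : ∀ l, j ≤ l → l ≤ k → |V l - V j| ≤ ω) {z : ℂ} (hz : z ∈ U k)
    (hδz : δ ≤ (g k z).im) :
    ‖g k z - g j z - 2 * ((t k - t j : ℝ) : ℂ) / (g j z - V j)‖ ≤
      (∑ l ∈ Finset.range m, (e l + f l / δ)) / δ ^ 2 +
        2 * (t k - t j) * (2 * (t k - t j) / δ + ω) / δ ^ 2 := by
  have hω : 0 ≤ ω := by
    have := hV j le_rfl hjk
    rw [sub_self, abs_zero] at this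
    exact this
  -- facts along the way
  have him : ∀ l, j ≤ l → l ≤ k → z ∈ U l ∧ δ ≤ (g l z).im := by
    intro l hjl hlk
    have h1 := D.anti' hlk hk hz
    exact ⟨h1, hδz.trans ((D.qf hlk hk).im z hz)⟩
  have hdisp : ∀ l, j ≤ l → l ≤ k → ‖g l z - g j z‖ ≤ 2 * (t k - t j) / δ := by
    intro l hjl hlk
    obtain ⟨h1, h2⟩ := him l hjl hlk
    have h3 := (D.qf hjl (hlk.trans hk)).disp z h1
    have h4 : t j ≤ t l := D.t_mono hjl (hlk.trans hk)
    have h5 : t l ≤ t k := D.t_mono hlk hk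
    calc ‖g l z - g j z‖ ≤ 2 * (t l - t j) / (g l z).im := h3
      _ ≤ 2 * (t k - t j) / δ := by
        apply div_le_div₀ _ _ hδ h2
        · linarith
        · linarith
  have hden : ∀ l, j ≤ l → l ≤ k → ∀ x : ℝ, δ ≤ ‖g l z - x‖ := by
    intro l hjl hlk x
    exact le_norm_sub_real (him l hjl hlk).2
  have hmain : ∀ l, j ≤ l → l ≤ k →
      ‖g l z - g j z - 2 * ((t l - t j : ℝ) : ℂ) / (g j z - V j)‖ ≤
      (∑ i ∈ Finset.Ico j l, (e i + f i / δ)) / δ ^ 2 +
        2 * (t l - t j) * (2 * (t k - t j) / δ + ω) / δ ^ 2 := by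
    intro l hjl
    induction l, hjl using Nat.le_induction with
    | base =>
      intro _
      simp
    | succ l hjl ih =>
      intro hlk
      have hlk' : l ≤ k := Nat.le_of_succ_le hlk
      have hlm : l < m := lt_of_lt_of_le hlk hk
      have h1 := ih hlk'
      have h2 := D.err l hlm z (him (l + 1) (by omega) hlk).1
      have h3 : (e l + f l / (g (l + 1) z).im) / (g (l + 1) z).im ^ 2 ≤
          (e l + f l / δ) / δ ^ 2 := by
        have := D.e0 l hlm
        have := D.f0 l hlm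
        have := (him (l + 1) (by omega) hlk).2
        gcongr
      have hΔ : 0 ≤ t (l + 1) - t l := by
        have := D.t_mono (Nat.le_succ l) (hlk.trans hk)
        simp only [Nat.succ_eq_add_one] at this
        linarith
      have hn1 := hden (l + 1) (by omega) hlk (V l)
      have hn2 := hden j le_rfl hjk (V j)
      have h4 : ‖2 * ((t (l + 1) - t l : ℝ) : ℂ) / (g (l + 1) z - V l) -
          2 * ((t (l + 1) - t l : ℝ) : ℂ) / (g j z - V j)‖ ≤
          2 * (t (l + 1) - t l) * (2 * (t k - t j) / δ + ω) / δ ^ 2 := by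
        have n1 : g (l + 1) z - V l ≠ 0 := norm_pos_iff.1 (hδ.trans_le hn1)
        have n2 : g j z - V j ≠ 0 := norm_pos_iff.1 (hδ.trans_le hn2)
        have e0 : 2 * ((t (l + 1) - t l : ℝ) : ℂ) / (g (l + 1) z - V l) -
          2 * ((t (l + 1) - t l : ℝ) : ℂ) / (g j z - V j) =
          (2 * ((t (l + 1) - t l : ℝ) : ℂ) * (- (g (l + 1) z - g j z) + ((V l - V j : ℝ) : ℂ))) /
          ((g (l + 1) z - V l) * (g j z - V j)) := by
          rw [div_sub_div _ _ n1 n2]
          congr 1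
          push_cast
          ring
        rw [e0, norm_div, norm_mul, norm_mul, norm_mul, Complex.norm_real, Real.norm_eq_abs,
          abs_of_nonneg hΔ]
        have e3 : ‖(2 : ℂ)‖ = 2 := by simp
        rw [e3, pow_two]
        have e1 : ‖- (g (l + 1) z - g j z) + ((V l - V j : ℝ) : ℂ)‖ ≤
            2 * (t k - t j) / δ + ω := by
          refine (norm_add_le _ _).trans ?_
          rw [norm_neg, Complex.norm_real, Real.norm_eq_abs]
          exact add_le_add (hdisp (l + 1) (by omega) hlk) (hV l hjl hlk')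
        have e4 : 0 ≤ 2 * (t k - t j) / δ + ω := (norm_nonneg _).trans e1
        gcongr
      have e5 : g (l + 1) z - g j z - 2 * ((t (l + 1) - t j : ℝ) : ℂ) / (g j z - V j) =
          (g l z - g j z - 2 * ((t l - t j : ℝ) : ℂ) / (g j z - V j)) +
          (g (l + 1) z - g l z - 2 * ((t (l + 1) - t l : ℝ) : ℂ) / (g (l + 1) z - V l)) +
          (2 * ((t (l + 1) - t l : ℝ) : ℂ) / (g (l + 1) z - V l) -
          2 * ((t (l + 1) - t l : ℝ) : ℂ) / (g j z - V j)) := by
        push_cast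
        ring
      rw [e5, Finset.sum_Ico_succ_top hjl]
      calc _ ≤ ((∑ i ∈ Finset.Ico j l, (e i + f i / δ)) / δ ^ 2 +
            2 * (t l - t j) * (2 * (t k - t j) / δ + ω) / δ ^ 2) + (e l + f l / δ) / δ ^ 2 +
            2 * (t (l + 1) - t l) * (2 * (t k - t j) / δ + ω) / δ ^ 2 :=
            (norm_add_le _ _).trans (add_le_add ((norm_add_le _ _).trans
              (add_le_add h1 (h2.trans h3))) h4)
        _ = _ := by ring
  refine (hmain k hjk le_rfl).trans ?_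
  have h6 : ∑ i ∈ Finset.Ico j k, (e i + f i / δ) ≤ ∑ i ∈ Finset.range m, (e i + f i / δ) := by
    apply Finset.sum_le_sum_of_subset_of_nonneg
    · intro i hi
      rw [Finset.mem_Ico] at hi
      rw [Finset.mem_range]
      omega
    · intro i hi _
      rw [Finset.mem_range] at hi
      have := D.e0 i hi
      have := D.f0 i hi
      positivity
  gcongr

/-- The step at time `s`. -/
noncomputable def idx (m : ℕ) (t : ℕ → ℝ) (s : ℝ) : ℕ := by
  classical
  exact Nat.findGreatest (fun j => t j ≤ s) m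

lemma idx_le (m : ℕ) (t : ℕ → ℝ) (s : ℝ) : idx m t s ≤ m := Nat.findGreatest_le _

lemma idx_mono (m : ℕ) (t : ℕ → ℝ) {s s' : ℝ} (h : s ≤ s') : idx m t s ≤ idx m t s' := by
  unfold idx
  exact Nat.findGreatest_mono_left (fun j hj => le_trans hj h) m

lemma idx_spec_le {m : ℕ} {t : ℕ → ℝ} (h0 : t 0 = 0) {s : ℝ} (hs : 0 ≤ s) :
    t (idx m t s) ≤ s := by
  classical
  exact Nat.findGreatest_spec (P := fun j => t j ≤ s) (Nat.zero_le m) (by rw [h0]; exact hs)

lemma idx_spec_lt {m : ℕ} {t : ℕ → ℝ} (h0 : t 0 = 0) {s : ℝ} (hs : 0 ≤ s) (hm : s < t m) :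
    idx m t s < m ∧ s < t (idx m t s + 1) := by
  classical
  have hle := idx_spec_le (m := m) h0 hs
  have hlt : idx m t s < m := by
    apply lt_of_le_of_ne (idx_le m t s)
    intro he
    rw [he] at hle
    linarith
  refine ⟨hlt, ?_⟩
  have h2 : ¬ t (idx m t s + 1) ≤ s := by
    apply Nat.findGreatest_is_greatest (P := fun j => t j ≤ s) (n := m) _ hlt
    exact Nat.lt_succ_self _
  exact not_le.1 h2

lemma idx_zero {m : ℕ} {t : ℕ → ℝ} (D : DChain m t V e f U g) (h0 : t 0 = 0) :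
    t (idx m t 0) = 0 := by
  apply le_antisymm (idx_spec_le h0 le_rfl)
  have := D.t_mono (Nat.zero_le _) (idx_le m t 0)
  linarith

end Pool.Agent.H96.M7
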