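import Mathlib
import Pool.Agent.H96.M7.Discrete

set_option autoImplicit false
open Set Filter Topology MeasureTheory Bornology
open Pool.Agent.H83.Lo (Hyd UH)

/-! Discrete Loewner chains with small total error give approximate chains. -/

namespace Pool.Agent.H96.M7

variable {ι : Type*} {F : Filter ι} {T Y : ℝ} {β : ℝ → ℂ} {W : ℝ → ℝ} {m : ι → ℕ}
  {t V e f μ : ι → ℕ → ℝ} {U : ι → ℕ → Set ℂ} {g : ι → ℕ → ℂ → ℂ} {P : ι → ℕ → Set ℂ}
  {B : ι → ℕ → ℂ}

/-- Basic facts on the index of time `s`. -/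
theorem idx_basic (h0 : ∀ᶠ i in F, t i 0 = 0) (hm : ∀ᶠ i in F, T < t i (m i))
    (hmesh : ∀ μ > 0, ∀ᶠ i in F, ∀ j < m i, t i j ≤ T → t i (j + 1) - t i j ≤ μ) :
    ∀ μ > 0, ∀ᶠ i in F, (∀ s ∈ Icc 0 T, |t i (idx (m i) (t i) s) - s| ≤ μ) ∧
      ∀ s ∈ Icc 0 T, t i (idx (m i) (t i) s) ≤ s := by
  intro μ hμ
  filter_upwards [hm, hmesh μ hμ, h0] with i hmi hμi h0i
  refine ⟨?_, fun s hs => idx_spec_le h0i hs.1⟩
  intro s hs
  have h1 := idx_spec_le (m := m i) h0i hs.1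
  obtain ⟨h2, h3⟩ := idx_spec_lt h0i hs.1 (hs.2.trans_lt hmi)
  have h4 := hμi _ h2 (h1.trans hs.2)
  rw [abs_le]
  constructor <;> linarith

theorem idx_nonneg (hD : ∀ᶠ i in F, DChain (m i) (t i) (V i) (e i) (f i) (U i) (g i))
    (h0 : ∀ᶠ i in F, t i 0 = 0) : ∀ᶠ i in F, ∀ j ≤ m i, 0 ≤ t i j := by
  filter_upwards [hD, h0] with i hDi h0i j hj
  rw [← h0i]
  exact hDi.t_mono (Nat.zero_le _) hj

theorem idx_comp (hD : ∀ᶠ i in F, DChain (m i) (t i) (V i) (e i) (f i) (U i) (g i))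
    (h0 : ∀ᶠ i in F, t i 0 = 0) (hm : ∀ᶠ i in F, T < t i (m i))
    (hmesh : ∀ μ > 0, ∀ᶠ i in F, ∀ j < m i, t i j ≤ T → t i (j + 1) - t i j ≤ μ)
    {X : Type} [MetricSpace X] {f : ℝ → X} (hf : ContinuousOn f (Icc 0 T)) {s : ℝ}
    (hs : s ∈ Icc 0 T) : Tendsto (fun i => f (t i (idx (m i) (t i) s))) F (𝓝 (f s)) := by
  have hbase := idx_basic (T := T) h0 hm hmesh
  have hnonneg := idx_nonneg hD h0
  have h1 : Tendsto (fun i => t i (idx (m i) (t i) s)) F (𝓝[Icc 0 T] s) := by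
    rw [tendsto_nhdsWithin_iff]
    refine ⟨?_, ?_⟩
    · rw [Metric.tendsto_nhds]
      intro ε hε
      filter_upwards [hbase (ε / 2) (by positivity)] with i hi
      rw [Real.dist_eq]
      have := hi.1 s hs
      linarith
    · filter_upwards [hnonneg, hbase 1 one_pos] with i h1 h2
      exact ⟨h1 _ (idx_le _ _ _), (h2.2 s hs).trans hs.2⟩
  exact (hf s hs).tendsto.comp h1

/-- **From discrete chains to approximate chains**, core form. -/
theorem App.of_core (hβ : ContinuousOn β (Icc 0 T)) (hW : ContinuousOn W (Icc 0 T))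
    (hD : ∀ᶠ i in F, DChain (m i) (t i) (V i) (e i) (f i) (U i) (g i))
    (h0 : ∀ᶠ i in F, t i 0 = 0)
    (hinit : ∀ K : Set ℂ, IsCompact K → K ⊆ UH → ∀ ε > 0, ∀ᶠ i in F, K ⊆ U i 0 ∧
      ∀ z ∈ K, ‖g i 0 z - z‖ ≤ ε)
    (hm : ∀ᶠ i in F, T < t i (m i))
    (hmesh : ∀ μ > 0, ∀ᶠ i in F, ∀ j < m i, t i j ≤ T → t i (j + 1) - t i j ≤ μ)
    (he : ∀ δ > 0, Tendsto (fun i => ∑ j ∈ Finset.range (m i), (e i j + f i j / δ)) F (𝓝 0))
    (hV : ∀ ε > 0, ∀ᶠ i in F, ∀ j ≤ m i, t i j ≤ T → |V i j - W (t i j)| ≤ ε)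
    (hpast : ∀ s ∈ Icc 0 T, ∀ u ∈ Icc 0 s, ∃ p : ι → ℂ, Tendsto p F (𝓝 (β u)) ∧
      ∀ᶠ i in F, p i ∉ U i (idx (m i) (t i) s))
    (hYβ : ∀ u ∈ Icc 0 T, ‖β u‖ < Y) (hYT : 48 * T < Y ^ 2)
    (hvis : ∀ s ∈ Icc 0 T, ∀ Γ : Set ℂ, IsCompact Γ → IsPreconnected Γ →
      Γ ⊆ UH \ β '' Icc 0 s → (Y * Complex.I : ℂ) ∈ Γ → ∀ᶠ i in F, Γ ⊆ U i (idx (m i) (t i) s)) :
    App F T Y β W (fun i s => U i (idx (m i) (t i) s)) (fun i s => g i (idx (m i) (t i) s))
      (fun i s => V i (idx (m i) (t i) s)) (fun i s => 2 * t i (idx (m i) (t i) s)) := by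
  -- basic good event
  have hbase : ∀ μ > 0, ∀ᶠ i in F, (∀ s ∈ Icc 0 T, |t i (idx (m i) (t i) s) - s| ≤ μ) ∧
      ∀ s ∈ Icc 0 T, t i (idx (m i) (t i) s) ≤ s := by
    intro μ hμ
    filter_upwards [hm, hmesh μ hμ, h0] with i hmi hμi h0i
    refine ⟨?_, fun s hs => idx_spec_le h0i hs.1⟩
    intro s hs
    have h1 := idx_spec_le (m := m i) h0i hs.1
    obtain ⟨h2, h3⟩ := idx_spec_lt h0i hs.1 (hs.2.trans_lt hmi)
    have h4 := hμi _ h2 (h1.trans hs.2)
    rw [abs_le]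
    constructor <;> linarith
  have htend : ∀ s ∈ Icc 0 T, Tendsto (fun i => t i (idx (m i) (t i) s)) F (𝓝 s) := by
    intro s hs
    rw [Metric.tendsto_nhds]
    intro ε hε
    filter_upwards [hbase (ε / 2) (by positivity)] with i hi
    rw [Real.dist_eq]
    have := hi.1 s hs
    linarith
  have hnonneg : ∀ᶠ i in F, ∀ j ≤ m i, 0 ≤ t i j := by
    filter_upwards [hD, h0] with i hDi h0i j hj
    rw [← h0i]
    exact hDi.t_mono (Nat.zero_le _) hj
  have htin : ∀ᶠ i in F, ∀ s ∈ Icc 0 T, t i (idx (m i) (t i) s) ∈ Icc 0 T := by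
    filter_upwards [hnonneg, hbase 1 one_pos] with i h1 h2 s hs
    exact ⟨h1 _ (idx_le _ _ _), (h2.2 s hs).trans hs.2⟩
  have hcomp : ∀ {X : Type} [MetricSpace X] {f : ℝ → X}, ContinuousOn f (Icc 0 T) →
      ∀ s ∈ Icc 0 T, Tendsto (fun i => f (t i (idx (m i) (t i) s))) F (𝓝 (f s)) := by
    intro X _ f hf s hs
    have h1 : Tendsto (fun i => t i (idx (m i) (t i) s)) F (𝓝[Icc 0 T] s) := by
      rw [tendsto_nhdsWithin_iff]
      refine ⟨htend s hs, ?_⟩
      filter_upwards [htin] with i hi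
      exact hi s hs
    exact (hf s hs).tendsto.comp h1
  have hdrv : ∀ s ∈ Icc 0 T, Tendsto (fun i => V i (idx (m i) (t i) s)) F (𝓝 (W s)) := by
    intro s hs
    have h1 := hcomp hW s hs
    have h2 : Tendsto (fun i => V i (idx (m i) (t i) s) - W (t i (idx (m i) (t i) s))) F (𝓝 0) := by
      rw [Metric.tendsto_nhds]
      intro ε hε
      filter_upwards [hV (ε / 2) (by positivity), hbase 1 one_pos] with i hi h2
      rw [Real.dist_eq, sub_zero]
      have := hi _ (idx_le _ _ _) ((h2.2 s hs).trans hs.2)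
      linarith
    have h3 := h2.add h1
    simpa using h3
  refine ⟨hβ, hW, ?_, ?_, ?_, ?_, ?_, hdrv, ?_, hpast, hYβ, hYT, hvis⟩
  · filter_upwards [hD] with i hDi s _
    exact hDi.diff _ (idx_le _ _ _)
  · filter_upwards [hD] with i hDi s _
    exact hDi.bij _ (idx_le _ _ _)
  · filter_upwards [hD] with i hDi s _ s' _ hss
    have h1 := hDi.qf (idx_mono (m i) (t i) hss) (idx_le _ _ _)
    have e1 : 2 * t i (idx (m i) (t i) s') - 2 * t i (idx (m i) (t i) s) =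
      2 * (t i (idx (m i) (t i) s') - t i (idx (m i) (t i) s)) := by ring
    rw [e1]
    exact h1
  · intro K hK hKU ε hε
    filter_upwards [hinit K hK hKU ε hε, hD, h0] with i hi hDi h0i
    have q := hDi.qf (Nat.zero_le _) (idx_le (m i) (t i) 0)
    rw [idx_zero hDi h0i, h0i, sub_self, mul_zero] at q
    have hsub : ∀ z ∈ K, z ∈ U i (idx (m i) (t i) 0) := by
      intro z hz
      have hz0 : z ∈ U i 0 := hi.1 hz
      have h1 : 0 < (g i 0 z).im := (hDi.bij 0 (Nat.zero_le _)).mapsTo hz0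
      exact (q.high z hz0 (by rw [mul_zero]; positivity)).1
    refine ⟨hsub, ?_⟩
    intro z hz
    have h1 := q.disp z (hsub z hz)
    rw [zero_div] at h1
    have h2 : g i (idx (m i) (t i) 0) z = g i 0 z := sub_eq_zero.1 (norm_le_zero_iff.1 h1)
    rw [h2]
    exact hi.2 z hz
  · intro s hs
    exact (htend s hs).const_mul 2
  · -- the step axiom
    intro δ hδ ε hε
    have huc := isCompact_Icc.uniformContinuousOn_of_continuous hW
    rw [Metric.uniformContinuousOn_iff] at huc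
    obtain ⟨ζ, hζ, huc⟩ := huc (ε * δ ^ 2 / 32) (by positivity)
    set η : ℝ := min (ε * δ ^ 3 / 64) (ζ / 4) with hη
    have hη0 : 0 < η := lt_min (by positivity) (by positivity)
    refine ⟨η, hη0, ?_⟩
    intro s hs s' hs' hss hsη
    rcases hss.eq_or_lt with heq | hlt
    · subst heq
      apply Eventually.of_forall
      intro i z _ _
      simp
    · have hΔ : 0 < s' - s := by linarith
      set μ : ℝ := min ((s' - s) / 2) (δ * ε * (s' - s) / 16) with hμ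
      have hμ0 : 0 < μ := lt_min (by positivity) (by positivity)
      have hes : ∀ᶠ i in F, (∑ j ∈ Finset.range (m i), (e i j + f i j / δ)) / δ ^ 2 ≤
          ε * (s' - s) / 4 := by
        have h1 := (he δ hδ).div_const (δ ^ 2)
        rw [zero_div] at h1
        exact h1.eventually_le_const (by positivity)
      filter_upwards [hD, hbase μ hμ0, hes, hV (ε * δ ^ 2 / 64) (by positivity), hnonneg] with
        i hDi hb hei hVi hnn z hz hδz
      set j := idx (m i) (t i) s with hj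
      set k := idx (m i) (t i) s' with hk
      have hjk : j ≤ k := idx_mono _ _ hss
      have hkm : k ≤ m i := idx_le _ _ _
      have b1 := abs_le.1 (hb.1 s hs)
      have b2 := abs_le.1 (hb.1 s' hs')
      rw [← hj] at b1
      rw [← hk] at b2
      have m1 : μ ≤ (s' - s) / 2 := min_le_left _ _
      have m2 : μ ≤ δ * ε * (s' - s) / 16 := min_le_right _ _
      have hΔ' : t i k - t i j ≤ 2 * (s' - s) := by linarith [b1.1, b2.2]
      have hΔ'0 : 0 ≤ t i k - t i j := by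
        have := hDi.t_mono hjk hkm
        linarith
      have hkT : t i k ≤ T := (hb.2 s' hs').trans hs'.2
      have hη1 : η ≤ ε * δ ^ 3 / 64 := min_le_left _ _
      have hη2 : η ≤ ζ / 4 := min_le_right _ _
      have hosc : ∀ l, j ≤ l → l ≤ k → |V i l - V i j| ≤ ε * δ ^ 2 / 16 := by
        intro l hjl hlk
        have hlm : l ≤ m i := hlk.trans hkm
        have hjm : j ≤ m i := hjk.trans hkm
        have t1 := hDi.t_mono hjl hlm
        have t2 := hDi.t_mono hlk hkm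
        have hlT : t i l ≤ T := t2.trans hkT
        have hjT : t i j ≤ T := t1.trans hlT
        have v1 := hVi l hlm hlT
        have v2 := hVi j hjm hjT
        have v3 := huc (t i l) ⟨hnn l hlm, hlT⟩ (t i j) ⟨hnn j hjm, hjT⟩ (by
          rw [Real.dist_eq, abs_of_nonneg (by linarith)]
          linarith)
        rw [Real.dist_eq] at v3
        have e1 : V i l - V i j = (V i l - W (t i l)) + (W (t i l) - W (t i j)) -
            (V i j - W (t i j)) := by ring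
        rw [e1]
        calc _ ≤ (|V i l - W (t i l)| + |W (t i l) - W (t i j)|) + |V i j - W (t i j)| :=
              (abs_sub _ _).trans (add_le_add (abs_add_le _ _) le_rfl)
          _ ≤ ε * δ ^ 2 / 64 + ε * δ ^ 2 / 32 + ε * δ ^ 2 / 64 := by
              exact add_le_add (add_le_add v1 v3.le) v2
          _ = ε * δ ^ 2 / 16 := by ring
      have hst := hDi.steps hjk hkm hδ hosc hz hδz
      have hden : δ ≤ ‖g i j z - V i j‖ := by
        exact le_norm_sub_real (hδz.trans ((hDi.qf hjk hkm).im z hz))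
      have hcor : ‖2 * ((t i k - t i j : ℝ) : ℂ) / (g i j z - V i j) -
          2 * ((s' - s : ℝ) : ℂ) / (g i j z - V i j)‖ ≤ ε * (s' - s) / 4 := by
        rw [← sub_div, norm_div]
        have e1 : ‖2 * ((t i k - t i j : ℝ) : ℂ) - 2 * ((s' - s : ℝ) : ℂ)‖ =
            2 * |(t i k - t i j) - (s' - s)| := by
          rw [← mul_sub, norm_mul, ← Complex.ofReal_sub, Complex.norm_real, Real.norm_eq_abs]
          simp
        rw [e1]
        have e2 : |(t i k - t i j) - (s' - s)| ≤ 2 * μ := by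
          rw [abs_le]
          constructor <;> linarith [b1.1, b1.2, b2.1, b2.2]
        calc 2 * |(t i k - t i j) - (s' - s)| / ‖g i j z - V i j‖
            ≤ 2 * (2 * (δ * ε * (s' - s) / 16)) / δ := by
              gcongr
              exact e2.trans (by linarith)
          _ = ε * (s' - s) / 4 := by
              field_simp
              ring
      have hmainb : 2 * (t i k - t i j) * (2 * (t i k - t i j) / δ + ε * δ ^ 2 / 16) / δ ^ 2 ≤
          ε * (s' - s) / 2 := by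
        have f1 : 2 * (t i k - t i j) / δ ≤ ε * δ ^ 2 / 16 := by
          rw [div_le_iff₀ hδ]
          have : ε * δ ^ 2 / 16 * δ = ε * δ ^ 3 / 16 := by ring
          rw [this]
          linarith
        calc 2 * (t i k - t i j) * (2 * (t i k - t i j) / δ + ε * δ ^ 2 / 16) / δ ^ 2
            ≤ 2 * (2 * (s' - s)) * (ε * δ ^ 2 / 16 + ε * δ ^ 2 / 16) / δ ^ 2 := by gcongr
          _ = ε * (s' - s) / 2 := by
              field_simp
              ring
      have e5 : g i k z - g i j z - 2 * ((s' - s : ℝ) : ℂ) / (g i j z - V i j) =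
          (g i k z - g i j z - 2 * ((t i k - t i j : ℝ) : ℂ) / (g i j z - V i j)) +
          (2 * ((t i k - t i j : ℝ) : ℂ) / (g i j z - V i j) -
          2 * ((s' - s : ℝ) : ℂ) / (g i j z - V i j)) := by ring
      rw [e5]
      calc _ ≤ ((∑ l ∈ Finset.range (m i), (e i l + f i l / δ)) / δ ^ 2 +
            2 * (t i k - t i j) * (2 * (t i k - t i j) / δ + ε * δ ^ 2 / 16) / δ ^ 2) +
            ε * (s' - s) / 4 := (norm_add_le _ _).trans (add_le_add hst hcor)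
        _ ≤ (ε * (s' - s) / 4 + ε * (s' - s) / 2) + ε * (s' - s) / 4 := by gcongr
        _ = ε * (s' - s) := by ring

/-- **From discrete chains to approximate chains.** -/
theorem App.of_discrete (hβ : ContinuousOn β (Icc 0 T)) (hW : ContinuousOn W (Icc 0 T))
    (hD : ∀ᶠ i in F, DChain (m i) (t i) (V i) (e i) (f i) (U i) (g i))
    (h0 : ∀ᶠ i in F, t i 0 = 0)
    (hinit : ∀ K : Set ℂ, IsCompact K → K ⊆ UH → ∀ ε > 0, ∀ᶠ i in F, K ⊆ U i 0 ∧
      ∀ z ∈ K, ‖g i 0 z - z‖ ≤ ε)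
    (hm : ∀ᶠ i in F, T < t i (m i))
    (hmesh : ∀ μ > 0, ∀ᶠ i in F, ∀ j < m i, t i j ≤ T → t i (j + 1) - t i j ≤ μ)
    (he : ∀ δ > 0, Tendsto (fun i => ∑ j ∈ Finset.range (m i), (e i j + f i j / δ)) F (𝓝 0))
    (hV : ∀ ε > 0, ∀ᶠ i in F, ∀ j ≤ m i, t i j ≤ T → |V i j - W (t i j)| ≤ ε)
    (hB : ∀ ε > 0, ∀ᶠ i in F, ∀ j ≤ m i, t i j ≤ T → dist (B i j) (β (t i j)) ≤ ε)
    (hBU : ∀ᶠ i in F, ∀ j ≤ m i, B i j ∉ U i j)
    (hP : ∀ ε > 0, ∀ᶠ i in F, ∀ j ≤ m i, t i j ≤ T → ∀ p ∈ P i j, ∃ u ∈ Icc 0 (t i j),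
      dist p (β u) ≤ ε)
    (hYβ : ∀ u ∈ Icc 0 T, ‖β u‖ < Y) (hYT : 48 * T < Y ^ 2)
    (hvis : ∀ κ > 0, ∀ᶠ i in F, ∀ j ≤ m i, t i j ≤ T → ∀ Γ : Set ℂ, IsCompact Γ →
      IsPreconnected Γ → (∀ z ∈ Γ, κ ≤ z.im ∧ ‖z‖ ≤ 1 / κ ∧ ∀ p ∈ P i j, κ ≤ dist z p) →
      (Y * Complex.I : ℂ) ∈ Γ → Γ ⊆ U i j) :
    App F T Y β W (fun i s => U i (idx (m i) (t i) s)) (fun i s => g i (idx (m i) (t i) s))
      (fun i s => V i (idx (m i) (t i) s)) (fun i s => 2 * t i (idx (m i) (t i) s)) := by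
  have hbase := idx_basic (T := T) h0 hm hmesh
  have hnonneg := idx_nonneg hD h0
  refine App.of_core hβ hW hD h0 hinit hm hmesh he hV ?_ hYβ hYT ?_
  · -- past
    intro s hs u hu
    have huT : u ∈ Icc 0 T := ⟨hu.1, hu.2.trans hs.2⟩
    refine ⟨fun i => B i (idx (m i) (t i) u), ?_, ?_⟩
    · have h1 := idx_comp hD h0 hm hmesh hβ huT
      rw [Metric.tendsto_nhds] at h1 ⊢
      intro ε hε
      filter_upwards [h1 (ε / 2) (by positivity), hB (ε / 4) (by positivity),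
        hbase 1 one_pos] with i h2 h3 h4
      have h5 := h3 _ (idx_le (m i) (t i) u) ((h4.2 u huT).trans huT.2)
      calc dist (B i (idx (m i) (t i) u)) (β u) ≤ _ + _ := dist_triangle _ _ _
        _ ≤ ε / 4 + ε / 2 := add_le_add h5 h2.le
        _ < ε := by linarith
    · filter_upwards [hBU, hD] with i h1 h2 hcon
      exact h1 _ (idx_le _ _ _) (h2.anti' (idx_mono _ _ hu.2) (idx_le _ _ _) hcon)
  · -- visibility
    intro s hs Γ hΓ hΓp hΓs hfar
    -- choose `κ`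
    have hPc : IsCompact (β '' Icc 0 s) :=
      isCompact_Icc.image_of_continuousOn (hβ.mono (Icc_subset_Icc_right hs.2))
    obtain ⟨κ, hκ0, hκ⟩ : ∃ κ > 0, ∀ z ∈ Γ, κ ≤ z.im ∧ ‖z‖ ≤ 1 / κ ∧
        ∀ u ∈ Icc 0 s, 3 * κ ≤ dist z (β u) := by
      have hz₁ := hfar
      obtain ⟨a, ha0, ha⟩ : ∃ a > 0, ∀ z ∈ Γ, a ≤ z.im := by
        obtain ⟨x, hx, hmin⟩ := hΓ.exists_isMinOn ⟨_, hz₁⟩ Complex.continuous_im.continuousOn
        exact ⟨x.im, (hΓs hx).1, fun z hz => hmin hz⟩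
      obtain ⟨b, hb⟩ := hΓ.isBounded.exists_norm_le
      obtain ⟨d, hd0, hd⟩ : ∃ d > 0, ∀ z ∈ Γ, ∀ u ∈ Icc 0 s, d ≤ dist z (β u) := by
        have hdisj : Disjoint Γ (β '' Icc 0 s) := by
          rw [Set.disjoint_left]
          intro z hz hz'
          exact (hΓs hz).2 hz'
        obtain ⟨r, hr0, hr⟩ := Metric.exists_pos_forall_lt_edist hΓ hPc.isClosed hdisj
        refine ⟨r, by exact_mod_cast hr0, ?_⟩
        intro z hz u hu
        have h1 := hr z hz (β u) ⟨u, hu, rfl⟩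
        rw [edist_nndist] at h1
        have h2 : r < nndist z (β u) := by exact_mod_cast h1
        rw [dist_nndist]
        exact_mod_cast h2.le
      refine ⟨min (min a (d / 3)) (1 / (|b| + 1)), by positivity, ?_⟩
      intro z hz
      refine ⟨(min_le_left _ _).trans ((min_le_left _ _).trans (ha z hz)), ?_, ?_⟩
      · have h1 : min (min a (d / 3)) (1 / (|b| + 1)) ≤ 1 / (|b| + 1) := min_le_right _ _
        have h2 : 0 < min (min a (d / 3)) (1 / (|b| + 1)) := by positivity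
        have h3 := one_div_le_one_div_of_le h2 h1
        rw [one_div_one_div] at h3
        have := hb z hz
        have := le_abs_self b
        linarith
      · intro u hu
        have h1 : min (min a (d / 3)) (1 / (|b| + 1)) ≤ d / 3 :=
          (min_le_left _ _).trans (min_le_right _ _)
        have := hd z hz u hu
        linarith
    have huc := isCompact_Icc.uniformContinuousOn_of_continuous hβ
    rw [Metric.uniformContinuousOn_iff] at huc
    obtain ⟨ζ, hζ, huc⟩ := huc κ hκ0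
    filter_upwards [hvis κ hκ0, hbase (ζ / 2) (by positivity), hP κ hκ0, hnonneg] with i h1 h2 h3 h4
    have hjm := idx_le (m i) (t i) s
    have hjT := (h2.2 s hs).trans hs.2
    apply h1 _ hjm hjT Γ hΓ hΓp _ hfar
    intro z hz
    obtain ⟨k1, k2, k3⟩ := hκ z hz
    refine ⟨k1, k2, ?_⟩
    intro p hp
    obtain ⟨u, hu, hpu⟩ := h3 _ hjm hjT p hp
    have hu' : min u s ∈ Icc 0 s := ⟨le_min hu.1 hs.1, min_le_right _ _⟩
    have h5 := k3 _ hu'
    have h6 : dist (β u) (β (min u s)) ≤ κ := by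
      apply le_of_lt
      apply huc u ⟨hu.1, hu.2.trans hjT⟩ (min u s) ⟨hu'.1, hu'.2.trans hs.2⟩
      have h7 := (abs_le.1 (h2.1 s hs)).2
      rw [Real.dist_eq]
      rcases le_total u s with hle | hle
      · rw [min_eq_left hle, sub_self, abs_zero]
        exact hζ
      · rw [min_eq_right hle, abs_of_nonneg (by linarith)]
        linarith [hu.2]
    have h8 : dist z (β (min u s)) ≤ dist z p + dist p (β u) + dist (β u) (β (min u s)) :=
      dist_triangle4 _ _ _ _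
    linarith

/-- Total error from the second moments. -/
theorem err_of_moments {T₁ : ℝ} (hD : ∀ᶠ i in F, MChain (m i) (t i) (V i) (μ i) (U i) (g i))
    (h0 : ∀ᶠ i in F, t i 0 = 0) (hT₁ : ∀ᶠ i in F, t i (m i) ≤ T₁)
    (hμ : Tendsto (fun i => ∑ j ∈ Finset.range (m i), μ i j) F (𝓝 0)) {δ : ℝ} (hδ : 0 < δ) :
    Tendsto (fun i => ∑ j ∈ Finset.range (m i),
      (√(2 * (t i (j + 1) - t i j) * μ i j) + μ i j / δ)) F (𝓝 0) := by
  have hlim : Tendsto (fun i => √(2 * |T₁|) * √(∑ j ∈ Finset.range (m i), μ i j) +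
      (∑ j ∈ Finset.range (m i), μ i j) / δ) F (𝓝 0) := by
    have h1 := (Real.continuous_sqrt.tendsto 0).comp hμ
    rw [Real.sqrt_zero] at h1
    have h2 := (h1.const_mul (√(2 * |T₁|))).add (hμ.div_const δ)
    rw [mul_zero, zero_div, add_zero] at h2
    exact h2
  apply squeeze_zero' _ _ hlim
  · filter_upwards [hD] with i hDi
    apply Finset.sum_nonneg
    intro j hj
    have := hDi.dchain.f0 j (Finset.mem_range.1 hj)
    positivity
  · filter_upwards [hD, h0, hT₁] with i hDi h0i hTi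
    have hd := hDi.dchain
    have hΔ : ∀ j ∈ Finset.range (m i), 0 ≤ 2 * (t i (j + 1) - t i j) := by
      intro j hj
      have h1 := hd.t_mono (Nat.le_succ j) (Finset.mem_range.1 hj)
      simp only [Nat.succ_eq_add_one] at h1
      linarith
    have hμ0 : ∀ j ∈ Finset.range (m i), 0 ≤ μ i j := fun j hj =>
      hd.f0 j (Finset.mem_range.1 hj)
    rw [Finset.sum_add_distrib, ← Finset.sum_div]
    apply add_le_add _ le_rfl
    have h1 : ∀ j ∈ Finset.range (m i), √(2 * (t i (j + 1) - t i j) * μ i j) =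
        √(2 * (t i (j + 1) - t i j)) * √(μ i j) := by
      intro j hj
      exact Real.sqrt_mul (hΔ j hj) _
    rw [Finset.sum_congr rfl h1]
    have h2 := Finset.sum_mul_sq_le_sq_mul_sq (Finset.range (m i))
      (fun j => √(2 * (t i (j + 1) - t i j))) (fun j => √(μ i j))
    have h3 : ∑ j ∈ Finset.range (m i), (√(2 * (t i (j + 1) - t i j))) ^ 2 =
        2 * t i (m i) := by
      rw [Finset.sum_congr rfl (fun j hj => Real.sq_sqrt (hΔ j hj)), ← Finset.mul_sum,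
        Finset.sum_range_sub, h0i, sub_zero]
    have h4 : ∑ j ∈ Finset.range (m i), (√(μ i j)) ^ 2 = ∑ j ∈ Finset.range (m i), μ i j :=
      Finset.sum_congr rfl (fun j hj => Real.sq_sqrt (hμ0 j hj))
    rw [h3, h4] at h2
    have h5 : 0 ≤ ∑ j ∈ Finset.range (m i), μ i j := Finset.sum_nonneg hμ0
    have h6 : 2 * t i (m i) ≤ 2 * |T₁| := by
      have := le_abs_self T₁
      linarith
    rw [← Real.sqrt_mul (by positivity)]
    apply Real.le_sqrt_of_sq_le
    exact h2.trans (by gcongr)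

/-- **From discrete chains with small second moments to approximate chains.** -/
theorem App.of_moments (hβ : ContinuousOn β (Icc 0 T)) (hW : ContinuousOn W (Icc 0 T))
    (hD : ∀ᶠ i in F, MChain (m i) (t i) (V i) (μ i) (U i) (g i))
    (h0 : ∀ᶠ i in F, t i 0 = 0)
    (hinit : ∀ K : Set ℂ, IsCompact K → K ⊆ UH → ∀ ε > 0, ∀ᶠ i in F, K ⊆ U i 0 ∧
      ∀ z ∈ K, ‖g i 0 z - z‖ ≤ ε)
    (hm : ∀ᶠ i in F, T < t i (m i)) {T₁ : ℝ} (hT₁ : ∀ᶠ i in F, t i (m i) ≤ T₁)
    (hmesh : ∀ μ > 0, ∀ᶠ i in F, ∀ j < m i, t i j ≤ T → t i (j + 1) - t i j ≤ μ)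
    (hμ : Tendsto (fun i => ∑ j ∈ Finset.range (m i), μ i j) F (𝓝 0))
    (hV : ∀ ε > 0, ∀ᶠ i in F, ∀ j ≤ m i, t i j ≤ T → |V i j - W (t i j)| ≤ ε)
    (hB : ∀ ε > 0, ∀ᶠ i in F, ∀ j ≤ m i, t i j ≤ T → dist (B i j) (β (t i j)) ≤ ε)
    (hBU : ∀ᶠ i in F, ∀ j ≤ m i, B i j ∉ U i j)
    (hP : ∀ ε > 0, ∀ᶠ i in F, ∀ j ≤ m i, t i j ≤ T → ∀ p ∈ P i j, ∃ u ∈ Icc 0 (t i j),
      dist p (β u) ≤ ε)
    (hYβ : ∀ u ∈ Icc 0 T, ‖β u‖ < Y) (hYT : 48 * T < Y ^ 2)
    (hvis : ∀ κ > 0, ∀ᶠ i in F, ∀ j ≤ m i, t i j ≤ T → ∀ Γ : Set ℂ, IsCompact Γ →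
      IsPreconnected Γ → (∀ z ∈ Γ, κ ≤ z.im ∧ ‖z‖ ≤ 1 / κ ∧ ∀ p ∈ P i j, κ ≤ dist z p) →
      (Y * Complex.I : ℂ) ∈ Γ → Γ ⊆ U i j) :
    App F T Y β W (fun i s => U i (idx (m i) (t i) s)) (fun i s => g i (idx (m i) (t i) s))
      (fun i s => V i (idx (m i) (t i) s)) (fun i s => 2 * t i (idx (m i) (t i) s)) :=
  App.of_discrete hβ hW (hD.mono (fun _ h => h.dchain)) h0 hinit hm hmesh
    (fun _ hδ => err_of_moments hD h0 hT₁ hμ hδ) hV hB hBU hP hYβ hYT hvis

end Pool.Agent.H96.M7
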