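import Mathlib
import Pool.Agent.H83.Lo.Montel
import Pool.Agent.H96.M7.Gen

set_option autoImplicit false
open Set Filter Topology MeasureTheory Bornology
open Pool.Agent.H83.Lo (Hyd UH)

/-! Approximate Loewner chains and their limits: the limit curve generates the hulls of the limit
driving function. -/

namespace Pool.Agent.H96.M7

variable {ι : Type*} {F : Filter ι} {T Y : ℝ} {β : ℝ → ℂ} {W : ℝ → ℝ} {U : ι → ℝ → Set ℂ}
  {g : ι → ℝ → ℂ → ℂ} {V : ι → ℝ → ℝ} {c : ι → ℝ → ℝ}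

/-- Points of the limit curve are swallowed. -/
theorem App.disj [F.NeBot] (A : App F T Y β W U g V c) {t : ℝ} (ht : t ∈ Icc 0 T) :
    Disjoint (Dom W t) (β '' Icc 0 t) := by
  rw [Set.disjoint_left]
  rintro z ⟨hz0, h, H⟩ ⟨u, hu, rfl⟩
  obtain ⟨η, hη, h1⟩ := A.surv ht H one_pos
  obtain ⟨p, hp, hpU⟩ := A.past t ht u hu
  rw [Metric.tendsto_nhds] at hp
  obtain ⟨i, ⟨h3, h4⟩, h5⟩ := ((h1.and (hp η hη)).and hpU).exists
  rw [dist_eq_norm] at h4
  exact h5 (h3 (p i) h4.le).1

lemma thickening_preconn {Γ : Set ℂ} (hΓ : IsPreconnected Γ) {d : ℝ} (hd : 0 < d) :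
    IsPreconnected (Metric.thickening d Γ) := by
  rcases Γ.eq_empty_or_nonempty with h | ⟨x0, hx0⟩
  · rw [h, Metric.thickening_empty]
    exact isPreconnected_empty
  · have e : Metric.thickening d Γ = ⋃ x ∈ Γ, (Γ ∪ Metric.ball x d) := by
      ext y
      rw [Metric.mem_thickening_iff]
      simp only [mem_iUnion, mem_union, Metric.mem_ball, exists_prop]
      constructor
      · rintro ⟨x, hx, h⟩
        exact ⟨x, hx, Or.inr h⟩
      · rintro ⟨x, hx, h | h⟩
        · exact ⟨y, h, by rwa [dist_self]⟩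
        · exact ⟨x, hx, h⟩
    rw [e]
    have e2 : (⋃ x ∈ Γ, (Γ ∪ Metric.ball x d)) =
        ⋃₀ ((fun x => Γ ∪ Metric.ball x d) '' Γ) := by
      rw [sUnion_image]
    rw [e2]
    apply isPreconnected_sUnion x0
    · rintro _ ⟨x, -, rfl⟩
      exact Or.inl hx0
    · rintro _ ⟨x, hx, rfl⟩
      exact hΓ.union x hx (Metric.mem_ball_self hd) (convex_ball x d).isPreconnected

/-- The Cayley transform. -/
noncomputable def cay (w : ℂ) : ℂ := (w - Complex.I) / (w + Complex.I)

lemma cay_ne {w : ℂ} (hw : 0 < w.im) : w + Complex.I ≠ 0 := by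
  intro h
  have : (w + Complex.I).im = 0 := by rw [h]; rfl
  rw [Complex.add_im, Complex.I_im] at this
  linarith

lemma one_le_norm_add_I {w : ℂ} (hw : 0 < w.im) : 1 ≤ ‖w + Complex.I‖ := by
  have h1 := Complex.abs_im_le_norm (w + Complex.I)
  rw [Complex.add_im, Complex.I_im] at h1
  have := le_abs_self (w.im + 1)
  linarith

/-- The imaginary part in terms of the Cayley transform. -/
lemma im_eq_cay {w : ℂ} (hw : 0 < w.im) :
    4 * w.im = (1 - ‖cay w‖ ^ 2) * ‖w + Complex.I‖ ^ 2 := by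
  have h1 := cay_ne hw
  have h2 : ‖w + Complex.I‖ ^ 2 ≠ 0 := pow_ne_zero _ (norm_ne_zero_iff.2 h1)
  rw [cay, norm_div, div_pow, sub_mul, div_mul_cancel₀ _ h2, one_mul]
  rw [← Complex.normSq_eq_norm_sq, ← Complex.normSq_eq_norm_sq, Complex.normSq_apply,
    Complex.normSq_apply]
  simp only [Complex.add_re, Complex.add_im, Complex.sub_re, Complex.sub_im, Complex.I_re,
    Complex.I_im]
  ring

lemma norm_cay_lt {w : ℂ} (hw : 0 < w.im) : ‖cay w‖ < 1 := by
  have h1 := im_eq_cay hw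
  have h2 := one_le_norm_add_I hw
  by_contra! hcon
  have h3 : 1 - ‖cay w‖ ^ 2 ≤ 0 := by nlinarith
  have h4 : (1 - ‖cay w‖ ^ 2) * ‖w + Complex.I‖ ^ 2 ≤ 0 :=
    mul_nonpos_of_nonpos_of_nonneg h3 (by positivity)
  linarith

lemma le_im_of_cay {w : ℂ} (hw : 0 < w.im) {r : ℝ} (hr : ‖cay w‖ ^ 2 ≤ r) (hr1 : r ≤ 1) :
    (1 - r) / 4 ≤ w.im := by
  have h1 := im_eq_cay hw
  have h2 := one_le_norm_add_I hw
  have h3 : 0 ≤ 1 - r := by linarith
  have h4 : 1 - r ≤ (1 - ‖cay w‖ ^ 2) * ‖w + Complex.I‖ ^ 2 := by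
    have h5 : 1 - r ≤ 1 - ‖cay w‖ ^ 2 := by linarith
    have h6 : 1 ≤ ‖w + Complex.I‖ ^ 2 := by nlinarith
    nlinarith
  linarith

/-- Points joined to infinity are not swallowed. -/
theorem App.ext_sub [F.NeBot] (A : App F T Y β W U g V c) {t : ℝ} (ht : t ∈ Icc 0 T) :
    Ext β t ⊆ Dom W t := by
  have hβt : ContinuousOn β (Icc 0 t) := A.βc.mono (Icc_subset_Icc_right ht.2)
  have hT0 : (0:ℝ) ∈ Icc 0 T := ⟨le_rfl, ht.1.trans ht.2⟩
  have hY0 : 0 < Y := (norm_nonneg _).trans_lt (A.Yβ 0 hT0)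
  have hYt : ∀ u ∈ Icc 0 t, ‖β u‖ < Y := fun u hu => A.Yβ u ⟨hu.1, hu.2.trans ht.2⟩
  intro z hz
  have hjoin := (mem_Ext_iff_one hβt hY0 hYt).1 hz
  set V' : Set ℂ := UH \ β '' Icc 0 t with hV'
  have hVo : IsOpen V' := isOpen_compl_curve hβt
  set z1 : ℂ := Y * Complex.I with hz1
  have hz1im : z1.im = Y := by simp [hz1]
  obtain ⟨γ, hγ⟩ := hjoin
  set Γ : Set ℂ := range γ with hΓ
  have hΓc : IsCompact Γ := isCompact_range γ.continuous
  have hΓp : IsPreconnected Γ := isPreconnected_range γ.continuous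
  have hΓV : Γ ⊆ V' := by
    rintro _ ⟨s, rfl⟩
    exact hγ s
  have hzΓ : z ∈ Γ := ⟨0, γ.source⟩
  have hz1Γ : z1 ∈ Γ := ⟨1, γ.target⟩
  obtain ⟨d, hd, hdV⟩ := hΓc.exists_thickening_subset_open hVo hΓV
  set N : Set ℂ := Metric.thickening (d / 2) Γ with hN
  have hd2 : 0 < d / 2 := by positivity
  have hNo : IsOpen N := Metric.isOpen_thickening
  have hNp : IsPreconnected N := thickening_preconn hΓp hd2
  have hΓN : Γ ⊆ N := Metric.self_subset_thickening hd2 Γ
  have hNc : closure N ⊆ V' := by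
    rw [hN, closure_thickening hd2]
    exact (Metric.cthickening_subset_thickening' hd (by linarith) Γ).trans hdV
  have hNcc : IsCompact (closure N) := by
    rw [hN, closure_thickening hd2]
    exact hΓc.cthickening
  have hNU : ∀ᶠ i in F, N ⊆ U i t := by
    have h1 := A.vis t ht (closure N) hNcc hNp.closure hNc (subset_closure (hΓN hz1Γ))
    filter_upwards [h1] with i hi
    exact subset_closure.trans hi
  -- the point `iY`
  have hz1U : ({z1} : Set ℂ) ⊆ UH := by
    rw [singleton_subset_iff, Pool.Agent.H83.Lo.mem_UH, hz1im]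
    exact hY0
  have hinit := A.init {z1} isCompact_singleton hz1U (Y / 8) (by positivity)
  have hcap : ∀ᶠ i in F, 12 * (c i t - c i 0) ≤ 25 * T + Y ^ 2 / 8 := by
    have h1 := (((A.cap t ht).sub (A.cap 0 hT0)).const_mul 12).eventually_le_const
      (u := 25 * T + Y ^ 2 / 8) (by
        have := ht.2
        have := ht.1
        have : 0 < Y ^ 2 := by positivity
        nlinarith)
    exact h1
  have hz1ev : ∀ᶠ i in F, z1 ∈ U i t ∧ Y / 4 ≤ (g i t z1).im ∧
      ‖g i t z1 - z1‖ ≤ Y / 8 + (25 * T + Y ^ 2 / 8) / (12 * (Y / 4)) := by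
    filter_upwards [hinit, hcap, A.qf] with i h1 h2 h3
    have q := h3 0 hT0 t ht ht.1
    have h4 : z1 ∈ U i 0 := h1.1 rfl
    have h5 := h1.2 z1 rfl
    have h6 : Y * (7 / 8) ≤ (g i 0 z1).im := by
      have e1 := Complex.abs_im_le_norm (g i 0 z1 - z1)
      rw [Complex.sub_im, hz1im] at e1
      have e2 := (abs_le.1 (e1.trans h5)).1
      linarith
    have hYT := A.YT
    have hTn : 0 ≤ T := hT0.2
    obtain ⟨h7, h8⟩ := q.high z1 h4 (by nlinarith)
    have h9 : Y / 4 ≤ (g i t z1).im := by linarith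
    refine ⟨h7, h9, ?_⟩
    have h10 := q.disp z1 h7
    have h11 : (c i t - c i 0) / (g i t z1).im ≤ (25 * T + Y ^ 2 / 8) / (12 * (Y / 4)) := by
      have h12 : c i t - c i 0 ≤ (25 * T + Y ^ 2 / 8) / 12 := by linarith
      have h13 : 0 ≤ (g i t z1).im := (by positivity : (0:ℝ) ≤ Y / 4).trans h9
      calc (c i t - c i 0) / (g i t z1).im ≤ ((25 * T + Y ^ 2 / 8) / 12) / (g i t z1).im := by
            gcongr
        _ ≤ ((25 * T + Y ^ 2 / 8) / 12) / (Y / 4) := by gcongr
        _ = (25 * T + Y ^ 2 / 8) / (12 * (Y / 4)) := by rw [div_div]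
    calc ‖g i t z1 - z1‖ = ‖(g i 0 z1 - z1) + (g i t z1 - g i 0 z1)‖ := by ring_nf
      _ ≤ _ := (norm_add_le _ _).trans (add_le_add h5 (h10.trans h11))
  -- the normal family
  set φ : Ultrafilter ι := Ultrafilter.of F with hφ
  have hφF : (φ : Filter ι) ≤ F := Ultrafilter.of_le F
  classical
  set good : ι → Prop := fun i => N ⊆ U i t ∧ DifferentiableOn ℂ (g i t) (U i t) ∧
    MapsTo (g i t) (U i t) UH with hgood
  have hgoodev : ∀ᶠ i in F, good i := by
    filter_upwards [hNU, A.diff, A.bij] with i h1 h2 h3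
    exact ⟨h1, h2 t ht, (h3 t ht).mapsTo⟩
  set G' : ι → ℂ → ℂ := fun i w => if good i then cay (g i t w) else 0 with hG'
  obtain ⟨G, hlim, hGd, hG1⟩ := Pool.Agent.H83.Lo.montel φ hNo (F := G') (by
      intro i
      by_cases hi : good i
      · simp only [hG', if_pos hi]
        have h1 : DifferentiableOn ℂ (g i t) N := hi.2.1.mono hi.1
        exact (h1.sub_const _).div (h1.add_const _) (fun w hw => cay_ne (hi.2.2 (hi.1 hw)))
      · simp only [hG', if_neg hi]
        exact differentiableOn_const _) (M := 1) (by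
      intro i w hw
      by_cases hi : good i
      · simp only [hG', if_pos hi]
        exact (norm_cay_lt (hi.2.2 (hi.1 hw))).le
      · simp only [hG', if_neg hi, norm_zero]
        exact zero_le_one)
  have hpt : ∀ w ∈ N, Tendsto (fun i => cay (g i t w)) φ (𝓝 (G w)) := by
    intro w hw
    refine (hlim.tendsto_at hw).congr' ?_
    filter_upwards [hφF hgoodev] with i hi
    simp only [hG', if_pos hi]
  have hG1z1 : ‖G z1‖ < 1 := by
    set B : ℝ := Y / 8 + (25 * T + Y ^ 2 / 8) / (12 * (Y / 4)) with hB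
    have hKc : IsCompact (Metric.closedBall z1 B ∩ {w : ℂ | Y / 4 ≤ w.im}) :=
      (isCompact_closedBall z1 B).inter_right
        (isClosed_le continuous_const Complex.continuous_im)
    obtain ⟨w1, hw1, hw1lim⟩ := hKc.ultrafilter_le_nhds (φ.map (fun i => g i t z1)) (by
      rw [le_principal_iff]
      change ∀ᶠ i in (φ : Filter ι), g i t z1 ∈ Metric.closedBall z1 B ∩ {w : ℂ | Y / 4 ≤ w.im}
      filter_upwards [hφF hz1ev] with i hi
      refine ⟨?_, hi.2.1⟩
      rw [Metric.mem_closedBall, dist_eq_norm]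
      exact hi.2.2)
    have hw1im : 0 < w1.im := lt_of_lt_of_le (by positivity) hw1.2
    have hcc : ContinuousAt cay w1 := by
      unfold cay
      exact (continuousAt_id.sub continuousAt_const).div (continuousAt_id.add continuousAt_const)
        (cay_ne hw1im)
    have h2 : Tendsto (fun i => cay (g i t z1)) φ (𝓝 (cay w1)) := hcc.tendsto.comp hw1lim
    rw [tendsto_nhds_unique (hpt z1 (hΓN hz1Γ)) h2]
    exact norm_cay_lt hw1im
  have hGz : ‖G z‖ < 1 := by
    by_contra! hcon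
    have hmax : IsMaxOn (norm ∘ G) N z := by
      intro w hw
      exact (hG1 w hw).trans hcon
    have h1 := Complex.eqOn_of_isPreconnected_of_isMaxOn_norm hNp hNo hGd (hΓN hzΓ) hmax
      (hΓN hz1Γ)
    rw [h1] at hG1z1
    simp only [Function.const_apply] at hG1z1
    linarith
  set δ : ℝ := (1 - (1 + ‖G z‖ ^ 2) / 2) / 4 with hδ
  have hGz2 : ‖G z‖ ^ 2 < 1 := by
    have := norm_nonneg (G z)
    nlinarith
  have hδ0 : 0 < δ := by
    rw [hδ]
    linarith
  have hev : ∀ᶠ i in (φ : Filter ι), z ∈ U i t ∧ δ ≤ (g i t z).im := by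
    have h1 := ((hpt z (hΓN hzΓ)).norm.pow 2).eventually_le_const
      (u := (1 + ‖G z‖ ^ 2) / 2) (by linarith)
    filter_upwards [h1, hφF hgoodev] with i hi hg
    refine ⟨hg.1 (hΓN hzΓ), ?_⟩
    exact le_im_of_cay (hg.2.2 (hg.1 (hΓN hzΓ))) hi (by linarith)
  obtain ⟨h, H, -, -⟩ := A.limsol ht φ hφF (zi := fun _ => z)
    tendsto_const_nhds hz.1.1 hδ0 hev
  exact mem_Dom ht.1 H

/-- **The deterministic limit theorem.** The limit curve of approximate Loewner chains generates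
the hulls of the limit driving function. -/
theorem App.dom_eq [F.NeBot] (A : App F T Y β W U g V c) {t : ℝ} (ht : t ∈ Icc 0 T) :
    Dom W t = Ext β t := by
  apply Subset.antisymm _ (A.ext_sub ht)
  have hWt : ContinuousOn W (Icc 0 t) := A.Wc.mono (Icc_subset_Icc_right ht.2)
  have hdisj := A.disj ht
  have hc := Dom_preconn hWt ht.1
  have hu := Dom_unbdd hWt ht.1
  have hsub : Dom W t ⊆ UH \ β '' Icc 0 t := fun z hz =>
    ⟨hz.1, Set.disjoint_left.1 hdisj hz⟩
  intro z hz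
  refine ⟨hsub hz, ?_⟩
  intro hb
  exact hu (hb.subset (hc.subset_connectedComponentIn hz hsub))

end Pool.Agent.H96.M7
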