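import Mathlib
import Pool.Agent.H96.M7.Gen2
import Pool.Agent.H96.M7.Discrete2

set_option autoImplicit false
open Set Filter Topology MeasureTheory Bornology
open Pool.Agent.H83.Lo (Hyd UH)

/-! The closure lemma in the coordinates of a domain `D = φ(ℍ)`. -/

namespace Pool.Agent.H96.M7

/-- The closed upper half plane. -/
def cUH : Set ℂ := {z | 0 ≤ z.im}

lemma UH_sub_cUH : UH ⊆ cUH := by
  intro z hz
  have h : 0 < z.im := hz
  exact h.le

/-- Pull back of a discrete chain by a conformal map. -/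
theorem MChain.comap {m : ℕ} {t V μ : ℕ → ℝ} {G : ℕ → Set ℂ} {Z : ℕ → ℂ → ℂ} {D : Set ℂ}
    {φ : ℂ → ℂ} (hφd : DifferentiableOn ℂ φ UH) (hφ : BijOn φ UH D) (hG : ∀ j ≤ m, G j ⊆ D)
    (M : MChain m t V μ G Z) :
    MChain m t V μ (fun j => UH ∩ φ ⁻¹' G j) (fun j z => Z j (φ z)) := by
  have himg : ∀ j ≤ m, φ '' (UH ∩ φ ⁻¹' G j) = G j := by
    intro j hj
    ext w
    constructor
    · rintro ⟨z, ⟨-, hz⟩, rfl⟩
      exact hz
    · intro hw
      obtain ⟨z, hz, rfl⟩ := hφ.surjOn (hG j hj hw)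
      exact ⟨z, ⟨hz, hw⟩, rfl⟩
  have himg2 : ∀ j ≤ m, ∀ k ≤ m, (fun z => Z j (φ z)) '' (UH ∩ φ ⁻¹' G k) = Z j '' G k := by
    intro j _ k hk
    rw [← image_image (Z j) φ, himg k hk]
  refine ⟨?_, ?_, ?_, ?_⟩
  · intro j hj
    exact (M.diff j hj).comp (hφd.mono inter_subset_left) (fun z hz => hz.2)
  · intro j hj
    exact (M.bij j hj).comp ⟨fun z hz => hz.2, hφ.injOn.mono inter_subset_left, by
      intro w hw
      rw [himg j hj]
      exact hw⟩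
  · intro j hj
    exact inter_subset_inter_right _ (preimage_mono (M.anti j hj))
  · intro j hj
    obtain ⟨Q, S, a₂, a₃, h1, h2, h3, h4, h5⟩ := M.quot j hj
    refine ⟨Q, S, a₂, a₃, ?_, ?_, h3, ?_, h5⟩
    · rw [himg2 j hj.le (j + 1) hj]
      exact h1
    · rw [himg2 j hj.le (j + 1) hj]
      exact h2
    · intro z hz
      exact h4 (φ z) hz.2

variable {ι : Type*} {F : Filter ι} {T Y : ℝ} {β : ℝ → ℂ} {W : ℝ → ℝ} {m : ι → ℕ}
  {t V μ : ι → ℕ → ℝ} {G : ι → ℕ → Set ℂ} {Z : ι → ℕ → ℂ → ℂ} {B : ι → ℕ → ℂ}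
  {D : Set ℂ} {φ ψ : ℂ → ℂ}

/-- **The closure lemma in a domain.** -/
theorem App.of_domain (hφd : DifferentiableOn ℂ φ UH) (hφ : BijOn φ UH D)
    (hφc : ContinuousOn φ cUH) (hφi : InjOn φ cUH)
    (hψ : ∀ z ∈ UH, ψ (φ z) = z)
    (hβ : ContinuousOn β (Icc 0 T)) (hβc : ∀ s ∈ Icc 0 T, β s ∈ cUH)
    (hW : ContinuousOn W (Icc 0 T))
    (hM : ∀ᶠ i in F, MChain (m i) (t i) (V i) (μ i) (G i) (Z i))
    (hG : ∀ᶠ i in F, ∀ j ≤ m i, G i j ⊆ D)
    (h0 : ∀ᶠ i in F, t i 0 = 0)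
    (hinit : ∀ K : Set ℂ, IsCompact K → K ⊆ D → ∀ ε > 0, ∀ᶠ i in F, K ⊆ G i 0 ∧
      ∀ z ∈ K, ‖Z i 0 z - ψ z‖ ≤ ε)
    (hm : ∀ᶠ i in F, T < t i (m i)) {T₁ : ℝ} (hT₁ : ∀ᶠ i in F, t i (m i) ≤ T₁)
    (hmesh : ∀ μ > 0, ∀ᶠ i in F, ∀ j < m i, t i j ≤ T → t i (j + 1) - t i j ≤ μ)
    (hμ : Tendsto (fun i => ∑ j ∈ Finset.range (m i), μ i j) F (𝓝 0))
    (hV : ∀ ε > 0, ∀ᶠ i in F, ∀ j ≤ m i, t i j ≤ T → |V i j - W (t i j)| ≤ ε)
    (hB : ∀ ε > 0, ∀ᶠ i in F, ∀ j ≤ m i, t i j ≤ T → dist (B i j) (φ (β (t i j))) ≤ ε)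
    (hBG : ∀ᶠ i in F, ∀ j ≤ m i, B i j ∉ G i j)
    (hYβ : ∀ u ∈ Icc 0 T, ‖β u‖ < Y) (hYT : 48 * T < Y ^ 2)
    (hvis : ∀ Q' : Set ℂ, IsCompact Q' → IsPreconnected Q' → Q' ⊆ D → φ (Y * Complex.I) ∈ Q' →
      ∀ ε > 0, ∀ᶠ i in F, ∀ j ≤ m i, t i j ≤ T → (∀ l ≤ j, ∀ z ∈ Q', ε ≤ dist z (B i l)) →
        Q' ⊆ G i j) :
    App F T Y β W (fun i s => UH ∩ φ ⁻¹' G i (idx (m i) (t i) s))
      (fun i s z => Z i (idx (m i) (t i) s) (φ z))
      (fun i s => V i (idx (m i) (t i) s)) (fun i s => 2 * t i (idx (m i) (t i) s)) := by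
  have hD : ∀ᶠ i in F, MChain (m i) (t i) (V i) (μ i) (fun j => UH ∩ φ ⁻¹' G i j)
      (fun j z => Z i j (φ z)) := by
    filter_upwards [hM, hG] with i h1 h2
    exact h1.comap hφd hφ h2
  have hDc := hD.mono (fun _ h => h.dchain)
  have hbase := idx_basic (T := T) h0 hm hmesh
  have hnonneg := idx_nonneg hDc h0
  have hmap : ∀ s ∈ Icc 0 T, ContinuousOn (fun u => φ (β u)) (Icc 0 s) := by
    intro s hs
    exact hφc.comp (hβ.mono (Icc_subset_Icc_right hs.2)) (fun u hu => hβc u ⟨hu.1, hu.2.trans hs.2⟩)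
  have hmapT : ContinuousOn (fun u => φ (β u)) (Icc 0 T) := hφc.comp hβ hβc
  refine App.of_core hβ hW hDc h0 ?_ hm hmesh
    (fun _ hδ => err_of_moments hD h0 hT₁ hμ hδ) hV ?_ hYβ hYT ?_
  · -- initial maps
    intro K hK hKU ε hε
    have hK' : IsCompact (φ '' K) := hK.image_of_continuousOn (hφd.continuousOn.mono hKU)
    have hKD : φ '' K ⊆ D := by
      rintro _ ⟨z, hz, rfl⟩
      exact hφ.mapsTo (hKU hz)
    filter_upwards [hinit _ hK' hKD ε hε] with i hi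
    refine ⟨fun z hz => ⟨hKU hz, hi.1 ⟨z, hz, rfl⟩⟩, ?_⟩
    intro z hz
    have := hi.2 (φ z) ⟨z, hz, rfl⟩
    rwa [hψ z (hKU hz)] at this
  · -- past
    intro s hs u hu
    have huT : u ∈ Icc 0 T := ⟨hu.1, hu.2.trans hs.2⟩
    by_cases hu0 : β u ∈ UH
    · -- interior point
      have hDo : IsOpen D := by
        rw [← hφ.image_eq]
        exact Pool.Agent.H83.Lo.isOpen_image Pool.Agent.H83.Lo.isOpen_UH hφd hφ.injOn
      have hψd : DifferentiableOn ℂ ψ D := by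
        rw [← hφ.image_eq]
        exact Pool.Agent.H83.Lo.differentiableOn_inv Pool.Agent.H83.Lo.isOpen_UH hφd hφ.injOn hψ
      have hb : φ (β u) ∈ D := hφ.mapsTo hu0
      have hBlim : Tendsto (fun i => B i (idx (m i) (t i) u)) F (𝓝 (φ (β u))) := by
        have h1 := idx_comp hDc h0 hm hmesh hmapT huT
        rw [Metric.tendsto_nhds] at h1 ⊢
        intro ε hε
        filter_upwards [h1 (ε / 2) (by positivity), hB (ε / 4) (by positivity),
          hbase 1 one_pos] with i h2 h3 h4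
        have h5 := h3 _ (idx_le (m i) (t i) u) ((h4.2 u huT).trans huT.2)
        calc dist (B i (idx (m i) (t i) u)) (φ (β u)) ≤ _ + _ := dist_triangle _ _ _
          _ ≤ ε / 4 + ε / 2 := add_le_add h5 h2.le
          _ < ε := by linarith
      refine ⟨fun i => ψ (B i (idx (m i) (t i) u)), ?_, ?_⟩
      · have h1 : ContinuousAt ψ (φ (β u)) := (hψd.differentiableAt (hDo.mem_nhds hb)).continuousAt
        have h2 := h1.tendsto.comp hBlim
        rw [hψ _ hu0] at h2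
        exact h2
      · filter_upwards [hBG, hM, hBlim (hDo.mem_nhds hb)] with i h1 h2 h3 hcon
        have h4 : φ (ψ (B i (idx (m i) (t i) u))) = B i (idx (m i) (t i) u) := by
          obtain ⟨z, hz, he⟩ := hφ.surjOn h3
          have he' : φ z = B i (idx (m i) (t i) u) := he
          rw [← he', hψ z hz]
        have h5 := hcon.2
        rw [mem_preimage, h4] at h5
        exact h1 _ (idx_le _ _ _) (h2.dchain.anti' (idx_mono _ _ hu.2) (idx_le _ _ _) h5)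
    · exact ⟨fun _ => β u, tendsto_const_nhds, Eventually.of_forall (fun i h => hu0 h.1)⟩
  · -- visibility
    intro s hs Γ hΓ hΓp hΓs hfar
    have hΓU : Γ ⊆ UH := fun z hz => (hΓs hz).1
    have hQ' : IsCompact (φ '' Γ) := hΓ.image_of_continuousOn (hφd.continuousOn.mono hΓU)
    have hQ'p : IsPreconnected (φ '' Γ) := hΓp.image _ (hφd.continuousOn.mono hΓU)
    have hQ'D : φ '' Γ ⊆ D := by
      rintro _ ⟨z, hz, rfl⟩
      exact hφ.mapsTo (hΓU hz)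
    have hPc : IsCompact ((fun u => φ (β u)) '' Icc 0 s) :=
      isCompact_Icc.image_of_continuousOn (hmap s hs)
    obtain ⟨d, hd0, hd⟩ : ∃ d > 0, ∀ z ∈ φ '' Γ, ∀ u ∈ Icc 0 s, d ≤ dist z (φ (β u)) := by
      have hdisj : Disjoint (φ '' Γ) ((fun u => φ (β u)) '' Icc 0 s) := by
        rw [Set.disjoint_left]
        rintro _ ⟨z, hz, rfl⟩ ⟨u, hu, he⟩
        have h1 := hφi (hβc u ⟨hu.1, hu.2.trans hs.2⟩) (UH_sub_cUH (hΓU hz)) he
        exact (hΓs hz).2 ⟨u, hu, h1⟩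
      obtain ⟨r, hr0, hr⟩ := Metric.exists_pos_forall_lt_edist hQ' hPc.isClosed hdisj
      refine ⟨r, by exact_mod_cast hr0, ?_⟩
      intro z hz u hu
      have h1 := hr z hz (φ (β u)) ⟨u, hu, rfl⟩
      rw [edist_nndist] at h1
      have h2 : r < nndist z (φ (β u)) := by exact_mod_cast h1
      rw [dist_nndist]
      exact_mod_cast h2.le
    have h1 := hvis (φ '' Γ) hQ' hQ'p hQ'D ⟨_, hfar, rfl⟩ (d / 2) (by positivity)
    filter_upwards [h1, hbase 1 one_pos, hB (d / 2) (by positivity), hnonneg, hDc] with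
      i h2 h3 h4 h5 h6
    have hjm := idx_le (m i) (t i) s
    have hjs := h3.2 s hs
    have h7 := h2 _ hjm (hjs.trans hs.2) (by
      intro l hl z hz
      have e1 : t i l ≤ t i (idx (m i) (t i) s) := h6.t_mono hl hjm
      have e2 : t i l ≤ s := e1.trans hjs
      have e3 := h4 l (hl.trans hjm) (e2.trans hs.2)
      have e4 := hd z hz (t i l) ⟨h5 l (hl.trans hjm), e2⟩
      have e5 : dist z (φ (β (t i l))) ≤ dist z (B i l) + dist (B i l) (φ (β (t i l))) :=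
        dist_triangle _ _ _
      linarith)
    intro z hz
    exact ⟨hΓU hz, h7 ⟨z, hz, rfl⟩⟩

end Pool.Agent.H96.M7
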