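import Pool.Agent.H82.Q1.SLE
import Pool.Agent.H54.M7.StartD
import Pool.Agent.H96.M7.Domain

set_option autoImplicit false
open Set Filter Topology Metric Bornology
open scoped unitInterval NNReal
open Pool.Agent.H83.Lo (Hyd UH)
open Pool.Agent.H82.Q1 (HH cHH IsChart)

/-! The inverse of a chart on the closed half plane; curves on `[0,1]` in capacity time. -/

namespace Pool.Agent.H96.M7

variable {D : Set ℂ} {a b : ℂ} {φ : ℂ → ℂ}

lemma HH_sub : HH ⊆ cHH := by
  intro z hz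
  have h : 0 < z.im := hz
  exact h.le

lemma cHH_closed : IsClosed cHH := isClosed_le continuous_const Complex.continuous_im

/-- the inverse of a chart on the closed half plane -/
noncomputable def psi (φ : ℂ → ℂ) : ℂ → ℂ := Function.invFunOn φ cHH

lemma psi_left (h : IsChart D a b φ) {z : ℂ} (hz : z ∈ cHH) : psi φ (φ z) = z :=
  h.inj.leftInvOn_invFunOn hz

lemma psi_mem {p : ℂ} (hp : p ∈ φ '' cHH) : psi φ p ∈ cHH := Function.invFunOn_mem hp

lemma psi_right {p : ℂ} (hp : p ∈ φ '' cHH) : φ (psi φ p) = p := Function.invFunOn_eq hp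

lemma chart_sub (h : IsChart D a b φ) : D ⊆ φ '' cHH := by
  rw [← h.image]
  exact image_mono HH_sub

lemma chart_bij (h : IsChart D a b φ) : BijOn φ UH D := by
  refine ⟨?_, h.inj.mono HH_sub, ?_⟩
  · intro z hz
    rw [← h.image]
    exact ⟨z, hz, rfl⟩
  · rw [← h.image]
    exact subset_rfl

lemma psi_UH (h : IsChart D a b φ) {p : ℂ} (hp : p ∈ D) : psi φ p ∈ UH := by
  rw [← h.image] at hp
  obtain ⟨z, hz, rfl⟩ := hp
  rw [psi_left h (HH_sub hz)]
  exact hz

/-- points with preimages far away are close to `b` -/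
lemma chart_far (h : IsChart D a b φ) {r : ℝ} (hr : 0 < r) :
    ∃ R : ℝ, ∀ z ∈ cHH, R < ‖z‖ → dist (φ z) b < r := by
  have h1 : ∀ᶠ z in cobounded ℂ ⊓ 𝓟 cHH, dist (φ z) b < r := (Metric.tendsto_nhds.1 h.infty) r hr
  rw [eventually_inf_principal] at h1
  obtain ⟨R, -, hR⟩ := (Metric.hasBasis_cobounded_compl_closedBall (0 : ℂ)).eventually_iff.1 h1
  refine ⟨R, fun z hz hzR => hR ?_ hz⟩
  rw [mem_compl_iff, mem_closedBall, dist_zero_right, not_le]
  exact hzR

lemma psi_cont (h : IsChart D a b φ) : ContinuousOn (psi φ) (φ '' cHH) := by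
  rintro p hp
  have hpb : p ≠ b := fun e => h.ne (e ▸ hp)
  have hd := dist_pos.2 hpb
  obtain ⟨R, hR⟩ := chart_far h (half_pos hd)
  have hK : IsCompact (cHH ∩ closedBall (0 : ℂ) R) := (isCompact_closedBall _ _).inter_left cHH_closed
  refine hK.tendsto_nhds_of_unique_mapClusterPt ?_ ?_
  · have h1 : ∀ᶠ q in 𝓝[φ '' cHH] p, dist q p < dist p b / 2 :=
      nhdsWithin_le_nhds (Metric.ball_mem_nhds p (half_pos hd))
    filter_upwards [h1, self_mem_nhdsWithin] with q h1 h2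
    refine ⟨psi_mem h2, ?_⟩
    rw [mem_closedBall, dist_zero_right]
    by_contra! hcon
    have h3 := hR _ (psi_mem h2) hcon
    rw [psi_right h2] at h3
    have h4 := dist_triangle_left p b q
    linarith
  · intro y hy hcl
    obtain ⟨u, hu, hu'⟩ := mapClusterPt_iff_ultrafilter.1 hcl
    have h1 : ∀ᶠ q in (u : Filter ℂ), q ∈ φ '' cHH := hu self_mem_nhdsWithin
    have h2 : Tendsto (psi φ) u (𝓝[cHH] y) :=
      tendsto_nhdsWithin_iff.2 ⟨hu', h1.mono fun q hq => psi_mem hq⟩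
    have h3 : Tendsto (fun q => φ (psi φ q)) u (𝓝 (φ y)) := (h.cont y hy.1).tendsto.comp h2
    have h4 : Tendsto (fun q => φ (psi φ q)) u (𝓝 p) := by
      have h5 : Tendsto (fun q : ℂ => q) (u : Filter ℂ) (𝓝 p) := hu.trans nhdsWithin_le_nhds
      exact h5.congr' (h1.mono fun q hq => (psi_right hq).symm)
    have h5 : φ y = p := tendsto_nhds_unique h3 h4
    rw [← h5, psi_left h hy.1]

lemma closure_sub (h : IsChart D a b φ) : closure D ⊆ insert b (φ '' cHH) := by
  have hc : IsCompact (insert b (φ '' cHH)) :=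
    Pool.Agent.H54.M7.compact_insert cHH_closed h.cont h.infty
  exact closure_minimal ((chart_sub h).trans (subset_insert _ _)) hc.isClosed

lemma chart_ne (h : IsChart D a b φ) : a ≠ b := by
  intro e
  apply h.ne
  rw [← e, ← h.zero]
  exact ⟨0, by change (0:ℝ) ≤ (0:ℂ).im; simp, rfl⟩

/-! ### Curves on `[0,1]` in capacity time -/

/-- The point of the curve `e` at the capacity time `t`, i.e. at the parameter `t / (1 + t)`. -/
noncomputable def cap (e : C(I, ℂ)) (t : ℝ) : ℂ := e (projIcc 0 1 zero_le_one (t / (1 + t)))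

lemma div_mem {t : ℝ} (ht : 0 ≤ t) : t / (1 + t) ∈ Icc (0 : ℝ) 1 := by
  refine ⟨by positivity, ?_⟩
  rw [div_le_one (by linarith)]
  linarith

lemma cap_eq (e : C(I, ℂ)) {t : ℝ} (ht : 0 ≤ t) : cap e t = e ⟨t / (1 + t), div_mem ht⟩ := by
  unfold cap
  rw [projIcc_of_mem zero_le_one (div_mem ht)]

lemma cap_zero (e : C(I, ℂ)) : cap e 0 = e 0 := by
  rw [cap_eq e le_rfl]
  congr 1
  ext
  simp

lemma cap_inv (e : C(I, ℂ)) {s : I} (hs : (s : ℝ) < 1) : cap e ((s : ℝ) / (1 - s)) = e s := by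
  have h0 := s.2.1
  have h1 : 0 < 1 - (s : ℝ) := by linarith
  rw [cap_eq e (by positivity)]
  congr 1
  ext
  change (s : ℝ) / (1 - s) / (1 + (s : ℝ) / (1 - s)) = s
  field_simp
  ring

lemma cap_cont (e : C(I, ℂ)) : ContinuousOn (cap e) (Ici 0) := by
  refine (e.continuous.comp continuous_projIcc).comp_continuousOn ?_
  refine ContinuousOn.div continuousOn_id (continuousOn_const.add continuousOn_id) ?_
  intro t ht
  have : (0 : ℝ) ≤ t := ht
  change (1 : ℝ) + t ≠ 0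
  positivity

lemma cap_dist (e e' : C(I, ℂ)) (t : ℝ) : dist (cap e t) (cap e' t) ≤ dist e e' :=
  ContinuousMap.dist_apply_le_dist _

lemma cap_unif (e : C(I, ℂ)) {ε : ℝ} (hε : 0 < ε) :
    ∃ δ > 0, ∀ t t' : ℝ, 0 ≤ t → 0 ≤ t' → |t - t'| < δ → dist (cap e t) (cap e t') < ε := by
  have h1 := CompactSpace.uniformContinuous_of_continuous e.continuous
  obtain ⟨δ, hδ, h2⟩ := Metric.uniformContinuous_iff.1 h1 ε hε
  refine ⟨δ, hδ, ?_⟩
  intro t t' ht ht' htt
  rw [cap_eq e ht, cap_eq e ht']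
  apply h2
  rw [Subtype.dist_eq, Real.dist_eq]
  have e1 : t / (1 + t) - t' / (1 + t') = (t - t') / ((1 + t) * (1 + t')) := by
    field_simp
    ring
  rw [e1, abs_div, abs_of_pos (show 0 < (1 + t) * (1 + t') by positivity)]
  refine lt_of_le_of_lt (div_le_self (abs_nonneg _) ?_) htt
  nlinarith [mul_nonneg ht ht']

/-- The driving function at time `t`. -/
noncomputable def drv (f : C(ℝ≥0, ℝ)) (t : ℝ) : ℝ := f t.toNNReal

lemma drv_cont (f : C(ℝ≥0, ℝ)) : Continuous (drv f) := f.continuous.comp continuous_real_toNNReal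

lemma drv_unif (f : C(ℝ≥0, ℝ)) (T : ℝ) {ε : ℝ} (hε : 0 < ε) :
    ∃ δ > 0, ∀ t ∈ Icc 0 T, ∀ t' ∈ Icc 0 T, |t - t'| < δ → |drv f t - drv f t'| < ε := by
  have h1 : UniformContinuousOn (drv f) (Icc 0 T) :=
    isCompact_Icc.uniformContinuousOn_of_continuous (drv_cont f).continuousOn
  obtain ⟨δ, hδ, h2⟩ := Metric.uniformContinuousOn_iff.1 h1 ε hε
  exact ⟨δ, hδ, fun t ht t' ht' h => h2 t ht t' ht' h⟩

lemma drv_lim {ι : Type*} {F : Filter ι} {f : ι → C(ℝ≥0, ℝ)} {f' : C(ℝ≥0, ℝ)}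
    (h : Tendsto f F (𝓝 f')) (T : ℝ) {ε : ℝ} (hε : 0 < ε) :
    ∀ᶠ i in F, ∀ t ∈ Icc 0 T, |drv (f i) t - drv f' t| < ε := by
  have h1 := ContinuousMap.tendsto_iff_forall_isCompact_tendstoUniformlyOn.1 h
    (Icc 0 T.toNNReal) isCompact_Icc
  filter_upwards [Metric.tendstoUniformlyOn_iff.1 h1 ε hε] with i hi t ht
  have := hi t.toNNReal ⟨zero_le, Real.toNNReal_le_toNNReal ht.2⟩
  rw [dist_comm, Real.dist_eq] at this
  exact this

end Pool.Agent.H96.M7
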