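import Mathlib

set_option autoImplicit false
open Set Filter Topology Bornology

/-! Harnack inequality for holomorphic functions with values in the upper half plane, and chains of
balls. -/

namespace Pool.Agent.H96.M7

/-- Harnack inequality. -/
theorem harnack {f : ℂ → ℂ} {p q : ℂ} {d : ℝ} (hd : 0 < d)
    (hf : DifferentiableOn ℂ f (Metric.ball p d)) (hm : ∀ z ∈ Metric.ball p d, 0 < (f z).im)
    (hq : ‖q - p‖ ≤ d / 2) : (f p).im / 3 ≤ (f q).im := by
  have hp : p ∈ Metric.ball p d := Metric.mem_ball_self hd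
  have hqb : q ∈ Metric.ball p d := by
    rw [Metric.mem_ball, dist_eq_norm]
    linarith
  set B := f p with hB
  have hb : 0 < B.im := hm p hp
  have hne : ∀ A : ℂ, 0 < A.im → A - (starRingEnd ℂ) B ≠ 0 := by
    intro A hA h
    have h1 : (A - (starRingEnd ℂ) B).im = 0 := by rw [h]; rfl
    rw [Complex.sub_im, Complex.conj_im] at h1
    linarith
  have hsq : ∀ A : ℂ, ‖A - (starRingEnd ℂ) B‖ ^ 2 = ‖A - B‖ ^ 2 + 4 * A.im * B.im := by
    intro A
    simp only [← Complex.normSq_eq_norm_sq, Complex.normSq_apply, Complex.sub_re, Complex.sub_im,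
      Complex.conj_re, Complex.conj_im]
    ring
  set F : ℂ → ℂ := fun z => (f z - B) / (f z - (starRingEnd ℂ) B) with hF
  have hFd : DifferentiableOn ℂ F (Metric.ball p d) :=
    (hf.sub_const _).div (hf.sub_const _) (fun z hz => hne _ (hm z hz))
  have hFp : F p = 0 := by simp [hF, hB]
  have hFm : MapsTo F (Metric.ball p d) (Metric.closedBall (F p) 1) := by
    intro z hz
    rw [hFp, mem_closedBall_zero_iff]
    simp only [hF]
    rw [norm_div, div_le_one (norm_pos_iff.2 (hne _ (hm z hz)))]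
    have h1 := hsq (f z)
    have h2 : 0 < 4 * (f z).im * B.im := by
      have := hm z hz
      positivity
    exact (lt_of_pow_lt_pow_left₀ 2 (norm_nonneg _) (by linarith)).le
  have h1 := Complex.dist_le_div_mul_dist_of_mapsTo_ball hFd hFm hqb
  rw [hFp, dist_zero_right, dist_eq_norm] at h1
  have h2 : ‖F q‖ ≤ 1 / 2 := by
    refine h1.trans ?_
    rw [one_div_mul_eq_div, div_le_iff₀ hd]
    linarith
  set A := f q with hA
  have ha : 0 < A.im := hm q hqb
  have h3 : ‖A - B‖ ≤ 1 / 2 * ‖A - (starRingEnd ℂ) B‖ := by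
    simp only [hF] at h2
    rw [norm_div, div_le_iff₀ (norm_pos_iff.2 (hne A ha))] at h2
    exact h2
  have h4 := hsq A
  have h5 : (B.im - A.im) ^ 2 ≤ ‖A - B‖ ^ 2 := by
    rw [← Complex.normSq_eq_norm_sq, Complex.normSq_apply, Complex.sub_im]
    nlinarith [mul_self_nonneg (A - B).re]
  have h6 : ‖A - B‖ ^ 2 ≤ 1 / 4 * (‖A - B‖ ^ 2 + 4 * A.im * B.im) := by
    rw [← h4]
    nlinarith [norm_nonneg (A - B), norm_nonneg (A - (starRingEnd ℂ) B)]
  -- `3/4 |A-B|^2 ≤ a b`, `(b-a)^2 ≤ |A-B|^2`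
  have h7 : 3 * (B.im - A.im) ^ 2 ≤ 4 * A.im * B.im := by nlinarith
  by_contra! hcon
  have h8 : A.im < B.im / 3 := hcon
  nlinarith

/-- Chains of balls. -/
theorem harnack_chain {f : ℂ → ℂ} {U : Set ℂ} (hf : DifferentiableOn ℂ f U)
    (hm : ∀ z ∈ U, 0 < (f z).im) {n : ℕ} {p : ℕ → ℂ} {d : ℕ → ℝ} (hd : ∀ i < n, 0 < d i)
    (hb : ∀ i < n, Metric.ball (p i) (d i) ⊆ U) (hp : ∀ i < n, ‖p (i + 1) - p i‖ ≤ d i / 2) :
    (f (p 0)).im / 3 ^ n ≤ (f (p n)).im := by
  induction n with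
  | zero => simp
  | succ n ih =>
    have h1 := ih (fun i hi => hd i (by omega)) (fun i hi => hb i (by omega))
      (fun i hi => hp i (by omega))
    have h2 := harnack (hd n (by omega)) (hf.mono (hb n (by omega)))
      (fun z hz => hm z (hb n (by omega) hz)) (hp n (by omega))
    rw [pow_succ, ← div_div]
    linarith

/-- Along a segment inside a tube of radius `d`: at most `⌈2 L / d⌉` balls. -/
theorem harnack_segment {f : ℂ → ℂ} {U : Set ℂ} (hf : DifferentiableOn ℂ f U)
    (hm : ∀ z ∈ U, 0 < (f z).im) {p q : ℂ} {d : ℝ} (hd : 0 < d) {n : ℕ} (hn : 0 < n)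
    (hL : ‖q - p‖ ≤ n * (d / 2)) (hb : ∀ θ ∈ Icc (0:ℝ) 1, Metric.ball (p + θ * (q - p)) d ⊆ U) :
    (f p).im / 3 ^ n ≤ (f q).im := by
  have hn0 : (0:ℝ) < n := by exact_mod_cast hn
  have h := harnack_chain hf hm (n := n) (p := fun i => p + ((i / n : ℝ) : ℂ) * (q - p))
    (d := fun _ => d) (fun _ _ => hd) (fun i hi => hb _ ⟨by positivity, by
      rw [div_le_one hn0]
      exact_mod_cast hi.le⟩) (fun i hi => by
      have e : p + (((i + 1 : ℕ) / n : ℝ) : ℂ) * (q - p) - (p + ((i / n : ℝ) : ℂ) * (q - p)) =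
          ((1 / n : ℝ) : ℂ) * (q - p) := by
        push_cast
        ring
      rw [e, norm_mul, Complex.norm_real, Real.norm_eq_abs, abs_of_pos (by positivity)]
      rw [one_div_mul_eq_div, div_le_iff₀ hn0]
      linarith)
  simp only [Nat.cast_zero, zero_div, Complex.ofReal_zero, zero_mul, add_zero,
    div_self hn0.ne', Complex.ofReal_one, one_mul] at h
  convert h using 2
  ring_nf

end Pool.Agent.H96.M7
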