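import Pool.Agent.H96.M7.Chart
import Pool.Agent.H96.M7.Trace

set_option autoImplicit false
open Set Filter Topology Metric Bornology
open scoped unitInterval NNReal
open Pool.Agent.H83.Lo (Hyd UH)
open Pool.Agent.H82.Q1 (HH cHH IsChart IsTrace NotSwallowed outerDom)

/-! Pairs (curve, driving function) which are close to a discrete Loewner chain in a domain;
closure of the relation. -/

namespace Pool.Agent.H96.M7

lemma MChain.restrict {m m' : ℕ} {t V μ : ℕ → ℝ} {U : ℕ → Set ℂ} {g : ℕ → ℂ → ℂ}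
    (M : MChain m t V μ U g) (h : m' ≤ m) : MChain m' t V μ U g :=
  ⟨fun j hj => M.diff j (hj.trans h), fun j hj => M.bij j (hj.trans h),
    fun j hj => M.anti j (hj.trans_le h), fun j hj => M.quot j (hj.trans_le h)⟩

lemma MChain.mu_nonneg {m : ℕ} {t V μ : ℕ → ℝ} {U : ℕ → Set ℂ} {g : ℕ → ℂ → ℂ}
    (M : MChain m t V μ U g) {j : ℕ} (hj : j < m) : 0 ≤ μ j := by
  obtain ⟨G, T, a₂, a₃, hG, hT, hC, hz, hμ⟩ := M.quot j hj
  exact (Hyd.Inv.moments hG hT hC (V j)).1.trans hμ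

/-- The pair `(e, f)` (curve, driving function) is `ε`-close to the discrete Loewner chain with `J`
steps, capacity times `t j`, driving values `V j`, domains `G j ⊆ D`, maps `Z j : G j → ℍ` and
tips `B j`. -/
structure NearData (D : Set ℂ) (φ : ℂ → ℂ) (a b : ℂ) (ε : ℝ) (e : C(I, ℂ)) (f : C(ℝ≥0, ℝ)) (J : ℕ)
    (t t' V μ : ℕ → ℝ) (G : ℕ → Set ℂ) (Z : ℕ → ℂ → ℂ) (B : ℕ → ℂ) : Prop where
  chain : MChain J t V μ G Z
  sub : ∀ j ≤ J, G j ⊆ D
  t0 : t 0 = 0
  init : ∀ z : ℂ, ε ≤ z.im → ‖z‖ ≤ ε⁻¹ → φ z ∈ G 0 ∧ ‖Z 0 (φ z) - z‖ ≤ ε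
  mesh : ∀ j < J, t (j + 1) - t j ≤ ε
  mom : ∑ j ∈ Finset.range J, μ j ≤ ε
  time : ∀ j ≤ J, 0 ≤ t' j ∧ |t' j - t j| ≤ ε
  drive : ∀ j ≤ J, |V j - f (t' j).toNNReal| ≤ ε
  tip : ∀ j ≤ J, dist (B j) (cap e (t' j)) ≤ ε
  out : ∀ j ≤ J, B j ∉ G j
  vis : ∀ Q : Set ℂ, IsCompact Q → IsPreconnected Q → Q ⊆ φ '' {z | ε ≤ z.im ∧ ‖z‖ ≤ ε⁻¹} →
    ∀ y : ℝ, 0 < y → φ (y * Complex.I) ∈ Q → ∀ j ≤ J, (∀ l ≤ j, ∀ z ∈ Q, ε ≤ dist z (B l)) →
      (∀ l ≤ j, ∀ s : ℝ, y ≤ s → ε ≤ dist (φ (s * Complex.I)) (B l)) → Q ⊆ G j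
  fin : ε⁻¹ ≤ t J ∨ ε⁻¹ ≤ |V J| ∨ dist (B J) b ≤ ε
  start : dist (e 0) a ≤ ε
  stop : dist (e 1) b ≤ ε
  range : ∀ s, infDist (e s) D ≤ ε

/-- The same up to the time `T`, for a chain which lives longer than `T`. -/
structure NearT (D : Set ℂ) (φ : ℂ → ℂ) (ε T : ℝ) (e : C(I, ℂ)) (f : C(ℝ≥0, ℝ)) (J : ℕ)
    (t t' V μ : ℕ → ℝ) (G : ℕ → Set ℂ) (Z : ℕ → ℂ → ℂ) (B : ℕ → ℂ) : Prop where
  chain : MChain J t V μ G Z
  sub : ∀ j ≤ J, G j ⊆ D
  t0 : t 0 = 0
  init : ∀ z : ℂ, ε ≤ z.im → ‖z‖ ≤ ε⁻¹ → φ z ∈ G 0 ∧ ‖Z 0 (φ z) - z‖ ≤ ε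
  mesh : ∀ j < J, t (j + 1) - t j ≤ ε
  mom : ∑ j ∈ Finset.range J, μ j ≤ ε
  time : ∀ j ≤ J, t j ≤ T → 0 ≤ t' j ∧ |t' j - t j| ≤ ε
  drive : ∀ j ≤ J, t j ≤ T → |V j - f (t' j).toNNReal| ≤ ε
  tip : ∀ j ≤ J, t j ≤ T → dist (B j) (cap e (t' j)) ≤ ε
  out : ∀ j ≤ J, B j ∉ G j
  vis : ∀ Q : Set ℂ, IsCompact Q → IsPreconnected Q → Q ⊆ φ '' {z | ε ≤ z.im ∧ ‖z‖ ≤ ε⁻¹} →
    ∀ y : ℝ, 0 < y → φ (y * Complex.I) ∈ Q → ∀ j ≤ J, (∀ l ≤ j, ∀ z ∈ Q, ε ≤ dist z (B l)) →
      (∀ l ≤ j, ∀ s : ℝ, y ≤ s → ε ≤ dist (φ (s * Complex.I)) (B l)) → Q ⊆ G j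
  life : T < t J

/-- The pair `(e, f)` is `ε`-close to a discrete Loewner chain in `D`. -/
def Near (D : Set ℂ) (φ : ℂ → ℂ) (a b : ℂ) (ε : ℝ) (e : C(I, ℂ)) (f : C(ℝ≥0, ℝ)) : Prop :=
  ∃ (J : ℕ) (t t' V μ : ℕ → ℝ) (G : ℕ → Set ℂ) (Z : ℕ → ℂ → ℂ) (B : ℕ → ℂ),
    NearData D φ a b ε e f J t t' V μ G Z B

lemma Near.mono {D : Set ℂ} {φ : ℂ → ℂ} {a b : ℂ} {ε ε' : ℝ} (h0 : 0 < ε) (h : ε ≤ ε')
    {e : C(I, ℂ)} {f : C(ℝ≥0, ℝ)} (hN : Near D φ a b ε e f) : Near D φ a b ε' e f := by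
  obtain ⟨J, t, t', V, μ, G, Z, B, H⟩ := hN
  have hi : ε'⁻¹ ≤ ε⁻¹ := inv_anti₀ h0 h
  refine ⟨J, t, t', V, μ, G, Z, B, H.chain, H.sub, H.t0, ?_, ?_, H.mom.trans h, ?_, ?_, ?_, H.out,
    ?_, ?_, H.start.trans h, H.stop.trans h, fun s => (H.range s).trans h⟩
  · intro z hz hz'
    have := H.init z (h.trans hz) (hz'.trans hi)
    exact ⟨this.1, this.2.trans h⟩
  · exact fun j hj => (H.mesh j hj).trans h
  · exact fun j hj => ⟨(H.time j hj).1, (H.time j hj).2.trans h⟩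
  · exact fun j hj => (H.drive j hj).trans h
  · exact fun j hj => (H.tip j hj).trans h
  · intro Q hQ hQp hQs y hy0 hy j hj h1 h2
    refine H.vis Q hQ hQp (hQs.trans (image_mono fun z hz => ⟨h.trans hz.1, hz.2.trans hi⟩)) y hy0 hy
      j hj (fun l hl z hz => h.trans (h1 l hl z hz)) (fun l hl s hs => h.trans (h2 l hl s hs))
  · rcases H.fin with h1 | h1 | h1
    · exact Or.inl (hi.trans h1)
    · exact Or.inr (Or.inl (hi.trans h1))
    · exact Or.inr (Or.inr (h1.trans h))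

/-- **The limit relation**: `e` runs in the closure of `D` from `a` to `b`, hits `b` only at the
end, and, in the half plane and in capacity time, it is the trace of the Loewner chain driven by
`f`. -/
structure Rel (φ : ℂ → ℂ) (a b : ℂ) (e : C(I, ℂ)) (f : C(ℝ≥0, ℝ)) : Prop where
  start : e 0 = a
  stop : e 1 = b
  mem : ∀ s : I, (s : ℝ) < 1 → e s ∈ φ '' cHH
  trace : IsTrace (drv f) (fun t => psi φ (cap e t))

section core

variable {D : Set ℂ} {a b : ℂ} {φ : ℂ → ℂ} {ι : Type*} {F : Filter ι} {ε : ι → ℝ}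
  {e : ι → C(I, ℂ)} {f : ι → C(ℝ≥0, ℝ)} {e' : C(I, ℂ)} {f' : C(ℝ≥0, ℝ)}

/-- a compact part of `D` in the coordinates of the half plane -/
lemma psi_compact (h : IsChart D a b φ) {K : Set ℂ} (hK : IsCompact K) (hKD : K ⊆ D) :
    ∃ c > 0, ∀ p ∈ K, c ≤ (psi φ p).im ∧ ‖psi φ p‖ ≤ c⁻¹ := by
  have hc : IsCompact (psi φ '' K) :=
    hK.image_of_continuousOn ((psi_cont h).mono (hKD.trans (chart_sub h)))
  obtain ⟨R, hR⟩ := hc.isBounded.exists_norm_le
  obtain ⟨c, hc0, hc1⟩ : ∃ c > 0, ∀ z ∈ psi φ '' K, c ≤ z.im := by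
    rcases (psi φ '' K).eq_empty_or_nonempty with he | hne
    · exact ⟨1, one_pos, by rw [he]; simp⟩
    · obtain ⟨z, hz, hmin⟩ := hc.exists_isMinOn hne Complex.continuous_im.continuousOn
      refine ⟨z.im, ?_, fun w hw => hmin hw⟩
      obtain ⟨p, hp, rfl⟩ := hz
      exact psi_UH h (hKD hp)
  refine ⟨min c (max R 1)⁻¹, by positivity, ?_⟩
  intro p hp
  refine ⟨(min_le_left _ _).trans (hc1 _ ⟨p, hp, rfl⟩), ?_⟩
  have h1 := hR _ ⟨p, hp, rfl⟩
  calc ‖psi φ p‖ ≤ max R 1 := h1.trans (le_max_left _ 1)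
    _ = ((max R 1)⁻¹)⁻¹ := (inv_inv _).symm
    _ ≤ _ := inv_anti₀ (by positivity) (min_le_right _ _)

variable (h : IsChart D a b φ) (hpos : ∀ᶠ i in F, 0 < ε i) (hε : Tendsto ε F (𝓝 0))
  (he : Tendsto e F (𝓝 e')) (hf : Tendsto f F (𝓝 f'))
  (hN : ∀ᶠ i in F, Near D φ a b (ε i) (e i) (f i))

include h hε he hN

lemma lim_mem [F.NeBot] (s : I) : e' s ∈ insert b (φ '' cHH) := by
  have hne : D.Nonempty := by
    rw [← h.image]
    exact ⟨φ Complex.I, Complex.I, by change (0:ℝ) < Complex.I.im; simp, rfl⟩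
  have h1 : Tendsto (fun i => e i s) F (𝓝 (e' s)) :=
    ((continuous_eval_const s).tendsto e').comp he
  have h2 : Tendsto (fun i => infDist (e i s) D) F (𝓝 (infDist (e' s) D)) :=
    ((continuous_infDist_pt D).tendsto _).comp h1
  have h3 : infDist (e' s) D ≤ 0 := by
    refine le_of_tendsto_of_tendsto h2 hε ?_
    filter_upwards [hN] with i hi
    obtain ⟨J, t, t', V, μ, G, Z, B, H⟩ := hi
    exact H.range s
  have h4 : infDist (e' s) D = 0 := le_antisymm h3 infDist_nonneg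
  exact closure_sub h ((mem_closure_iff_infDist_zero hne).2 h4)

omit h in
lemma lim_start [F.NeBot] : e' 0 = a := by
  have h1 : Tendsto (fun i => e i 0) F (𝓝 (e' 0)) :=
    ((continuous_eval_const (0 : I)).tendsto e').comp he
  have h2 : Tendsto (fun i => dist (e i 0) a) F (𝓝 (dist (e' 0) a)) := h1.dist tendsto_const_nhds
  have h3 : dist (e' 0) a ≤ 0 := by
    refine le_of_tendsto_of_tendsto h2 hε ?_
    filter_upwards [hN] with i hi
    obtain ⟨J, t, t', V, μ, G, Z, B, H⟩ := hi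
    exact H.start
  exact dist_le_zero.1 h3

omit h in
lemma lim_stop [F.NeBot] : e' 1 = b := by
  have h1 : Tendsto (fun i => e i 1) F (𝓝 (e' 1)) :=
    ((continuous_eval_const (1 : I)).tendsto e').comp he
  have h2 : Tendsto (fun i => dist (e i 1) b) F (𝓝 (dist (e' 1) b)) := h1.dist tendsto_const_nhds
  have h3 : dist (e' 1) b ≤ 0 := by
    refine le_of_tendsto_of_tendsto h2 hε ?_
    filter_upwards [hN] with i hi
    obtain ⟨J, t, t', V, μ, G, Z, B, H⟩ := hi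
    exact H.stop
  exact dist_le_zero.1 h3

omit hN in
/-- **The closure lemma up to a time `T`.** -/
theorem limT_core [F.NeBot] (hpos : ∀ᶠ i in F, 0 < ε i) (hf : Tendsto f F (𝓝 f')) {T : ℝ}
    (hN : ∀ᶠ i in F, ∃ (J : ℕ) (t t' V μ : ℕ → ℝ) (G : ℕ → Set ℂ) (Z : ℕ → ℂ → ℂ) (B : ℕ → ℂ),
      NearT D φ (ε i) T (e i) (f i) J t t' V μ G Z B)
    (hT0 : 0 ≤ T) (hmem : ∀ t ∈ Icc 0 T, cap e' t ∈ φ '' cHH) :
    ∀ t ∈ Icc 0 T, Dom (drv f') t = Ext (fun t => psi φ (cap e' t)) t := by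
  classical
  -- the data
  have hch : ∀ i, ∃ (J : ℕ) (t t' V μ : ℕ → ℝ) (G : ℕ → Set ℂ) (Z : ℕ → ℂ → ℂ) (B : ℕ → ℂ),
      (∃ (J : ℕ) (t t' V μ : ℕ → ℝ) (G : ℕ → Set ℂ) (Z : ℕ → ℂ → ℂ) (B : ℕ → ℂ),
        NearT D φ (ε i) T (e i) (f i) J t t' V μ G Z B) →
      NearT D φ (ε i) T (e i) (f i) J t t' V μ G Z B := by
    intro i
    by_cases hi : ∃ (J : ℕ) (t t' V μ : ℕ → ℝ) (G : ℕ → Set ℂ) (Z : ℕ → ℂ → ℂ) (B : ℕ → ℂ),
        NearT D φ (ε i) T (e i) (f i) J t t' V μ G Z B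
    · obtain ⟨J, t, t', V, μ, G, Z, B, H⟩ := hi
      exact ⟨J, t, t', V, μ, G, Z, B, fun _ => H⟩
    · exact ⟨0, 0, 0, 0, 0, fun _ => ∅, fun _ _ => 0, fun _ => 0, fun h => absurd h hi⟩
  choose J t t' V μ G Z B hdat using hch
  have hd : ∀ᶠ i in F, NearT D φ (ε i) T (e i) (f i) (J i) (t i) (t' i) (V i) (μ i) (G i) (Z i)
      (B i) := hN.mono fun i hi => hdat i hi
  -- the limit curve
  set β : ℝ → ℂ := fun t => psi φ (cap e' t) with hβdef
  have hT : ∀ u ∈ Icc 0 T, cap e' u ≠ b := fun u hu hub => h.ne (hub ▸ hmem u hu)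
  have hφβ : ∀ u ∈ Icc 0 T, φ (β u) = cap e' u := fun u hu => psi_right (hmem u hu)
  have hβc : ∀ u ∈ Icc 0 T, β u ∈ cUH := fun u hu => psi_mem (hmem u hu)
  have hβ : ContinuousOn β (Icc 0 T) :=
    (psi_cont h).comp ((cap_cont e').mono Icc_subset_Ici_self) hmem
  obtain ⟨Y, hYβ, hYT⟩ : ∃ Y : ℝ, (∀ u ∈ Icc 0 T, ‖β u‖ < Y) ∧ 48 * T < Y ^ 2 := by
    obtain ⟨R, hR⟩ := (isCompact_Icc.image_of_continuousOn hβ).isBounded.exists_norm_le
    refine ⟨max R 0 + 48 * T + 1, ?_, ?_⟩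
    · intro u hu
      have h1 := hR _ ⟨u, hu, rfl⟩
      have h2 := le_max_left R 0
      linarith
    · have h2 := le_max_right R 0
      nlinarith [mul_nonneg h2 hT0, mul_nonneg hT0 hT0]
  have hY0 : 0 < Y := (norm_nonneg _).trans_lt (hYβ 0 ⟨le_rfl, hT0⟩)
  -- uniform closeness of the tips and of the driving function
  have hsmall : ∀ r > 0, ∀ᶠ i in F, ε i < r := fun r hr => hε.eventually_lt_const hr
  have hB' : ∀ r > 0, ∀ᶠ i in F, ∀ j ≤ J i, 0 ≤ t i j → t i j ≤ T →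
      dist (B i j) (cap e' (t i j)) ≤ r := by
    intro r hr
    obtain ⟨δ, hδ, hu⟩ := cap_unif e' (show 0 < r / 3 by positivity)
    have h1 : ∀ᶠ i in F, dist (e i) e' < r / 3 := (Metric.tendsto_nhds.1 he) _ (by positivity)
    filter_upwards [hd, h1, hsmall δ hδ, hsmall (r / 3) (by positivity)] with i H h2 h3 h4 j hj htj
      htT
    have h5 := H.tip j hj htT
    have h6 := cap_dist (e i) e' (t' i j)
    have h7 := hu (t' i j) (t i j) (H.time j hj htT).1 htj ((H.time j hj htT).2.trans_lt h3)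
    calc dist (B i j) (cap e' (t i j)) ≤ dist (B i j) (cap (e i) (t' i j)) +
          dist (cap (e i) (t' i j)) (cap e' (t' i j)) + dist (cap e' (t' i j)) (cap e' (t i j)) :=
          dist_triangle4 _ _ _ _
      _ ≤ r := by linarith
  have hV' : ∀ r > 0, ∀ᶠ i in F, ∀ j ≤ J i, 0 ≤ t i j → t i j ≤ T →
      |V i j - drv f' (t i j)| ≤ r := by
    intro r hr
    obtain ⟨δ, hδ, hu⟩ := drv_unif f' (T + 1) (show 0 < r / 3 by positivity)
    filter_upwards [hd, drv_lim hf (T + 1) (show 0 < r / 3 by positivity), hsmall δ hδ,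
      hsmall (r / 3) (by positivity), hsmall 1 one_pos] with i H h2 h3 h4 h5 j hj htj htT
    have h6 := (H.time j hj htT).2
    have h7 : t' i j ∈ Icc 0 (T + 1) := by
      refine ⟨(H.time j hj htT).1, ?_⟩
      have := (abs_le.1 h6).2
      linarith
    have h8 : |V i j - drv (f i) (t' i j)| ≤ ε i := H.drive j hj htT
    have h9 := h2 _ h7
    have h10 := hu _ h7 (t i j) ⟨htj, by linarith⟩ (h6.trans_lt h3)
    calc |V i j - drv f' (t i j)| = |(V i j - drv (f i) (t' i j)) +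
          (drv (f i) (t' i j) - drv f' (t' i j)) + (drv f' (t' i j) - drv f' (t i j))| := by ring_nf
      _ ≤ |V i j - drv (f i) (t' i j)| + |drv (f i) (t' i j) - drv f' (t' i j)| +
          |drv f' (t' i j) - drv f' (t i j)| := abs_add_three _ _ _
      _ ≤ r := by linarith
  have hnn : ∀ᶠ i in F, ∀ j ≤ J i, 0 ≤ t i j := by
    filter_upwards [hd] with i H j hj
    have := H.chain.dchain.t_mono (Nat.zero_le j) hj
    rwa [H.t0] at this
  -- truncation
  have hex : ∀ i, ∃ j, T < t i j ∨ j = J i := fun i => ⟨J i, Or.inr rfl⟩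
  set m : ι → ℕ := fun i => Nat.find (hex i) with hm
  have hmJ : ∀ i, m i ≤ J i := fun i => Nat.find_min' (hex i) (Or.inr rfl)
  have hmlt : ∀ i, ∀ j < m i, t i j ≤ T := by
    intro i j hj
    have := Nat.find_min (hex i) hj
    push Not at this
    exact this.1
  have hmT : ∀ᶠ i in F, T < t i (m i) := by
    filter_upwards [hd] with i hi
    rcases Nat.find_spec (hex i) with h1 | h1
    · exact h1
    · change T < t i (m i)
      have : m i = J i := h1
      rw [this]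
      exact hi.life
  have hmT1 : ∀ᶠ i in F, t i (m i) ≤ T + 1 := by
    filter_upwards [hd, hsmall 1 one_pos] with i H h1
    rcases Nat.eq_zero_or_pos (m i) with h2 | h2
    · rw [h2, H.t0]
      linarith
    · have h3 := hmlt i (m i - 1) (by omega)
      have h4 := H.mesh (m i - 1) (by have := hmJ i; omega)
      rw [show m i - 1 + 1 = m i by omega] at h4
      linarith
  -- the curve stays away from the vertical ray
  obtain ⟨d, hd0, hd1⟩ : ∃ d > 0, ∀ s : ℝ, Y ≤ s → ∀ u ∈ Icc 0 T,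
      d ≤ dist (φ (s * Complex.I)) (cap e' u) := by
    have hH : IsClosed {z : ℂ | z.re = 0 ∧ Y ≤ z.im} :=
      (isClosed_eq Complex.continuous_re continuous_const).inter
        (isClosed_le continuous_const Complex.continuous_im)
    have hsub : {z : ℂ | z.re = 0 ∧ Y ≤ z.im} ⊆ cHH := by
      intro z hz
      have : (0 : ℝ) ≤ z.im := hY0.le.trans hz.2
      exact this
    have h1 : IsCompact (insert b (φ '' {z : ℂ | z.re = 0 ∧ Y ≤ z.im})) :=
      Pool.Agent.H54.M7.compact_insert hH (h.cont.mono hsub)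
        (h.infty.mono_left (inf_le_inf_left _ (principal_mono.2 hsub)))
    have h2 : IsCompact (cap e' '' Icc 0 T) :=
      isCompact_Icc.image_of_continuousOn ((cap_cont e').mono Icc_subset_Ici_self)
    have h3 : Disjoint (insert b (φ '' {z : ℂ | z.re = 0 ∧ Y ≤ z.im})) (cap e' '' Icc 0 T) := by
      rw [Set.disjoint_left]
      rintro p hp ⟨u, hu, rfl⟩
      rcases hp with hp | ⟨z, hz, hp⟩
      · exact hT u hu hp
      · have h4 : z = β u := by
          rw [← hφβ u hu] at hp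
          exact h.inj (hsub hz) (hβc u hu) hp
        have h5 := hYβ u hu
        rw [← h4] at h5
        have h6 := (le_abs_self _).trans (Complex.abs_im_le_norm z)
        have h7 := hz.2
        linarith
    obtain ⟨r, hr0, hr⟩ := Metric.exists_pos_forall_lt_edist h1 h2.isClosed h3
    refine ⟨r, by exact_mod_cast hr0, ?_⟩
    intro s hs u hu
    have h4 := hr (φ (s * Complex.I)) (mem_insert_of_mem _ ⟨s * Complex.I, ⟨by simp, by simpa using hs⟩,
      rfl⟩) (cap e' u) ⟨u, hu, rfl⟩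
    rw [edist_nndist] at h4
    have h5 : r < nndist (φ (s * Complex.I)) (cap e' u) := by exact_mod_cast h4
    rw [dist_nndist]
    exact_mod_cast h5.le
  have key : App F T Y β (drv f') (fun i s => UH ∩ φ ⁻¹' G i (idx (m i) (t i) s))
      (fun i s z => Z i (idx (m i) (t i) s) (φ z))
      (fun i s => V i (idx (m i) (t i) s)) (fun i s => 2 * t i (idx (m i) (t i) s)) := by
    refine App.of_domain (μ := μ) (B := B) (D := D) (ψ := psi φ) (T₁ := T + 1) h.diff (chart_bij h)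
      h.cont h.inj (fun z hz => psi_left h (HH_sub hz)) hβ hβc (drv_cont f').continuousOn
      ?_ ?_ ?_ ?_ hmT hmT1 ?_ ?_ ?_ ?_ ?_ hYβ hYT ?_
    · filter_upwards [hd] with i H using H.chain.restrict (hmJ i)
    · filter_upwards [hd] with i H j hj using H.sub j (hj.trans (hmJ i))
    · filter_upwards [hd] with i H using H.t0
    · intro K hK hKD r hr
      obtain ⟨c', hc', hK'⟩ := psi_compact h hK hKD
      filter_upwards [hd, hpos, hsmall c' hc', hsmall r hr] with i H h1 h2 h3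
      have h4 : ∀ p ∈ K, φ (psi φ p) = p := fun p hp => psi_right (chart_sub h (hKD hp))
      have h5 : c'⁻¹ ≤ (ε i)⁻¹ := inv_anti₀ h1 h2.le
      have h6 : ∀ p ∈ K, p ∈ G i 0 ∧ ‖Z i 0 p - psi φ p‖ ≤ r := by
        intro p hp
        have h7 := H.init (psi φ p) (h2.le.trans (hK' p hp).1) ((hK' p hp).2.trans h5)
        rw [h4 p hp] at h7
        exact ⟨h7.1, h7.2.trans h3.le⟩
      exact ⟨fun p hp => (h6 p hp).1, fun p hp => (h6 p hp).2⟩
    · intro r hr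
      filter_upwards [hd, hsmall r hr] with i H h1 j hj _
      exact (H.mesh j (hj.trans_le (hmJ i))).trans h1.le
    · refine squeeze_zero' ?_ ?_ hε
      · filter_upwards [hd] with i H
        exact Finset.sum_nonneg fun j hj =>
          H.chain.mu_nonneg ((Finset.mem_range.1 hj).trans_le (hmJ i))
      · filter_upwards [hd] with i H
        refine le_trans ?_ H.mom
        refine Finset.sum_le_sum_of_subset_of_nonneg (Finset.range_mono (hmJ i)) ?_
        intro j hj _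
        exact H.chain.mu_nonneg (Finset.mem_range.1 hj)
    · intro r hr
      filter_upwards [hnn, hV' r hr] with i h1 h2 j hj hjT
      exact h2 j (hj.trans (hmJ i)) (h1 j (hj.trans (hmJ i))) hjT
    · intro r hr
      filter_upwards [hnn, hB' r hr] with i h1 h2 j hj hjT
      have h3 := h1 j (hj.trans (hmJ i))
      rw [hφβ _ ⟨h3, hjT⟩]
      exact h2 j (hj.trans (hmJ i)) h3 hjT
    · filter_upwards [hd] with i H j hj using H.out j (hj.trans (hmJ i))
    · intro Q hQ hQp hQD hQY r hr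
      obtain ⟨c', hc', hQ'⟩ := psi_compact h hQ hQD
      filter_upwards [hd, hpos, hsmall c' hc', hsmall r hr, hnn, hB' (d / 2) (by positivity),
        hsmall (d / 2) (by positivity)] with i H h1 h2 h3 h4 h5 h6 j hj hjT hfar
      have h7 : c'⁻¹ ≤ (ε i)⁻¹ := inv_anti₀ h1 h2.le
      have hjJ := hj.trans (hmJ i)
      refine H.vis Q hQ hQp ?_ Y hY0 hQY j hjJ (fun l hl z hz => h3.le.trans (hfar l hl z hz)) ?_
      · intro p hp
        exact ⟨psi φ p, ⟨h2.le.trans (hQ' p hp).1, (hQ' p hp).2.trans h7⟩,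
          psi_right (chart_sub h (hQD hp))⟩
      · intro l hl s hs
        have hlT : t i l ≤ T := (H.chain.dchain.t_mono hl hjJ).trans hjT
        have h8 := h4 l (hl.trans hjJ)
        have h9 := hd1 s hs (t i l) ⟨h8, hlT⟩
        have h10 := h5 l (hl.trans hjJ) h8 hlT
        have h11 := dist_triangle (φ (s * Complex.I)) (B i l) (cap e' (t i l))
        linarith
  intro s hs
  exact key.dom_eq hs

/-- **The closure lemma up to a time before the end point is hit.** -/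
theorem lim_core [F.NeBot] (hpos : ∀ᶠ i in F, 0 < ε i) (hf : Tendsto f F (𝓝 f')) {T : ℝ}
    (hT0 : 0 ≤ T) (hT : ∀ t ∈ Icc 0 T, cap e' t ≠ b) :
    ∀ t ∈ Icc 0 T, Dom (drv f') t = Ext (fun t => psi φ (cap e' t)) t := by
  have hmem : ∀ u ∈ Icc 0 T, cap e' u ∈ φ '' cHH := by
    intro u hu
    have h1 : cap e' u ∈ insert b (φ '' cHH) := lim_mem h hε he hN _
    exact h1.resolve_left (hT u hu)
  refine limT_core h hε he hpos hf ?_ hT0 hmem
  -- distance to `b` up to the time `T`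
  obtain ⟨c, hc0, hc⟩ : ∃ c > 0, ∀ u ∈ Icc 0 T, c ≤ dist (cap e' u) b := by
    have h1 : ContinuousOn (fun u => dist (cap e' u) b) (Icc 0 T) :=
      (continuous_id.dist continuous_const).comp_continuousOn
        ((cap_cont e').mono Icc_subset_Ici_self)
    obtain ⟨u, hu, hmin⟩ := isCompact_Icc.exists_isMinOn ⟨0, le_rfl, hT0⟩ h1
    exact ⟨dist (cap e' u) b, dist_pos.2 (hT u hu), fun v hv => hmin hv⟩
  have hsmall : ∀ r > 0, ∀ᶠ i in F, ε i < r := fun r hr => hε.eventually_lt_const hr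
  have hinv : ∀ R : ℝ, ∀ᶠ i in F, R < (ε i)⁻¹ := by
    intro R
    filter_upwards [hpos, hsmall (max R 1)⁻¹ (by positivity)] with i h1 h2
    calc R ≤ max R 1 := le_max_left _ _
      _ = ((max R 1)⁻¹)⁻¹ := (inv_inv _).symm
      _ < _ := inv_strictAnti₀ h1 h2
  obtain ⟨Bd, hBd⟩ : ∃ Bd : ℝ, ∀ u ∈ Icc 0 (T + 1), |drv f' u| ≤ Bd := by
    obtain ⟨R, hR⟩ := (isCompact_Icc.image_of_continuousOn
      (drv_cont f').continuousOn (s := Icc 0 (T + 1))).isBounded.exists_norm_le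
    exact ⟨R, fun u hu => hR _ ⟨u, hu, rfl⟩⟩
  obtain ⟨δ, hδ, hu⟩ := cap_unif e' (show 0 < c / 4 by positivity)
  have h1 : ∀ᶠ i in F, dist (e i) e' < c / 4 := (Metric.tendsto_nhds.1 he) _ (by positivity)
  filter_upwards [hN, h1, hsmall δ hδ, hsmall (c / 4) (by positivity), hinv T, hinv (Bd + 2),
    hsmall 1 one_pos, drv_lim hf (T + 1) one_pos] with i hi h2 h3 h4 h5 h6 h7 h8
  obtain ⟨J, t, t', V, μ, G, Z, B, H⟩ := hi
  refine ⟨J, t, t', V, μ, G, Z, B, H.chain, H.sub, H.t0, H.init, H.mesh, H.mom,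
    fun j hj _ => H.time j hj, fun j hj _ => H.drive j hj, fun j hj _ => H.tip j hj, H.out,
    H.vis, ?_⟩
  by_contra! hcon
  have htJ0 : 0 ≤ t J := by
    have := H.chain.dchain.t_mono (Nat.zero_le J) le_rfl
    rwa [H.t0] at this
  have ht := H.time J le_rfl
  rcases H.fin with h9 | h9 | h9
  · linarith
  · have h10 : |V J - drv (f i) (t' J)| ≤ ε i := H.drive J le_rfl
    have h11 : t' J ∈ Icc 0 (T + 1) := ⟨ht.1, by have := (abs_le.1 ht.2).2; linarith⟩
    have h12 := h8 _ h11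
    have h13 := hBd _ h11
    have h14 : |V J| ≤ |V J - drv (f i) (t' J)| + |drv (f i) (t' J) - drv f' (t' J)| +
        |drv f' (t' J)| := by
      have := abs_add_three (V J - drv (f i) (t' J)) (drv (f i) (t' J) - drv f' (t' J))
        (drv f' (t' J))
      rwa [sub_add_sub_cancel, sub_add_cancel] at this
    linarith
  · have h10 := H.tip J le_rfl
    have h11 := cap_dist (e i) e' (t' J)
    have h12 := hu (t' J) (t J) ht.1 htJ0 (ht.2.trans_lt h3)
    have h13 := hc _ ⟨htJ0, hcon⟩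
    have h14 : dist (cap e' (t J)) b ≤ dist (cap e' (t' J)) (cap e' (t J)) +
        dist (cap (e i) (t' J)) (cap e' (t' J)) + dist (B J) (cap (e i) (t' J)) + dist (B J) b := by
      have a1 := dist_triangle_left (cap e' (t J)) b (cap e' (t' J))
      have a2 := dist_triangle_left (cap e' (t' J)) b (cap (e i) (t' J))
      have a3 := dist_triangle_left (cap (e i) (t' J)) b (B J)
      linarith
    linarith

end core

end Pool.Agent.H96.M7
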