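import Pool.Agent.H96.M7.Param

set_option autoImplicit false
open Set Filter Topology Metric Bornology
open scoped unitInterval NNReal
open Pool.Agent.H83.Lo (Hyd UH)
open Pool.Agent.H81.Q1 (PCurve Curve polyline)
open Pool.Agent.H82.Q1 (HH cHH IsChart IsTrace)

/-! Discrete data along a polygonal path. -/

namespace Pool.Agent.H96.M7

/-- Discrete data along the polygonal path `p 0, …, p n`: a Loewner chain with `J` steps, the tips
`B j` are close to the vertices `Tx j` of the path, and `f` is close to the driving values up to the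
time `T`. -/
structure PathData (D : Set ℂ) (φ : ℂ → ℂ) (a b : ℂ) (ε T θ : ℝ) (p : ℕ → ℂ) (n : ℕ)
    (f : C(ℝ≥0, ℝ)) (J : ℕ) (Tx : ℕ → ℕ) (t V μ : ℕ → ℝ) (G : ℕ → Set ℂ) (Z : ℕ → ℂ → ℂ)
    (B : ℕ → ℂ) : Prop where
  chain : MChain J t V μ G Z
  sub : ∀ j ≤ J, G j ⊆ D
  t0 : t 0 = 0
  init : ∀ z : ℂ, ε ≤ z.im → ‖z‖ ≤ ε⁻¹ → φ z ∈ G 0 ∧ ‖Z 0 (φ z) - z‖ ≤ ε
  mesh : ∀ j < J, t (j + 1) - t j ≤ ε
  mom : ∑ j ∈ Finset.range J, μ j ≤ ε
  drive : ∀ j ≤ J, t j ≤ T → ∀ s : ℝ, 0 ≤ s → |s - t j| ≤ θ → |V j - drv f s| ≤ ε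
  tip : ∀ j ≤ J, dist (B j) (p (Tx j)) ≤ ε
  out : ∀ j ≤ J, B j ∉ G j
  vis : ∀ Q : Set ℂ, IsCompact Q → IsPreconnected Q → Q ⊆ φ '' {z | ε ≤ z.im ∧ ‖z‖ ≤ ε⁻¹} →
    ∀ y : ℝ, 0 < y → φ (y * Complex.I) ∈ Q → ∀ j ≤ J, (∀ l ≤ j, ∀ z ∈ Q, ε ≤ dist z (B l)) →
      (∀ l ≤ j, ∀ s : ℝ, y ≤ s → ε ≤ dist (φ (s * Complex.I)) (B l)) → Q ⊆ G j
  fin : ε⁻¹ ≤ t J ∨ ε⁻¹ ≤ |V J| ∨ dist (B J) b ≤ ε
  npos : 0 < n
  Tmono : ∀ j < J, Tx j ≤ Tx (j + 1)
  Tn : Tx J ≤ n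
  first : ∀ i ≤ Tx 0, dist (p i) a ≤ ε
  step : ∀ j < J, ∀ i, Tx j ≤ i → i ≤ Tx (j + 1) → dist (p i) (p (Tx j)) ≤ ε
  last : dist (p n) b ≤ ε
  seg : ∀ i < n, dist (p i) (p (i + 1)) ≤ ε
  range : ∀ i ≤ n, infDist (p i) D ≤ ε

variable {D : Set ℂ} {φ : ℂ → ℂ} {a b : ℂ} {ε T θ : ℝ} {p : ℕ → ℂ} {n : ℕ} {f : C(ℝ≥0, ℝ)} {J : ℕ}
  {Tx : ℕ → ℕ} {t V μ : ℕ → ℝ} {G : ℕ → Set ℂ} {Z : ℕ → ℂ → ℂ} {B : ℕ → ℂ} {e : C(I, ℂ)}
  {t' x : ℕ → ℝ}

lemma PathData.t_mono (H : PathData D φ a b ε T θ p n f J Tx t V μ G Z B) {j k : ℕ} (hjk : j ≤ k)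
    (hk : k ≤ J) : t j ≤ t k := H.chain.dchain.t_mono hjk hk

lemma PathData.t_nonneg (H : PathData D φ a b ε T θ p n f J Tx t V μ G Z B) {j : ℕ} (hj : j ≤ J) :
    0 ≤ t j := by
  have := H.t_mono (Nat.zero_le j) hj
  rwa [H.t0] at this

lemma PathData.mono (H : PathData D φ a b ε T θ p n f J Tx t V μ G Z B) {ε' : ℝ} (h0 : 0 < ε)
    (h : ε ≤ ε') : PathData D φ a b ε' T θ p n f J Tx t V μ G Z B := by
  have hi : ε'⁻¹ ≤ ε⁻¹ := inv_anti₀ h0 h
  refine ⟨H.chain, H.sub, H.t0, ?_, ?_, H.mom.trans h, ?_, ?_, H.out, ?_, ?_, H.npos, H.Tmono, H.Tn,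
    fun i hi => (H.first i hi).trans h, fun j hj i h1 h2 => (H.step j hj i h1 h2).trans h,
    H.last.trans h, fun i hi => (H.seg i hi).trans h, fun i hi => (H.range i hi).trans h⟩
  · intro z hz hz'
    have := H.init z (h.trans hz) (hz'.trans hi)
    exact ⟨this.1, this.2.trans h⟩
  · exact fun j hj => (H.mesh j hj).trans h
  · exact fun j hj hjT s hs hs' => (H.drive j hj hjT s hs hs').trans h
  · exact fun j hj => (H.tip j hj).trans h
  · intro Q hQ hQp hQs y hy0 hy j hj h3 h4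
    exact H.vis Q hQ hQp (hQs.trans (image_mono fun z hz => ⟨h.trans hz.1, hz.2.trans hi⟩)) y hy0 hy
      j hj (fun l hl z hz => h.trans (h3 l hl z hz)) (fun l hl s hs => h.trans (h4 l hl s hs))
  · rcases H.fin with h1 | h1 | h1
    · exact Or.inl (hi.trans h1)
    · exact Or.inr (Or.inl (hi.trans h1))
    · exact Or.inr (Or.inr (h1.trans h))

/-- the reparametrised path of discrete data -/
theorem PathData.exists_par (H : PathData D φ a b ε T θ p n f J Tx t V μ G Z B) (hθ : 0 < θ) :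
    ∃ (e : C(I, ℂ)) (t' : ℕ → ℝ) (x : ℝ → ℝ), Par p n J Tx t θ e t' x ∧
      Curve.mk ⟨e⟩ = Curve.mk (polyline p n) :=
  Pool.Agent.H96.M7.exists_par p H.npos H.Tmono H.Tn H.t0.ge
    (fun j hj => H.t_mono (Nat.le_succ j) hj) hθ

lemma PathData.range' (H : PathData D φ a b ε T θ p n f J Tx t V μ G Z B) {e : C(I, ℂ)}
    {t' : ℕ → ℝ} {x : ℝ → ℝ} (E : Par p n J Tx t θ e t' x) (hε : 0 < ε) (s : I) :
    infDist (e s) D ≤ 2 * ε := by
  have hx0 : 0 ≤ x s := by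
    rw [← E.x0]
    exact E.mono s.2.1
  have hxn : x s ≤ n := by
    rw [← E.x1]
    exact E.mono s.2.2
  rw [E.val s]
  rcases hxn.lt_or_eq with hlt | heq
  · have hk : ⌊x s⌋₊ < n := (Nat.floor_lt hx0).2 hlt
    have h3 : pth p n (x s) ∈ closedBall (p ⌊x s⌋₊) ε := by
      refine pth_mem (A := ⌊x s⌋₊) (B := ⌊x s⌋₊ + 1) (convex_closedBall _ _) hk
        (Nat.floor_le hx0) ?_ ?_
      · push_cast
        exact (Nat.lt_floor_add_one _).le
      · intro i h1 h2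
        rcases Nat.lt_or_ge ⌊x s⌋₊ i with h | h
        · have : i = ⌊x s⌋₊ + 1 := by omega
          rw [this, mem_closedBall, dist_comm]
          exact H.seg _ hk
        · have : i = ⌊x s⌋₊ := by omega
          rw [this]
          exact mem_closedBall_self hε.le
    have h4 := infDist_le_infDist_add_dist (s := D) (x := pth p n (x s)) (y := p ⌊x s⌋₊)
    have h5 := H.range _ hk.le
    rw [mem_closedBall] at h3
    linarith
  · rw [heq, pth_nat le_rfl]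
    exact (H.range n le_rfl).trans (by linarith)

/-- **The reparametrised path is near.** -/
theorem PathData.near (H : PathData D φ a b ε T θ p n f J Tx t V μ G Z B) {e : C(I, ℂ)}
    {t' : ℕ → ℝ} {x : ℝ → ℝ} (E : Par p n J Tx t θ e t' x) (hε : 0 < ε) (hθε : θ ≤ ε)
    (hT : ε⁻¹ + ε ≤ T) : Near D φ a b (2 * ε) e f := by
  classical
  have h2 : ε ≤ 2 * ε := by linarith
  have hi : (2 * ε)⁻¹ ≤ ε⁻¹ := inv_anti₀ hε h2
  have habs : ∀ j ≤ J, |t' j - t j| ≤ θ := by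
    intro j hj
    rw [abs_of_nonneg (sub_nonneg.2 (E.lo j hj))]
    linarith [E.hi j hj]
  have hex : ∃ j, ε⁻¹ ≤ t j ∨ j = J := ⟨J, Or.inr rfl⟩
  set J' := Nat.find hex with hJ'
  have hJJ : J' ≤ J := Nat.find_min' hex (Or.inr rfl)
  have hlt : ∀ j < J', t j < ε⁻¹ := by
    intro j hj
    have := Nat.find_min hex hj
    push Not at this
    exact this.1
  have htT : ∀ j ≤ J', t j ≤ T := by
    intro j hj
    rcases Nat.eq_zero_or_pos j with h0 | h0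
    · rw [h0, H.t0]
      have : 0 < ε⁻¹ := inv_pos.2 hε
      linarith
    · have h3 := hlt (j - 1) (by omega)
      have h4 := H.mesh (j - 1) (by omega)
      rw [show j - 1 + 1 = j by omega] at h4
      linarith
  refine ⟨J', t, t', V, μ, G, Z, B, H.chain.restrict hJJ, fun j hj => H.sub j (hj.trans hJJ), H.t0,
    ?_, ?_, ?_, ?_, ?_, ?_, fun j hj => H.out j (hj.trans hJJ), ?_, ?_, ?_, ?_, ?_⟩
  · intro z hz hz'
    have := H.init z (h2.trans hz) (hz'.trans hi)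
    exact ⟨this.1, this.2.trans h2⟩
  · exact fun j hj => (H.mesh j (hj.trans_le hJJ)).trans h2
  · refine le_trans ?_ (H.mom.trans h2)
    refine Finset.sum_le_sum_of_subset_of_nonneg (Finset.range_mono hJJ) ?_
    intro j hj _
    exact H.chain.mu_nonneg (Finset.mem_range.1 hj)
  · exact fun j hj => ⟨(E.pos j (hj.trans hJJ)).le, (habs j (hj.trans hJJ)).trans (hθε.trans h2)⟩
  · exact fun j hj => (H.drive j (hj.trans hJJ) (htT j hj) (t' j) (E.pos j (hj.trans hJJ)).le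
      (habs j (hj.trans hJJ))).trans h2
  · intro j hj
    rw [E.tip (hj.trans hJJ)]
    exact (H.tip j (hj.trans hJJ)).trans h2
  · intro Q hQ hQp hQs y hy0 hy j hj h3 h4
    exact H.vis Q hQ hQp (hQs.trans (image_mono fun z hz => ⟨h2.trans hz.1, hz.2.trans hi⟩)) y hy0 hy
      j (hj.trans hJJ) (fun l hl z hz => h2.trans (h3 l hl z hz))
      (fun l hl s hs => h2.trans (h4 l hl s hs))
  · rcases Nat.find_spec hex with h3 | h3
    · exact Or.inl (hi.trans h3)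
    · have h4 : J' = J := h3
      rw [h4]
      rcases H.fin with h3 | h3 | h3
      · exact Or.inl (hi.trans h3)
      · exact Or.inr (Or.inl (hi.trans h3))
      · exact Or.inr (Or.inr (h3.trans h2))
  · rw [E.start]
    exact (H.first 0 (Nat.zero_le _)).trans h2
  · rw [E.stop]
    exact H.last.trans h2
  · exact fun s => H.range' E hε s

/-- The frozen curve is near up to the time `T`. -/
theorem PathData.nearT (H : PathData D φ a b ε T θ p n f J Tx t V μ G Z B) {e : C(I, ℂ)}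
    {t' : ℕ → ℝ} {x : ℝ → ℝ} (E : Par p n J Tx t θ e t' x) (hε : 0 < ε) (hθε : θ ≤ ε)
    (hlife : T < t J) {j₁ : ℕ} (hj₁ : j₁ ≤ J) (hmax : ∀ j ≤ J, t j ≤ T → j ≤ j₁) {s₁ : I}
    (hs₁ : (s₁ : ℝ) = sg (t' j₁)) :
    NearT D φ ε T (frz e s₁) f J t t' V μ G Z B := by
  have habs : ∀ j ≤ J, |t' j - t j| ≤ θ := by
    intro j hj
    rw [abs_of_nonneg (sub_nonneg.2 (E.lo j hj))]
    linarith [E.hi j hj]
  refine ⟨H.chain, H.sub, H.t0, H.init, H.mesh, H.mom, ?_, ?_, ?_, H.out, H.vis, hlife⟩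
  · exact fun j hj _ => ⟨(E.pos j hj).le, (habs j hj).trans hθε⟩
  · exact fun j hj hjT => H.drive j hj hjT (t' j) (E.pos j hj).le (habs j hj)
  · intro j hj hjT
    have h1 : sg (t' j) ≤ s₁ := by
      rw [hs₁]
      exact sg_le (E.pos j hj).le (E.t'_mono (hmax j hj hjT) hj₁)
    rw [cap_frz (E.pos j hj).le h1, E.tip hj]
    exact H.tip j hj

end Pool.Agent.H96.M7
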