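import Mathlib
import Pool.Agent.H54.M7.Tight

set_option autoImplicit false
open Set Filter Topology Metric Bornology MeasureTheory
open scoped unitInterval NNReal ENNReal

/-! Compactness in `C([0,1], ℂ)`, tightness from eventual moduli of continuity, extraction of good
configurations. -/

namespace Pool.Agent.H96.M7

/-- diagonal choice -/
lemma exists_diag {p : ℕ → ℕ → Prop} (h : ∀ k, ∀ᶠ m in atTop, p k m) :
    ∃ K : ℕ → ℕ, Tendsto K atTop atTop ∧ ∀ᶠ m in atTop, p (K m) m := by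
  classical
  refine ⟨fun m => Nat.findGreatest (fun k => ∀ m' ≥ m, p k m') m, ?_, ?_⟩
  · rw [Filter.tendsto_atTop]
    intro k
    obtain ⟨N, hN⟩ := eventually_atTop.1 (h k)
    filter_upwards [eventually_ge_atTop (max N k)] with m hm
    exact Nat.le_findGreatest ((le_max_right _ _).trans hm)
      (fun m' hm' => hN m' (((le_max_left _ _).trans hm).trans hm'))
  · obtain ⟨N, hN⟩ := eventually_atTop.1 (h 0)
    filter_upwards [eventually_ge_atTop N] with m hm
    exact Nat.findGreatest_spec (P := fun k => ∀ m' ≥ m, p k m') (Nat.zero_le m)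
      (fun m' hm' => hN m' (hm.trans hm')) m le_rfl

/-- a positive lower bound of finitely many positive numbers -/
lemma exists_lower {θ : ℕ → ℝ} (hθ : ∀ m, 0 < θ m) (N : ℕ) : ∃ θ0 > 0, ∀ m < N, θ0 ≤ θ m := by
  induction N with
  | zero => exact ⟨1, one_pos, fun m hm => absurd hm (Nat.not_lt_zero m)⟩
  | succ n ih =>
    obtain ⟨θ0, h0, h1⟩ := ih
    refine ⟨min θ0 (θ n), lt_min h0 (hθ n), fun m hm => ?_⟩
    rcases Nat.lt_succ_iff_lt_or_eq.1 hm with h2 | h2
    · exact (min_le_left _ _).trans (h1 m h2)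
    · rw [h2]; exact min_le_right _ _

section comp

variable {X : Type*} [PseudoMetricSpace X] [CompactSpace X]

/-- Arzelà–Ascoli. -/
theorem isCompact_mod {K : Set ℂ} (hK : IsCompact K) {θ : ℕ → ℝ} (hθ : ∀ n, 0 < θ n) :
    IsCompact {f : C(X, ℂ) | (∀ x, f x ∈ K) ∧ ∀ (n : ℕ) (s t : X), dist s t ≤ θ n →
      dist (f s) (f t) ≤ 1 / ((n : ℝ) + 1)} := by
  set M : Set (X → ℂ) := {g | (∀ x, g x ∈ K) ∧ ∀ (n : ℕ) (s t : X), dist s t ≤ θ n →
    dist (g s) (g t) ≤ 1 / ((n : ℝ) + 1)} with hM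
  have near : ∀ (t : X) (r : ℝ), 0 < r → ∃ δ > 0, ∀ g ∈ M, ∀ s, dist s t < δ →
      dist (g s) (g t) < r := by
    intro t r hr
    obtain ⟨n, hn⟩ := exists_nat_one_div_lt hr
    exact ⟨θ n, hθ n, fun g hg s hs => (hg.2 n s t hs.le).trans_lt hn⟩
  have hMcl : IsClosed M := by
    have : M = (⋂ x, {g : X → ℂ | g x ∈ K}) ∩ ⋂ (n : ℕ), ⋂ (s : X), ⋂ (t : X),
        ⋂ (_ : dist s t ≤ θ n), {g : X → ℂ | dist (g s) (g t) ≤ 1 / ((n : ℝ) + 1)} := by
      ext g
      simp only [hM, mem_inter_iff, mem_iInter, mem_ofPred_eq]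
    rw [this]
    apply IsClosed.inter
    · exact isClosed_iInter fun x => hK.isClosed.preimage (continuous_apply x)
    · refine isClosed_iInter fun n => isClosed_iInter fun s => isClosed_iInter fun t =>
        isClosed_iInter fun _ => ?_
      exact isClosed_le ((continuous_apply s).dist (continuous_apply t)) continuous_const
  have hc : IsCompact {f : C(X, ℂ) | (f : X → ℂ) ∈ M} := by
    apply ArzelaAscoli.isCompact_of_equicontinuous
    · have e1 : ContinuousMap.toFun '' {f : C(X, ℂ) | (f : X → ℂ) ∈ M} = M := by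
        ext g
        constructor
        · rintro ⟨f, hf, rfl⟩; exact hf
        · intro hg
          have hgc : Continuous g := by
            rw [Metric.continuous_iff]
            intro t r hr
            obtain ⟨δ, hδ, h⟩ := near t r hr
            exact ⟨δ, hδ, fun s hs => h g hg s hs⟩
          exact ⟨⟨g, hgc⟩, hg, rfl⟩
      rw [e1]
      exact (isCompact_univ_pi fun _ : X => hK).of_isClosed_subset hMcl fun g hg t _ => hg.1 t
    · intro t
      rw [Metric.equicontinuousAt_iff]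
      intro r hr
      obtain ⟨δ, hδ, h⟩ := near t r hr
      refine ⟨δ, hδ, fun s hs f => ?_⟩
      rw [dist_comm]
      exact h _ f.2 s hs
  exact hc

/-- **Subsequences** of asymptotically equicontinuous sequences. -/
theorem exists_subseq {K : Set ℂ} (hK : IsCompact K) {e : ℕ → C(X, ℂ)} (heK : ∀ i x, e i x ∈ K)
    (hmod : ∀ r > 0, ∃ δ > 0, ∀ᶠ i in atTop, ∀ s s' : X, dist s s' ≤ δ → dist (e i s) (e i s') ≤ r) :
    ∃ (e' : C(X, ℂ)) (k : ℕ → ℕ), StrictMono k ∧ Tendsto (fun i => e (k i)) atTop (𝓝 e') := by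
  have h1 : ∀ n : ℕ, ∃ θ > 0, ∀ i, ∀ s s' : X, dist s s' ≤ θ → dist (e i s) (e i s') ≤
      1 / ((n : ℝ) + 1) := by
    intro n
    obtain ⟨δ, hδ, hev⟩ := hmod (1 / ((n : ℝ) + 1)) (by positivity)
    obtain ⟨N, hN⟩ := eventually_atTop.1 hev
    have h2 : ∀ i, ∃ θ > 0, ∀ s s' : X, dist s s' ≤ θ → dist (e i s) (e i s') ≤ 1 / ((n : ℝ) + 1) := by
      intro i
      obtain ⟨θ, hθ, h⟩ := Metric.uniformContinuous_iff.1
        (CompactSpace.uniformContinuous_of_continuous (e i).continuous) (1 / ((n : ℝ) + 1))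
        (by positivity)
      refine ⟨θ / 2, by positivity, fun s s' hs => (h (lt_of_le_of_lt hs (by linarith))).le⟩
    choose θ hθ hθ' using h2
    obtain ⟨θ0, h0, h0'⟩ := exists_lower hθ N
    refine ⟨min δ θ0, lt_min hδ h0, fun i s s' hs => ?_⟩
    rcases lt_or_ge i N with hi | hi
    · exact hθ' i s s' (hs.trans ((min_le_right _ _).trans (h0' i hi)))
    · exact hN i hi s s' (hs.trans (min_le_left _ _))
  choose θ hθ hθ' using h1
  have hc := isCompact_mod (X := X) hK hθ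
  obtain ⟨e', -, k, hk, hlim⟩ := hc.tendsto_subseq (x := e)
    (fun i => ⟨heK i, fun n s t hst => hθ' n i s t hst⟩)
  exact ⟨e', k, hk, hlim⟩

section tight

variable [MeasurableSpace C(X, ℂ)] [BorelSpace C(X, ℂ)]

omit [MeasurableSpace C(X, ℂ)] [BorelSpace C(X, ℂ)] in
lemma isOpen_osc' (θ r : ℝ) : IsOpen {f : C(X, ℂ) | ∃ s t : X, dist s t ≤ θ ∧
    r < dist (f s) (f t)} := by
  have : {f : C(X, ℂ) | ∃ s t : X, dist s t ≤ θ ∧ r < dist (f s) (f t)} =
      ⋃ (s : X), ⋃ (t : X), ⋃ (_ : dist s t ≤ θ), {f : C(X, ℂ) | r < dist (f s) (f t)} := by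
    ext f
    simp only [Set.mem_ofPred_eq, Set.mem_iUnion, exists_prop]
  rw [this]
  refine isOpen_iUnion fun s => isOpen_iUnion fun t => isOpen_iUnion fun _ => ?_
  exact isOpen_lt continuous_const
    ((continuous_eval_const s).dist (continuous_eval_const t))

/-- modulus of continuity of a single law -/
lemma single_modulus' (μ : Measure C(X, ℂ)) [IsFiniteMeasure μ] (r : ℝ) (hr : 0 < r)
    (ε : ℝ≥0∞) (hε : 0 < ε) :
    ∃ θ > 0, μ {f | ∃ s t : X, dist s t ≤ θ ∧ r < dist (f s) (f t)} ≤ ε := by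
  set A : ℕ → Set C(X, ℂ) := fun n => {f | ∃ s t : X, dist s t ≤ 1 / ((n : ℝ) + 1) ∧
    r < dist (f s) (f t)} with hA
  have hanti : Antitone A := by
    intro m n hmn f hf
    obtain ⟨s, t, h3, h4⟩ := hf
    refine ⟨s, t, h3.trans ?_, h4⟩
    apply one_div_le_one_div_of_le (by positivity)
    have : (m : ℝ) ≤ n := by exact_mod_cast hmn
    linarith
  have hempty : ⋂ n, A n = ∅ := by
    rw [Set.eq_empty_iff_forall_notMem]
    intro f hf
    rw [Set.mem_iInter] at hf
    have huc := CompactSpace.uniformContinuous_of_continuous f.continuous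
    rw [Metric.uniformContinuous_iff] at huc
    obtain ⟨δ, hδ, hf'⟩ := huc r hr
    obtain ⟨n, hn⟩ := exists_nat_one_div_lt hδ
    obtain ⟨s, t, h3, h4⟩ := hf n
    exact absurd h4 (not_lt.2 (hf' (h3.trans_lt hn)).le)
  have hlim := tendsto_measure_iInter_atTop (μ := μ) (s := A)
    (fun n => (isOpen_osc' _ _).measurableSet.nullMeasurableSet) hanti ⟨0, measure_ne_top _ _⟩
  rw [hempty, measure_empty] at hlim
  obtain ⟨n, hn⟩ := (hlim.eventually_le_const hε).exists
  exact ⟨1 / ((n : ℝ) + 1), by positivity, hn⟩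

/-- **Tightness** of the laws of random curves from eventual moduli of continuity. -/
theorem tight_of_ev {Ω : ℕ → Type*} {mΩ : ∀ i, MeasurableSpace (Ω i)} {P : ∀ i, Measure (Ω i)}
    [∀ i, IsProbabilityMeasure (P i)] {e : ∀ i, Ω i → C(X, ℂ)} (he : ∀ i, Measurable (e i))
    {K : Set ℂ} (hK : IsCompact K) (heK : ∀ i ω x, e i ω x ∈ K)
    (hmod : ∀ r > 0, ∀ ε : ℝ≥0∞, 0 < ε → ∃ θ > 0, ∀ᶠ i in atTop,
      P i {ω | ∃ s t : X, dist s t ≤ θ ∧ r < dist (e i ω s) (e i ω t)} ≤ ε) :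
    IsTightMeasureSet {x : Measure C(X, ℂ) | ∃ i, (P i).map (e i) = x} := by
  have hprob : ∀ m, IsProbabilityMeasure ((P m).map (e m)) := fun m =>
    Measure.isProbabilityMeasure_map (he m).aemeasurable
  refine Pool.Agent.H54.M7.tight_compact hK ?_ ?_
  · rintro _ ⟨m, rfl⟩
    have hm : MeasurableSet {f : C(X, ℂ) | ¬ ∀ x, f x ∈ K} := by
      have : {f : C(X, ℂ) | ¬ ∀ x, f x ∈ K} = ⋃ x, {f : C(X, ℂ) | f x ∈ Kᶜ} := by
        ext f
        simp
      rw [this]
      refine (isOpen_iUnion fun x => ?_).measurableSet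
      exact hK.isClosed.isOpen_compl.preimage (continuous_eval_const x)
    rw [Measure.map_apply (he m) hm]
    have : e m ⁻¹' {f : C(X, ℂ) | ¬ ∀ x, f x ∈ K} = ∅ := by
      rw [Set.eq_empty_iff_forall_notMem]
      intro ω hω
      exact hω (heK m ω)
    rw [this, measure_empty]
  · intro r hr ε hε
    obtain ⟨η, hη, hev⟩ := hmod r hr ε hε
    obtain ⟨m0, hm0⟩ := eventually_atTop.1 hev
    choose θ hθ hθ' using fun m : ℕ => single_modulus' ((P m).map (e m)) r hr ε hε
    obtain ⟨θ0, hθ0, hθ0'⟩ := exists_lower hθ m0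
    refine ⟨min η θ0, lt_min hη hθ0, ?_⟩
    rintro _ ⟨m, rfl⟩
    have hmono : ∀ θ' : ℝ, min η θ0 ≤ θ' → {f : C(X, ℂ) | ∃ s t : X, dist s t ≤ min η θ0 ∧
        r < dist (f s) (f t)} ⊆ {f | ∃ s t : X, dist s t ≤ θ' ∧ r < dist (f s) (f t)} := by
      rintro θ' hθ' f ⟨s, t, h3, h4⟩
      exact ⟨s, t, h3.trans hθ', h4⟩
    rcases lt_or_ge m m0 with hm | hm
    · exact (measure_mono (hmono (θ m) ((min_le_right _ _).trans (hθ0' m hm)))).trans (hθ' m)
    · refine (measure_mono (hmono η (min_le_left _ _))).trans ?_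
      rw [Measure.map_apply (he m) (isOpen_osc' _ _).measurableSet]
      exact hm0 m hm

end tight

end comp

/-- **Good configurations.** If the events `E m` do not become rare and the bad events of level `k`
have eventually small total probability, there is a sequence of configurations in the events `E m`
which avoids the bad events of every level eventually. -/
theorem exists_good {Ω : ℕ → Type*} {mΩ : ∀ i, MeasurableSpace (Ω i)} {P : ∀ i, Measure (Ω i)}
    {E : ∀ m, Set (Ω m)} {S : ℕ → ∀ m, Set (Ω m)} {η : ℝ≥0∞} {δ : ℕ → ℝ≥0∞}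
    (hδ : ∑' k, δ k < η) (hS : ∀ k, ∀ᶠ m in atTop, P m (S k m) ≤ δ k)
    (hE : ∃ᶠ m in atTop, η ≤ P m (E m)) :
    ∃ (m : ℕ → ℕ) (ω : ∀ i, Ω (m i)), StrictMono m ∧ (∀ i, ω i ∈ E (m i)) ∧
      ∀ k, ∀ᶠ i in atTop, ω i ∉ S k (m i) := by
  have h1 : ∀ k, ∀ᶠ m in atTop, ∀ k' ≤ k, P m (S k' m) ≤ δ k' := by
    intro k
    have : ∀ᶠ m in atTop, ∀ k' ∈ Finset.range (k + 1), P m (S k' m) ≤ δ k' :=
      (Filter.eventually_all_finset _).2 fun k' _ => hS k'
    filter_upwards [this] with m hm k' hk'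
    exact hm k' (Finset.mem_range.2 (Nat.lt_succ_of_le hk'))
  obtain ⟨K, hK, hK2⟩ := exists_diag h1
  have h2 : ∃ᶠ m in atTop, ∃ ω ∈ E m, ∀ k ≤ K m, ω ∉ S k m := by
    refine (hE.and_eventually hK2).mono ?_
    rintro m ⟨hm1, hm2⟩
    by_contra! hcon
    have hsub : E m ⊆ ⋃ k ∈ Finset.range (K m + 1), S k m := by
      intro ω hω
      obtain ⟨k, hk, hkS⟩ := hcon ω hω
      simp only [mem_iUnion]
      exact ⟨k, Finset.mem_range.2 (Nat.lt_succ_of_le hk), hkS⟩
    have h3 : P m (E m) ≤ ∑' k, δ k := by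
      calc P m (E m) ≤ P m (⋃ k ∈ Finset.range (K m + 1), S k m) := measure_mono hsub
        _ ≤ ∑ k ∈ Finset.range (K m + 1), P m (S k m) := measure_biUnion_finset_le _ _
        _ ≤ ∑ k ∈ Finset.range (K m + 1), δ k := Finset.sum_le_sum fun k hk =>
            hm2 k (Nat.le_of_lt_succ (Finset.mem_range.1 hk))
        _ ≤ ∑' k, δ k := ENNReal.sum_le_tsum _
    exact absurd (hm1.trans h3) (not_le.2 hδ)
  obtain ⟨m, hm, hm2⟩ := extraction_of_frequently_atTop h2
  choose ω hω hω2 using hm2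
  refine ⟨m, ω, hm, hω, fun k => ?_⟩
  filter_upwards [(hK.comp hm.tendsto_atTop).eventually_ge_atTop k] with i hi
  exact hω2 i k hi

end Pool.Agent.H96.M7
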