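import Pool.Agent.H82.Q1.SLE

set_option autoImplicit false
open Set Filter Topology Metric Bornology MeasureTheory ProbabilityTheory
open scoped unitInterval NNReal
open Pool.Agent.H81.Q1 (PCurve Curve Rep rep rep_mk)
open Pool.Agent.H82.Q1

/-! Brownian scaling of traces and of chordal SLE: it is enough to consider one chart. -/

namespace Pool.Agent.H96.M7

/-! ### Scaling of Loewner chains -/

section scaling

variable {W : ℝ → ℝ} {η : ℝ → ℂ} {k : ℝ}

/-- The rescaled driving function. -/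
noncomputable def scW (k : ℝ) (W : ℝ → ℝ) (t : ℝ) : ℝ := k⁻¹ * W (k ^ 2 * t)

/-- The rescaled trace. -/
noncomputable def scE (k : ℝ) (η : ℝ → ℂ) (t : ℝ) : ℂ := (k : ℂ)⁻¹ * η (k ^ 2 * t)

lemma notSwallowed_scale_of (hk : 0 < k) {t : ℝ} {z : ℂ}
    (h : NotSwallowed W (k ^ 2 * t) (k * z)) : NotSwallowed (scW k W) t z := by
  obtain ⟨g, hg0, hg⟩ := h
  have hkc : (k : ℂ) ≠ 0 := by exact_mod_cast hk.ne'
  refine ⟨fun s => (k : ℂ)⁻¹ * g (k ^ 2 * s), ?_, ?_⟩
  · simp only [mul_zero, hg0]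
    field_simp
  · intro s hs
    have hs' : k ^ 2 * s ∈ Icc 0 (k ^ 2 * t) :=
      ⟨mul_nonneg (by positivity) hs.1, mul_le_mul_of_nonneg_left hs.2 (by positivity)⟩
    obtain ⟨h1, h2⟩ := hg _ hs'
    have h3 : g (k ^ 2 * s) - W (k ^ 2 * s) ≠ 0 := sub_ne_zero.2 h1
    have e1 : (k : ℂ)⁻¹ * g (k ^ 2 * s) - ((scW k W s : ℝ) : ℂ) =
        (k : ℂ)⁻¹ * (g (k ^ 2 * s) - W (k ^ 2 * s)) := by
      unfold scW
      push_cast
      ring
    constructor
    · rw [← sub_ne_zero, e1]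
      exact mul_ne_zero (inv_ne_zero hkc) h3
    · simp only [e1]
      have h4 : HasDerivWithinAt (fun s : ℝ => k ^ 2 * s) (k ^ 2) (Icc 0 t) s := by
        simpa using (hasDerivWithinAt_id s (Icc 0 t)).const_mul (k ^ 2)
      have h5 : MapsTo (fun s : ℝ => k ^ 2 * s) (Icc 0 t) (Icc 0 (k ^ 2 * t)) := fun u hu =>
        ⟨mul_nonneg (by positivity) hu.1, mul_le_mul_of_nonneg_left hu.2 (by positivity)⟩
      have h6 := (HasDerivWithinAt.scomp s h2 h4 h5).const_mul ((k : ℂ)⁻¹)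
      refine (show HasDerivWithinAt (fun s : ℝ => (k : ℂ)⁻¹ * g (k ^ 2 * s)) _ (Icc 0 t) s
        from h6).congr_deriv ?_
      rw [Complex.real_smul]
      push_cast
      field_simp

lemma scW_inv (hk : 0 < k) : scW k⁻¹ (scW k W) = W := by
  funext t
  unfold scW
  have : k ^ 2 * (k⁻¹ ^ 2 * t) = t := by field_simp
  rw [this]
  field_simp

lemma notSwallowed_scale (hk : 0 < k) {t : ℝ} {z : ℂ} :
    NotSwallowed (scW k W) t z ↔ NotSwallowed W (k ^ 2 * t) (k * z) := by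
  constructor
  · intro h
    have hkc : (k : ℂ) ≠ 0 := by exact_mod_cast hk.ne'
    have h1 : NotSwallowed (scW k⁻¹ (scW k W)) (k ^ 2 * t) (k * z) := by
      apply notSwallowed_scale_of (inv_pos.2 hk)
      have e1 : k⁻¹ ^ 2 * (k ^ 2 * t) = t := by field_simp
      have e2 : ((k⁻¹ : ℝ) : ℂ) * (k * z) = z := by
        push_cast
        field_simp
      rw [e1, e2]
      exact h
    rwa [scW_inv hk] at h1
  · exact notSwallowed_scale_of hk

/-- multiplication by `k`, as a homeomorphism -/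
noncomputable def mulH (hk : 0 < k) : ℂ ≃ₜ ℂ :=
  Homeomorph.mulLeft₀ (k : ℂ) (by exact_mod_cast hk.ne')

lemma mulH_apply (hk : 0 < k) (z : ℂ) : mulH hk z = k * z := rfl

lemma mem_HH_mul (hk : 0 < k) {z : ℂ} : (k : ℂ) * z ∈ HH ↔ z ∈ HH := by
  change 0 < ((k : ℂ) * z).im ↔ 0 < z.im
  rw [Complex.im_ofReal_mul]
  exact mul_pos_iff_of_pos_left hk

lemma mem_cHH_mul (hk : 0 < k) {z : ℂ} : (k : ℂ) * z ∈ cHH ↔ z ∈ cHH := by
  change 0 ≤ ((k : ℂ) * z).im ↔ 0 ≤ z.im
  rw [Complex.im_ofReal_mul]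
  exact mul_nonneg_iff_of_pos_left hk

lemma outerDom_scale (hk : 0 < k) {K K' : Set ℂ} (h : ∀ z, z ∈ K' ↔ (k : ℂ) * z ∈ K) (z : ℂ) :
    z ∈ outerDom K' ↔ (k : ℂ) * z ∈ outerDom K := by
  have himg : mulH hk '' (HH \ K') = HH \ K := by
    ext w
    constructor
    · rintro ⟨z, ⟨hz, hzK⟩, rfl⟩
      rw [mulH_apply]
      exact ⟨(mem_HH_mul hk).2 hz, fun hc => hzK ((h z).2 hc)⟩
    · rintro ⟨hw, hwK⟩
      have e1 : (k : ℂ) * ((k : ℂ)⁻¹ * w) = w := by
        have : (k : ℂ) ≠ 0 := by exact_mod_cast hk.ne'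
        field_simp
      refine ⟨(k : ℂ)⁻¹ * w, ⟨?_, ?_⟩, ?_⟩
      · rw [← mem_HH_mul hk, e1]
        exact hw
      · rw [h, e1]
        exact hwK
      · rw [mulH_apply, e1]
  have hmem : z ∈ HH \ K' ↔ (k : ℂ) * z ∈ HH \ K := by
    constructor
    · rintro ⟨h1, h2⟩
      exact ⟨(mem_HH_mul hk).2 h1, fun hc => h2 ((h z).2 hc)⟩
    · rintro ⟨h1, h2⟩
      exact ⟨(mem_HH_mul hk).1 h1, fun hc => h2 ((h z).1 hc)⟩
  unfold outerDom
  simp only [mem_ofPred_eq]
  rw [hmem]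
  refine and_congr_right fun hz => not_congr ?_
  have hz' : z ∈ HH \ K' := hmem.2 hz
  have e2 : connectedComponentIn (HH \ K) (k * z) =
      mulH hk '' connectedComponentIn (HH \ K') z := by
    rw [← himg, ← mulH_apply hk z]
    exact ((mulH hk).image_connectedComponentIn hz').symm
  rw [e2]
  constructor
  · intro hb
    obtain ⟨R, hR⟩ := isBounded_iff_forall_norm_le.1 hb
    refine isBounded_iff_forall_norm_le.2 ⟨k * R, ?_⟩
    rintro _ ⟨w, hw, rfl⟩
    rw [mulH_apply, norm_mul, Complex.norm_of_nonneg hk.le]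
    exact mul_le_mul_of_nonneg_left (hR w hw) hk.le
  · intro hb
    obtain ⟨R, hR⟩ := isBounded_iff_forall_norm_le.1 hb
    refine isBounded_iff_forall_norm_le.2 ⟨k⁻¹ * R, ?_⟩
    intro w hw
    have h1 := hR _ ⟨w, hw, rfl⟩
    rw [mulH_apply, norm_mul, Complex.norm_of_nonneg hk.le] at h1
    calc ‖w‖ = k⁻¹ * (k * ‖w‖) := by field_simp
      _ ≤ _ := by gcongr

/-- **Scaling of the trace.** -/
theorem trace_scale (hk : 0 < k) (h : IsTrace W η) : IsTrace (scW k W) (scE k η) := by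
  have hkc : (k : ℂ) ≠ 0 := by exact_mod_cast hk.ne'
  refine ⟨?_, ?_, ?_, ?_⟩
  · unfold scE
    refine continuousOn_const.mul (h.cont.comp (by fun_prop) ?_)
    intro t ht
    have ht' : (0 : ℝ) ≤ t := ht
    change (0 : ℝ) ≤ k ^ 2 * t
    positivity
  · intro t ht
    rw [← mem_cHH_mul hk]
    have e1 : (k : ℂ) * scE k η t = η (k ^ 2 * t) := by
      unfold scE
      field_simp
    rw [e1]
    exact h.mem _ (by positivity)
  · unfold scE
    rw [mul_zero, h.zero, mul_zero]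
  · intro t ht
    have h1 := h.hull (k ^ 2 * t) (by positivity)
    have himg : ∀ z, z ∈ scE k η '' Icc 0 t ↔ (k : ℂ) * z ∈ η '' Icc 0 (k ^ 2 * t) := by
      intro z
      constructor
      · rintro ⟨s, hs, rfl⟩
        refine ⟨k ^ 2 * s, ⟨mul_nonneg (by positivity) hs.1,
          mul_le_mul_of_nonneg_left hs.2 (by positivity)⟩, ?_⟩
        unfold scE
        field_simp
      · rintro ⟨s, hs, he⟩
        refine ⟨(k ^ 2)⁻¹ * s, ⟨mul_nonneg (by positivity) hs.1, ?_⟩, ?_⟩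
        · rw [inv_mul_le_iff₀ (by positivity)]
          exact hs.2
        · unfold scE
          have e1 : k ^ 2 * ((k ^ 2)⁻¹ * s) = s := by field_simp
          rw [e1, he]
          field_simp
    ext z
    rw [outerDom_scale hk himg z, ← h1]
    simp only [mem_ofPred_eq]
    rw [notSwallowed_scale hk, mem_HH_mul hk]

end scaling

/-! ### Time change -/

section timechange

/-- the map `s / (1 - s) ↦ x s / (1 - s)` in the coordinate `s` -/
noncomputable def mob (x s : ℝ) : ℝ := x * s / (1 - s + x * s)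

variable {x s : ℝ}

lemma mob_den (hx : 0 < x) (h0 : 0 ≤ s) (h1 : s ≤ 1) : 0 < 1 - s + x * s := by
  rcases eq_or_lt_of_le h0 with h | h
  · rw [← h]; norm_num
  · have := mul_pos hx h
    linarith

lemma mob_mem (hx : 0 < x) (hs : s ∈ Icc (0 : ℝ) 1) : mob x s ∈ Icc (0 : ℝ) 1 := by
  have hd := mob_den hx hs.1 hs.2
  refine ⟨div_nonneg (mul_nonneg hx.le hs.1) hd.le, ?_⟩
  unfold mob
  rw [div_le_one hd]
  linarith [hs.2]

lemma mob_inv (hx : 0 < x) (hs : s ∈ Icc (0 : ℝ) 1) : mob x⁻¹ (mob x s) = s := by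
  have hd := (mob_den hx hs.1 hs.2).ne'
  unfold mob
  have h2 : 1 - x * s / (1 - s + x * s) + x⁻¹ * (x * s / (1 - s + x * s)) = 1 / (1 - s + x * s) := by
    field_simp
    ring
  rw [h2]
  field_simp

/-- the time change as an increasing homeomorphism of `[0,1]` -/
noncomputable def mobIso (x : ℝ) (hx : 0 < x) : Rep where
  toFun s := ⟨mob x s, mob_mem hx s.2⟩
  invFun s := ⟨mob x⁻¹ s, mob_mem (inv_pos.2 hx) s.2⟩
  left_inv s := by
    ext
    exact mob_inv hx s.2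
  right_inv s := by
    ext
    have := mob_inv (inv_pos.2 hx) s.2
    rw [inv_inv] at this
    exact this
  map_rel_iff' := by
    rintro ⟨s, hs⟩ ⟨s', hs'⟩
    change mob x s ≤ mob x s' ↔ s ≤ s'
    unfold mob
    rw [div_le_div_iff₀ (mob_den hx hs.1 hs.2) (mob_den hx hs'.1 hs'.2)]
    constructor
    · intro h
      have h1 : x * s ≤ x * s' := by nlinarith
      exact le_of_mul_le_mul_left h1 hx
    · intro h
      have h1 := mul_le_mul_of_nonneg_left h hx.le
      nlinarith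

lemma mobIso_apply (hx : 0 < x) (s : I) : ((mobIso x hx s : I) : ℝ) = mob x s := rfl

lemma mobIso_one (hx : 0 < x) : mobIso x hx 1 = 1 := (mobIso x hx).map_top

/-- The image curve in another chart. -/
theorem image_scale {φ φ' : ℂ → ℂ} {b : ℂ} {η : ℝ → ℂ} {c : PCurve} {k : ℝ} (hk : 0 < k)
    (hφ : ∀ z ∈ cHH, φ' z = φ (k * z)) (hη : ∀ t, 0 ≤ t → η t ∈ cHH) (h : IsImage φ b η c) :
    IsImage φ' b (scE k η) ⟨rep c.toC (mobIso (k ^ 2) (by positivity))⟩ := by
  have hkc : (k : ℂ) ≠ 0 := by exact_mod_cast hk.ne'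
  constructor
  · intro t ht
    have ht0 := t.2.1
    have ht1 : 0 < 1 - (t : ℝ) := by linarith
    have hd := mob_den (show 0 < k ^ 2 by positivity) t.2.1 t.2.2
    have h1 : ((mobIso (k ^ 2) (by positivity) t : I) : ℝ) < 1 := by
      rw [mobIso_apply]
      unfold mob
      rw [div_lt_one hd]
      linarith
    change c.toC (mobIso (k ^ 2) (by positivity) t) = _
    rw [h.1 _ h1, mobIso_apply]
    have e1 : mob (k ^ 2) t / (1 - mob (k ^ 2) t) = k ^ 2 * (t / (1 - t)) := by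
      unfold mob
      have e2 : 1 - k ^ 2 * (t : ℝ) / (1 - t + k ^ 2 * t) = (1 - t) / (1 - t + k ^ 2 * t) := by
        field_simp
        ring
      rw [e2]
      field_simp
    have e3 : scE k η (t / (1 - t)) ∈ cHH := by
      rw [← mem_cHH_mul hk]
      have : (k : ℂ) * scE k η (t / (1 - t)) = η (k ^ 2 * (t / (1 - t))) := by
        unfold scE
        field_simp
      rw [this]
      exact hη _ (by positivity)
    rw [e1, hφ _ e3]
    unfold scE
    congr 1
    field_simp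
  · change c.toC (mobIso (k ^ 2) (by positivity) 1) = b
    rw [mobIso_one]
    exact h.2

end timechange

/-- The data of `IsSLE` for one chart. -/
def SLEFor (κ : ℝ) (b : ℂ) (φ : ℂ → ℂ) (μ : ProbabilityMeasure Curve) : Prop :=
  ∃ (Ω : Type) (_ : MeasurableSpace Ω) (P : Measure Ω) (_ : IsProbabilityMeasure P)
    (B : ℝ≥0 → Ω → ℝ) (η : Ω → ℝ → ℂ) (c : Ω → PCurve),
    IsBrownianReal B P ∧
    (∀ᵐ ω ∂P, IsTrace (fun t => √κ * B t.toNNReal ω) (η ω)) ∧
    (∀ᵐ ω ∂P, IsImage φ b (η ω) (c ω)) ∧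
    AEMeasurable (fun ω => Curve.mk (c ω)) P ∧
    P.map (fun ω => Curve.mk (c ω)) = μ

theorem SLEFor.scale {κ : ℝ} {b : ℂ} {φ φ' : ℂ → ℂ} {μ : ProbabilityMeasure Curve} {k : ℝ}
    (hk : 0 < k) (hφ : ∀ z ∈ cHH, φ' z = φ (k * z)) (h : SLEFor κ b φ μ) : SLEFor κ b φ' μ := by
  obtain ⟨Ω, mΩ, P, hP, B, η, c, hB, hη, hc, hm, hμ⟩ := h
  set K : ℝ≥0 := (k ^ 2).toNNReal with hK
  have hKc : (K : ℝ) = k ^ 2 := Real.coe_toNNReal _ (by positivity)
  have hk2 : K ≠ 0 := (Real.toNNReal_pos.2 (by positivity)).ne'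
  have hmk : ∀ ω, Curve.mk ⟨rep (c ω).toC (mobIso (k ^ 2) (by positivity))⟩ = Curve.mk (c ω) :=
    fun ω => rep_mk _ _
  refine ⟨Ω, mΩ, P, hP, _, fun ω => scE k (η ω),
    fun ω => ⟨rep (c ω).toC (mobIso (k ^ 2) (by positivity))⟩, hB.smul hk2, ?_, ?_, ?_, ?_⟩
  · filter_upwards [hη] with ω h1
    have h2 := trace_scale hk h1
    have e1 : scW k (fun t => √κ * B t.toNNReal ω) = fun t : ℝ =>
        √κ * ((√(K : ℝ))⁻¹ * B (K * t.toNNReal) ω) := by
      funext t
      unfold scW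
      have e2 : (k ^ 2 * t).toNNReal = K * t.toNNReal := Real.toNNReal_mul (by positivity)
      change k⁻¹ * (√κ * B (k ^ 2 * t).toNNReal ω) = _
      rw [e2, hKc, Real.sqrt_sq hk.le]
      ring
    rw [e1] at h2
    exact h2
  · filter_upwards [hη, hc] with ω h1 h2
    exact image_scale hk hφ h1.mem h2
  · simp only [hmk]
    exact hm
  · simp only [hmk]
    exact hμ

end Pool.Agent.H96.M7
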