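import Pool.Agent.H96.M7.Rel
import Pool.Agent.H96.M7.Scale
import Pool.Agent.H96.M7.Comp
import Pool.Agent.H54.M7.Limit
import Pool.Agent.H54.M7.Cont
import Pool.Agent.H37.Levy.Array11

set_option autoImplicit false
open Set Filter Topology Metric Bornology MeasureTheory ProbabilityTheory
open scoped unitInterval NNReal ENNReal
open Pool.Agent.H81.Q1 (PCurve Curve continuous_mk)
open Pool.Agent.H82.Q1

/-! The abstract limit theorem: random curves which are close to discrete Loewner chains with nearly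
Brownian driving functions converge to chordal SLE. -/

namespace Pool.Agent.H96.M7

/-- Error levels tending to zero slowly. -/
lemma exists_rate {p : ℕ → ℝ → ℝ≥0∞} (h : ∀ ε > 0, Tendsto (fun m => p m ε) atTop (𝓝 1))
    (h1 : ∀ m ε, p m ε ≤ 1) :
    ∃ ε : ℕ → ℝ, (∀ m, 0 < ε m) ∧ Tendsto ε atTop (𝓝 0) ∧
      Tendsto (fun m => p m (ε m)) atTop (𝓝 1) := by
  have h2 : ∀ k : ℕ, ∀ᶠ m in atTop, 1 - (k + 1 : ℝ≥0∞)⁻¹ < p m (1 / ((k : ℝ) + 1)) := by
    intro k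
    refine (h _ (by positivity)).eventually_const_lt ?_
    refine ENNReal.sub_lt_self ENNReal.one_ne_top one_ne_zero ?_
    rw [ENNReal.inv_ne_zero]
    exact ENNReal.add_ne_top.2 ⟨ENNReal.natCast_ne_top k, ENNReal.one_ne_top⟩
  obtain ⟨K, hK, hK2⟩ := exists_diag h2
  refine ⟨fun m => 1 / ((K m : ℝ) + 1), fun m => by positivity,
    tendsto_one_div_add_atTop_nhds_zero_nat.comp hK, ?_⟩
  have h3 : Tendsto (fun m => 1 - ((K m : ℝ≥0∞) + 1)⁻¹) atTop (𝓝 1) := by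
    have h4 : Tendsto (fun k : ℕ => ((k : ℝ≥0∞) + 1)⁻¹) atTop (𝓝 0) := by
      have h5 : Tendsto (fun k : ℕ => ((k : ℝ≥0∞))⁻¹) atTop (𝓝 0) := ENNReal.tendsto_inv_nat_nhds_zero
      refine (h5.comp (tendsto_add_atTop_nat 1)).congr fun k => ?_
      simp
    have h5 := ENNReal.Tendsto.sub (tendsto_const_nhds (x := (1 : ℝ≥0∞)) (f := atTop)) (h4.comp hK)
      (Or.inl ENNReal.one_ne_top)
    rw [tsub_zero] at h5
    exact h5
  exact tendsto_of_tendsto_of_tendsto_of_le_of_le' h3 tendsto_const_nhds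
    (hK2.mono fun m hm => hm.le) (Eventually.of_forall fun m => h1 m _)

variable [MeasurableSpace C(I, ℂ)] [BorelSpace C(I, ℂ)] [MeasurableSpace C(ℝ≥0, ℝ)]
  [BorelSpace C(ℝ≥0, ℝ)]

/-- The joint law of the limit curve and its driving function. -/
structure IsLim (κ : ℝ) (φ : ℂ → ℂ) (a b : ℂ) (μ : Measure (C(I, ℂ) × C(ℝ≥0, ℝ))) : Prop where
  rel : ∃ R : Set (C(I, ℂ) × C(ℝ≥0, ℝ)), MeasurableSet R ∧ (∀ x ∈ R, Rel φ a b x.1 x.2) ∧ μ Rᶜ = 0
  brown : IsPreBrownianReal (fun (s : ℝ≥0) (z : C(I, ℂ) × C(ℝ≥0, ℝ)) => (√κ)⁻¹ * z.2 s) μ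

lemma brown_snd {κ : ℝ} {μ : Measure (C(I, ℂ) × C(ℝ≥0, ℝ))}
    (h : IsPreBrownianReal (fun (s : ℝ≥0) (z : C(I, ℂ) × C(ℝ≥0, ℝ)) => (√κ)⁻¹ * z.2 s) μ) :
    IsPreBrownianReal (fun (s : ℝ≥0) (z : C(ℝ≥0, ℝ)) => (√κ)⁻¹ * z s) (μ.map Prod.snd) := by
  have hev : ∀ s : ℝ≥0, Measurable fun f : C(ℝ≥0, ℝ) => (√κ)⁻¹ * f s := fun s =>
    ((continuous_eval_const s).measurable).const_mul _
  refine ⟨fun S => ⟨?_, ?_⟩⟩
  · exact (measurable_pi_lambda _ fun j => hev _).aemeasurable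
  · rw [← (h.hasLaw S).map_eq, Measure.map_map]
    · rfl
    · exact measurable_pi_lambda _ fun j => hev _
    · exact measurable_snd

lemma brown_of_snd {κ : ℝ} {μ : Measure (C(I, ℂ) × C(ℝ≥0, ℝ))}
    (h : IsPreBrownianReal (fun (s : ℝ≥0) (z : C(ℝ≥0, ℝ)) => (√κ)⁻¹ * z s) (μ.map Prod.snd)) :
    IsPreBrownianReal (fun (s : ℝ≥0) (z : C(I, ℂ) × C(ℝ≥0, ℝ)) => (√κ)⁻¹ * z.2 s) μ := by
  have hev : ∀ s : ℝ≥0, Measurable fun f : C(ℝ≥0, ℝ) => (√κ)⁻¹ * f s := fun s =>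
    ((continuous_eval_const s).measurable).const_mul _
  refine ⟨fun S => ⟨?_, ?_⟩⟩
  · exact (measurable_pi_lambda _ fun j => (hev _).comp measurable_snd).aemeasurable
  · rw [← (h.hasLaw S).map_eq, Measure.map_map]
    · rfl
    · exact measurable_pi_lambda _ fun j => hev _
    · exact measurable_snd

/-- **Uniqueness of the limit law** (for all sequences). -/
theorem IsLim.unique {κ : ℝ} (hκ : 0 < κ) {φ : ℂ → ℂ} {a b : ℂ}
    {μ ν : Measure (C(I, ℂ) × C(ℝ≥0, ℝ))} [IsProbabilityMeasure μ] [IsProbabilityMeasure ν]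
    (h : IsLim κ φ a b μ) (h' : IsLim κ φ a b ν) : μ = ν := by
  obtain ⟨R, hR, hR1, hR2⟩ := h.rel
  obtain ⟨S, hS, hS1, hS2⟩ := h'.rel
  have : IsProbabilityMeasure (μ.map Prod.snd) :=
    Measure.isProbabilityMeasure_map measurable_snd.aemeasurable
  have : IsProbabilityMeasure (ν.map Prod.snd) :=
    Measure.isProbabilityMeasure_map measurable_snd.aemeasurable
  refine Pool.Agent.H54.M7.law_unique (T := {x | Rel φ a b x.1 x.2}) ?_ hR hS hR1 hS1 hR2 hS2 ?_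
  · intro e e' f h1 h2
    exact h1.unique h2
  · exact Pool.Agent.H54.M7.brown_unique (Real.sqrt_pos.2 hκ).ne' (brown_snd h.brown)
      (brown_snd h'.brown)

/-- **The limit is chordal SLE** (one chart). -/
theorem IsLim.sleFor {κ : ℝ} (hκ : 0 < κ) {φ : ℂ → ℂ} {a b : ℂ}
    {μ : ProbabilityMeasure (C(I, ℂ) × C(ℝ≥0, ℝ))} (h : IsLim κ φ a b μ)
    {ν : ProbabilityMeasure Curve}
    (hν : (ν : Measure Curve) = (μ : Measure (C(I, ℂ) × C(ℝ≥0, ℝ))).map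
      (fun z : C(I, ℂ) × C(ℝ≥0, ℝ) => Curve.mk ⟨z.1⟩)) :
    SLEFor κ b φ ν := by
  obtain ⟨R, hR, hR1, hR2⟩ := h.rel
  have hsq : √κ ≠ 0 := (Real.sqrt_pos.2 hκ).ne'
  have hae : ∀ᵐ z ∂(μ : Measure (C(I, ℂ) × C(ℝ≥0, ℝ))), Rel φ a b z.1 z.2 := by
    have h1 : ∀ᵐ z ∂(μ : Measure (C(I, ℂ) × C(ℝ≥0, ℝ))), z ∈ R := by
      rw [ae_iff]
      exact hR2
    exact h1.mono fun z hz => hR1 z hz
  have hmk : Measurable (fun z : C(I, ℂ) × C(ℝ≥0, ℝ) => Curve.mk ⟨z.1⟩) :=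
    continuous_mk.measurable.comp measurable_fst
  refine ⟨C(I, ℂ) × C(ℝ≥0, ℝ), inferInstance, μ, inferInstance, fun s z => (√κ)⁻¹ * z.2 s,
    fun z t => psi φ (cap z.1 t), fun z => ⟨z.1⟩, ⟨h.brown, ?_⟩, ?_, ?_, hmk.aemeasurable, hν.symm⟩
  · exact Eventually.of_forall fun z => continuous_const.mul z.2.continuous
  · filter_upwards [hae] with z hz
    have e1 : (fun t : ℝ => √κ * ((√κ)⁻¹ * z.2 t.toNNReal)) = drv z.2 := by
      funext t
      unfold drv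
      field_simp
    rw [e1]
    exact hz.trace
  · filter_upwards [hae] with z hz
    refine ⟨?_, hz.stop⟩
    intro t ht
    change z.1 t = φ (psi φ (cap z.1 (t / (1 - t))))
    rw [cap_inv z.1 ht, psi_right (hz.mem t ht)]

section seq

variable {D : Set ℂ} {a b : ℂ} {φ : ℂ → ℂ} {Ω : ℕ → Type*} {mΩ : ∀ i, MeasurableSpace (Ω i)}
  {P : ∀ i, Measure (Ω i)} [∀ i, IsProbabilityMeasure (P i)] {e : ∀ i, Ω i → C(I, ℂ)}
  {f : ∀ i, Ω i → C(ℝ≥0, ℝ)}

/-- **Joint convergence** of the curves and of their driving functions. -/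
theorem exists_lim {κ : ℝ} (hκ : 0 < κ) (h : IsChart D a b φ) (he : ∀ i, Measurable (e i))
    (hf : ∀ i, Measurable (f i))
    (te : IsTightMeasureSet {x : Measure C(I, ℂ) | ∃ i, (P i).map (e i) = x})
    (tf : IsTightMeasureSet {x : Measure C(ℝ≥0, ℝ) | ∃ i, (P i).map (f i) = x})
    (hB : ∀ k : ℕ → ℕ, StrictMono k → ∀ (μs : ℕ → ProbabilityMeasure C(ℝ≥0, ℝ))
      (ν : ProbabilityMeasure C(ℝ≥0, ℝ)),
      (∀ m, (μs m : Measure C(ℝ≥0, ℝ)) = (P (k m)).map (f (k m))) → Tendsto μs atTop (𝓝 ν) →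
      IsPreBrownianReal (fun (s : ℝ≥0) (z : C(ℝ≥0, ℝ)) => (√κ)⁻¹ * z s) (ν : Measure C(ℝ≥0, ℝ)))
    (hN : ∀ ε > 0, Tendsto (fun i => P i {ω | Near D φ a b ε (e i ω) (f i ω)}) atTop (𝓝 1)) :
    ∃ μ : ProbabilityMeasure (C(I, ℂ) × C(ℝ≥0, ℝ)), IsLim κ φ a b μ ∧
      ∀ μs : ℕ → ProbabilityMeasure (C(I, ℂ) × C(ℝ≥0, ℝ)),
        (∀ m, (μs m : Measure (C(I, ℂ) × C(ℝ≥0, ℝ))) = (P m).map (fun ω => (e m ω, f m ω))) →
        Tendsto μs atTop (𝓝 μ) := by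
  obtain ⟨ε, hε0, hε, hεN⟩ := exists_rate hN (fun m ε => prob_le_one)
  set A : ℕ → Set (C(I, ℂ) × C(ℝ≥0, ℝ)) := fun m => {x | Near D φ a b (ε m) x.1 x.2} with hA
  have hpm : ∀ i, Measurable (fun ω => (e i ω, f i ω)) := fun i => (he i).prodMk (hf i)
  have hprob : ∀ m, IsProbabilityMeasure ((P m).map (fun ω => (e m ω, f m ω))) := fun m =>
    Measure.isProbabilityMeasure_map (hpm m).aemeasurable
  set μs : ℕ → ProbabilityMeasure (C(I, ℂ) × C(ℝ≥0, ℝ)) := fun m =>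
    ⟨(P m).map (fun ω => (e m ω, f m ω)), hprob m⟩ with hμs
  have ht : IsTightMeasureSet {z | ∃ m, (μs m : Measure (C(I, ℂ) × C(ℝ≥0, ℝ))) = z} :=
    H37.Levy.tight_prod he hf te tf
  have hAm : Tendsto (fun m => (μs m : Measure (C(I, ℂ) × C(ℝ≥0, ℝ))) (A m)) atTop (𝓝 1) := by
    refine tendsto_of_tendsto_of_tendsto_of_le_of_le hεN tendsto_const_nhds ?_ ?_
    · intro m
      exact Measure.le_map_apply (hpm m).aemeasurable (A m)
    · intro m
      exact prob_le_one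
  have hLs : ∀ x ∈ Pool.Agent.H54.M7.Ls A, Rel φ a b x.1 x.2 := by
    intro x hx
    obtain ⟨k, y, hk, hy, hyx⟩ := Pool.Agent.H54.M7.exists_seq hx
    have hkt : Tendsto k atTop atTop := tendsto_atTop_mono hk tendsto_id
    exact lim_rel h (F := atTop) (ε := fun n => ε (k n)) (e := fun n => (y n).1)
      (f := fun n => (y n).2) (Eventually.of_forall fun n => hε0 _) (hε.comp hkt)
      ((continuous_fst.tendsto x).comp hyx) ((continuous_snd.tendsto x).comp hyx)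
      (Eventually.of_forall fun n => hy n)
  have pre : ∀ (μ : ProbabilityMeasure (C(I, ℂ) × C(ℝ≥0, ℝ))) (k : ℕ → ℕ), StrictMono k →
      Tendsto (fun m => μs (k m)) atTop (𝓝 μ) →
      IsPreBrownianReal (fun (s : ℝ≥0) (z : C(ℝ≥0, ℝ)) => (√κ)⁻¹ * z s)
        ((μ : Measure (C(I, ℂ) × C(ℝ≥0, ℝ))).map Prod.snd) := by
    intro μ k hk hμ
    have h1 := ProbabilityMeasure.tendsto_map_of_tendsto_of_continuous _ μ hμ
      (f := Prod.snd) continuous_snd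
    have h2 := hB k hk (fun m => (μs (k m)).map (f := Prod.snd) measurable_snd.aemeasurable)
      (μ.map measurable_snd.aemeasurable) ?_ h1
    · rwa [ProbabilityMeasure.toMeasure_map] at h2
    · intro m
      rw [ProbabilityMeasure.toMeasure_map]
      change ((P (k m)).map (fun ω => (e (k m) ω, f (k m) ω))).map Prod.snd = _
      rw [Measure.map_map measurable_snd (hpm _)]
      rfl
  obtain ⟨μ, hμ, hμA⟩ := Pool.Agent.H54.M7.joint_limit μs ht hAm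
    (fun e e' f h1 h2 => (hLs _ h1).unique (hLs _ h2)) (by
    intro μ μ' k k' hk hk' h1 h1'
    have : IsProbabilityMeasure ((μ : Measure (C(I, ℂ) × C(ℝ≥0, ℝ))).map Prod.snd) :=
      Measure.isProbabilityMeasure_map measurable_snd.aemeasurable
    have : IsProbabilityMeasure ((μ' : Measure (C(I, ℂ) × C(ℝ≥0, ℝ))).map Prod.snd) :=
      Measure.isProbabilityMeasure_map measurable_snd.aemeasurable
    exact Pool.Agent.H54.M7.brown_unique (Real.sqrt_pos.2 hκ).ne' (pre μ k hk h1) (pre μ' k' hk' h1'))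
  refine ⟨μ, ⟨⟨Pool.Agent.H54.M7.Ls A, (Pool.Agent.H54.M7.isClosed_Ls A).measurableSet, hLs, hμA⟩,
    brown_of_snd (pre μ id strictMono_id hμ)⟩, ?_⟩
  intro μs' hμs'
  have : μs' = μs := by
    funext m
    exact Subtype.ext (hμs' m)
  rw [this]
  exact hμ

/-- **The limit theorem for the laws on the space of curves.** -/
theorem tendsto_curve {κ : ℝ} (hκ : 0 < κ) (h : IsChart D a b φ) (he : ∀ i, Measurable (e i))
    (hf : ∀ i, Measurable (f i))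
    (te : IsTightMeasureSet {x : Measure C(I, ℂ) | ∃ i, (P i).map (e i) = x})
    (tf : IsTightMeasureSet {x : Measure C(ℝ≥0, ℝ) | ∃ i, (P i).map (f i) = x})
    (hB : ∀ k : ℕ → ℕ, StrictMono k → ∀ (μs : ℕ → ProbabilityMeasure C(ℝ≥0, ℝ))
      (ν : ProbabilityMeasure C(ℝ≥0, ℝ)),
      (∀ m, (μs m : Measure C(ℝ≥0, ℝ)) = (P (k m)).map (f (k m))) → Tendsto μs atTop (𝓝 ν) →
      IsPreBrownianReal (fun (s : ℝ≥0) (z : C(ℝ≥0, ℝ)) => (√κ)⁻¹ * z s) (ν : Measure C(ℝ≥0, ℝ)))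
    (hN : ∀ ε > 0, Tendsto (fun i => P i {ω | Near D φ a b ε (e i ω) (f i ω)}) atTop (𝓝 1))
    {νs : ℕ → ProbabilityMeasure Curve}
    (hνs : ∀ m, (νs m : Measure Curve) = (P m).map (fun ω => Curve.mk ⟨e m ω⟩)) :
    ∃ μ : ProbabilityMeasure (C(I, ℂ) × C(ℝ≥0, ℝ)), IsLim κ φ a b μ ∧
      Tendsto νs atTop (𝓝 (μ.map (f := fun z => Curve.mk ⟨z.1⟩)
        (continuous_mk.comp continuous_fst).measurable.aemeasurable)) := by
  obtain ⟨μ, hμ, hlim⟩ := exists_lim hκ h he hf te tf hB hN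
  refine ⟨μ, hμ, ?_⟩
  have hpm : ∀ i, Measurable (fun ω => (e i ω, f i ω)) := fun i => (he i).prodMk (hf i)
  have hprob : ∀ m, IsProbabilityMeasure ((P m).map (fun ω => (e m ω, f m ω))) := fun m =>
    Measure.isProbabilityMeasure_map (hpm m).aemeasurable
  set μs : ℕ → ProbabilityMeasure (C(I, ℂ) × C(ℝ≥0, ℝ)) := fun m =>
    ⟨(P m).map (fun ω => (e m ω, f m ω)), hprob m⟩ with hμs
  have h1 := ProbabilityMeasure.tendsto_map_of_tendsto_of_continuous μs μ (hlim μs fun m => rfl)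
    (f := fun z => Curve.mk ⟨z.1⟩) (continuous_mk.comp continuous_fst)
  refine h1.congr fun m => ?_
  apply Subtype.ext
  refine Eq.trans ?_ (hνs m).symm
  change ((P m).map (fun ω => (e m ω, f m ω))).map
    (fun z : C(I, ℂ) × C(ℝ≥0, ℝ) => Curve.mk ⟨z.1⟩) = _
  have hmk : Measurable (fun z : C(I, ℂ) × C(ℝ≥0, ℝ) => Curve.mk ⟨z.1⟩) :=
    continuous_mk.measurable.comp measurable_fst
  rw [Measure.map_map hmk (hpm m)]
  rfl

end seq

end Pool.Agent.H96.M7
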