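import Pool.Agent.H96.M7.Trans
import Pool.Agent.H96.M7.Final

set_option autoImplicit false
open Set Filter Topology Metric Bornology MeasureTheory ProbabilityTheory
open scoped unitInterval NNReal ENNReal
open Pool.Agent.H83.Lo (Hyd UH)
open Pool.Agent.H81.Q1 (PCurve Curve polyline continuous_mk)
open Pool.Agent.H82.Q1

/-! The limit theorem for random polygonal paths with discrete Loewner chains: tightness of the
curves in capacity time, and convergence to chordal SLE. -/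

namespace Pool.Agent.H96.M7

/-- A configuration: a polygonal path with a discrete Loewner chain. -/
structure Conf where
  /-- vertices of the path -/
  p : ℕ → ℂ
  /-- number of segments -/
  n : ℕ
  /-- number of steps of the chain -/
  J : ℕ
  /-- indices of the tips on the path -/
  Tx : ℕ → ℕ
  /-- half capacities -/
  t : ℕ → ℝ
  /-- driving values -/
  V : ℕ → ℝ
  /-- second moments -/
  μ : ℕ → ℝ
  /-- domains -/
  G : ℕ → Set ℂ
  /-- conformal maps -/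
  Z : ℕ → ℂ → ℂ
  /-- tips -/
  B : ℕ → ℂ

/-- Discrete data with error `ε` up to the time `T`, see `PathData`. -/
def Conf.Data (c : Conf) (D : Set ℂ) (φ : ℂ → ℂ) (a b : ℂ) (ε T θ : ℝ) (f : C(ℝ≥0, ℝ)) : Prop :=
  PathData D φ a b ε T θ c.p c.n f c.J c.Tx c.t c.V c.μ c.G c.Z c.B

/-- `e` is the path, parametrised by the capacity times perturbed by at most `θ`. -/
def Conf.IsPar (c : Conf) (θ : ℝ) (e : C(I, ℂ)) : Prop :=
  ∃ (t' : ℕ → ℝ) (x : ℝ → ℝ), Par c.p c.n c.J c.Tx c.t θ e t' x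

/-- The conditions for the existence of the reparametrised path. -/
structure Conf.Ok (c : Conf) : Prop where
  npos : 0 < c.n
  Tmono : ∀ j < c.J, c.Tx j ≤ c.Tx (j + 1)
  Tn : c.Tx c.J ≤ c.n
  t0 : 0 ≤ c.t 0
  tmono : ∀ j < c.J, c.t j ≤ c.t (j + 1)

lemma Conf.Data.ok {c : Conf} {D : Set ℂ} {φ : ℂ → ℂ} {a b : ℂ} {ε T θ : ℝ} {f : C(ℝ≥0, ℝ)}
    (H : c.Data D φ a b ε T θ f) : c.Ok :=
  ⟨H.npos, H.Tmono, H.Tn, H.t0.ge, fun j hj => PathData.t_mono H (Nat.le_succ j) hj⟩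

/-- A parametrisation of the path which is the one by capacity if this makes sense. -/
theorem Conf.exists_curve (c : Conf) {θ : ℝ} (hθ : 0 < θ) :
    ∃ e : C(I, ℂ), Curve.mk ⟨e⟩ = Curve.mk (polyline c.p c.n) ∧ (c.Ok → c.IsPar θ e) ∧
      ∀ s, ∃ y : ℝ, 0 ≤ y ∧ y ≤ c.n ∧ e s = pth c.p c.n y := by
  by_cases h : c.Ok
  · obtain ⟨e, t', x, hp, hm⟩ := exists_par c.p h.npos h.Tmono h.Tn h.t0 h.tmono hθ
    refine ⟨e, hm, fun _ => ⟨t', x, hp⟩, fun s => ⟨x s, ?_, ?_, hp.val s⟩⟩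
    · rw [← hp.x0]
      exact hp.mono s.2.1
    · rw [← hp.x1]
      exact hp.mono s.2.2
  · refine ⟨(polyline c.p c.n).toC, rfl, fun h' => absurd h' h, fun s => ⟨c.n * s, ?_, ?_, rfl⟩⟩
    · exact mul_nonneg (Nat.cast_nonneg _) s.2.1
    · exact mul_le_of_le_one_right (Nat.cast_nonneg _) s.2.2

section levels

variable {D : Set ℂ} {φ : ℂ → ℂ} {a b : ℂ} {Ω : ℕ → Type*} {mΩ : ∀ i, MeasurableSpace (Ω i)}
  {P : ∀ i, Measure (Ω i)} [∀ i, IsProbabilityMeasure (P i)] {c : ∀ m, Ω m → Conf}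
  {e : ∀ i, Ω i → C(I, ℂ)} {f : ∀ i, Ω i → C(ℝ≥0, ℝ)} {θ : ℕ → ℝ}
  [MeasurableSpace C(ℝ≥0, ℝ)] [BorelSpace C(ℝ≥0, ℝ)]

/-- **Transience in capacity time.** -/
theorem early_small (h : IsChart D a b φ)
    (hA : ∀ ε > 0, ∀ T > 0, Tendsto (fun m => P m {ω | ¬ (c m ω).Data D φ a b ε T (θ m) (f m ω)})
      atTop (𝓝 0))
    (hE : Tendsto (fun m => P m {ω | ¬ (c m ω).IsPar (θ m) (e m ω)}) atTop (𝓝 0))
    (hθ : Tendsto θ atTop (𝓝 0)) (hθ0 : ∀ m, 0 < θ m)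
    (hB : ∀ r > 0, ∀ T > 0, ∀ η : ℝ≥0∞, 0 < η → ∃ θ₁ > 0, ∀ᶠ m in atTop,
      P m {ω | ∃ j k, j ≤ k ∧ k ≤ (c m ω).J ∧ (c m ω).t k ≤ T ∧ (c m ω).t k - (c m ω).t j ≤ θ₁ ∧
        r < dist ((c m ω).p ((c m ω).Tx j)) ((c m ω).p ((c m ω).Tx k))} ≤ η)
    (hf : ∀ i, Measurable (f i))
    (tf : IsTightMeasureSet {x : Measure C(ℝ≥0, ℝ) | ∃ i, (P i).map (f i) = x})
    {K : Set ℂ} (hK : IsCompact K) (heK : ∀ i ω s, e i ω s ∈ K) {r' : ℝ} (hr' : 0 < r') :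
    ∃ T > 0, ∀ η : ℝ≥0∞, 0 < η → ∀ᶠ m in atTop,
      P m {ω | ∀ j ≤ (c m ω).J, (c m ω).t j ≤ T → r' ≤ dist ((c m ω).p ((c m ω).Tx j)) b} ≤ η := by
  obtain ⟨R, hR⟩ := chart_far h hr'
  refine ⟨(R + 1) ^ 2 + 1, by positivity, ?_⟩
  set T : ℝ := (R + 1) ^ 2 + 1 with hT
  have hT0 : 0 < T := by positivity
  intro η hη
  by_contra hcon
  rw [not_eventually] at hcon
  have hη1 : η ≠ ∞ := by
    intro h1
    obtain ⟨m, hm⟩ := hcon.exists
    rw [h1] at hm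
    exact hm le_top
  -- a compact set of driving functions
  rw [isTightMeasureSet_iff_exists_isCompact_measure_compl_le] at tf
  have hη2 : 0 < η / 2 := ENNReal.half_pos hη.ne'
  obtain ⟨Kf, hKf, hKf'⟩ := tf (η / 2) hη2
  have hfK : ∀ m, P m {ω | f m ω ∉ Kf} ≤ η / 2 := by
    intro m
    have h1 := hKf' _ ⟨m, rfl⟩
    rwa [Measure.map_apply (hf m) hKf.isClosed.measurableSet.compl] at h1
  obtain ⟨δ, hδ, hδs⟩ := ENNReal.exists_pos_sum_of_countable hη2.ne' ℕ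
  have hδ3 : ∀ k, (0 : ℝ≥0∞) < (δ k : ℝ≥0∞) / 3 := fun k =>
    ENNReal.div_pos (by exact_mod_cast (hδ k).ne') (by norm_num)
  choose Θ hΘ hΘ' using fun k : ℕ => hB (1 / ((k : ℝ) + 1)) (by positivity) T hT0 _ (hδ3 k)
  set E : ∀ m, Set (Ω m) := fun m => {ω | (∀ j ≤ (c m ω).J, (c m ω).t j ≤ T →
      r' ≤ dist ((c m ω).p ((c m ω).Tx j)) b) ∧ f m ω ∈ Kf} with hEdef
  set S : ℕ → ∀ m, Set (Ω m) := fun k m =>
      {ω | ¬ (c m ω).Data D φ a b (1 / ((k : ℝ) + 1)) T (θ m) (f m ω)} ∪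
      {ω | ¬ (c m ω).IsPar (θ m) (e m ω)} ∪ {ω | ∃ j l, j ≤ l ∧ l ≤ (c m ω).J ∧ (c m ω).t l ≤ T ∧
        (c m ω).t l - (c m ω).t j ≤ Θ k ∧
        1 / ((k : ℝ) + 1) < dist ((c m ω).p ((c m ω).Tx j)) ((c m ω).p ((c m ω).Tx l))} with hSdef
  have hS : ∀ k, ∀ᶠ m in atTop, P m (S k m) ≤ δ k := by
    intro k
    have h1 := (hA (1 / ((k : ℝ) + 1)) (by positivity) T hT0).eventually_le_const (hδ3 k)
    have h2 := hE.eventually_le_const (hδ3 k)
    filter_upwards [h1, h2, hΘ' k] with m h3 h4 h5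
    calc P m _ ≤ P m ({ω | ¬ (c m ω).Data D φ a b (1 / ((k : ℝ) + 1)) T (θ m) (f m ω)} ∪
          {ω | ¬ (c m ω).IsPar (θ m) (e m ω)}) + _ := measure_union_le _ _
      _ ≤ (P m {ω | ¬ (c m ω).Data D φ a b (1 / ((k : ℝ) + 1)) T (θ m) (f m ω)} +
          P m {ω | ¬ (c m ω).IsPar (θ m) (e m ω)}) + _ := by
          gcongr
          exact measure_union_le _ _
      _ ≤ (δ k / 3 + δ k / 3) + δ k / 3 := by gcongr
      _ = δ k := ENNReal.add_thirds _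
  have hEf : ∃ᶠ m in atTop, η / 2 ≤ P m (E m) := by
    refine hcon.mono fun m hm => ?_
    rw [not_le] at hm
    by_contra! h1
    have h2 : P m {ω | ∀ j ≤ (c m ω).J, (c m ω).t j ≤ T → r' ≤ dist ((c m ω).p ((c m ω).Tx j)) b} ≤
        P m {ω | (∀ j ≤ (c m ω).J, (c m ω).t j ≤ T →
          r' ≤ dist ((c m ω).p ((c m ω).Tx j)) b) ∧ f m ω ∈ Kf} + P m {ω | f m ω ∉ Kf} := by
      refine le_trans (measure_mono ?_) (measure_union_le _ _)
      intro ω hω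
      by_cases h3 : f m ω ∈ Kf
      · exact Or.inl ⟨hω, h3⟩
      · exact Or.inr h3
    have h3 : P m {ω | ∀ j ≤ (c m ω).J, (c m ω).t j ≤ T →
        r' ≤ dist ((c m ω).p ((c m ω).Tx j)) b} < η := by
      calc _ ≤ _ := h2
        _ < η / 2 + η / 2 := ENNReal.add_lt_add_of_lt_of_le
            (ne_top_of_le_ne_top (ENNReal.div_ne_top hη1 (by norm_num)) (hfK m)) h1 (hfK m)
        _ = η := ENNReal.add_halves η
    exact absurd hm (not_lt.2 h3.le)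
  obtain ⟨m, ω, hm, hω, hgood⟩ := exists_good hδs hS hEf
  -- the sequence of good configurations
  have hmt := hm.tendsto_atTop
  have hdat : ∀ ε > 0, ∀ᶠ i in atTop, (c (m i) (ω i)).Data D φ a b ε T (θ (m i)) (f (m i) (ω i)) := by
    intro ε hε
    obtain ⟨k, hk⟩ := exists_nat_one_div_lt hε
    filter_upwards [hgood k] with i hi
    have h1 : (c (m i) (ω i)).Data D φ a b (1 / ((k : ℝ) + 1)) T (θ (m i)) (f (m i) (ω i)) := by
      by_contra h2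
      exact hi (Or.inl (Or.inl h2))
    exact PathData.mono h1 (by positivity) hk.le
  have hpar : ∀ᶠ i in atTop, (c (m i) (ω i)).IsPar (θ (m i)) (e (m i) (ω i)) := by
    filter_upwards [hgood 0] with i hi
    by_contra h2
    exact hi (Or.inl (Or.inr h2))
  obtain ⟨f', -, k, hk, hlim⟩ := hKf.tendsto_subseq (x := fun i => f (m i) (ω i))
    (fun i => (hω i).2)
  have hkt := hk.tendsto_atTop
  have hpar' : ∀ i, ∃ (t' : ℕ → ℝ) (x : ℝ → ℝ), (c (m (k i)) (ω (k i))).IsPar (θ (m (k i)))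
      (e (m (k i)) (ω (k i))) → Par (c (m (k i)) (ω (k i))).p (c (m (k i)) (ω (k i))).n
        (c (m (k i)) (ω (k i))).J (c (m (k i)) (ω (k i))).Tx (c (m (k i)) (ω (k i))).t
        (θ (m (k i))) (e (m (k i)) (ω (k i))) t' x := by
    intro i
    by_cases hi : (c (m (k i)) (ω (k i))).IsPar (θ (m (k i))) (e (m (k i)) (ω (k i)))
    · obtain ⟨t', x, hx⟩ := hi
      exact ⟨t', x, fun _ => hx⟩
    · exact ⟨fun _ => 0, fun _ => 0, fun h => absurd h hi⟩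
  choose t' x hpar'' using hpar'
  refine no_early h hr' hT0.le hR (by rw [hT]; nlinarith [sq_nonneg (R + 1)])
    (p := fun i => (c (m (k i)) (ω (k i))).p) (n := fun i => (c (m (k i)) (ω (k i))).n)
    (f := fun i => f (m (k i)) (ω (k i))) (J := fun i => (c (m (k i)) (ω (k i))).J)
    (Tx := fun i => (c (m (k i)) (ω (k i))).Tx) (t := fun i => (c (m (k i)) (ω (k i))).t)
    (V := fun i => (c (m (k i)) (ω (k i))).V) (μ := fun i => (c (m (k i)) (ω (k i))).μ)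
    (G := fun i => (c (m (k i)) (ω (k i))).G) (Z := fun i => (c (m (k i)) (ω (k i))).Z)
    (B := fun i => (c (m (k i)) (ω (k i))).B) (e := fun i => e (m (k i)) (ω (k i)))
    (t' := t') (x := x) (θ := fun i => θ (m (k i)))
    (fun ε hε => hkt.eventually (hdat ε hε)) ?_ (hθ.comp (hmt.comp hkt))
    (Eventually.of_forall fun i => (hθ0 _).le) ?_ hK (fun i s => heK _ _ s) hlim
    (Eventually.of_forall fun i => (hω (k i)).1)
  · filter_upwards [hkt.eventually hpar] with i hi using hpar'' i hi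
  · intro r hr
    obtain ⟨l, hl⟩ := exists_nat_one_div_lt hr
    refine ⟨Θ l, hΘ l, ?_⟩
    filter_upwards [hkt.eventually (hgood l)] with i hi j j' h1 h2 h3 h4
    by_contra! h5
    exact hi (Or.inr ⟨j, j', h1, h2, h3, h4, hl.trans h5⟩)

/-- **Modulus of continuity of the curves in capacity time.** -/
theorem curve_mod (h : IsChart D a b φ)
    (hA : ∀ ε > 0, ∀ T > 0, Tendsto (fun m => P m {ω | ¬ (c m ω).Data D φ a b ε T (θ m) (f m ω)})
      atTop (𝓝 0))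
    (hE : Tendsto (fun m => P m {ω | ¬ (c m ω).IsPar (θ m) (e m ω)}) atTop (𝓝 0))
    (hθ : Tendsto θ atTop (𝓝 0)) (hθ0 : ∀ m, 0 < θ m)
    (hB : ∀ r > 0, ∀ T > 0, ∀ η : ℝ≥0∞, 0 < η → ∃ θ₁ > 0, ∀ᶠ m in atTop,
      P m {ω | ∃ j k, j ≤ k ∧ k ≤ (c m ω).J ∧ (c m ω).t k ≤ T ∧ (c m ω).t k - (c m ω).t j ≤ θ₁ ∧
        r < dist ((c m ω).p ((c m ω).Tx j)) ((c m ω).p ((c m ω).Tx k))} ≤ η)
    (hC : ∀ r > 0, ∀ η : ℝ≥0∞, 0 < η → ∃ r' > 0, ∀ᶠ m in atTop,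
      P m {ω | ∃ i i', i ≤ i' ∧ i' ≤ (c m ω).n ∧ dist ((c m ω).p i) b ≤ r' ∧
        r < dist ((c m ω).p i') b} ≤ η)
    (hf : ∀ i, Measurable (f i))
    (tf : IsTightMeasureSet {x : Measure C(ℝ≥0, ℝ) | ∃ i, (P i).map (f i) = x})
    {K : Set ℂ} (hK : IsCompact K) (heK : ∀ i ω s, e i ω s ∈ K) {r : ℝ} (hr : 0 < r)
    {η : ℝ≥0∞} (hη : 0 < η) :
    ∃ θ₂ > 0, ∀ᶠ m in atTop,
      P m {ω | ∃ s s' : I, dist s s' ≤ θ₂ ∧ r < dist (e m ω s) (e m ω s')} ≤ η := by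
  have hη5 : 0 < η / 5 := ENNReal.div_pos hη.ne' (by norm_num)
  set r₀ : ℝ := r / 6 with hr₀
  have hr₀0 : 0 < r₀ := by positivity
  obtain ⟨r', hr', hC'⟩ := hC r₀ hr₀0 _ hη5
  obtain ⟨T, hT, hT'⟩ := early_small h hA hE hθ hθ0 hB hf tf hK heK hr'
  obtain ⟨θ₁, hθ₁, hB'⟩ := hB r₀ hr₀0 T hT _ hη5
  have hA' := (hA (r₀ / 2) (by positivity) T hT).eventually_le_const hη5
  have hE' := hE.eventually_le_const hη5
  refine ⟨θ₁ / (2 * (T + 2) ^ 2), by positivity, ?_⟩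
  filter_upwards [hC', hT' _ hη5, hB', hA', hE',
    hθ.eventually_le_const (show 0 < θ₁ / 2 by positivity), hθ.eventually_le_const one_pos] with
    m b1 b2 b3 b4 b5 b6 b7
  set E1 : Set (Ω m) := {ω | ∃ i i', i ≤ i' ∧ i' ≤ (c m ω).n ∧ dist ((c m ω).p i) b ≤ r' ∧
        r₀ < dist ((c m ω).p i') b} with hE1
  set E2 : Set (Ω m) := {ω | ∀ j ≤ (c m ω).J, (c m ω).t j ≤ T →
    r' ≤ dist ((c m ω).p ((c m ω).Tx j)) b} with hE2
  set E3 : Set (Ω m) := {ω | ∃ j k, j ≤ k ∧ k ≤ (c m ω).J ∧ (c m ω).t k ≤ T ∧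
    (c m ω).t k - (c m ω).t j ≤ θ₁ ∧
    r₀ < dist ((c m ω).p ((c m ω).Tx j)) ((c m ω).p ((c m ω).Tx k))} with hE3
  set E4 : Set (Ω m) := {ω | ¬ (c m ω).Data D φ a b (r₀ / 2) T (θ m) (f m ω)} with hE4
  set E5 : Set (Ω m) := {ω | ¬ (c m ω).IsPar (θ m) (e m ω)} with hE5
  have hsub : {ω | ∃ s s' : I, dist s s' ≤ θ₁ / (2 * (T + 2) ^ 2) ∧
      r < dist (e m ω s) (e m ω s')} ⊆ E1 ∪ E2 ∪ E3 ∪ E4 ∪ E5 := by
    intro ω hω
    by_contra hcon
    simp only [mem_union, not_or] at hcon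
    obtain ⟨⟨⟨⟨c1, c2⟩, c3⟩, c4⟩, c5⟩ := hcon
    have H : (c m ω).Data D φ a b (r₀ / 2) T (θ m) (f m ω) := by
      by_contra h1
      exact c4 h1
    have hp : (c m ω).IsPar (θ m) (e m ω) := by
      by_contra h1
      exact c5 h1
    obtain ⟨t', x, E⟩ := hp
    have c2' : ¬ ∀ j ≤ (c m ω).J, (c m ω).t j ≤ T → r' ≤ dist ((c m ω).p ((c m ω).Tx j)) b := c2
    push Not at c2'
    obtain ⟨j₀, hj₀, hj₀T, hj₀r⟩ := c2'
    have late : ∀ i, (c m ω).Tx j₀ ≤ i → i ≤ (c m ω).n → dist ((c m ω).p i) b ≤ r₀ := by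
      intro i hi hin
      by_contra! h1
      exact c1 ⟨_, i, hi, hin, hj₀r.le, h1⟩
    have first : ∀ i ≤ (c m ω).Tx 0, dist ((c m ω).p i) ((c m ω).p 0) ≤ r₀ := by
      intro i hi
      have a1 := H.first i hi
      have a2 := H.first 0 (Nat.zero_le _)
      have a3 := dist_triangle_right ((c m ω).p i) ((c m ω).p 0) a
      linarith
    have step : ∀ j < j₀, ∀ i, (c m ω).Tx j ≤ i → i ≤ (c m ω).Tx (j + 1) →
        dist ((c m ω).p i) ((c m ω).p ((c m ω).Tx j)) ≤ r₀ := by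
      intro j hj i h1 h2
      have := H.step j (hj.trans_le hj₀) i h1 h2
      linarith
    have mod : ∀ j k, j ≤ k → k ≤ j₀ → (c m ω).t k - (c m ω).t j ≤ θ₁ →
        dist ((c m ω).p ((c m ω).Tx j)) ((c m ω).p ((c m ω).Tx k)) ≤ r₀ := by
      intro j k hjk hk hd
      by_contra! h1
      exact c3 ⟨j, k, hjk, hk.trans hj₀, (PathData.t_mono H hk hj₀).trans hj₀T, hd, h1⟩
    have key : ∀ s s' : I, s ≤ s' → dist s s' ≤ θ₁ / (2 * (T + 2) ^ 2) →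
        dist (e m ω s) (e m ω s') ≤ r := by
      intro s s' hs hd
      have hd' : (s' : ℝ) - s ≤ θ₁ / (2 * (T + 2) ^ 2) := by
        rw [Subtype.dist_eq, dist_comm, Real.dist_eq] at hd
        exact (le_abs_self _).trans hd
      have := E.modulus hr₀0.le b6 b7 hT.le hj₀ hj₀T first step mod late hs hd'
      linarith
    obtain ⟨s, s', hd, hd'⟩ := hω
    rcases le_total s s' with hs | hs
    · exact absurd (key s s' hs hd) (not_le.2 hd')
    · rw [dist_comm] at hd hd'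
      exact absurd (key s' s hs hd) (not_le.2 hd')
  calc P m _ ≤ P m (E1 ∪ E2 ∪ E3 ∪ E4 ∪ E5) := measure_mono hsub
    _ ≤ P m E1 + P m E2 + P m E3 + P m E4 + P m E5 := by
        refine (measure_union_le _ _).trans ?_
        gcongr
        refine (measure_union_le _ _).trans ?_
        gcongr
        refine (measure_union_le _ _).trans ?_
        gcongr
        exact measure_union_le _ _
    _ ≤ η / 5 + η / 5 + η / 5 + η / 5 + η / 5 := by gcongr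
    _ = η := by
        have : η / 5 + η / 5 + η / 5 + η / 5 + η / 5 = 5 * (η / 5) := by ring
        rw [this]
        exact ENNReal.mul_div_cancel (by norm_num) (by norm_num)

/-- The curves are near with probability tending to `1`. -/
theorem near_prob
    (hA : ∀ ε > 0, ∀ T > 0, Tendsto (fun m => P m {ω | ¬ (c m ω).Data D φ a b ε T (θ m) (f m ω)})
      atTop (𝓝 0))
    (hE : Tendsto (fun m => P m {ω | ¬ (c m ω).IsPar (θ m) (e m ω)}) atTop (𝓝 0))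
    (hθ : Tendsto θ atTop (𝓝 0)) {ε : ℝ} (hε : 0 < ε) :
    Tendsto (fun i => P i {ω | Near D φ a b ε (e i ω) (f i ω)}) atTop (𝓝 1) := by
  have h1 : Tendsto (fun m => P m {ω | ¬ (c m ω).Data D φ a b (ε / 2) ((ε / 2)⁻¹ + ε / 2) (θ m)
      (f m ω)} + P m {ω | ¬ (c m ω).IsPar (θ m) (e m ω)}) atTop (𝓝 0) := by
    have := (hA (ε / 2) (by positivity) ((ε / 2)⁻¹ + ε / 2) (by positivity)).add hE
    rwa [add_zero] at this
  have h2 : Tendsto (fun m => 1 - (P m {ω | ¬ (c m ω).Data D φ a b (ε / 2) ((ε / 2)⁻¹ + ε / 2) (θ m)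
      (f m ω)} + P m {ω | ¬ (c m ω).IsPar (θ m) (e m ω)})) atTop (𝓝 1) := by
    have := ENNReal.Tendsto.sub (tendsto_const_nhds (x := (1 : ℝ≥0∞)) (f := atTop)) h1
      (Or.inl ENNReal.one_ne_top)
    rwa [tsub_zero] at this
  refine tendsto_of_tendsto_of_tendsto_of_le_of_le' h2 tendsto_const_nhds ?_
    (Eventually.of_forall fun m => prob_le_one)
  filter_upwards [hθ.eventually_le_const (show 0 < ε / 2 by positivity)] with m hm
  rw [tsub_le_iff_right]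
  have hsub : (univ : Set (Ω m)) ⊆ {ω | Near D φ a b ε (e m ω) (f m ω)} ∪
      ({ω | ¬ (c m ω).Data D φ a b (ε / 2) ((ε / 2)⁻¹ + ε / 2) (θ m) (f m ω)} ∪
        {ω | ¬ (c m ω).IsPar (θ m) (e m ω)}) := by
    intro ω _
    by_cases h3 : (c m ω).Data D φ a b (ε / 2) ((ε / 2)⁻¹ + ε / 2) (θ m) (f m ω)
    · by_cases h4 : (c m ω).IsPar (θ m) (e m ω)
      · left
        obtain ⟨t', x, E⟩ := h4
        have h5 := PathData.near h3 E (by positivity) hm le_rfl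
        rwa [show 2 * (ε / 2) = ε by ring] at h5
      · exact Or.inr (Or.inr h4)
    · exact Or.inr (Or.inl h3)
  calc (1 : ℝ≥0∞) = P m univ := measure_univ.symm
    _ ≤ _ := measure_mono hsub
    _ ≤ _ := measure_union_le _ _
    _ ≤ _ := by
        gcongr
        exact measure_union_le _ _

variable [MeasurableSpace C(I, ℂ)] [BorelSpace C(I, ℂ)]

/-- **The limit theorem for random polygonal paths with discrete Loewner chains.** -/
theorem sle_of_levels {κ : ℝ} (hκ : 0 < κ) (h : IsChart D a b φ)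
    (hA : ∀ ε > 0, ∀ T > 0, Tendsto (fun m => P m {ω | ¬ (c m ω).Data D φ a b ε T (θ m) (f m ω)})
      atTop (𝓝 0))
    (hE : Tendsto (fun m => P m {ω | ¬ (c m ω).IsPar (θ m) (e m ω)}) atTop (𝓝 0))
    (hθ : Tendsto θ atTop (𝓝 0)) (hθ0 : ∀ m, 0 < θ m)
    (hB : ∀ r > 0, ∀ T > 0, ∀ η : ℝ≥0∞, 0 < η → ∃ θ₁ > 0, ∀ᶠ m in atTop,
      P m {ω | ∃ j k, j ≤ k ∧ k ≤ (c m ω).J ∧ (c m ω).t k ≤ T ∧ (c m ω).t k - (c m ω).t j ≤ θ₁ ∧
        r < dist ((c m ω).p ((c m ω).Tx j)) ((c m ω).p ((c m ω).Tx k))} ≤ η)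
    (hC : ∀ r > 0, ∀ η : ℝ≥0∞, 0 < η → ∃ r' > 0, ∀ᶠ m in atTop,
      P m {ω | ∃ i i', i ≤ i' ∧ i' ≤ (c m ω).n ∧ dist ((c m ω).p i) b ≤ r' ∧
        r < dist ((c m ω).p i') b} ≤ η)
    (he : ∀ i, Measurable (e i)) (hf : ∀ i, Measurable (f i))
    (tf : IsTightMeasureSet {x : Measure C(ℝ≥0, ℝ) | ∃ i, (P i).map (f i) = x})
    (hW : ∀ k : ℕ → ℕ, StrictMono k → ∀ (μs : ℕ → ProbabilityMeasure C(ℝ≥0, ℝ))
      (ν : ProbabilityMeasure C(ℝ≥0, ℝ)),
      (∀ m, (μs m : Measure C(ℝ≥0, ℝ)) = (P (k m)).map (f (k m))) → Tendsto μs atTop (𝓝 ν) →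
      IsPreBrownianReal (fun (s : ℝ≥0) (z : C(ℝ≥0, ℝ)) => (√κ)⁻¹ * z s) (ν : Measure C(ℝ≥0, ℝ)))
    {K : Set ℂ} (hK : IsCompact K) (heK : ∀ i ω s, e i ω s ∈ K)
    {νs : ℕ → ProbabilityMeasure Curve}
    (hνs : ∀ m, (νs m : Measure Curve) = (P m).map (fun ω => Curve.mk ⟨e m ω⟩)) :
    ∃ μ : ProbabilityMeasure (C(I, ℂ) × C(ℝ≥0, ℝ)), IsLim κ φ a b μ ∧
      Tendsto νs atTop (𝓝 (μ.map (f := fun z => Curve.mk ⟨z.1⟩)
        (continuous_mk.comp continuous_fst).measurable.aemeasurable)) := by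
  have te := tight_of_ev he hK heK (fun r hr ε hε => curve_mod h hA hE hθ hθ0 hB hC hf tf hK heK hr hε)
  exact tendsto_curve hκ h he hf te tf hW (fun ε hε => near_prob hA hE hθ hε) hνs

end levels

end Pool.Agent.H96.M7
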