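import Pool.Agent.H96.M7.Final
import Pool.Agent.H69.Car.Uniq

set_option autoImplicit false
open Set Filter Topology Metric Bornology MeasureTheory ProbabilityTheory
open scoped unitInterval NNReal ENNReal
open Pool.Agent.H81.Q1 (PCurve Curve continuous_mk)
open Pool.Agent.H82.Q1

/-! The limit is chordal SLE in the sense of `IsSLE` (all charts). -/

namespace Pool.Agent.H96.M7

/-- `SLEFor` for one chart gives `IsSLE`. -/
theorem SLEFor.isSLE {κ : ℝ} {D : Set ℂ} {a b : ℂ} {φ : ℂ → ℂ} {ν : ProbabilityMeasure Curve}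
    (h : IsChart D a b φ) (hν : SLEFor κ b φ ν) : IsSLE κ D a b ν := by
  intro φ' h'
  obtain ⟨k, hk, hkφ⟩ := Pool.Agent.H69.Car.chart_unique h h'
  exact hν.scale hk hkφ

variable [MeasurableSpace C(I, ℂ)] [BorelSpace C(I, ℂ)] [MeasurableSpace C(ℝ≥0, ℝ)]
  [BorelSpace C(ℝ≥0, ℝ)]

/-- The law on the space of curves of a joint law. -/
noncomputable def crvLaw (μ : ProbabilityMeasure (C(I, ℂ) × C(ℝ≥0, ℝ))) : ProbabilityMeasure Curve :=
  μ.map (f := fun z => Curve.mk ⟨z.1⟩) (continuous_mk.comp continuous_fst).measurable.aemeasurable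

/-- **The limit is chordal SLE.** -/
theorem IsLim.isSLE {κ : ℝ} (hκ : 0 < κ) {D : Set ℂ} {φ : ℂ → ℂ} {a b : ℂ} (h : IsChart D a b φ)
    {μ : ProbabilityMeasure (C(I, ℂ) × C(ℝ≥0, ℝ))} (hμ : IsLim κ φ a b μ) :
    IsSLE κ D a b (crvLaw μ) :=
  (hμ.sleFor hκ (ν := crvLaw μ) (ProbabilityMeasure.toMeasure_map _ _)).isSLE h

end Pool.Agent.H96.M7
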