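import Pool.Agent.H96.M7.Near

set_option autoImplicit false
open Set Filter Topology Metric Bornology
open scoped unitInterval NNReal
open Pool.Agent.H83.Lo (Hyd UH)
open Pool.Agent.H82.Q1 (HH cHH IsChart IsTrace NotSwallowed outerDom)

/-! Limits of pairs (curve, driving function) close to discrete Loewner chains: no explosion, the
limit is the trace of the Loewner chain, and the driving function determines the curve. -/

namespace Pool.Agent.H96.M7

/-- The two definitions of the domain of the Loewner flow. -/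
lemma dom_notSwallowed {W : ℝ → ℝ} (hW : Continuous W) (t : ℝ) :
    {z | z ∈ HH ∧ NotSwallowed W t z} = Dom W t := by
  ext z
  constructor
  · rintro ⟨hz, g, hg0, hg⟩
    exact ⟨hz, (notSwallowed_iff hW.continuousOn hz).1 ⟨g, hg0, fun s hs => ⟨(hg s hs).2, (hg s hs).1⟩⟩⟩
  · rintro ⟨hz, h⟩
    obtain ⟨g, hg0, hg⟩ := (notSwallowed_iff hW.continuousOn hz).2 h
    exact ⟨hz, g, hg0, fun s hs => ⟨(hg s hs).2, (hg s hs).1⟩⟩

section lim

variable {D : Set ℂ} {a b : ℂ} {φ : ℂ → ℂ} {ι : Type*} {F : Filter ι} {ε : ι → ℝ}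
  {e : ι → C(I, ℂ)} {f : ι → C(ℝ≥0, ℝ)} {e' : C(I, ℂ)} {f' : C(ℝ≥0, ℝ)}

/-- **No explosion.** -/
theorem lim_ne [F.NeBot] (h : IsChart D a b φ) (hpos : ∀ᶠ i in F, 0 < ε i)
    (hε : Tendsto ε F (𝓝 0)) (he : Tendsto e F (𝓝 e')) (hf : Tendsto f F (𝓝 f'))
    (hN : ∀ᶠ i in F, Near D φ a b (ε i) (e i) (f i)) {t : ℝ} (ht : 0 ≤ t) : cap e' t ≠ b := by
  intro hcon
  -- first hitting time of `b`
  set S : Set ℝ := {u | 0 ≤ u ∧ cap e' u = b} with hS
  have hSne : S.Nonempty := ⟨t, ht, hcon⟩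
  have hSb : BddBelow S := ⟨0, fun u hu => hu.1⟩
  have hSc : IsClosed S := by
    have : S = Ici 0 ∩ cap e' ⁻¹' {b} := rfl
    rw [this]
    exact (cap_cont e').preimage_isClosed_of_isClosed isClosed_Ici isClosed_singleton
  set T : ℝ := sInf S with hT
  have hTS : T ∈ S := hSc.csInf_mem hSne hSb
  have h0 : cap e' 0 = a := by
    rw [cap_zero]
    exact lim_start hε he hN
  have hT0 : 0 < T := by
    refine lt_of_le_of_ne hTS.1 ?_
    intro h1
    have h2 := hTS.2
    rw [← h1, h0] at h2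
    exact chart_ne h h2
  have hlt : ∀ u, 0 ≤ u → u < T → cap e' u ≠ b := by
    intro u hu0 huT hub
    exact absurd (csInf_le hSb ⟨hu0, hub⟩) (not_le.2 huT)
  set β : ℝ → ℂ := fun t => psi φ (cap e' t) with hβdef
  have hmem : ∀ u, 0 ≤ u → u < T → cap e' u ∈ φ '' cHH := by
    intro u hu0 huT
    have h1 : cap e' u ∈ insert b (φ '' cHH) := lim_mem h hε he hN _
    exact h1.resolve_left (hlt u hu0 huT)
  have hβ : ∀ u < T, ContinuousOn β (Icc 0 u) := fun u hu =>
    (psi_cont h).comp ((cap_cont e').mono Icc_subset_Ici_self)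
      (fun v hv => hmem v hv.1 (hv.2.trans_lt hu))
  obtain ⟨Bd, hBd⟩ : ∃ Bd : ℝ, ∀ u ∈ Icc 0 T, |drv f' u| ≤ Bd := by
    obtain ⟨R, hR⟩ := (isCompact_Icc.image_of_continuousOn
      (drv_cont f').continuousOn (s := Icc 0 T)).isBounded.exists_norm_le
    exact ⟨R, fun u hu => hR _ ⟨u, hu, rfl⟩⟩
  set R : ℝ := max (4 * Bd) (4 * √T) with hR
  have hbd : ∀ u, 0 ≤ u → u < T → ‖β u‖ ≤ R := by
    intro u hu0 huT
    obtain ⟨v, huv, hvT⟩ := exists_between huT
    have hv0 : 0 ≤ v := hu0.trans huv.le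
    have h1 := lim_core h hε he hN hpos hf hv0 (fun w hw => hlt w hw.1 (hw.2.trans_lt hvT))
    have h2 := trace_bound (drv_cont f').continuousOn (hβ v hvT) h1 ⟨hu0, huv⟩
      (B := Bd) (fun s hs => hBd s ⟨hs.1, hs.2.trans huT.le⟩)
    refine h2.trans (max_le_max le_rfl ?_)
    have := Real.sqrt_le_sqrt huT.le
    linarith
  have hK : IsCompact (φ '' (cHH ∩ closedBall (0 : ℂ) R)) :=
    ((isCompact_closedBall _ _).inter_left cHH_closed).image_of_continuousOn
      (h.cont.mono inter_subset_left)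
  have hin : cap e' T ∈ φ '' (cHH ∩ closedBall (0 : ℂ) R) := by
    have hne : (𝓝[Ico 0 T] T).NeBot := by
      rw [← mem_closure_iff_nhdsWithin_neBot, closure_Ico hT0.ne]
      exact ⟨hT0.le, le_rfl⟩
    have h1 : Tendsto (cap e') (𝓝[Ico 0 T] T) (𝓝 (cap e' T)) :=
      ((cap_cont e') T hT0.le).mono_left (nhdsWithin_mono _ Ico_subset_Ici_self)
    refine hK.isClosed.mem_of_tendsto h1 ?_
    filter_upwards [self_mem_nhdsWithin] with u hu
    refine ⟨β u, ⟨psi_mem (hmem u hu.1 hu.2), ?_⟩, psi_right (hmem u hu.1 hu.2)⟩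
    rw [mem_closedBall, dist_zero_right]
    exact hbd u hu.1 hu.2
  rw [hTS.2] at hin
  exact h.ne (image_mono inter_subset_left hin)

/-- **The closure theorem.** -/
theorem lim_rel [F.NeBot] (h : IsChart D a b φ) (hpos : ∀ᶠ i in F, 0 < ε i)
    (hε : Tendsto ε F (𝓝 0)) (he : Tendsto e F (𝓝 e')) (hf : Tendsto f F (𝓝 f'))
    (hN : ∀ᶠ i in F, Near D φ a b (ε i) (e i) (f i)) : Rel φ a b e' f' := by
  have hne : ∀ t, 0 ≤ t → cap e' t ≠ b := fun t ht => lim_ne h hpos hε he hf hN ht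
  have hmem : ∀ t, 0 ≤ t → cap e' t ∈ φ '' cHH := by
    intro t ht
    have h1 : cap e' t ∈ insert b (φ '' cHH) := lim_mem h hε he hN _
    exact h1.resolve_left (hne t ht)
  refine ⟨lim_start hε he hN, lim_stop hε he hN, ?_, ?_, ?_, ?_, ?_⟩
  · intro s hs
    rw [← cap_inv e' hs]
    have h0 := s.2.1
    have h1 : 0 < 1 - (s : ℝ) := by linarith
    exact hmem _ (by positivity)
  · exact (psi_cont h).comp (cap_cont e') hmem
  · exact fun t ht => psi_mem (hmem t ht)
  · change psi φ (cap e' 0) = 0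
    rw [cap_zero, lim_start hε he hN, ← h.zero]
    refine psi_left h ?_
    change (0 : ℝ) ≤ (0 : ℂ).im
    simp
  · intro t ht
    rw [dom_notSwallowed (drv_cont f')]
    exact lim_core h hε he hN hpos hf ht (fun u hu => hne u hu.1) t ⟨ht, le_rfl⟩

end lim

/-- A trace is determined by its driving function. -/
theorem trace_eq {W : ℝ → ℝ} (hW : Continuous W) {η η' : ℝ → ℂ} (h : IsTrace W η)
    (h' : IsTrace W η') {t : ℝ} (ht : 0 ≤ t) : η t = η' t := by
  have e1 : ∀ {θ : ℝ → ℂ}, IsTrace W θ → ∀ u ∈ Icc 0 (t + 1), Dom W u = Ext θ u := by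
    intro θ hθ u hu
    rw [← dom_notSwallowed hW]
    exact hθ.hull u hu.1
  exact trace_unique hW.continuousOn (h.cont.mono Icc_subset_Ici_self)
    (h'.cont.mono Icc_subset_Ici_self) (e1 h) (e1 h') t ⟨ht, by linarith⟩

/-- **The driving function determines the curve.** -/
theorem Rel.unique {φ : ℂ → ℂ} {a b : ℂ} {e e' : C(I, ℂ)} {f : C(ℝ≥0, ℝ)}
    (h : Rel φ a b e f) (h' : Rel φ a b e' f) : e = e' := by
  have h1 : ∀ s : I, (s : ℝ) < 1 → e s = e' s := by
    intro s hs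
    have h0 := s.2.1
    have h1 : 0 < 1 - (s : ℝ) := by linarith
    have h2 : 0 ≤ (s : ℝ) / (1 - s) := by positivity
    have h3 := trace_eq (drv_cont f) h.trace h'.trace h2
    simp only [cap_inv _ hs] at h3
    rw [← psi_right (h.mem s hs), h3, psi_right (h'.mem s hs)]
  ext s
  rcases lt_or_eq_of_le s.2.2 with h2 | h2
  · exact h1 s h2
  · have : s = 1 := by ext; exact h2
    rw [this, h.stop, h'.stop]

end Pool.Agent.H96.M7
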