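import Mathlib
import Pool.Agent.H96.M7.Gen2

set_option autoImplicit false
open Set Filter Topology MeasureTheory Bornology
open Pool.Agent.H83.Lo (Hyd UH)

/-! Approximate Loewner chains and their limits: convergence of the maps. -/

namespace Pool.Agent.H96.M7

variable {ι : Type*} {F : Filter ι} {T Y : ℝ} {β : ℝ → ℂ} {W : ℝ → ℝ} {U : ι → ℝ → Set ℂ}
  {g : ι → ℝ → ℂ → ℂ} {V : ι → ℝ → ℝ} {c : ι → ℝ → ℝ}

theorem App.tendsto_flow (A : App F T Y β W U g V c) {t : ℝ} (ht : t ∈ Icc 0 T) {z : ℂ}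
    (hz : z ∈ Dom W t) : Tendsto (fun i => g i t z) F (𝓝 (flow W t z)) := by
  obtain ⟨-, h, H⟩ := hz
  have hWt : ContinuousOn W (Icc 0 t) := A.Wc.mono (Icc_subset_Icc_right ht.2)
  rw [flow_eq hWt ht.1 H, Metric.tendsto_nhds]
  intro ε hε
  obtain ⟨η, hη, h1⟩ := A.surv ht H (show 0 < ε / 2 by positivity)
  filter_upwards [h1] with i hi
  have := (hi z (by rw [sub_self, norm_zero]; exact hη.le)).2
  rw [dist_eq_norm]
  linarith

/-- Locally uniform convergence of the maps. -/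
theorem App.tlu [F.NeBot] (A : App F T Y β W U g V c) {t : ℝ} (ht : t ∈ Icc 0 T) :
    TendstoLocallyUniformlyOn (fun i => g i t) (flow W t) F (Dom W t) := by
  rw [Metric.tendstoLocallyUniformlyOn_iff]
  rintro ε hε z ⟨hz0, h, H⟩
  obtain ⟨η, hη, h1⟩ := A.surv ht H (show 0 < ε / 3 by positivity)
  refine ⟨Metric.ball z η ∩ Dom W t, ?_, ?_⟩
  · apply inter_mem _ self_mem_nhdsWithin
    exact mem_nhdsWithin_of_mem_nhds (Metric.ball_mem_nhds z hη)
  · have h2 : ∀ z' ∈ Metric.ball z η ∩ Dom W t, ‖flow W t z' - h t‖ ≤ ε / 3 := by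
      rintro z' ⟨hz', hzD⟩
      have h3 := ((A.tendsto_flow ht hzD).sub_const (h t)).norm
      apply le_of_tendsto h3
      filter_upwards [h1] with i hi
      rw [Metric.mem_ball, dist_eq_norm] at hz'
      exact (hi z' hz'.le).2
    filter_upwards [h1] with i hi
    rintro z' ⟨hz', hzD⟩
    have h3 := h2 z' ⟨hz', hzD⟩
    rw [Metric.mem_ball, dist_eq_norm] at hz'
    have h4 := (hi z' hz'.le).2
    rw [dist_eq_norm]
    calc ‖flow W t z' - g i t z'‖ = ‖(flow W t z' - h t) - (g i t z' - h t)‖ := by ring_nf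
      _ ≤ ε / 3 + ε / 3 := (norm_sub_le _ _).trans (add_le_add h3 h4)
      _ < ε := by linarith

end Pool.Agent.H96.M7
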