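import Pool.Agent.H96.M7.Path

set_option autoImplicit false
open Set Filter Topology Metric Bornology
open scoped unitInterval NNReal
open Pool.Agent.H83.Lo (Hyd UH)
open Pool.Agent.H81.Q1 (PCurve Curve polyline)
open Pool.Agent.H82.Q1 (HH cHH IsChart IsTrace)

/-! Reparametrisation of a polygonal path by perturbed capacity times; modulus of continuity. -/

namespace Pool.Agent.H96.M7

/-- parameter in `[0,1)` of the time `t ∈ [0,∞)` -/
noncomputable def sg (t : ℝ) : ℝ := t / (1 + t)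

lemma sg_nonneg {t : ℝ} (ht : 0 ≤ t) : 0 ≤ sg t := by unfold sg; positivity

lemma sg_lt_one {t : ℝ} (ht : 0 ≤ t) : sg t < 1 := by
  unfold sg
  rw [div_lt_one (by linarith)]
  linarith

lemma sg_lt {t t' : ℝ} (ht : 0 ≤ t) (h : t < t') : sg t < sg t' := by
  unfold sg
  rw [div_lt_div_iff₀ (by linarith) (by linarith)]
  linarith

lemma sg_le {t t' : ℝ} (ht : 0 ≤ t) (h : t ≤ t') : sg t ≤ sg t' := by
  rcases h.lt_or_eq with h | h
  · exact (sg_lt ht h).le
  · rw [h]

/-- the time of a parameter -/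
noncomputable def ta (s : ℝ) : ℝ := s / (1 - s)

lemma ta_sg {t : ℝ} (ht : 0 ≤ t) : ta (sg t) = t := by
  have h1 : 1 + t ≠ 0 := by positivity
  unfold ta sg
  have h2 : 1 - t / (1 + t) = 1 / (1 + t) := by
    field_simp
    ring
  rw [h2]
  field_simp

lemma ta_le {s s' : ℝ} (h : s ≤ s') (h1 : s' < 1) : ta s ≤ ta s' := by
  unfold ta
  rw [div_le_div_iff₀ (by linarith) (by linarith)]
  linarith

/-- `e` is the polygonal path `p 0, …, p n` parametrised in such a way that the vertices `Tx j`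
are passed at the times `t' j`, which are close to `t j`; `x` is the position on the path. -/
structure Par (p : ℕ → ℂ) (n J : ℕ) (Tx : ℕ → ℕ) (t : ℕ → ℝ) (θ : ℝ) (e : C(I, ℂ)) (t' : ℕ → ℝ)
    (x : ℝ → ℝ) : Prop where
  mono : Monotone x
  x0 : x 0 = 0
  x1 : x 1 = n
  val : ∀ s : I, e s = pth p n (x s)
  node : ∀ j ≤ J, x (sg (t' j)) = Tx j
  pos : ∀ j ≤ J, 0 < t' j
  incr : ∀ j < J, t' j < t' (j + 1)
  lo : ∀ j ≤ J, t j ≤ t' j
  hi : ∀ j ≤ J, t' j ≤ t j + θ

variable {p : ℕ → ℂ} {n J : ℕ} {Tx : ℕ → ℕ} {t : ℕ → ℝ} {θ : ℝ} {e : C(I, ℂ)} {t' : ℕ → ℝ}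
    {x : ℝ → ℝ}

theorem exists_par (p : ℕ → ℂ) (hn : 0 < n) (hTm : ∀ j < J, Tx j ≤ Tx (j + 1)) (hTn : Tx J ≤ n)
    (ht0 : 0 ≤ t 0) (htm : ∀ j < J, t j ≤ t (j + 1)) (hθ : 0 < θ) :
    ∃ (e : C(I, ℂ)) (t' : ℕ → ℝ) (x : ℝ → ℝ), Par p n J Tx t θ e t' x ∧
      Curve.mk ⟨e⟩ = Curve.mk (polyline p n) := by
  have hJ : (0 : ℝ) < J + 1 := by positivity
  have hn' : (0 : ℝ) < n := by exact_mod_cast hn
  set t' : ℕ → ℝ := fun j => t j + θ * ((j + 1) / (J + 1)) with ht'
  have htn : ∀ j ≤ J, 0 ≤ t j := by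
    intro j
    induction j with
    | zero => exact fun _ => ht0
    | succ j ih => exact fun hj => (ih (by omega)).trans (htm j (by omega))
  have hpos : ∀ j ≤ J, 0 < t' j := by
    intro j hj
    have := htn j hj
    simp only [ht']
    positivity
  have hincr : ∀ j < J, t' j < t' (j + 1) := by
    intro j hj
    have h1 := htm j hj
    have h2 : ((j : ℝ) + 1) / (J + 1) < ((j + 1 : ℕ) + 1) / (J + 1) := by
      push_cast
      gcongr
      linarith
    have h3 := mul_lt_mul_of_pos_left h2 hθ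
    simp only [ht']
    linarith
  set u : ℕ → ℝ := fun k => if k = 0 then 0 else if k ≤ J + 1 then sg (t' (k - 1)) else 1 with hu
  set y : ℕ → ℝ := fun k => if k = 0 then 0 else if k ≤ J + 1 then (Tx (k - 1) : ℝ) else n with hy
  have hu0 : u 0 = 0 := by simp [hu]
  have huj : ∀ j ≤ J, u (j + 1) = sg (t' j) := by
    intro j hj
    simp only [hu]
    rw [if_neg (by omega), if_pos (by omega), Nat.add_sub_cancel]
  have hu1 : u (J + 2) = 1 := by
    simp only [hu]
    rw [if_neg (by omega), if_neg (by omega)]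
  have hy0 : y 0 = 0 := by simp [hy]
  have hyj : ∀ j ≤ J, y (j + 1) = Tx j := by
    intro j hj
    simp only [hy]
    rw [if_neg (by omega), if_pos (by omega), Nat.add_sub_cancel]
  have hy1 : y (J + 2) = n := by
    simp only [hy]
    rw [if_neg (by omega), if_neg (by omega)]
  have humono : ∀ k < J + 2, u k < u (k + 1) := by
    intro k hk
    rcases Nat.eq_zero_or_pos k with h0 | h0
    · rw [h0, hu0, huj 0 (Nat.zero_le _)]
      have := hpos 0 (Nat.zero_le _)
      unfold sg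
      positivity
    · obtain ⟨j, rfl⟩ : ∃ j, k = j + 1 := ⟨k - 1, by omega⟩
      rcases Nat.lt_or_ge j J with h1 | h1
      · rw [huj j h1.le, huj (j + 1) h1]
        exact sg_lt (hpos j h1.le).le (hincr j h1)
      · have hjJ : j = J := by omega
        rw [hjJ, huj J le_rfl, hu1]
        exact sg_lt_one (hpos J le_rfl).le
  have hymono : ∀ k < J + 2, y k ≤ y (k + 1) := by
    intro k hk
    rcases Nat.eq_zero_or_pos k with h0 | h0
    · rw [h0, hy0, hyj 0 (Nat.zero_le _)]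
      positivity
    · obtain ⟨j, rfl⟩ : ∃ j, k = j + 1 := ⟨k - 1, by omega⟩
      rcases Nat.lt_or_ge j J with h1 | h1
      · rw [hyj j h1.le, hyj (j + 1) h1]
        exact_mod_cast hTm j h1
      · have hjJ : j = J := by omega
        rw [hjJ, hyj J le_rfl, hy1]
        exact_mod_cast hTn
  set x : ℝ → ℝ := pl (J + 2) u y with hx
  have hxm : Monotone x := pl_mono humono hymono
  have hx0 : x 0 = 0 := by
    have := pl_node (y := y) humono (Nat.zero_le _)
    rwa [hu0, hy0] at this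
  have hx1 : x 1 = n := by
    have := pl_node (y := y) humono (le_refl (J + 2))
    rwa [hu1, hy1] at this
  have hxj : ∀ j ≤ J, x (sg (t' j)) = Tx j := by
    intro j hj
    have := pl_node (y := y) humono (show j + 1 ≤ J + 2 by omega)
    rwa [huj j hj, hyj j hj] at this
  have hxr : ∀ s : I, x s / n ∈ Icc (0 : ℝ) 1 := by
    intro s
    have h1 : x 0 ≤ x s := hxm s.2.1
    have h2 : x s ≤ x 1 := hxm s.2.2
    rw [hx0] at h1
    rw [hx1] at h2
    exact ⟨by positivity, (div_le_one hn').2 h2⟩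
  set h : C(I, I) := ⟨fun s => ⟨x s / n, hxr s⟩, by
    refine Continuous.subtype_mk ?_ _
    exact ((pl_cont _ _ _).comp continuous_subtype_val).div_const _⟩ with hh
  refine ⟨(polyline p n).toC.comp h, t', x, ⟨hxm, hx0, hx1, ?_, hxj, hpos, hincr, ?_, ?_⟩, ?_⟩
  · intro s
    change (polyline p n).toC (h s) = _
    rw [polyline_eq]
    congr 1
    change (n : ℝ) * (x s / n) = x s
    field_simp
  · intro j hj
    simp only [ht']
    have : 0 ≤ θ * (((j : ℝ) + 1) / (J + 1)) := by positivity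
    linarith
  · intro j hj
    simp only [ht']
    have h1 : ((j : ℝ) + 1) / (J + 1) ≤ 1 := by
      rw [div_le_one hJ]
      have : (j : ℝ) ≤ J := by exact_mod_cast hj
      linarith
    have := mul_le_mul_of_nonneg_left h1 hθ.le
    linarith
  · refine H37.M7.mk_comp (polyline p n).toC h ?_ ?_ ?_
    · intro s s' hs
      apply Subtype.coe_le_coe.1
      change x s / n ≤ x s' / n
      exact div_le_div_of_nonneg_right (hxm hs) hn'.le
    · ext
      change x ((0 : I) : ℝ) / n = ((0 : I) : ℝ)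
      rw [Set.Icc.coe_zero, hx0, zero_div]
    · ext
      change x ((1 : I) : ℝ) / n = ((1 : I) : ℝ)
      rw [Set.Icc.coe_one, hx1]
      field_simp

lemma Par.start (H : Par p n J Tx t θ e t' x) : e 0 = p 0 := by
  have h1 := H.val 0
  rw [Set.Icc.coe_zero, H.x0] at h1
  rw [h1]
  have := pth_nat (p := p) (n := n) (Nat.zero_le n)
  simpa using this

lemma Par.stop (H : Par p n J Tx t θ e t' x) : e 1 = p n := by
  have h1 := H.val 1
  rw [Set.Icc.coe_one, H.x1] at h1
  rw [h1]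
  exact pth_nat le_rfl

lemma Par.Tx_le (H : Par p n J Tx t θ e t' x) {j : ℕ} (hj : j ≤ J) : Tx j ≤ n := by
  have h1 := H.node j hj
  have h2 := H.mono (sg_lt_one (H.pos j hj).le).le
  rw [h1, H.x1] at h2
  exact_mod_cast h2

lemma Par.tip (H : Par p n J Tx t θ e t' x) {j : ℕ} (hj : j ≤ J) : cap e (t' j) = p (Tx j) := by
  have h0 := (H.pos j hj).le
  rw [cap_eq e h0, H.val]
  change pth p n (x (sg (t' j))) = _
  rw [H.node j hj]
  exact pth_nat (H.Tx_le hj)

lemma Par.t'_mono (H : Par p n J Tx t θ e t' x) {j k : ℕ} (hjk : j ≤ k) (hk : k ≤ J) :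
    t' j ≤ t' k := by
  induction k, hjk using Nat.le_induction with
  | base => exact le_rfl
  | succ k hjk ih => exact (ih (by omega)).trans (H.incr k (by omega)).le

lemma Par.Tx_mono (H : Par p n J Tx t θ e t' x) {j k : ℕ} (hjk : j ≤ k) (hk : k ≤ J) :
    Tx j ≤ Tx k := by
  have h1 := H.mono (sg_le (H.pos j (hjk.trans hk)).le (H.t'_mono hjk hk))
  rw [H.node j (hjk.trans hk), H.node k hk] at h1
  exact_mod_cast h1

section pieces

variable {r T : ℝ} {j₀ : ℕ}

/-- position in a piece -/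
lemma Par.in_piece (H : Par p n J Tx t θ e t' x) (hj₀ : j₀ ≤ J)
    (step : ∀ j < j₀, ∀ i, Tx j ≤ i → i ≤ Tx (j + 1) → dist (p i) (p (Tx j)) ≤ r)
    (v : I) {l : ℕ} (hl : l + 1 ≤ j₀) (h1 : sg (t' l) ≤ v) (h2 : (v : ℝ) ≤ sg (t' (l + 1))) :
    dist (e v) (p (Tx l)) ≤ r := by
  have a1 := H.mono h1
  have a2 := H.mono h2
  rw [H.node l (by omega)] at a1
  rw [H.node (l + 1) (by omega)] at a2
  rw [H.val v, ← mem_closedBall]
  exact pth_mem (convex_closedBall _ r) (H.Tx_le (by omega)) a1 a2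
    (fun i hi hin => mem_closedBall.2 (step l (by omega) i hi hin))

lemma Par.in_first (H : Par p n J Tx t θ e t' x) (first : ∀ i ≤ Tx 0, dist (p i) (p 0) ≤ r)
    (v : I) (h2 : (v : ℝ) ≤ sg (t' 0)) : dist (e v) (p 0) ≤ r := by
  have a1 : x 0 ≤ x v := H.mono v.2.1
  have a2 := H.mono h2
  rw [H.x0] at a1
  rw [H.node 0 (by omega)] at a2
  rw [H.val v, ← mem_closedBall]
  exact pth_mem (A := 0) (convex_closedBall _ r) (H.Tx_le (by omega)) (by exact_mod_cast a1) a2
    (fun i hi hin => mem_closedBall.2 (first i hin))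

lemma Par.in_last (H : Par p n J Tx t θ e t' x) (hj₀ : j₀ ≤ J) {q : ℂ}
    (late : ∀ i, Tx j₀ ≤ i → i ≤ n → dist (p i) q ≤ r) (v : I) (h : sg (t' j₀) ≤ v) :
    dist (e v) q ≤ r := by
  rw [H.val v, ← mem_closedBall]
  have h1 := H.mono h
  rw [H.node j₀ hj₀] at h1
  have h2 : x v ≤ n := by
    rw [← H.x1]
    exact H.mono v.2.2
  exact pth_mem (convex_closedBall q r) le_rfl h1 h2 (fun i hi hin => mem_closedBall.2 (late i hi hin))

/-- distance to the next tip -/
lemma Par.near_end (H : Par p n J Tx t θ e t' x) (hr : 0 ≤ r) (hj₀ : j₀ ≤ J)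
    (first : ∀ i ≤ Tx 0, dist (p i) (p 0) ≤ r)
    (step : ∀ j < j₀, ∀ i, Tx j ≤ i → i ≤ Tx (j + 1) → dist (p i) (p (Tx j)) ≤ r)
    (v : I) {l : ℕ} (hl : l ≤ j₀) (h1 : (v : ℝ) ≤ sg (t' l)) (h2 : ∀ l' < l, sg (t' l') < v) :
    dist (e v) (p (Tx l)) ≤ 2 * r := by
  rcases Nat.eq_zero_or_pos l with h0 | h0
  · rw [h0] at h1 ⊢
    have a1 := H.in_first first v h1
    have a2 := first (Tx 0) le_rfl
    have a3 := dist_triangle_right (e v) (p (Tx 0)) (p 0)
    linarith
  · have e1 : l - 1 + 1 = l := by omega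
    have a1 := H.in_piece hj₀ step v (l := l - 1) (by omega) (h2 (l - 1) (by omega)).le
      (by rw [e1]; exact h1)
    have a2 := step (l - 1) (by omega) (Tx l) (by
      have := H.Tx_mono (show l - 1 ≤ l by omega) (by omega)
      exact this) (by rw [e1])
    have a3 := dist_triangle_right (e v) (p (Tx l)) (p (Tx (l - 1)))
    linarith

/-- every point of the curve is close to a tip -/
lemma Par.near_tip (H : Par p n J Tx t θ e t' x) (hr : 0 ≤ r) (hj₀ : j₀ ≤ J)
    (first : ∀ i ≤ Tx 0, dist (p i) (p 0) ≤ r)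
    (step : ∀ j < j₀, ∀ i, Tx j ≤ i → i ≤ Tx (j + 1) → dist (p i) (p (Tx j)) ≤ r)
    (v : I) (hv : (v : ℝ) ≤ sg (t' j₀)) : ∃ l ≤ j₀, dist (e v) (p (Tx l)) ≤ 2 * r := by
  classical
  have hex : ∃ k, (v : ℝ) ≤ sg (t' k) := ⟨j₀, hv⟩
  exact ⟨Nat.find hex, Nat.find_min' hex hv, H.near_end hr hj₀ first step v
    (Nat.find_min' hex hv) (Nat.find_spec hex) (fun l' hl' => not_le.1 (Nat.find_min hex hl'))⟩

/-- **Modulus of continuity**, main part: small steps, and the tips are equicontinuous in the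
times `t j`. -/
theorem Par.modulus_main (H : Par p n J Tx t θ e t' x) {θ₁ : ℝ} (hr : 0 ≤ r)
    (hθ₁ : θ ≤ θ₁ / 2) (hθ1 : θ ≤ 1) (hT : 0 ≤ T) (hj₀ : j₀ ≤ J) (hj₀T : t j₀ ≤ T)
    (first : ∀ i ≤ Tx 0, dist (p i) (p 0) ≤ r)
    (step : ∀ j < j₀, ∀ i, Tx j ≤ i → i ≤ Tx (j + 1) → dist (p i) (p (Tx j)) ≤ r)
    (mod : ∀ j k, j ≤ k → k ≤ j₀ → t k - t j ≤ θ₁ → dist (p (Tx j)) (p (Tx k)) ≤ r)
    {u u' : I} (huu : u ≤ u') (hd : (u' : ℝ) - u ≤ θ₁ / (2 * (T + 2) ^ 2))
    (hu' : (u' : ℝ) ≤ sg (t' j₀)) : dist (e u) (e u') ≤ 4 * r := by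
  classical
  have hex : ∀ v : I, (v : ℝ) ≤ sg (t' j₀) → ∃ k, (v : ℝ) ≤ sg (t' k) := fun v hv => ⟨j₀, hv⟩
  have hu : (u : ℝ) ≤ sg (t' j₀) := le_trans (by exact_mod_cast huu) hu'
  set k := Nat.find (hex u hu) with hk
  set k' := Nat.find (hex u' hu') with hk'
  have hks : (u : ℝ) ≤ sg (t' k) := Nat.find_spec (hex u hu)
  have hks' : (u' : ℝ) ≤ sg (t' k') := Nat.find_spec (hex u' hu')
  have hkj : k ≤ j₀ := Nat.find_min' (hex u hu) hu
  have hkj' : k' ≤ j₀ := Nat.find_min' (hex u' hu') hu'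
  have hkk : k ≤ k' := Nat.find_min' (hex u hu) (le_trans (by exact_mod_cast huu) hks')
  have hmin : ∀ l' < k, sg (t' l') < u := fun l' hl' => not_le.1 (Nat.find_min (hex u hu) hl')
  have hmin' : ∀ l' < k', sg (t' l') < u' := fun l' hl' =>
    not_le.1 (Nat.find_min (hex u' hu') hl')
  have b1 := H.near_end hr hj₀ first step u hkj hks hmin
  rcases hkk.eq_or_lt with heq | hlt
  · have b2 := H.near_end hr hj₀ first step u' hkj' hks' hmin'
    rw [← heq] at b2
    have b3 := dist_triangle_right (e u) (e u') (p (Tx k))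
    linarith
  · have e1 : k' - 1 + 1 = k' := by omega
    have b2 := H.in_piece hj₀ step u' (l := k' - 1) (by omega) (hmin' (k' - 1) (by omega)).le
      (by rw [e1]; exact hks')
    -- the time difference
    have hlt1 : sg (t' j₀) < 1 := sg_lt_one (H.pos j₀ hj₀).le
    have c1 : t (k' - 1) ≤ ta u' := by
      have d1 := ta_le (hmin' (k' - 1) (by omega)).le (hu'.trans_lt hlt1)
      rw [ta_sg (H.pos _ (by omega)).le] at d1
      exact (H.lo _ (by omega)).trans d1
    have c2 : ta u ≤ t k + θ := by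
      have d1 := ta_le hks (sg_lt_one (H.pos k (by omega)).le)
      rw [ta_sg (H.pos _ (by omega)).le] at d1
      exact d1.trans (H.hi _ (by omega))
    have c3 : ta u' - ta u ≤ θ₁ / 2 := by
      have d0 : (u' : ℝ) ≤ sg (T + 1) :=
        hu'.trans (sg_le (H.pos j₀ hj₀).le ((H.hi j₀ hj₀).trans (by linarith)))
      have d1 : 1 / (T + 2) ≤ 1 - (u' : ℝ) := by
        have : 1 - sg (T + 1) = 1 / (T + 2) := by
          have : (T + 2 : ℝ) ≠ 0 := by positivity
          unfold sg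
          rw [show 1 + (T + 1) = T + 2 by ring]
          field_simp
          ring
        linarith
      have d2 : 1 / (T + 2) ≤ 1 - (u : ℝ) := by
        have : (u : ℝ) ≤ u' := huu
        linarith
      have d3 : 0 < 1 / (T + 2) := by positivity
      have d4 : ta u' - ta u = ((u' : ℝ) - u) / ((1 - u') * (1 - u)) := by
        have : 1 - (u' : ℝ) ≠ 0 := by linarith
        have : 1 - (u : ℝ) ≠ 0 := by linarith
        unfold ta
        field_simp
        ring
      have d5 : (1 / (T + 2)) ^ 2 ≤ (1 - (u' : ℝ)) * (1 - u) := by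
        rw [sq]
        exact mul_le_mul d1 d2 d3.le (d3.le.trans d1)
      have d6 : 0 ≤ (u' : ℝ) - u := sub_nonneg.2 huu
      rw [d4]
      calc ((u' : ℝ) - u) / ((1 - u') * (1 - u)) ≤ ((u' : ℝ) - u) / (1 / (T + 2)) ^ 2 :=
            div_le_div_of_nonneg_left d6 (by positivity) d5
        _ = ((u' : ℝ) - u) * (T + 2) ^ 2 := by
            field_simp
        _ ≤ θ₁ / (2 * (T + 2) ^ 2) * (T + 2) ^ 2 := by gcongr
        _ = θ₁ / 2 := by
            field_simp
    have b3 := mod k (k' - 1) (by omega) (by omega) (by linarith)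
    have b4 : dist (e u) (e u') ≤ dist (e u) (p (Tx k)) + dist (p (Tx k)) (p (Tx (k' - 1))) +
        dist (e u') (p (Tx (k' - 1))) := by
      have f1 := dist_triangle (e u) (p (Tx k)) (e u')
      have f2 := dist_triangle_right (p (Tx k)) (e u') (p (Tx (k' - 1)))
      linarith
    linarith

/-- **Modulus of continuity.** The configuration has small steps, the tips are equicontinuous in
the times `t j` up to the time `T`, and after the vertex `Tx j₀` the path stays near `q`. -/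
theorem Par.modulus (H : Par p n J Tx t θ e t' x) {θ₁ : ℝ} (hr : 0 ≤ r)
    (hθ₁ : θ ≤ θ₁ / 2) (hθ1 : θ ≤ 1) (hT : 0 ≤ T) (hj₀ : j₀ ≤ J) (hj₀T : t j₀ ≤ T)
    (first : ∀ i ≤ Tx 0, dist (p i) (p 0) ≤ r)
    (step : ∀ j < j₀, ∀ i, Tx j ≤ i → i ≤ Tx (j + 1) → dist (p i) (p (Tx j)) ≤ r)
    (mod : ∀ j k, j ≤ k → k ≤ j₀ → t k - t j ≤ θ₁ → dist (p (Tx j)) (p (Tx k)) ≤ r)
    {q : ℂ} (late : ∀ i, Tx j₀ ≤ i → i ≤ n → dist (p i) q ≤ r)
    {s s' : I} (hs : s ≤ s') (hss : (s' : ℝ) - s ≤ θ₁ / (2 * (T + 2) ^ 2)) :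
    dist (e s) (e s') ≤ 6 * r := by
  rcases le_total (s' : ℝ) (sg (t' j₀)) with h1 | h1
  · have := H.modulus_main hr hθ₁ hθ1 hT hj₀ hj₀T first step mod hs hss h1
    linarith
  · rcases le_total (sg (t' j₀)) (s : ℝ) with h2 | h2
    · have h3 := H.in_last hj₀ late s h2
      have h4 := H.in_last hj₀ late s' h1
      have h5 := dist_triangle_right (e s) (e s') q
      linarith
    · set m : I := ⟨sg (t' j₀), sg_nonneg (H.pos j₀ hj₀).le, (sg_lt_one (H.pos j₀ hj₀).le).le⟩ with hm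
      have h3 := H.modulus_main hr hθ₁ hθ1 hT hj₀ hj₀T first step mod (u := s) (u' := m) h2 (by
        have : (m : ℝ) ≤ s' := h1
        linarith) le_rfl
      have h4 := H.in_last hj₀ late m le_rfl
      have h5 := H.in_last hj₀ late s' h1
      have h6 : dist (e s) (e s') ≤ dist (e s) (e m) + dist (e m) q + dist (e s') q := by
        have f1 := dist_triangle (e s) (e m) (e s')
        have f2 := dist_triangle_right (e m) (e s') q
        linarith
      linarith

end pieces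

/-! ### Frozen curves -/

/-- the curve frozen at the parameter `s₁` -/
noncomputable def frz (e : C(I, ℂ)) (s₁ : I) : C(I, ℂ) :=
  ⟨fun s => e (min s s₁), e.continuous.comp (continuous_id.min continuous_const)⟩

lemma frz_apply (e : C(I, ℂ)) (s₁ s : I) : frz e s₁ s = e (min s s₁) := rfl

lemma cap_frz {e : C(I, ℂ)} {s₁ : I} {τ : ℝ} (hτ : 0 ≤ τ) (h : sg τ ≤ s₁) :
    cap (frz e s₁) τ = cap e τ := by
  rw [cap_eq _ hτ, cap_eq _ hτ, frz_apply]
  congr 1
  exact min_eq_left h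

end Pool.Agent.H96.M7
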