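import Pool.Agent.H37.M7.Repar
import Pool.Agent.H96.M7.Rel

set_option autoImplicit false
open Set Filter Topology Metric Bornology
open scoped unitInterval NNReal
open Pool.Agent.H83.Lo (Hyd UH)
open Pool.Agent.H81.Q1 (PCurve Curve polyline)
open Pool.Agent.H82.Q1 (HH cHH IsChart IsTrace)

/-! Polygonal paths, piecewise linear interpolation, and the reparametrisation of a polygonal path
by (perturbed) capacity times. -/

namespace Pool.Agent.H96.M7

/-! ### Polygonal paths -/

/-- The point of the polygonal path at the position `x ∈ [0, n]`. -/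
noncomputable def pth (p : ℕ → ℂ) (n : ℕ) (x : ℝ) : ℂ :=
  p 0 + ∑ i ∈ Finset.range n, ((min 1 (max 0 (x - i)) : ℝ) : ℂ) * (p (i + 1) - p i)

lemma pth_cont (p : ℕ → ℂ) (n : ℕ) : Continuous (pth p n) := by
  unfold pth
  fun_prop

lemma polyline_eq (p : ℕ → ℂ) (n : ℕ) (s : I) : (polyline p n).toC s = pth p n (n * s) := rfl

variable {p : ℕ → ℂ} {n : ℕ} {x : ℝ}

lemma pth_eval (h0 : 0 ≤ x) (hk : ⌊x⌋₊ < n) :
    pth p n x = p ⌊x⌋₊ + ((x - ⌊x⌋₊ : ℝ) : ℂ) * (p (⌊x⌋₊ + 1) - p ⌊x⌋₊) := by
  set k0 := ⌊x⌋₊ with hk0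
  have h1 : (k0 : ℝ) ≤ x := Nat.floor_le h0
  have h2 : x < k0 + 1 := Nat.lt_floor_add_one _
  unfold pth
  have h3 : ∑ i ∈ Finset.range n, ((min 1 (max 0 (x - i)) : ℝ) : ℂ) * (p (i + 1) - p i)
      = ∑ i ∈ Finset.range (k0 + 1), ((min 1 (max 0 (x - i)) : ℝ) : ℂ) * (p (i + 1) - p i) := by
    symm
    refine Finset.sum_subset (Finset.range_mono hk) ?_
    intro k _ hk'
    rw [Finset.mem_range, not_lt] at hk'
    have h4 : ((k0 + 1 : ℕ) : ℝ) ≤ k := by exact_mod_cast hk'
    push_cast at h4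
    rw [max_eq_left (by linarith), min_eq_right zero_le_one]
    simp
  rw [h3, Finset.sum_range_succ, max_eq_right (by linarith : (0 : ℝ) ≤ x - k0),
    min_eq_right (by linarith : x - k0 ≤ 1)]
  have h4 : ∑ i ∈ Finset.range k0, ((min 1 (max 0 (x - i)) : ℝ) : ℂ) * (p (i + 1) - p i)
      = ∑ i ∈ Finset.range k0, (p (i + 1) - p i) := by
    refine Finset.sum_congr rfl fun k hk => ?_
    have h5 : k + 1 ≤ k0 := Finset.mem_range.1 hk
    have h6 : ((k + 1 : ℕ) : ℝ) ≤ k0 := by exact_mod_cast h5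
    push_cast at h6
    rw [max_eq_right (by linarith : (0 : ℝ) ≤ x - k), min_eq_left (by linarith : 1 ≤ x - k)]
    simp
  rw [h4, Finset.sum_range_sub]
  ring

lemma pth_end (hx : (n : ℝ) ≤ x) : pth p n x = p n := by
  unfold pth
  have h4 : ∑ i ∈ Finset.range n, ((min 1 (max 0 (x - i)) : ℝ) : ℂ) * (p (i + 1) - p i)
      = ∑ i ∈ Finset.range n, (p (i + 1) - p i) := by
    refine Finset.sum_congr rfl fun k hk => ?_
    have h5 : k + 1 ≤ n := Finset.mem_range.1 hk
    have h6 : ((k + 1 : ℕ) : ℝ) ≤ n := by exact_mod_cast h5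
    push_cast at h6
    rw [max_eq_right (by linarith : (0 : ℝ) ≤ x - k), min_eq_left (by linarith : 1 ≤ x - k)]
    simp
  rw [h4, Finset.sum_range_sub]
  ring

lemma pth_nat {k : ℕ} (hk : k ≤ n) : pth p n k = p k := by
  rcases hk.lt_or_eq with h | h
  · rw [pth_eval (Nat.cast_nonneg k) (by rwa [Nat.floor_natCast]), Nat.floor_natCast]
    simp
  · rw [pth_end (by rw [h]), h]

/-- A piece of a polygonal path stays in every convex set which contains its vertices. -/
lemma pth_mem {S : Set ℂ} (hS : Convex ℝ S) {A B : ℕ} (hB : B ≤ n) (hx0 : (A : ℝ) ≤ x)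
    (hx1 : x ≤ B) (h : ∀ i, A ≤ i → i ≤ B → p i ∈ S) : pth p n x ∈ S := by
  have h0 : 0 ≤ x := (Nat.cast_nonneg A).trans hx0
  have hAB : A ≤ B := by exact_mod_cast hx0.trans hx1
  rcases hx1.lt_or_eq with hlt | heq
  · have hk : ⌊x⌋₊ < B := (Nat.floor_lt h0).2 hlt
    have hAk : A ≤ ⌊x⌋₊ := Nat.le_floor hx0
    have h1 : (⌊x⌋₊ : ℝ) ≤ x := Nat.floor_le h0
    have h2 : x < ⌊x⌋₊ + 1 := Nat.lt_floor_add_one _
    rw [pth_eval h0 (hk.trans_le hB)]
    have h3 := hS (h _ hAk hk.le) (h _ (hAk.trans (Nat.le_succ _)) hk)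
      (a := 1 - (x - ⌊x⌋₊)) (b := x - ⌊x⌋₊) (by linarith) (by linarith) (by ring)
    convert h3 using 1
    rw [Complex.real_smul, Complex.real_smul]
    push_cast
    ring
  · rw [heq, pth_nat hB]
    exact h B hAB le_rfl

/-! ### Piecewise linear interpolation -/

/-- The piecewise linear function with the values `y k` at the nodes `u k`, `k ≤ K`. -/
noncomputable def pl (K : ℕ) (u y : ℕ → ℝ) (s : ℝ) : ℝ :=
  y 0 + ∑ k ∈ Finset.range K, min 1 (max 0 ((s - u k) / (u (k + 1) - u k))) * (y (k + 1) - y k)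

lemma pl_cont (K : ℕ) (u y : ℕ → ℝ) : Continuous (pl K u y) := by
  unfold pl
  refine continuous_const.add (continuous_finset_sum _ fun k _ => ?_)
  refine Continuous.mul ?_ continuous_const
  exact continuous_const.min (continuous_const.max ((continuous_id.sub continuous_const).div_const _))

lemma pl_mono {K : ℕ} {u y : ℕ → ℝ} (hu : ∀ k < K, u k < u (k + 1)) (hy : ∀ k < K, y k ≤ y (k + 1)) :
    Monotone (pl K u y) := by
  intro s s' hs
  unfold pl
  refine add_le_add le_rfl (Finset.sum_le_sum fun k hk => ?_)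
  have hk' := Finset.mem_range.1 hk
  refine mul_le_mul_of_nonneg_right ?_ (sub_nonneg.2 (hy k hk'))
  refine min_le_min le_rfl (max_le_max le_rfl ?_)
  exact div_le_div_of_nonneg_right (by linarith) (sub_nonneg.2 (hu k hk').le)

lemma pl_node {K : ℕ} {u y : ℕ → ℝ} (hu : ∀ k < K, u k < u (k + 1)) {j : ℕ} (hj : j ≤ K) :
    pl K u y (u j) = y j := by
  have hmono : ∀ k l, k ≤ l → l ≤ K → u k ≤ u l := by
    intro k l hkl
    induction l, hkl using Nat.le_induction with
    | base => exact fun _ => le_rfl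
    | succ l hkl ih => exact fun hl => (ih (by omega)).trans (hu l (by omega)).le
  unfold pl
  have h1 : ∀ k ∈ Finset.range K, min 1 (max 0 ((u j - u k) / (u (k + 1) - u k))) * (y (k + 1) - y k)
      = if k < j then y (k + 1) - y k else 0 := by
    intro k hk
    have hk' := Finset.mem_range.1 hk
    have hd : 0 < u (k + 1) - u k := sub_pos.2 (hu k hk')
    split_ifs with h
    · have h2 := hmono (k + 1) j h hj
      have h3 : 1 ≤ (u j - u k) / (u (k + 1) - u k) := by
        rw [one_le_div hd]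
        linarith
      rw [max_eq_right (by linarith), min_eq_left h3, one_mul]
    · have h2 := hmono j k (not_lt.1 h) hk'.le
      have h3 : (u j - u k) / (u (k + 1) - u k) ≤ 0 :=
        div_nonpos_of_nonpos_of_nonneg (by linarith) hd.le
      rw [max_eq_left h3, min_eq_right zero_le_one, zero_mul]
  rw [Finset.sum_congr rfl h1, Finset.sum_ite, Finset.sum_const_zero, add_zero]
  have h2 : (Finset.range K).filter (fun k => k < j) = Finset.range j := by
    ext k
    simp only [Finset.mem_filter, Finset.mem_range]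
    omega
  rw [h2, Finset.sum_range_sub]
  ring

end Pool.Agent.H96.M7
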