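import Pool.Agent.H96.M7.PathData
import Pool.Agent.H96.M7.Comp
import Pool.Agent.H83.Lo.Cap

set_option autoImplicit false
open Set Filter Topology Metric Bornology MeasureTheory
open scoped unitInterval NNReal ENNReal
open Pool.Agent.H83.Lo (Hyd UH)
open Pool.Agent.H81.Q1 (PCurve Curve polyline)
open Pool.Agent.H82.Q1 (HH cHH IsChart IsTrace)

/-! Transience in capacity time: a discrete chain whose tips stay away from `b` has bounded
capacity. -/

namespace Pool.Agent.H96.M7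

lemma cap_bound {W : ℝ → ℝ} {β : ℝ → ℂ} {T R : ℝ} (hW : ContinuousOn W (Icc 0 T)) (hT : 0 ≤ T)
    (hβ : ContinuousOn β (Icc 0 T)) (hR : ∀ u ∈ Icc 0 T, ‖β u‖ ≤ R) (h : Dom W T = Ext β T) :
    2 * T ≤ (R + 1) ^ 2 := by
  have hR0 : 0 ≤ R := (norm_nonneg _).trans (hR 0 ⟨le_rfl, hT⟩)
  have hH := Hyd_dom hW hT
  refine hH.cap_le (x := 0) (r := R + 1) (by linarith) ?_
  intro z hz hzU
  rw [Complex.ofReal_zero, sub_zero] at hz
  rw [h]
  have hsub : {w : ℂ | R + 1 < ‖w‖ ∧ w ∈ UH} ⊆ UH \ β '' Icc 0 T := by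
    rintro w ⟨hw, hwU⟩
    refine ⟨hwU, ?_⟩
    rintro ⟨u, hu, rfl⟩
    have := hR u hu
    linarith
  have h1 := (Pool.Agent.H83.Lo.isPreconnected_ext (R + 1) (by linarith)).subset_connectedComponentIn
    (show z ∈ {w : ℂ | R + 1 < ‖w‖ ∧ w ∈ UH} from ⟨hz, hzU⟩) hsub
  refine ⟨hsub ⟨hz, hzU⟩, fun hb => ?_⟩
  obtain ⟨ρ, hρ⟩ := isBounded_iff_forall_norm_le.1 (hb.subset h1)
  set w : ℂ := ⟨0, |ρ| + R + 2⟩ with hw
  have hwim : w.im = |ρ| + R + 2 := rfl
  have hρ0 := abs_nonneg ρ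
  have hwn : |ρ| + R + 2 ≤ ‖w‖ := by
    rw [← hwim]
    exact (le_abs_self _).trans (Complex.abs_im_le_norm w)
  have hwU : w ∈ UH := by
    change 0 < w.im
    rw [hwim]
    positivity
  have h2 := hρ w ⟨by linarith, hwU⟩
  have := le_abs_self ρ
  linarith

section noearly

variable {D : Set ℂ} {φ : ℂ → ℂ} {a b : ℂ} {p : ℕ → ℕ → ℂ} {n : ℕ → ℕ} {f : ℕ → C(ℝ≥0, ℝ)}
  {J : ℕ → ℕ} {Tx : ℕ → ℕ → ℕ} {t V μ : ℕ → ℕ → ℝ} {G : ℕ → ℕ → Set ℂ} {Z : ℕ → ℕ → ℂ → ℂ}
  {B : ℕ → ℕ → ℂ} {e : ℕ → C(I, ℂ)} {t' : ℕ → ℕ → ℝ} {x : ℕ → ℝ → ℝ} {θ : ℕ → ℝ}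

/-- **No sequence of discrete chains whose tips stay away from `b` for a long time.** -/
theorem no_early (h : IsChart D a b φ) {r' T R : ℝ} (hr' : 0 < r') (hT0 : 0 ≤ T)
    (hR : ∀ z ∈ cHH, R < ‖z‖ → dist (φ z) b < r') (hRT : (R + 1) ^ 2 < 2 * T)
    (hP : ∀ ε > 0, ∀ᶠ i in atTop, PathData D φ a b ε T (θ i) (p i) (n i) (f i) (J i) (Tx i) (t i)
      (V i) (μ i) (G i) (Z i) (B i))
    (hE : ∀ᶠ i in atTop, Par (p i) (n i) (J i) (Tx i) (t i) (θ i) (e i) (t' i) (x i))
    (hθ : Tendsto θ atTop (𝓝 0)) (hθ0 : ∀ᶠ i in atTop, 0 ≤ θ i)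
    (hmod : ∀ r > 0, ∃ θ₁ > 0, ∀ᶠ i in atTop, ∀ j k, j ≤ k → k ≤ J i → t i k ≤ T →
      t i k - t i j ≤ θ₁ → dist (p i (Tx i j)) (p i (Tx i k)) ≤ r)
    {K : Set ℂ} (hK : IsCompact K) (heK : ∀ i s, e i s ∈ K) {f' : C(ℝ≥0, ℝ)}
    (hf : Tendsto f atTop (𝓝 f'))
    (hearly : ∀ᶠ i in atTop, ∀ j ≤ J i, t i j ≤ T → r' ≤ dist (p i (Tx i j)) b) : False := by
  classical
  -- the last index before the time `T`
  set j₁ : ℕ → ℕ := fun i => Nat.findGreatest (fun j => t i j ≤ T) (J i) with hj₁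
  have hj₁J : ∀ i, j₁ i ≤ J i := fun i => Nat.findGreatest_le _
  have hmax : ∀ i, ∀ j ≤ J i, t i j ≤ T → j ≤ j₁ i := fun i j hj hjT => Nat.le_findGreatest hj hjT
  have hP1 := hP 1 one_pos
  have hj₁T : ∀ᶠ i in atTop, t i (j₁ i) ≤ T := by
    filter_upwards [hP1] with i H
    exact Nat.findGreatest_spec (P := fun j => t i j ≤ T) (Nat.zero_le _) (by rw [H.t0]; exact hT0)
  set s₁ : ℕ → I := fun i => projIcc 0 1 zero_le_one (sg (t' i (j₁ i))) with hs₁
  have hs₁c : ∀ᶠ i in atTop, ((s₁ i : I) : ℝ) = sg (t' i (j₁ i)) := by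
    filter_upwards [hE] with i E
    have h0 := (E.pos _ (hj₁J i)).le
    simp only [hs₁]
    rw [projIcc_of_mem zero_le_one ⟨sg_nonneg h0, (sg_lt_one h0).le⟩]
  set g : ℕ → C(I, ℂ) := fun i => frz (e i) (s₁ i) with hg
  -- equicontinuity of the frozen curves
  have hequi : ∀ r > 0, ∃ δ > 0, ∀ᶠ i in atTop, ∀ s s' : I, dist s s' ≤ δ →
      dist (g i s) (g i s') ≤ r := by
    intro r hr
    obtain ⟨θ₁, hθ₁, hev⟩ := hmod (r / 4) (by positivity)
    refine ⟨θ₁ / (2 * (T + 2) ^ 2), by positivity, ?_⟩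
    filter_upwards [hev, hP (r / 8) (by positivity), hE, hj₁T, hs₁c,
      hθ.eventually_le_const (show 0 < θ₁ / 2 by positivity), hθ.eventually_le_const one_pos] with
      i h1 H E h2 h3 h4 h5
    have hfirst : ∀ k ≤ Tx i 0, dist (p i k) (p i 0) ≤ r / 4 := by
      intro k hk
      have a1 := H.first k hk
      have a2 := H.first 0 (Nat.zero_le _)
      have a3 := dist_triangle_right (p i k) (p i 0) a
      linarith
    have hstep : ∀ j < j₁ i, ∀ k, Tx i j ≤ k → k ≤ Tx i (j + 1) →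
        dist (p i k) (p i (Tx i j)) ≤ r / 4 := by
      intro j hj k hk hk'
      have := H.step j (hj.trans_le (hj₁J i)) k hk hk'
      linarith
    have hmod' : ∀ j k, j ≤ k → k ≤ j₁ i → t i k - t i j ≤ θ₁ →
        dist (p i (Tx i j)) (p i (Tx i k)) ≤ r / 4 := by
      intro j k hjk hk hd
      exact h1 j k hjk (hk.trans (hj₁J i)) ((H.t_mono hk (hj₁J i)).trans h2) hd
    have hle : ∀ u u' : I, u ≤ u' → (u' : ℝ) - u ≤ θ₁ / (2 * (T + 2) ^ 2) →
        (u' : ℝ) ≤ sg (t' i (j₁ i)) → dist (e i u) (e i u') ≤ r := by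
      intro u u' huu hd hu'
      have := E.modulus_main (by positivity) h4 h5 hT0 (hj₁J i) h2 hfirst hstep hmod' huu hd hu'
      linarith
    have hle' : ∀ s s' : I, s ≤ s' → dist s s' ≤ θ₁ / (2 * (T + 2) ^ 2) →
        dist (g i s) (g i s') ≤ r := by
      intro s s' hss hd
      change dist (e i (min s (s₁ i))) (e i (min s' (s₁ i))) ≤ r
      have hd' : (s' : ℝ) - s ≤ θ₁ / (2 * (T + 2) ^ 2) := by
        rw [Subtype.dist_eq, dist_comm, Real.dist_eq] at hd
        exact (le_abs_self _).trans hd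
      have hs0 : (s : ℝ) ≤ s' := hss
      refine hle _ _ (min_le_min hss le_rfl) ?_ ?_
      · refine le_trans ?_ hd'
        rcases le_total s' (s₁ i) with c1 | c1
        · rw [min_eq_left c1, min_eq_left (hss.trans c1)]
        · rcases le_total s (s₁ i) with c2 | c2
          · rw [min_eq_right c1, min_eq_left c2]
            have : ((s₁ i : I) : ℝ) ≤ s' := c1
            linarith
          · rw [min_eq_right c1, min_eq_right c2]
            linarith
      · rw [← h3]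
        exact Subtype.coe_le_coe.2 (min_le_right _ _)
    intro s s' hd
    rcases le_total s s' with hss | hss
    · exact hle' s s' hss hd
    · rw [dist_comm]
      exact hle' s' s hss (by rwa [dist_comm])
  obtain ⟨e', k, hk, hlim⟩ := exists_subseq hK (e := g) (fun i s => heK i _) hequi
  have hkt := hk.tendsto_atTop
  -- error levels
  obtain ⟨Kd, hKd, hKd2⟩ := exists_diag (p := fun l i => PathData D φ a b (1 / ((l : ℝ) + 1)) T (θ i)
    (p i) (n i) (f i) (J i) (Tx i) (t i) (V i) (μ i) (G i) (Z i) (B i) ∧ θ i ≤ 1 / ((l : ℝ) + 1))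
    (fun l => (hP _ (by positivity)).and (hθ.eventually_le_const (by positivity)))
  set ε : ℕ → ℝ := fun i => 1 / ((Kd i : ℝ) + 1) with hε
  have hε0 : ∀ i, 0 < ε i := fun i => by simp only [hε]; positivity
  have hεl : Tendsto ε atTop (𝓝 0) := tendsto_one_div_add_atTop_nhds_zero_nat.comp hKd
  -- the chains live longer than `T`
  obtain ⟨Bd, hBd⟩ : ∃ Bd : ℝ, ∀ u ∈ Icc 0 T, |drv f' u| ≤ Bd := by
    obtain ⟨ρ, hρ⟩ := (isCompact_Icc.image_of_continuousOn
      (drv_cont f').continuousOn (s := Icc 0 T)).isBounded.exists_norm_le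
    exact ⟨ρ, fun u hu => hρ _ ⟨u, hu, rfl⟩⟩
  have hlife : ∀ᶠ i in atTop, T < t i (J i) := by
    obtain ⟨ε₀, hε₀, c1, c2, c3⟩ : ∃ ε₀ > 0, 2 * ε₀ < r' ∧ T < ε₀⁻¹ ∧ Bd + 1 + ε₀ < ε₀⁻¹ := by
      have hBd0 : 0 ≤ Bd := (abs_nonneg _).trans (hBd 0 ⟨le_rfl, hT0⟩)
      set M : ℝ := T + Bd + 3 with hM
      have hM0 : 0 < M := by positivity
      refine ⟨min (r' / 3) M⁻¹, by positivity, ?_, ?_, ?_⟩
      · have := min_le_left (r' / 3) M⁻¹
        linarith
      · have h1 : M ≤ (min (r' / 3) M⁻¹)⁻¹ := by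
          rw [← inv_inv M]
          exact inv_anti₀ (by positivity) (by rw [inv_inv]; exact min_le_right _ _)
        linarith
      · have h1 : M ≤ (min (r' / 3) M⁻¹)⁻¹ := by
          rw [← inv_inv M]
          exact inv_anti₀ (by positivity) (by rw [inv_inv]; exact min_le_right _ _)
        have h2 : M⁻¹ ≤ 1 := inv_le_one_of_one_le₀ (by linarith)
        have h3 := min_le_right (r' / 3) M⁻¹
        linarith
    filter_upwards [hP ε₀ hε₀, hearly, hθ0, drv_lim hf T one_pos] with i H h1 h2 h3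
    by_contra! hcon
    have htJ0 := H.t_nonneg (le_refl (J i))
    rcases H.fin with h4 | h4 | h4
    · linarith
    · have h5 := H.drive (J i) le_rfl hcon (t i (J i)) htJ0 (by rw [sub_self, abs_zero]; exact h2)
      have h6 := h3 (t i (J i)) ⟨htJ0, hcon⟩
      have h7 := hBd (t i (J i)) ⟨htJ0, hcon⟩
      have h8 := abs_add_three (V i (J i) - drv (f i) (t i (J i)))
        (drv (f i) (t i (J i)) - drv f' (t i (J i))) (drv f' (t i (J i)))
      rw [sub_add_sub_cancel, sub_add_cancel] at h8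
      linarith
    · have h5 := H.tip (J i) le_rfl
      have h6 := h1 (J i) le_rfl hcon
      have h7 := dist_triangle_left (p i (Tx i (J i))) b (B i (J i))
      linarith
  have hnear : ∀ᶠ i in atTop, NearT D φ (ε i) T (g i) (f i) (J i) (t i) (t' i) (V i) (μ i) (G i)
      (Z i) (B i) := by
    filter_upwards [hKd2, hE, hlife, hs₁c] with i H E h1 h2
    exact H.1.nearT E (hε0 i) H.2 h1 (hj₁J i) (hmax i) h2
  -- the limit curve
  have hne : D.Nonempty := by
    rw [← h.image]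
    exact ⟨φ Complex.I, Complex.I, by change (0:ℝ) < Complex.I.im; simp, rfl⟩
  have hclD : ∀ s : I, e' s ∈ closure D := by
    intro s
    have h1 : Tendsto (fun i => g (k i) s) atTop (𝓝 (e' s)) :=
      ((continuous_eval_const s).tendsto e').comp hlim
    have h2 : Tendsto (fun i => infDist (g (k i) s) D) atTop (𝓝 (infDist (e' s) D)) :=
      ((continuous_infDist_pt D).tendsto _).comp h1
    have h3 : infDist (e' s) D ≤ 0 := by
      have h4 : Tendsto (fun i => 2 * ε (k i)) atTop (𝓝 0) := by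
        have := (hεl.comp hkt).const_mul 2
        rwa [mul_zero] at this
      refine le_of_tendsto_of_tendsto h2 h4 ?_
      filter_upwards [hkt.eventually hKd2, hkt.eventually hE] with i H E
      exact H.1.range' E (hε0 _) _
    exact (mem_closure_iff_infDist_zero hne).2 (le_antisymm h3 infDist_nonneg)
  have hfar : ∀ s : I, r' ≤ dist (e' s) b := by
    intro s
    have h1 : Tendsto (fun i => g (k i) s) atTop (𝓝 (e' s)) :=
      ((continuous_eval_const s).tendsto e').comp hlim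
    have h2 : Tendsto (fun i => dist (g (k i) s) b) atTop (𝓝 (dist (e' s) b)) :=
      h1.dist tendsto_const_nhds
    have h4 : Tendsto (fun i => r' - 4 * ε (k i)) atTop (𝓝 r') := by
      have := ((hεl.comp hkt).const_mul 4).const_sub r'
      rwa [mul_zero, sub_zero] at this
    refine le_of_tendsto_of_tendsto h4 h2 ?_
    filter_upwards [hkt.eventually hKd2, hkt.eventually hE, hkt.eventually hearly,
      hkt.eventually hj₁T, hkt.eventually hs₁c] with i H E h5 h6 h7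
    have hεi := hε0 (k i)
    have hfirst : ∀ l ≤ Tx (k i) 0, dist (p (k i) l) (p (k i) 0) ≤ 2 * ε (k i) := by
      intro l hl
      have a1 : dist (p (k i) l) a ≤ ε (k i) := H.1.first l hl
      have a2 : dist (p (k i) 0) a ≤ ε (k i) := H.1.first 0 (Nat.zero_le _)
      have a3 := dist_triangle_right (p (k i) l) (p (k i) 0) a
      linarith
    have hstep : ∀ j < j₁ (k i), ∀ l, Tx (k i) j ≤ l → l ≤ Tx (k i) (j + 1) →
        dist (p (k i) l) (p (k i) (Tx (k i) j)) ≤ 2 * ε (k i) := by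
      intro j hj l hl hl'
      have a1 : dist (p (k i) l) (p (k i) (Tx (k i) j)) ≤ ε (k i) :=
        H.1.step j (hj.trans_le (hj₁J _)) l hl hl'
      linarith
    obtain ⟨l, hl, hl2⟩ := E.near_tip (by positivity) (hj₁J _) hfirst hstep (min s (s₁ (k i)))
      (by rw [← h7]; exact Subtype.coe_le_coe.2 (min_le_right _ _))
    have h8 := h5 l (hl.trans (hj₁J _)) ((H.1.t_mono hl (hj₁J _)).trans h6)
    have h9 := dist_triangle_left (p (k i) (Tx (k i) l)) b (e (k i) (min s (s₁ (k i))))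
    change r' - 4 * ε (k i) ≤ dist (e (k i) (min s (s₁ (k i)))) b
    linarith
  have hmem : ∀ u ∈ Icc 0 T, cap e' u ∈ φ '' cHH := by
    intro u _
    have h1 : cap e' u ∈ insert b (φ '' cHH) := closure_sub h (hclD _)
    refine h1.resolve_left fun h2 => ?_
    have h3 : r' ≤ dist (cap e' u) b := hfar _
    rw [h2, dist_self] at h3
    linarith
  have hcore := limT_core (F := atTop) (ε := fun i => ε (k i)) (e := fun i => g (k i))
    (f := fun i => f (k i)) h (hεl.comp hkt) hlim (Eventually.of_forall fun i => hε0 _)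
    (hf.comp hkt) (T := T) ((hkt.eventually hnear).mono fun i hi => ⟨_, _, _, _, _, _, _, _, hi⟩)
    hT0 hmem
  have hβ : ContinuousOn (fun u => psi φ (cap e' u)) (Icc 0 T) :=
    (psi_cont h).comp ((cap_cont e').mono Icc_subset_Ici_self) hmem
  have hbd : ∀ u ∈ Icc 0 T, ‖psi φ (cap e' u)‖ ≤ R := by
    intro u hu
    by_contra! hcon
    have h1 := hR _ (psi_mem (hmem u hu)) hcon
    rw [psi_right (hmem u hu)] at h1
    have h2 : r' ≤ dist (cap e' u) b := hfar _
    linarith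
  have := cap_bound (drv_cont f').continuousOn hT0 hβ hbd (hcore T ⟨hT0, le_rfl⟩)
  linarith

end noearly

end Pool.Agent.H96.M7
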